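import Pool.Agent.H912.AE.Crt
import Pool.Graph.R_seed8.Helper601.Mertens

/-!
# Moments of `d / φ(d)` (helper912)
-/

set_option autoImplicit false

open Finset

namespace Pool.Agent.H912.AE

lemma sum_inv_sq (n : ℕ) : ∑ j ∈ Icc 1 n, 1 / ((j : ℝ)) ^ 2 ≤ 2 := by
  have h : ∀ n : ℕ, ∑ j ∈ Icc 1 (n + 1), 1 / ((j : ℝ)) ^ 2 ≤ 2 - 1 / ((n : ℝ) + 1) := by
    intro n
    induction n with
    | zero => norm_num
    | succ n ih =>
      rw [sum_Icc_succ_top (by omega)]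
      have h1 : (0 : ℝ) < (n : ℝ) + 1 := by positivity
      have h2 : (0 : ℝ) < (n : ℝ) + 1 + 1 := by positivity
      have h3 : 1 / (((n + 1 + 1 : ℕ) : ℝ)) ^ 2 ≤ 1 / ((n : ℝ) + 1) - 1 / ((n : ℝ) + 1 + 1) := by
        push_cast
        rw [div_sub_div _ _ h1.ne' h2.ne', div_le_div_iff₀ (by positivity) (by positivity)]
        nlinarith
      push_cast at h3 ⊢
      linarith
  rcases n with _ | n
  · simp
  · refine (h n).trans ?_
    have : (0 : ℝ) ≤ 1 / ((n : ℝ) + 1) := by positivity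
    linarith

lemma one_sub_sum_le_prod (S : Finset ℕ) (f : ℕ → ℝ) (h0 : ∀ p ∈ S, 0 ≤ f p)
    (h1 : ∀ p ∈ S, f p ≤ 1) : 1 - ∑ p ∈ S, f p ≤ ∏ p ∈ S, (1 - f p) := by
  classical
  induction S using Finset.induction_on with
  | empty => simp
  | insert q S hq ih =>
    rw [sum_insert hq, prod_insert hq]
    have h2 := ih (fun p hp => h0 p (mem_insert_of_mem hp)) fun p hp => h1 p (mem_insert_of_mem hp)
    have h3 : ∏ p ∈ S, (1 - f p) ≤ 1 := prod_le_one
      (fun p hp => sub_nonneg.2 (h1 p (mem_insert_of_mem hp)))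
      fun p hp => sub_le_self _ (h0 p (mem_insert_of_mem hp))
    have h4 := h0 q (mem_insert_self _ _)
    nlinarith

/-- the number of good residues modulo the product of the primes up to `w` -/
lemma prod_cp (w : ℕ) : (Pw w : ℝ) * Vw w ^ 2 / 2 ≤ ((∏ p ∈ Sw w, cp p : ℕ) : ℝ) := by
  set g : ℕ → ℝ := fun p => if p = 2 then 0 else 1 / ((p : ℝ) - 1) ^ 2 with hg
  have hcp : ∀ p ∈ Sw w, (p : ℝ) * (1 - 1 / (p : ℝ)) ^ 2 * (1 - g p) ≤ cp p := by
    intro p hp
    have hp' := (mem_Sw.1 hp).2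
    simp only [hg, cp]
    split_ifs with h2
    · subst h2
      norm_num
    · have h3 : 3 ≤ p := by
        have := hp'.two_le
        omega
      have h4 : (3 : ℝ) ≤ p := by exact_mod_cast h3
      have h5 : (p : ℝ) - 1 ≠ 0 := by linarith
      have h6 : (p : ℝ) ≠ 0 := by linarith
      rw [Nat.cast_sub (by omega)]
      apply le_of_eq
      field_simp
      push_cast
      ring
  have hg0 : ∀ p ∈ Sw w, 0 ≤ g p := by
    intro p _
    simp only [hg]
    split_ifs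
    · exact le_rfl
    · positivity
  have hg1 : ∀ p ∈ Sw w, g p ≤ 1 := by
    intro p hp
    have hp' := (mem_Sw.1 hp).2
    simp only [hg]
    split_ifs with h2
    · exact zero_le_one
    · have h3 : 3 ≤ p := by
        have := hp'.two_le
        omega
      have h4 : (3 : ℝ) ≤ p := by exact_mod_cast h3
      rw [div_le_one (by nlinarith)]
      nlinarith
  have hsum : ∑ p ∈ Sw w, g p ≤ 1 / 2 := by
    have h1 : ∑ p ∈ Sw w, g p = ∑ p ∈ (Sw w).filter (fun p => p ≠ 2), 1 / ((p : ℝ) - 1) ^ 2 := by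
      rw [sum_filter]
      refine sum_congr rfl fun p _ => ?_
      simp only [hg]
      by_cases h2 : p = 2
      · simp [h2]
      · simp [h2]
    rw [h1]
    have h2 : ∀ p ∈ (Sw w).filter (fun p => p ≠ 2), 1 / ((p : ℝ) - 1) ^ 2 =
        (fun j : ℕ => 1 / 4 * (1 / (j : ℝ) ^ 2)) ((p - 1) / 2) := by
      intro p hp
      rw [mem_filter, mem_Sw] at hp
      obtain ⟨j, hj⟩ := hp.1.2.odd_of_ne_two hp.2
      have h3 : (p - 1) / 2 = j := by omega
      have h4 : 1 ≤ j := by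
        have := hp.1.2.two_le
        omega
      have h5 : (0 : ℝ) < j := by exact_mod_cast h4
      simp only [h3]
      rw [hj]
      push_cast
      field_simp
      ring
    rw [sum_congr rfl h2, ← sum_image (f := fun j : ℕ => 1 / 4 * (1 / (j : ℝ) ^ 2))]
    · have h3 : ((Sw w).filter (fun p => p ≠ 2)).image (fun p => (p - 1) / 2) ⊆ Icc 1 w := by
        intro j hj
        rw [mem_image] at hj
        obtain ⟨p, hp, rfl⟩ := hj
        rw [mem_filter, mem_Sw] at hp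
        obtain ⟨j, hj⟩ := hp.1.2.odd_of_ne_two hp.2
        have := hp.1.2.two_le
        rw [mem_Icc]
        omega
      refine (sum_le_sum_of_subset_of_nonneg h3 fun _ _ _ => by positivity).trans ?_
      rw [← mul_sum]
      have := sum_inv_sq w
      linarith
    · intro p hp q hq h
      rw [coe_filter, Set.mem_ofPred_eq, mem_Sw] at hp hq
      obtain ⟨j, hj⟩ := hp.1.2.odd_of_ne_two hp.2
      obtain ⟨i, hi⟩ := hq.1.2.odd_of_ne_two hq.2
      simp only at h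
      omega
  have h1 := one_sub_sum_le_prod (Sw w) g hg0 hg1
  have h2 : ∏ p ∈ Sw w, ((p : ℝ) * (1 - 1 / (p : ℝ)) ^ 2 * (1 - g p)) ≤ ∏ p ∈ Sw w, (cp p : ℝ) := by
    refine prod_le_prod (fun p hp => ?_) hcp
    exact mul_nonneg (by positivity) (sub_nonneg.2 (hg1 p hp))
  rw [prod_mul_distrib, prod_mul_distrib, prod_pow] at h2
  rw [Nat.cast_prod]
  refine le_trans ?_ h2
  have h3 : (0 : ℝ) ≤ (Pw w : ℝ) * Vw w ^ 2 := by positivity
  have h4 : (∏ p ∈ Sw w, (p : ℝ)) = (Pw w : ℝ) := by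
    rw [Pw, Nat.cast_prod]
  rw [h4]
  change _ ≤ (Pw w : ℝ) * Vw w ^ 2 * _
  nlinarith

/-- the integers up to `N` which are prime to `P` -/
lemma card_coprime_le (P N : ℕ) (hP : 0 < P) :
    (((Icc 1 N).filter (fun n => n.Coprime P)).card : ℝ) ≤
      ((N : ℝ) / P + 1) * Nat.totient P := by
  have h1 : (Icc 1 N).filter (fun n => n.Coprime P) ⊆
      (Ico 0 ((N / P + 1) * P)).filter (fun n => P.Coprime n) := by
    intro n hn
    rw [mem_filter, mem_Icc] at hn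
    rw [mem_filter, mem_Ico]
    refine ⟨⟨Nat.zero_le _, ?_⟩, hn.2.symm⟩
    have := Nat.lt_div_mul_add hP (a := N)
    nlinarith
  have h2 : ∀ j : ℕ, ((Ico 0 (j * P)).filter (fun n => P.Coprime n)).card = j * P.totient := by
    intro j
    induction j with
    | zero => simp
    | succ j ih =>
      have h3 : Ico 0 ((j + 1) * P) = Ico 0 (j * P) ∪ Ico (j * P) (j * P + P) := by
        rw [Ico_union_Ico_eq_Ico (Nat.zero_le _) (Nat.le_add_right _ _)]
        congr 1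
        ring
      rw [h3, filter_union, card_union_of_disjoint, ih, Nat.filter_coprime_Ico_eq_totient]
      · ring
      · exact disjoint_filter_filter (Ico_disjoint_Ico_consecutive 0 (j * P) (j * P + P))
  have h3 := card_le_card h1
  rw [h2] at h3
  have h4 : (((Icc 1 N).filter (fun n => n.Coprime P)).card : ℝ) ≤ ((N / P + 1 : ℕ) : ℝ) *
      Nat.totient P := by exact_mod_cast h3
  refine h4.trans (mul_le_mul_of_nonneg_right ?_ (by positivity))
  push_cast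
  have := Nat.cast_div_le (α := ℝ) (m := N) (n := P)
  linarith

/-- the second moment of `d / φ(d)` -/
theorem moment : ∃ C : ℝ, 0 < C ∧ ∀ w : ℕ, ∃ N₀ : ℕ, ∀ N : ℕ, N₀ ≤ N →
    ∑ d ∈ (Icc 1 N).filter (fun d => d.Coprime (Pw w)), ((d : ℝ) / (Nat.totient d : ℝ)) ^ 2 ≤
      C * Vw w * N := by
  have hs : Summable (fun d : ℕ => (d : ℝ) ^ (-(3 / 2) : ℝ)) :=
    Real.summable_nat_rpow.2 (by norm_num)
  set Z : ℝ := ∑' d : ℕ, (d : ℝ) ^ (-(3 / 2) : ℝ) with hZ
  have hZ0 : 0 ≤ Z := tsum_nonneg fun d => by positivity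
  refine ⟨64 ^ 64 * (Z + 2), by positivity, fun w => ⟨Pw w ^ 2, fun N hN => ?_⟩⟩
  set P := Pw w with hP
  have hP0 : 0 < P := Pw_pos w
  have hP1 : (0 : ℝ) < P := by exact_mod_cast hP0
  have hN1 : 1 ≤ N := le_trans (Nat.one_le_iff_ne_zero.2 (by positivity)) hN
  have hN0 : (0 : ℝ) < N := by exact_mod_cast hN1
  have hsq : (P : ℝ) ≤ Real.sqrt N := by
    apply Real.le_sqrt_of_sq_le
    exact_mod_cast hN
  have h1 : ∀ d ∈ (Icc 1 N).filter (fun d => d.Coprime P),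
      ((d : ℝ) / (Nat.totient d : ℝ)) ^ 2 ≤ 64 ^ 64 * ∑ e ∈ d.divisors, (e : ℝ) ^ (-(1 / 2) : ℝ) := by
    intro d hd
    rw [mem_filter, mem_Icc] at hd
    refine le_trans ?_ (Pool.Agent.Helper601.Mertens.totRatio_le d hd.1.1)
    refine pow_le_pow_right₀ ?_ (by norm_num)
    rw [one_le_div (by exact_mod_cast Nat.totient_pos.2 hd.1.1)]
    exact_mod_cast Nat.totient_le d
  refine (sum_le_sum h1).trans ?_
  rw [← mul_sum]
  have h2 : ∑ d ∈ (Icc 1 N).filter (fun d => d.Coprime P), ∑ e ∈ d.divisors,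
      (e : ℝ) ^ (-(1 / 2) : ℝ) ≤ ∑ e ∈ Icc 1 N, ∑ d ∈ (Icc 1 (N / e)).filter
        (fun d => d.Coprime P), (e : ℝ) ^ (-(1 / 2) : ℝ) := by
    rw [sum_sigma', sum_sigma']
    have hinj : Set.InjOn (fun x : (_ : ℕ) × ℕ => (⟨x.2, x.1 / x.2⟩ : (_ : ℕ) × ℕ))
        (((Icc 1 N).filter (fun d => d.Coprime P)).sigma fun d => d.divisors :
          Finset ((_ : ℕ) × ℕ)) := by
      rintro ⟨x1, x2⟩ hx ⟨y1, y2⟩ hy h
      simp only [mem_coe, mem_sigma, mem_filter, mem_Icc, Nat.mem_divisors] at hx hy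
      simp only [Sigma.mk.injEq, heq_eq_eq] at h
      obtain ⟨h5, h6⟩ := h
      subst h5
      have : x1 = y1 := by
        rw [← Nat.div_mul_cancel hx.2.1, ← Nat.div_mul_cancel hy.2.1, h6]
      subst this
      rfl
    rw [← sum_image (f := fun y : (_ : ℕ) × ℕ => (y.1 : ℝ) ^ (-(1 / 2) : ℝ)) hinj]
    refine sum_le_sum_of_subset_of_nonneg ?_ fun _ _ _ => by positivity
    intro y hy
    rw [mem_image] at hy
    obtain ⟨x, hx, rfl⟩ := hy
    simp only [mem_sigma, mem_filter, mem_Icc, Nat.mem_divisors] at hx ⊢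
    obtain ⟨⟨⟨a1, a2⟩, a3⟩, a4, a5⟩ := hx
    have a6 : 0 < x.2 := Nat.pos_of_dvd_of_pos a4 a1
    refine ⟨⟨a6, (Nat.le_of_dvd a1 a4).trans a2⟩, ⟨⟨?_, Nat.div_le_div_right a2⟩, ?_⟩⟩
    · exact Nat.div_pos (Nat.le_of_dvd a1 a4) a6
    · exact Nat.Coprime.coprime_dvd_left (Nat.div_dvd_of_dvd a4) a3
  refine (mul_le_mul_of_nonneg_left h2 (by positivity)).trans ?_
  have h3 : ∀ e ∈ Icc 1 N, ∑ d ∈ (Icc 1 (N / e)).filter (fun d => d.Coprime P),
      (e : ℝ) ^ (-(1 / 2) : ℝ) ≤ (e : ℝ) ^ (-(3 / 2) : ℝ) * (N * Vw w) +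
        (e : ℝ) ^ (-(1 / 2) : ℝ) * (P * Vw w) := by
    intro e he
    rw [mem_Icc] at he
    have he0 : (0 : ℝ) < e := by exact_mod_cast he.1
    rw [sum_const, nsmul_eq_mul]
    have h4 := card_coprime_le P (N / e) hP0
    rw [totient_Pw] at h4
    have h5 : ((N / e : ℕ) : ℝ) ≤ N / e := Nat.cast_div_le
    have h6 : (e : ℝ) ^ (-(3 / 2) : ℝ) = (e : ℝ) ^ (-(1 / 2) : ℝ) / e := by
      rw [← Real.rpow_sub_one he0.ne']; norm_num
    have hV := Vw_pos w
    rw [h6]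
    have h7 : (((Icc 1 (N / e)).filter (fun d => d.Coprime P)).card : ℝ) ≤
        (N : ℝ) * Vw w / e + P * Vw w := by
      refine h4.trans ?_
      calc (((N / e : ℕ) : ℝ) / P + 1) * (P * Vw w) ≤ ((N / e : ℝ) / P + 1) * (P * Vw w) := by
            gcongr
        _ = (N : ℝ) * Vw w / e + P * Vw w := by
            field_simp
    calc (((Icc 1 (N / e)).filter (fun d => d.Coprime P)).card : ℝ) * (e : ℝ) ^ (-(1 / 2) : ℝ)
        ≤ ((N : ℝ) * Vw w / e + P * Vw w) * (e : ℝ) ^ (-(1 / 2) : ℝ) := by gcongr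
      _ = _ := by ring
  have h4 := sum_le_sum h3
  rw [sum_add_distrib, ← sum_mul, ← sum_mul] at h4
  have h5 : ∑ e ∈ Icc 1 N, (e : ℝ) ^ (-(3 / 2) : ℝ) ≤ Z := hs.sum_le_tsum _ fun d _ => by positivity
  have h6 : ∑ e ∈ Icc 1 N, (e : ℝ) ^ (-(1 / 2) : ℝ) ≤ 2 * Real.sqrt N := by
    have h7 : ∀ n : ℕ, ∑ e ∈ Icc 1 n, (e : ℝ) ^ (-(1 / 2) : ℝ) ≤ 2 * Real.sqrt n := by
      intro n
      induction n with
      | zero => simp
      | succ n ih =>
        rw [sum_Icc_succ_top (by omega)]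
        have h8 : ((n + 1 : ℕ) : ℝ) ^ (-(1 / 2) : ℝ) = 1 / Real.sqrt (n + 1 : ℕ) := by
          rw [Real.rpow_neg (by positivity), Real.sqrt_eq_rpow, one_div ((_ : ℝ) ^ _)]
        rw [h8]
        have h9 : (0 : ℝ) < Real.sqrt (n + 1 : ℕ) := Real.sqrt_pos.2 (by positivity)
        have h10 : 1 / Real.sqrt (n + 1 : ℕ) ≤
            2 * (Real.sqrt (n + 1 : ℕ) - Real.sqrt n) := by
          rw [div_le_iff₀ h9]
          have h11 : Real.sqrt (n + 1 : ℕ) ^ 2 = n + 1 := by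
            rw [Real.sq_sqrt (by positivity)]; push_cast; ring
          have h12 : Real.sqrt n ^ 2 = n := Real.sq_sqrt (by positivity)
          nlinarith [sq_nonneg (Real.sqrt (n + 1 : ℕ) - Real.sqrt n)]
        linarith
    exact h7 N
  have hV := Vw_pos w
  have h7 : (∑ e ∈ Icc 1 N, (e : ℝ) ^ (-(1 / 2) : ℝ)) * (P * Vw w) ≤ 2 * N * Vw w := by
    calc (∑ e ∈ Icc 1 N, (e : ℝ) ^ (-(1 / 2) : ℝ)) * (P * Vw w) ≤
        (2 * Real.sqrt N) * (Real.sqrt N * Vw w) := by gcongr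
      _ = 2 * (Real.sqrt N) ^ 2 * Vw w := by ring
      _ = 2 * N * Vw w := by rw [Real.sq_sqrt hN0.le]
  have h8 : (∑ e ∈ Icc 1 N, (e : ℝ) ^ (-(3 / 2) : ℝ)) * (N * Vw w) ≤ Z * (N * Vw w) := by
    gcongr
  calc (64 : ℝ) ^ 64 * ∑ e ∈ Icc 1 N, ∑ d ∈ (Icc 1 (N / e)).filter (fun d => d.Coprime P),
        (e : ℝ) ^ (-(1 / 2) : ℝ) ≤ 64 ^ 64 * (Z * (N * Vw w) + 2 * N * Vw w) := by
        gcongr
        linarith
    _ = _ := by ring

end Pool.Agent.H912.AE
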