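import Pool.Agent.H912.AE.Fm
import Pool.Agent.H912.AE.Mom
import Pool.Graph.R_seed8.Helper602.MK.J3

/-!
# The second moment (helper912)
-/

set_option autoImplicit false

open Finset Filter Topology

namespace Pool.Agent.H912.AE

/-- the good multipliers for `d` -/
def Nk (u T K : ℕ) (bad : ℕ → Finset ℕ) (d : ℕ) : Finset ℕ :=
  (Kk T K).filter (fun k => (u * k * d + 1).Prime ∧ u * k * d + 1 ∉ bad k)

/-- `d` is good: some `u k d + 1` is a prime which is not bad for `k` -/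
def Good (u T : ℕ) (bad : ℕ → Finset ℕ) (d : ℕ) : Prop :=
  ∃ k, Squarefree k ∧ k ≡ 1 [MOD Pw T] ∧ (u * k * d + 1).Prime ∧ u * k * d + 1 ∉ bad k

open Classical in
/-- the good `d` in `(Y, 2 Y]` -/
noncomputable def Gg (u T : ℕ) (bad : ℕ → Finset ℕ) (w Y : ℕ) : Finset ℕ :=
  (Ioc Y (2 * Y)).filter (fun d => d.Coprime (Pw w) ∧ Good u T bad d)

lemma sum_Nk (u T K : ℕ) (bad : ℕ → Finset ℕ) (w Y : ℕ) (hu0 : 0 < u) :
    ∑ k ∈ Kk T K, ((Dd w (u * k) Y).card : ℝ) - ∑ k ∈ Kk T K, ((bad k).card : ℝ) ≤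
      ∑ d ∈ (Ioc Y (2 * Y)).filter (fun d => d.Coprime (Pw w)), ((Nk u T K bad d).card : ℝ) := by
  classical
  have h1 : ∑ d ∈ (Ioc Y (2 * Y)).filter (fun d => d.Coprime (Pw w)), (Nk u T K bad d).card =
      ∑ k ∈ Kk T K, (((Ioc Y (2 * Y)).filter (fun d => d.Coprime (Pw w))).filter
        (fun d => (u * k * d + 1).Prime ∧ u * k * d + 1 ∉ bad k)).card := by
    simp only [Nk, card_filter]
    exact sum_comm
  have h2 : ∀ k ∈ Kk T K, (Dd w (u * k) Y).card ≤
      (((Ioc Y (2 * Y)).filter (fun d => d.Coprime (Pw w))).filter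
        (fun d => (u * k * d + 1).Prime ∧ u * k * d + 1 ∉ bad k)).card + (bad k).card := by
    intro k hk
    rw [Kk, mem_filter, mem_Icc] at hk
    have h3 : (Dd w (u * k) Y) ⊆ (((Ioc Y (2 * Y)).filter (fun d => d.Coprime (Pw w))).filter
        (fun d => (u * k * d + 1).Prime ∧ u * k * d + 1 ∉ bad k)) ∪
        (Dd w (u * k) Y).filter (fun d => u * k * d + 1 ∈ bad k) := by
      intro d hd
      by_cases h4 : u * k * d + 1 ∈ bad k
      · exact mem_union_right _ (mem_filter.2 ⟨hd, h4⟩)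
      · refine mem_union_left _ ?_
        rw [Dd, mem_filter] at hd
        exact mem_filter.2 ⟨mem_filter.2 ⟨hd.1, hd.2.1⟩, hd.2.2, h4⟩
    have h4 : ((Dd w (u * k) Y).filter (fun d => u * k * d + 1 ∈ bad k)).card ≤ (bad k).card := by
      refine card_le_card_of_injOn (fun d => u * k * d + 1) ?_ ?_
      · intro d hd
        rw [mem_coe, mem_filter] at hd
        exact hd.2
      · intro d _ d' _ h
        simp only at h
        have h5 : u * k * d = u * k * d' := by omega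
        have : 0 < k := hk.1.1
        exact Nat.eq_of_mul_eq_mul_left (by positivity) h5
    exact (card_le_card h3).trans ((card_union_le _ _).trans (Nat.add_le_add_left h4 _))
  have h3 := sum_le_sum h2
  rw [sum_add_distrib, ← h1] at h3
  have h4 : ∑ k ∈ Kk T K, ((Dd w (u * k) Y).card : ℝ) ≤
      ∑ d ∈ (Ioc Y (2 * Y)).filter (fun d => d.Coprime (Pw w)), ((Nk u T K bad d).card : ℝ) +
      ∑ k ∈ Kk T K, ((bad k).card : ℝ) := by exact_mod_cast h3
  linarith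

lemma ratio_mul_le (u d : ℕ) (hu : 0 < u) (hd : 0 < d) :
    ((u * d : ℕ) : ℝ) / (Nat.totient (u * d) : ℝ) ≤
      (u / (Nat.totient u : ℝ)) * (d / (Nat.totient d : ℝ)) := by
  have h1 : (0 : ℝ) < Nat.totient u := by exact_mod_cast Nat.totient_pos.2 hu
  have h2 : (0 : ℝ) < Nat.totient d := by exact_mod_cast Nat.totient_pos.2 hd
  have h3 : (Nat.totient u : ℝ) * Nat.totient d ≤ Nat.totient (u * d) := by
    exact_mod_cast Nat.totient_super_multiplicative u d
  rw [div_mul_div_comm]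
  push_cast
  gcongr

lemma card_Nk_le {C : ℝ} (hC : ∀ (a q N : ℕ), 1 ≤ q → 2 ≤ N →
    (((Finset.range N).filter (fun k => (a + k * q).Prime)).card : ℝ) ≤
      C * ((q : ℝ) / (Nat.totient q : ℝ)) * N / Real.log N) (hC1 : 1 ≤ C)
    (u T K : ℕ) (bad : ℕ → Finset ℕ) (d : ℕ) (hu : 0 < u) (hd : 0 < d) (hK : 1 ≤ K) :
    ((Nk u T K bad d).card : ℝ) ≤
      C * ((u / (Nat.totient u : ℝ)) * (d / (Nat.totient d : ℝ))) * (K + 1) / Real.log (K + 1) := by
  have h1 : Nk u T K bad d ⊆ (range (K + 1)).filter (fun k => (1 + k * (u * d)).Prime) := by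
    intro k hk
    rw [Nk, Kk, mem_filter, mem_filter, mem_Icc] at hk
    rw [mem_filter, mem_range]
    refine ⟨by omega, ?_⟩
    have : 1 + k * (u * d) = u * k * d + 1 := by ring
    rw [this]
    exact hk.2.1
  have h2 := hC 1 (u * d) (K + 1) (Nat.mul_pos hu hd) (by omega)
  have h3 : ((Nk u T K bad d).card : ℝ) ≤
      ((range (K + 1)).filter (fun k => (1 + k * (u * d)).Prime)).card := by
    exact_mod_cast card_le_card h1
  refine h3.trans (h2.trans ?_)
  have h4 : (0 : ℝ) < Real.log (K + 1) := Real.log_pos (by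
    have : (1 : ℝ) ≤ K := by exact_mod_cast hK
    linarith)
  have h5 := ratio_mul_le u d hu hd
  push_cast at h5 ⊢
  gcongr

lemma i4_aux {u K P y L q S M : ℝ} (hu : 0 < u) (hK : 0 < K) (hP : 0 < P) (hL : 0 < L)
    (hq : 0 < q) (hy : 0 < y) (i3 : S ≤ 3 * u * (y / q)) (i2 : M ≤ 4 * L ^ 2) (hM : 0 ≤ M) :
    u * K * P * S * M ≤ K * y / L * (4 * u * P * (3 * u) * (L ^ 3 / q)) := by
  have h1 : u * K * P * S ≤ u * K * P * (3 * u * (y / q)) :=
    mul_le_mul_of_nonneg_left i3 (by positivity)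
  have h2 : u * K * P * (3 * u * (y / q)) * M ≤ u * K * P * (3 * u * (y / q)) * (4 * L ^ 2) :=
    mul_le_mul_of_nonneg_left i2 (by positivity)
  refine (mul_le_mul_of_nonneg_right h1 hM).trans (h2.trans (le_of_eq ?_))
  field_simp

lemma fin_aux {P C B T1 T2 T3 t1 t2 t3 Q η : ℝ} (hP : 0 ≤ P) (hC : 0 ≤ C) (hQ : 0 ≤ Q)
    (i1 : T1 ≤ Q * t1) (i4 : T2 ≤ Q * t2) (i5 : T3 ≤ Q * (B * t3))
    (h3 : 2 * P * C * (t1 + t2) + B * t3 < η) :
    2 * P * (C * (T1 + T2)) + T3 ≤ Q * η := by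
  have h1 : C * (T1 + T2) ≤ C * (Q * t1 + Q * t2) :=
    mul_le_mul_of_nonneg_left (add_le_add i1 i4) hC
  have h2 : 2 * P * (C * (T1 + T2)) ≤ 2 * P * (C * (Q * t1 + Q * t2)) :=
    mul_le_mul_of_nonneg_left h1 (by positivity)
  have h4 : Q * (2 * P * C * (t1 + t2) + B * t3) ≤ Q * η := mul_le_mul_of_nonneg_left h3.le hQ
  have h5 : Q * (2 * P * C * (t1 + t2) + B * t3) = 2 * P * (C * (Q * t1 + Q * t2)) +
    Q * (B * t3) := by ring
  linarith

/-- the parameters of the argument -/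
lemma params (u : ℕ) (hu0 : 0 < u) (A : ℕ) (K₀ : ℕ) (P : ℝ) (hP : 1 ≤ P) (C Cb η : ℝ)
    (hC : 0 ≤ C) (hCb : 0 ≤ Cb) (hη : 0 < η) :
    ∀ᶠ Y : ℕ in atTop, ∃ K : ℕ, K₀ ≤ K ∧ 1 ≤ K ∧ 3 ≤ Y ∧
      (u : ℝ) * K * P ≤ Real.sqrt ((2 * u * K * Y + 1 : ℕ) : ℝ) ∧
      Real.log ((2 * u * K * Y + 1 : ℕ) : ℝ) ≤ 2 * Real.log Y ∧
      Real.log Y / (2 * (A + 3)) ≤ Real.log (K + 1) ∧
      2 * P * (C * (((2 * u * K * Y + 1 : ℕ) : ℝ) /
          Real.log ((2 * u * K * Y + 1 : ℕ) : ℝ) ^ (2 : ℝ) +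
        (u : ℝ) * K * P * Real.sqrt ((2 * u * K * Y + 1 : ℕ) : ℝ) *
          Real.log (Real.log ((2 * u * K * Y + 1 : ℕ) : ℝ)) ^ 2)) +
        K * (Cb * (K : ℝ) ^ A) ≤ η * K * Y / Real.log Y := by
  set δ : ℝ := 1 / (2 * ((A : ℝ) + 3)) with hδ
  have hA : (0 : ℝ) ≤ A := Nat.cast_nonneg A
  have hδ0 : 0 < δ := by positivity
  have hδ1 : δ ≤ 1 / 6 := by
    rw [hδ]
    apply one_div_le_one_div_of_le (by norm_num)
    linarith
  have hu1 : (1 : ℝ) ≤ u := by exact_mod_cast hu0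
  -- the limits
  have t1 : Tendsto (fun y : ℝ => y ^ δ) atTop atTop := tendsto_rpow_atTop hδ0
  have t2 : Tendsto (fun y : ℝ => y ^ (1 / 2 : ℝ)) atTop atTop := tendsto_rpow_atTop (by norm_num)
  have t3 : Tendsto (fun y : ℝ => Real.log y) atTop atTop := Real.tendsto_log_atTop
  have t4 : Tendsto (fun y : ℝ => Real.log y ^ (3 : ℝ) / y ^ (1 / 4 : ℝ)) atTop (𝓝 0) :=
    (isLittleO_log_rpow_rpow_atTop 3 (by norm_num)).tendsto_div_nhds_zero
  have t5 : Tendsto (fun y : ℝ => Real.log y ^ (1 : ℝ) / y ^ (1 / 2 : ℝ)) atTop (𝓝 0) :=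
    (isLittleO_log_rpow_rpow_atTop 1 (by norm_num)).tendsto_div_nhds_zero
  have t6 : Tendsto (fun y : ℝ => 2 * P * C * (3 * u * (Real.log y)⁻¹ + 4 * u * P * (3 * u) *
      (Real.log y ^ (3 : ℝ) / y ^ (1 / 4 : ℝ))) + Cb * (Real.log y ^ (1 : ℝ) / y ^ (1 / 2 : ℝ)))
      atTop (𝓝 0) := by
    have h1 : Tendsto (fun y : ℝ => (Real.log y)⁻¹) atTop (𝓝 0) := t3.inv_tendsto_atTop
    have h2 := (((h1.const_mul (3 * (u : ℝ))).add (t4.const_mul (4 * u * P * (3 * u)))).const_mul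
      (2 * P * C)).add (t5.const_mul Cb)
    simpa using h2
  have e1 := (tendsto_natCast_atTop_atTop (R := ℝ)).eventually (t1.eventually_ge_atTop (K₀ + 1 : ℝ))
  have e2 := (tendsto_natCast_atTop_atTop (R := ℝ)).eventually
    (t2.eventually_ge_atTop (3 * u * P ^ 2 : ℝ))
  have e3 := (tendsto_natCast_atTop_atTop (R := ℝ)).eventually (t6.eventually (gt_mem_nhds hη))
  have e4 := (tendsto_natCast_atTop_atTop (R := ℝ)).eventually (t1.eventually_ge_atTop (2 : ℝ))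
  filter_upwards [e1, e2, e3, e4, eventually_ge_atTop 3] with Y h1 h2 h3 h4 h5
  have hY3 : (3 : ℝ) ≤ Y := by exact_mod_cast h5
  have hY0 : (0 : ℝ) < Y := by linarith
  set y : ℝ := (Y : ℝ) with hy
  set K := ⌊y ^ δ⌋₊ with hK
  have hK1 : (K : ℝ) ≤ y ^ δ := Nat.floor_le (by positivity)
  have hK2 : y ^ δ < K + 1 := Nat.lt_floor_add_one _
  have hKpos : 1 ≤ K := by
    rw [hK]
    exact Nat.le_floor (by push_cast; linarith)
  have hK3 : (1 : ℝ) ≤ K := by exact_mod_cast hKpos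
  have hy16 : y ^ δ ≤ y ^ (1 / 6 : ℝ) := Real.rpow_le_rpow_of_exponent_le (by linarith) hδ1
  have hy12 : y ^ (1 / 6 : ℝ) ≤ y ^ (1 / 2 : ℝ) :=
    Real.rpow_le_rpow_of_exponent_le (by linarith) (by norm_num)
  have hsq : y ^ (1 / 2 : ℝ) * y ^ (1 / 2 : ℝ) = y := by
    rw [← Real.rpow_add hY0]
    norm_num
  have hyh0 : 0 < y ^ (1 / 2 : ℝ) := by positivity
  have hKh : (K : ℝ) ≤ y ^ (1 / 2 : ℝ) := by linarith
  have hP2 : (1 : ℝ) ≤ P ^ 2 := one_le_pow₀ hP
  have hX : ((2 * u * K * Y + 1 : ℕ) : ℝ) = 2 * u * K * y + 1 := by push_cast; ring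
  refine ⟨K, ?_⟩
  rw [hX]
  set x : ℝ := 2 * u * K * y + 1 with hx
  have huKy : y ≤ u * K * y := by
    have : 1 ≤ (u : ℝ) * K := by nlinarith
    nlinarith
  have hx1 : y ≤ x := by rw [hx]; linarith
  have hx2 : x ≤ 3 * u * K * y := by rw [hx]; linarith
  have hx3 : x ≤ y ^ 2 := by
    refine hx2.trans ?_
    have h6 : 3 * (u : ℝ) ≤ y ^ (1 / 2 : ℝ) := by
      refine le_trans ?_ h2
      nlinarith
    calc 3 * u * K * y ≤ y ^ (1 / 2 : ℝ) * y ^ (1 / 2 : ℝ) * y := by gcongr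
      _ = y ^ 2 := by rw [hsq]; ring
  have hx0 : 0 < x := by linarith
  have hlogy : 1 ≤ Real.log y := by
    rw [Real.le_log_iff_exp_le hY0]
    linarith [Real.exp_one_lt_d9]
  have hlogx : Real.log y ≤ Real.log x := Real.log_le_log hY0 hx1
  have hlogx2 : Real.log x ≤ 2 * Real.log y := by
    have := Real.log_le_log hx0 hx3
    rw [Real.log_pow] at this
    exact_mod_cast this
  refine ⟨?_, hKpos, h5, ?_, hlogx2, ?_, ?_⟩
  · rw [hK]
    exact Nat.le_floor (by linarith)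
  · apply Real.le_sqrt_of_sq_le
    have h6 : u * K * P ^ 2 ≤ y := by
      calc u * K * P ^ 2 = (u * P ^ 2) * K := by ring
        _ ≤ y ^ (1 / 2 : ℝ) * y ^ (1 / 2 : ℝ) := by
          have : (u : ℝ) * P ^ 2 ≤ y ^ (1 / 2 : ℝ) := by
            refine le_trans ?_ h2
            have : 0 ≤ (u : ℝ) * P ^ 2 := by positivity
            linarith
          gcongr
        _ = y := hsq
    calc (u * K * P) ^ 2 = (u * K) * (u * K * P ^ 2) := by ring
      _ ≤ (u * K) * y := by gcongr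
      _ ≤ x := by rw [hx]; linarith
  · have h6 : Real.log (y ^ δ) ≤ Real.log (K + 1) := Real.log_le_log (by positivity) hK2.le
    rw [Real.log_rpow hY0, hδ] at h6
    calc Real.log y / (2 * (A + 3)) = 1 / (2 * ((A : ℝ) + 3)) * Real.log y := by ring
      _ ≤ _ := h6
  · -- the error terms
    have hl0 : 0 < Real.log y := by linarith
    have i1 : x / Real.log x ^ (2 : ℝ) ≤ K * y / Real.log y * (3 * u * (Real.log y)⁻¹) := by
      have h6 : Real.log y ^ (2 : ℝ) ≤ Real.log x ^ (2 : ℝ) :=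
        Real.rpow_le_rpow hl0.le hlogx (by norm_num)
      calc x / Real.log x ^ (2 : ℝ) ≤ (3 * u * K * y) / Real.log y ^ (2 : ℝ) := by gcongr
        _ = _ := by
          rw [Real.rpow_two]
          field_simp
    have i2 : Real.log (Real.log x) ^ 2 ≤ 4 * Real.log y ^ 2 := by
      have h6 : 0 ≤ Real.log (Real.log x) := Real.log_nonneg (by linarith)
      have h7 : Real.log (Real.log x) ≤ Real.log x := by
        have := Real.log_le_sub_one_of_pos (x := Real.log x) (by linarith)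
        linarith
      nlinarith
    have i3 : Real.sqrt x ≤ 3 * u * (y / y ^ (1 / 4 : ℝ)) := by
      apply Real.sqrt_le_iff.2
      refine ⟨by positivity, ?_⟩
      have h6 : (y / y ^ (1 / 4 : ℝ)) = y ^ (3 / 4 : ℝ) := by
        rw [div_eq_iff (by positivity), ← Real.rpow_add hY0]
        norm_num
      have h7 : (y ^ (3 / 4 : ℝ)) ^ 2 = y * y ^ (1 / 2 : ℝ) := by
        rw [← Real.rpow_natCast, ← Real.rpow_mul hY0.le]
        nth_rewrite 2 [← Real.rpow_one y]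
        rw [← Real.rpow_add hY0]
        norm_num
      rw [h6, mul_pow, h7]
      calc x ≤ 3 * u * K * y := hx2
        _ ≤ (3 * u) * y ^ (1 / 2 : ℝ) * y := by gcongr
        _ ≤ (3 * u) ^ 2 * y ^ (1 / 2 : ℝ) * y := by
          have : (3 * (u : ℝ)) ≤ (3 * u) ^ 2 := by nlinarith
          gcongr
        _ = _ := by ring
    have i4 : (u : ℝ) * K * P * Real.sqrt x * Real.log (Real.log x) ^ 2 ≤
        K * y / Real.log y * (4 * u * P * (3 * u) * (Real.log y ^ (3 : ℝ) / y ^ (1 / 4 : ℝ))) := by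
      have h6 : Real.log y ^ (3 : ℝ) = Real.log y ^ 3 := by
        exact_mod_cast Real.rpow_natCast (Real.log y) 3
      rw [h6]
      exact i4_aux (by positivity) (by positivity) (by positivity) hl0 (by positivity)
        (by positivity) i3 i2 (by positivity)
    have i5 : (K : ℝ) * (Cb * (K : ℝ) ^ A) ≤
        K * y / Real.log y * (Cb * (Real.log y ^ (1 : ℝ) / y ^ (1 / 2 : ℝ))) := by
      have h6 : (K : ℝ) ^ A ≤ y ^ (1 / 2 : ℝ) := by
        calc (K : ℝ) ^ A ≤ (y ^ δ) ^ A := by gcongr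
          _ = y ^ (δ * A) := by rw [Real.rpow_mul hY0.le, Real.rpow_natCast]
          _ ≤ y ^ (1 / 2 : ℝ) := by
            apply Real.rpow_le_rpow_of_exponent_le (by linarith)
            rw [hδ, div_mul_eq_mul_div, one_mul, div_le_div_iff₀ (by positivity) (by norm_num)]
            linarith
      rw [Real.rpow_one]
      calc (K : ℝ) * (Cb * (K : ℝ) ^ A) ≤ K * (Cb * y ^ (1 / 2 : ℝ)) := by gcongr
        _ = K * (Cb * (y / y ^ (1 / 2 : ℝ))) := by
          congr 2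
          rw [eq_div_iff hyh0.ne', hsq]
        _ = _ := by field_simp
    have hKy : 0 ≤ K * y / Real.log y := by positivity
    have hfin := fin_aux (by linarith : (0 : ℝ) ≤ P) hC hKy i1 i4 i5 h3
    refine hfin.trans (le_of_eq ?_)
    ring

end Pool.Agent.H912.AE
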