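import Pool.Agent.H912.AE.Ana

/-!
# Many good `d` (helper912)
-/

set_option autoImplicit false

open Finset Filter Topology

namespace Pool.Agent.H912.AE

lemma cs_aux {G V K Y L c₁ C₂ CM M : ℝ} (hV : 0 < V) (hK : 0 < K) (hY : 0 < Y) (hL : 0 < L)
    (hc₁ : 0 < c₁) (hC₂ : 0 < C₂) (hCM : 0 < CM) (h1 : c₁ * V * K * Y / L ≤ M)
    (h2 : M ^ 2 ≤ G * ((C₂ * K / L) ^ 2 * (CM * V * (2 * Y)))) :
    c₁ ^ 2 / (2 * C₂ ^ 2 * CM) * V * Y ≤ G := by
  have h3 : (c₁ * V * K * Y / L) ^ 2 ≤ M ^ 2 := by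
    have : 0 ≤ c₁ * V * K * Y / L := by positivity
    gcongr
  have h4 : (c₁ * V * K * Y / L) ^ 2 = (c₁ ^ 2 / (2 * C₂ ^ 2 * CM) * V * Y) *
      ((C₂ * K / L) ^ 2 * (CM * V * (2 * Y))) := by
    field_simp
  rw [h4] at h3
  have h5 : 0 < (C₂ * K / L) ^ 2 * (CM * V * (2 * Y)) := by positivity
  exact le_of_mul_le_mul_right (h3.trans h2) h5

theorem AS (u T : ℕ) (hu : 2 ∣ u) (hu0 : 0 < u) (hT : 2 ≤ T) (A : ℕ) (Cb : ℝ) (hCb : 0 ≤ Cb)
    (bad : ℕ → Finset ℕ) (hbad : ∀ k, 1 ≤ k → ((bad k).card : ℝ) ≤ Cb * (k : ℝ) ^ A) :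
    ∃ c : ℝ, 0 < c ∧ ∀ w : ℕ, ∃ Y₀ : ℕ, ∀ Y : ℕ, Y₀ ≤ Y →
      c * Vw w * Y ≤ ((Gg u T bad w Y).card : ℝ) := by
  classical
  obtain ⟨C0, hBV0⟩ := Pool.Agent.Results.MP_00e23e_nt.LogLogLoss.result 2
  obtain ⟨CB, hCB1, hBT⟩ := Pool.Agent.Helper602.MK.BTLib.brun_titchmarsh
  obtain ⟨CM, hCM, hmom⟩ := moment
  obtain ⟨K₀, hKk⟩ := card_Kk T hT
  set C : ℝ := max C0 0 with hC
  have hC1 : 0 ≤ C := le_max_right _ _
  have hBV : ∀ x : ℝ, 3 ≤ x → ∀ D : ℝ, 0 ≤ D → D ≤ Real.sqrt x →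
    ∀ y : ℕ → ℝ, (∀ d, 2 ≤ y d ∧ y d ≤ x) →
    ∀ l : ℕ → ℕ, (∀ d, 1 ≤ d → (l d).Coprime d) →
    ∑ d ∈ Finset.Icc 1 ⌊D⌋₊, |Pool.Agent.Results.MP_00e23e_nt.LogLogLoss.E (y d) d (l d)| ≤
      C * (x / Real.log x ^ (2 : ℝ) + D * Real.sqrt x * Real.log (Real.log x) ^ 2) := by
    intro x hx D hD0 hD y hy l hl
    refine (hBV0 x hx D hD0 hD y hy l hl).trans ?_
    refine mul_le_mul_of_nonneg_right (le_max_left _ _) ?_
    have : 0 < Real.log x := Real.log_pos (by linarith)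
    positivity
  have hPT : 0 < Pw T := Pw_pos T
  have hPT1 : (0 : ℝ) < Pw T := by exact_mod_cast hPT
  have hφu : (0 : ℝ) < Nat.totient u := by exact_mod_cast Nat.totient_pos.2 hu0
  have hu1 : (0 : ℝ) < u := by exact_mod_cast hu0
  set c₁ : ℝ := 1 / (64 * Pw T) with hc₁
  have hc₁0 : 0 < c₁ := by positivity
  set C₂ : ℝ := 4 * (A + 3) * CB * (u / (Nat.totient u : ℝ)) with hC₂
  have hC₂0 : 0 < C₂ := by positivity
  refine ⟨c₁ ^ 2 / (2 * C₂ ^ 2 * CM), by positivity, fun w => ?_⟩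
  have hV := Vw_pos w
  set V := Vw w with hVdef
  have hP : (1 : ℝ) ≤ Pw w := by exact_mod_cast Pw_pos w
  obtain ⟨N₀, hN₀⟩ := hmom w
  obtain ⟨Y₁, hY₁⟩ := eventually_atTop.1 (params u hu0 A K₀ (Pw w) hP C Cb (c₁ * V) hC1 hCb
    (by positivity))
  refine ⟨max Y₁ N₀, fun Y hY => ?_⟩
  obtain ⟨K, hK0, hK1, hY3, p1, p2, p3, p4⟩ := hY₁ Y ((le_max_left _ _).trans hY)
  have hYN : N₀ ≤ Y := (le_max_right _ _).trans hY
  have hY3' : (3 : ℝ) ≤ Y := by exact_mod_cast hY3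
  have hKr : (1 : ℝ) ≤ K := by exact_mod_cast hK1
  have hlogY : 0 < Real.log Y := Real.log_pos (by linarith)
  set x : ℝ := ((2 * u * K * Y + 1 : ℕ) : ℝ) with hx
  have hx3 : 3 ≤ x := by
    have : 3 ≤ 2 * u * K * Y + 1 := by
      have : 1 ≤ u * K * Y := Nat.one_le_iff_ne_zero.2 (by positivity)
      nlinarith
    rw [hx]
    exact_mod_cast this
  have hlx : 0 < Real.log x := Real.log_pos (by linarith)
  -- the first moment
  have hfm := fm hx3 (hBV x hx3) u T w K Y hu hu0 (by omega) le_rfl (by push_cast; exact p1)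
  have hsum := sum_Nk u T K bad w Y hu0
  set I := (Ioc Y (2 * Y)).filter (fun d => d.Coprime (Pw w)) with hI
  set M := ∑ d ∈ I, ((Nk u T K bad d).card : ℝ) with hM
  have hb : ∑ k ∈ Kk T K, ((bad k).card : ℝ) ≤ K * (Cb * (K : ℝ) ^ A) := by
    have h1 : ∀ k ∈ Kk T K, ((bad k).card : ℝ) ≤ Cb * (K : ℝ) ^ A := by
      intro k hk
      rw [Kk, mem_filter, mem_Icc] at hk
      refine (hbad k hk.1.1).trans ?_
      have : (k : ℝ) ≤ K := by exact_mod_cast hk.1.2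
      gcongr
    refine (sum_le_sum h1).trans ?_
    rw [sum_const, nsmul_eq_mul]
    have h2 : ((Kk T K).card : ℝ) ≤ K := by
      have : (Kk T K).card ≤ (Icc 1 K).card := card_filter_le _ _
      rw [Nat.card_Icc] at this
      exact_mod_cast this
    have h3 : 0 ≤ Cb * (K : ℝ) ^ A := by positivity
    gcongr
  have hM1 : c₁ * V * K * Y / Real.log Y ≤ M := by
    have h1 : 2 * c₁ * V * K * Y / Real.log Y ≤
        ((Kk T K).card : ℝ) * (V / 2) * (Y / Real.log x) := by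
      calc 2 * c₁ * V * K * Y / Real.log Y =
          (K : ℝ) / (8 * Pw T) * (V / 2) * (Y / (2 * Real.log Y)) := by
            rw [hc₁]
            field_simp
            ring
        _ ≤ _ := by
            have := hKk K hK0
            gcongr
    push_cast at hfm
    have h2 : 2 * c₁ * V * K * Y / Real.log Y = c₁ * V * K * Y / Real.log Y +
      c₁ * V * K * Y / Real.log Y := by ring
    linarith
  -- the second moment
  have hNd : ∀ d ∈ I, ((Nk u T K bad d).card : ℝ) ≤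
      C₂ * K / Real.log Y * (d / (Nat.totient d : ℝ)) := by
    intro d hd
    rw [hI, mem_filter, mem_Ioc] at hd
    have hd0 : 0 < d := by omega
    have hφd : (0 : ℝ) < Nat.totient d := by exact_mod_cast Nat.totient_pos.2 hd0
    refine (card_Nk_le hBT hCB1 u T K bad d hu0 hd0 hK1).trans ?_
    have h1 : 0 < Real.log Y / (2 * (A + 3)) := by positivity
    calc CB * (↑u / ↑(Nat.totient u) * (↑d / ↑(Nat.totient d))) * (↑K + 1) / Real.log (↑K + 1) ≤
        CB * (↑u / ↑(Nat.totient u) * (↑d / ↑(Nat.totient d))) * (K + K) /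
          (Real.log Y / (2 * (A + 3))) := by gcongr
      _ = _ := by
        rw [hC₂]
        field_simp
        ring
  have hsq : ∑ d ∈ I, ((Nk u T K bad d).card : ℝ) ^ 2 ≤
      (C₂ * K / Real.log Y) ^ 2 * (CM * V * (2 * Y)) := by
    have h1 : ∑ d ∈ I, ((Nk u T K bad d).card : ℝ) ^ 2 ≤
        ∑ d ∈ I, (C₂ * K / Real.log Y) ^ 2 * ((d : ℝ) / (Nat.totient d : ℝ)) ^ 2 := by
      refine sum_le_sum fun d hd => ?_
      rw [← mul_pow]
      have := hNd d hd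
      gcongr
    refine h1.trans ?_
    rw [← mul_sum]
    have h2 := hN₀ (2 * Y) (by omega)
    have h3 : ∑ d ∈ I, ((d : ℝ) / (Nat.totient d : ℝ)) ^ 2 ≤
        ∑ d ∈ (Icc 1 (2 * Y)).filter (fun d => d.Coprime (Pw w)),
          ((d : ℝ) / (Nat.totient d : ℝ)) ^ 2 := by
      refine sum_le_sum_of_subset_of_nonneg ?_ fun _ _ _ => by positivity
      intro d hd
      rw [hI, mem_filter, mem_Ioc] at hd
      rw [mem_filter, mem_Icc]
      exact ⟨by omega, hd.2⟩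
    push_cast at h2
    have h4 := h3.trans h2
    gcongr
  -- Cauchy-Schwarz
  have hG : M = ∑ d ∈ Gg u T bad w Y, ((Nk u T K bad d).card : ℝ) := by
    rw [hM]
    symm
    refine sum_subset ?_ ?_
    · intro d hd
      rw [Gg, mem_filter] at hd
      rw [hI, mem_filter]
      exact ⟨hd.1, hd.2.1⟩
    · intro d hd hd'
      rw [hI, mem_filter] at hd
      rw [Gg, mem_filter] at hd'
      have h1 : Nk u T K bad d = ∅ := by
        rw [eq_empty_iff_forall_notMem]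
        intro k hk
        rw [Nk, Kk, mem_filter, mem_filter] at hk
        exact hd' ⟨hd.1, hd.2, k, hk.1.2.1, hk.1.2.2, hk.2.1, hk.2.2⟩
      rw [h1, card_empty, Nat.cast_zero]
  have hsub : Gg u T bad w Y ⊆ I := by
    intro d hd
    rw [Gg, mem_filter] at hd
    rw [hI, mem_filter]
    exact ⟨hd.1, hd.2.1⟩
  have hM2 : M ^ 2 ≤ ((Gg u T bad w Y).card : ℝ) *
      ((C₂ * K / Real.log Y) ^ 2 * (CM * V * (2 * Y))) := by
    rw [hG]
    refine sq_sum_le_card_mul_sum_sq.trans ?_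
    refine mul_le_mul_of_nonneg_left ?_ (Nat.cast_nonneg _)
    exact (sum_le_sum_of_subset_of_nonneg hsub fun _ _ _ => by positivity).trans hsq
  exact cs_aux hV (by linarith) (by linarith) hlogY hc₁0 hC₂0 hCM hM1 hM2

end Pool.Agent.H912.AE
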