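import Mathlib

/-!
# Natural densities (helper912)
-/

set_option autoImplicit false

open Filter Topology

namespace Pool.Agent.H912.AE

/-- The set `A` of positive integers has natural density `δ`. -/
def HasDensity (A : Set ℕ) (δ : ℝ) : Prop :=
  Tendsto (fun N : ℕ => ((A ∩ Set.Icc 1 N).ncard : ℝ) / N) atTop (𝓝 δ)

open Classical in
lemma full_of {A : Set ℕ} (h : ∀ ε : ℝ, 0 < ε → ∃ N₀ : ℕ, ∀ M : ℕ, N₀ ≤ M →
    (((Finset.range M).filter (fun m => m ∉ A)).card : ℝ) ≤ ε * M) : HasDensity A 1 := by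
  unfold HasDensity
  rw [Metric.tendsto_atTop]
  intro ε hε
  obtain ⟨N₀, hN₀⟩ := h (ε / 4) (by positivity)
  refine ⟨max 1 N₀, fun N hN => ?_⟩
  have hN1 : 1 ≤ N := (le_max_left _ _).trans hN
  have hNr : (1 : ℝ) ≤ N := by exact_mod_cast hN1
  have hN0 : N₀ ≤ N := (le_max_right _ _).trans hN
  have h1 := hN₀ (N + 1) (by omega)
  have h2 : (A ∩ Set.Icc 1 N).ncard = ((Finset.Icc 1 N).filter (fun m => m ∈ A)).card := by
    rw [← Set.ncard_coe_finset]
    congr 1
    ext m
    simp only [Set.mem_inter_iff, Set.mem_Icc, Finset.coe_filter, Finset.mem_Icc,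
      Set.mem_ofPred_eq]
    exact and_comm
  have h3 := Finset.card_filter_add_card_filter_not (s := Finset.Icc 1 N) (fun m => m ∈ A)
  rw [Nat.card_Icc, Nat.add_sub_cancel] at h3
  have h4 : ((Finset.Icc 1 N).filter (fun m => m ∉ A)).card ≤
      ((Finset.range (N + 1)).filter (fun m => m ∉ A)).card := by
    refine Finset.card_le_card (Finset.filter_subset_filter _ fun m hm => ?_)
    rw [Finset.mem_Icc] at hm
    rw [Finset.mem_range]
    omega
  have h5 : (((Finset.Icc 1 N).filter (fun m => m ∉ A)).card : ℝ) ≤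
      ((Finset.range (N + 1)).filter (fun m => m ∉ A)).card := by exact_mod_cast h4
  have h6 : (((Finset.Icc 1 N).filter (fun m => m ∈ A)).card : ℝ) +
      ((Finset.Icc 1 N).filter (fun m => m ∉ A)).card = N := by exact_mod_cast h3
  rw [h2, Real.dist_eq, abs_lt]
  have h7 : (((Finset.Icc 1 N).filter (fun m => m ∈ A)).card : ℝ) / N - 1 =
      -(((Finset.Icc 1 N).filter (fun m => m ∉ A)).card / N) := by
    have : (N : ℝ) ≠ 0 := by linarith
    field_simp
    linarith
  have h8 : (((Finset.Icc 1 N).filter (fun m => m ∉ A)).card : ℝ) / N ≤ ε / 2 := by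
    rw [div_le_iff₀ (by linarith)]
    push_cast at h1
    nlinarith
  have h9 : 0 ≤ (((Finset.Icc 1 N).filter (fun m => m ∉ A)).card : ℝ) / N := by positivity
  rw [h7]
  constructor
  · linarith
  · linarith

/-- two sets agreeing on a set of density one have the same density -/
lemma density_congr {W E O : Set ℕ} {δ : ℝ} (hW : HasDensity W 1) (hO : HasDensity O δ)
    (h : ∀ m ∈ W, 1 ≤ m → (m ∈ E ↔ m ∈ O)) : HasDensity E δ := by
  have hW' : Tendsto (fun N : ℕ => 1 - ((W ∩ Set.Icc 1 N).ncard : ℝ) / N) atTop (𝓝 0) := by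
    have := hW.const_sub 1
    simpa using this
  have key : Tendsto (fun N : ℕ => ((E ∩ Set.Icc 1 N).ncard : ℝ) / N -
      ((O ∩ Set.Icc 1 N).ncard : ℝ) / N) atTop (𝓝 0) := by
    refine squeeze_zero_norm' ?_ hW'
    filter_upwards [eventually_ge_atTop 1] with N hN
    have hfin : (Set.Icc 1 N).Finite := Set.finite_Icc 1 N
    have hc : (Set.Icc 1 N).ncard = N := by
      rw [Set.ncard_eq_toFinset_card', Set.toFinset_Icc, Nat.card_Icc, Nat.add_sub_cancel]
    have hWc : (W ∩ Set.Icc 1 N).ncard + (Set.Icc 1 N \ W).ncard = N := by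
      rw [Set.inter_comm, Set.ncard_inter_add_ncard_sdiff_eq_ncard _ _ hfin, hc]
    have aux : ∀ A B : Set ℕ, (∀ m ∈ W, 1 ≤ m → (m ∈ A ↔ m ∈ B)) →
        (A ∩ Set.Icc 1 N).ncard ≤ (B ∩ Set.Icc 1 N).ncard + (Set.Icc 1 N \ W).ncard := by
      intro A B hAB
      have h1 : A ∩ Set.Icc 1 N ⊆ (B ∩ Set.Icc 1 N) ∪ (Set.Icc 1 N \ W) := by
        rintro m ⟨hm1, hm2⟩
        by_cases hm : m ∈ W
        · exact Or.inl ⟨(hAB m hm hm2.1).1 hm1, hm2⟩
        · exact Or.inr ⟨hm2, hm⟩
      refine (Set.ncard_le_ncard h1 ?_).trans (Set.ncard_union_le _ _)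
      exact (hfin.inter_of_right B).union hfin.sdiff
    have h1 := aux E O h
    have h2 := aux O E fun m hm hm1 => (h m hm hm1).symm
    have hN0 : (0 : ℝ) < N := by exact_mod_cast hN
    have hWc' : ((W ∩ Set.Icc 1 N).ncard : ℝ) + (Set.Icc 1 N \ W).ncard = N := by
      exact_mod_cast hWc
    have h1' : ((E ∩ Set.Icc 1 N).ncard : ℝ) ≤
      (O ∩ Set.Icc 1 N).ncard + (Set.Icc 1 N \ W).ncard := by exact_mod_cast h1
    have h2' : ((O ∩ Set.Icc 1 N).ncard : ℝ) ≤
      (E ∩ Set.Icc 1 N).ncard + (Set.Icc 1 N \ W).ncard := by exact_mod_cast h2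
    have h3 : 1 - ((W ∩ Set.Icc 1 N).ncard : ℝ) / N = (Set.Icc 1 N \ W).ncard / N := by
      field_simp
      linarith
    rw [h3, Real.norm_eq_abs, ← sub_div, abs_div, abs_of_pos hN0]
    apply div_le_div_of_nonneg_right _ hN0.le
    rw [abs_le]
    constructor <;> linarith
  have := key.add hO
  unfold HasDensity
  simpa using this

lemma density_univ : HasDensity Set.univ 1 := by
  unfold HasDensity
  refine Tendsto.congr' ?_ tendsto_const_nhds
  filter_upwards [eventually_ge_atTop 1] with N hN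
  rw [Set.univ_inter, Set.ncard_eq_toFinset_card', Set.toFinset_Icc, Nat.card_Icc,
    Nat.add_sub_cancel, div_self]
  have : N ≠ 0 := by omega
  exact_mod_cast this

lemma density_empty : HasDensity ∅ 0 := by
  unfold HasDensity
  simp

lemma card_odd (N : ℕ) : ({m | Odd m} ∩ Set.Icc 1 N).ncard = (N + 1) / 2 := by
  have h1 : {m | Odd m} ∩ Set.Icc 1 N =
      (((Finset.range ((N + 1) / 2)).image (fun a => 2 * a + 1) : Finset ℕ) : Set ℕ) := by
    ext m
    simp only [Set.mem_inter_iff, Set.mem_ofPred_eq, Set.mem_Icc, Finset.coe_image, Set.mem_image,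
      Finset.mem_coe, Finset.mem_range]
    constructor
    · rintro ⟨⟨a, rfl⟩, h2⟩
      exact ⟨a, by omega, rfl⟩
    · rintro ⟨a, ha, rfl⟩
      exact ⟨⟨a, rfl⟩, by omega⟩
  rw [h1, Set.ncard_coe_finset, Finset.card_image_of_injective _ (fun a b h => by
    have h' : 2 * a + 1 = 2 * b + 1 := h
    omega), Finset.card_range]

lemma density_odd : HasDensity {m | Odd m} (1 / 2) := by
  unfold HasDensity
  simp only [card_odd]
  have h1 : Tendsto (fun N : ℕ => (1 : ℝ) / N) atTop (𝓝 0) := tendsto_one_div_atTop_nhds_zero_nat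
  have h2 : Tendsto (fun N : ℕ => 1 / 2 + (1 : ℝ) / N) atTop (𝓝 (1 / 2)) := by
    have := h1.const_add (1 / 2)
    simpa using this
  refine tendsto_of_tendsto_of_tendsto_of_le_of_le' tendsto_const_nhds h2 ?_ ?_
  · filter_upwards [eventually_ge_atTop 1] with N hN
    have hN0 : (0 : ℝ) < N := by exact_mod_cast hN
    rw [le_div_iff₀ hN0]
    have : N ≤ 2 * ((N + 1) / 2) := by omega
    have h3 : (N : ℝ) ≤ 2 * (((N + 1) / 2 : ℕ) : ℝ) := by exact_mod_cast this
    linarith
  · filter_upwards [eventually_ge_atTop 1] with N hN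
    have hN0 : (0 : ℝ) < N := by exact_mod_cast hN
    rw [div_le_iff₀ hN0]
    have : 2 * ((N + 1) / 2) ≤ N + 1 := by omega
    have h3 : 2 * (((N + 1) / 2 : ℕ) : ℝ) ≤ N + 1 := by exact_mod_cast this
    have h4 : (1 / 2 + (1 : ℝ) / N) * N = N / 2 + 1 := by
      field_simp
    rw [h4]
    linarith

end Pool.Agent.H912.AE
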