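import Pool.Agent.H912.AE.Fam2
import Pool.Agent.H912.AE.Dns

/-!
# Averages over `m` (helper912)
-/

set_option autoImplicit false

open Finset Filter Topology

namespace Pool.Agent.H912.AE

section

variable {Ω : Type*} (V : Ω → ℝ) (hV : ∀ ω, 0 ≤ V ω) (size : ℕ → Ω → Prop)
  (hsize : ∀ a b ω, a ≤ b → size b ω → size a ω) (N : ℕ → ℕ → Ω → ℝ)
  (hNV : ∀ H m ω, N H m ω ≤ V ω)
  (hNanti : ∀ a b m ω, a ≤ b → N b m ω ≤ N a m ω) (T : ℕ → Prop)

open Classical in
include hV hsize hNV hNanti in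
theorem avg_sum (hmain : ∀ ε : ℝ, 0 < ε → ∃ H₀ N₀ : ℕ, ∀ M : ℕ, N₀ ≤ M →
      (((range M).filter (fun m => ¬ (T m ∨ ∀ ω, size H₀ ω → N H₀ m ω ≤ ε * V ω))).card : ℝ)
        ≤ ε * M) {ε : ℝ} (hε : 0 < ε) :
    ∃ H₀ : ℕ, ∀ (M : ℕ) (ω : Ω), H₀ ≤ M → size H₀ ω →
      (∑ m ∈ Icc 1 M, if T m then (0 : ℝ) else N H₀ m ω) ≤ ε * (M * V ω) := by
  obtain ⟨H₀, N₀, h⟩ := hmain (ε / 3) (by positivity)
  refine ⟨max H₀ (max N₀ 1), fun M ω hM hH => ?_⟩
  have hM1 : 1 ≤ M := (le_max_right _ _).trans ((le_max_right _ _).trans hM)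
  have hMN : N₀ ≤ M + 1 := by
    have := (le_max_left N₀ 1).trans ((le_max_right _ _).trans hM)
    omega
  have hH' : size H₀ ω := hsize _ _ ω (le_max_left _ _) hH
  have hP : (0 : ℝ) ≤ V ω := hV ω
  have h1 := h (M + 1) hMN
  set B := (range (M + 1)).filter (fun m => ¬ (T m ∨ ∀ ω, size H₀ ω →
    N H₀ m ω ≤ ε / 3 * V ω)) with hB
  have h2 : ∀ m ∈ Icc 1 M, (if T m then (0 : ℝ) else N (max H₀ (max N₀ 1)) m ω) ≤
      (if m ∈ B then V ω else 0) + ε / 3 * V ω := by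
    intro m hm
    have h3 : 0 ≤ ε / 3 * V ω := by positivity
    by_cases ht : T m
    · rw [if_pos ht]
      split_ifs <;> linarith
    · rw [if_neg ht]
      by_cases hmB : m ∈ B
      · rw [if_pos hmB]
        have := hNV (max H₀ (max N₀ 1)) m ω
        linarith
      · rw [if_neg hmB, zero_add]
        have h3 : T m ∨ ∀ ω, size H₀ ω → N H₀ m ω ≤ ε / 3 * V ω := by
          by_contra h4
          apply hmB
          rw [hB, mem_filter, mem_range]
          exact ⟨by have := (mem_Icc.1 hm).2; omega, h4⟩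
        rcases h3 with h3 | h3
        · exact absurd h3 ht
        · exact le_trans (hNanti _ _ m ω (le_max_left _ _)) (h3 ω hH')
  refine (sum_le_sum h2).trans ?_
  rw [sum_add_distrib, sum_const, Nat.card_Icc, Nat.add_sub_cancel, nsmul_eq_mul,
    ← sum_filter, sum_const, nsmul_eq_mul]
  have h3 : (((Icc 1 M).filter (fun m => m ∈ B)).card : ℝ) ≤ (B.card : ℝ) := by
    have : ((Icc 1 M).filter (fun m => m ∈ B)).card ≤ B.card :=
      card_le_card fun m hm => (mem_filter.1 hm).2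
    exact_mod_cast this
  have h4 : (B.card : ℝ) ≤ ε / 3 * (M + 1) := by
    have := h1
    push_cast at this
    exact this
  have hM1' : (1 : ℝ) ≤ M := by exact_mod_cast hM1
  have h5 : (((Icc 1 M).filter (fun m => m ∈ B)).card : ℝ) ≤ ε / 3 * (2 * M) := by
    refine h3.trans (h4.trans ?_)
    gcongr
    linarith
  have h6 := mul_le_mul_of_nonneg_right h5 hP
  nlinarith

open Classical in
lemma trivial_count (A B : Prop) (hBA : B → A) (hodd : ∀ m, Odd m → (T m ↔ A))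
    (heven : ∀ m, Even m → 1 ≤ m → (T m ↔ B)) (M : ℕ) :
    |(∑ m ∈ Icc 1 M, if T m then (1 : ℝ) else 0) -
        (if B then 1 else if A then 1 / 2 else 0) * M| ≤ 1 / 2 := by
  by_cases hb1 : B
  · have h3 : ∀ m ∈ Icc 1 M, (if T m then (1 : ℝ) else 0) = 1 := by
      intro m hm
      rw [if_pos]
      rcases Nat.even_or_odd m with he | ho
      · exact (heven m he (mem_Icc.1 hm).1).2 hb1
      · exact (hodd m ho).2 (hBA hb1)
    rw [sum_congr rfl h3, if_pos hb1, sum_const, Nat.card_Icc, Nat.add_sub_cancel]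
    simp
  · by_cases hb2 : A
    · rw [if_neg hb1, if_pos hb2]
      have h3 : ∀ m ∈ Icc 1 M,
          (if T m then (1 : ℝ) else 0) = if Odd m then (1 : ℝ) else 0 := by
        intro m hm
        rcases Nat.even_or_odd m with he | ho
        · rw [if_neg (fun h => hb1 ((heven m he (mem_Icc.1 hm).1).1 h)),
            if_neg (Nat.not_odd_iff_even.2 he)]
        · rw [if_pos ((hodd m ho).2 hb2), if_pos ho]
      rw [sum_congr rfl h3, ← sum_filter, sum_const, nsmul_eq_mul, mul_one]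
      have h4 : ((Icc 1 M).filter Odd).card = (M + 1) / 2 := by
        rw [← card_odd M, ← Set.ncard_coe_finset]
        congr 1
        ext m
        simp only [coe_filter, mem_Icc, Set.mem_ofPred_eq, Set.mem_inter_iff, Set.mem_Icc]
        tauto
      rw [h4, abs_le]
      have h5 : M ≤ 2 * ((M + 1) / 2) := by omega
      have h6 : 2 * ((M + 1) / 2) ≤ M + 1 := by omega
      have h5' : (M : ℝ) ≤ 2 * (((M + 1) / 2 : ℕ) : ℝ) := by exact_mod_cast h5
      have h6' : 2 * (((M + 1) / 2 : ℕ) : ℝ) ≤ M + 1 := by exact_mod_cast h6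
      constructor <;> linarith
    · rw [if_neg hb1, if_neg hb2]
      have h3 : ∀ m ∈ Icc 1 M, (if T m then (1 : ℝ) else 0) = 0 := by
        intro m hm
        rw [if_neg]
        rcases Nat.even_or_odd m with he | ho
        · exact fun h => hb1 ((heven m he (mem_Icc.1 hm).1).1 h)
        · exact fun h => hb2 ((hodd m ho).1 h)
      rw [sum_congr rfl h3]
      simp

open Classical in
include hV hsize hNV hNanti in
theorem avg_dens (hmain : ∀ ε : ℝ, 0 < ε → ∃ H₀ N₀ : ℕ, ∀ M : ℕ, N₀ ≤ M →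
      (((range M).filter (fun m => ¬ (T m ∨ ∀ ω, size H₀ ω → N H₀ m ω ≤ ε * V ω))).card : ℝ)
        ≤ ε * M) (Nq : ℕ → Ω → ℝ) (A B : Prop) (hBA : B → A) (hodd : ∀ m, Odd m → (T m ↔ A))
    (heven : ∀ m, Even m → 1 ≤ m → (T m ↔ B)) (hT : ∀ m ω, T m → Nq m ω = V ω)
    (hNq : ∀ m ω, 0 ≤ Nq m ω) (hle : ∀ H m ω, Nq m ω ≤ N H m ω) {ε : ℝ} (hε : 0 < ε) :
    ∃ H₀ : ℕ, ∀ (M : ℕ) (ω : Ω), H₀ ≤ M → size H₀ ω →
      |(∑ m ∈ Icc 1 M, Nq m ω) - (if B then 1 else if A then 1 / 2 else 0) * (M * V ω)| ≤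
        ε * (M * V ω) := by
  obtain ⟨H₀, h⟩ := avg_sum V hV size hsize N hNV hNanti T hmain (ε := ε / 2) (by positivity)
  obtain ⟨H₁, hH₁⟩ := exists_nat_ge (1 / ε)
  refine ⟨max H₀ H₁, fun M ω hM hH => ?_⟩
  have h1 := h M ω ((le_max_left _ _).trans hM) (hsize _ _ ω (le_max_left _ _) hH)
  have hP : (0 : ℝ) ≤ V ω := hV ω
  have h2 := trivial_count T A B hBA hodd heven M
  set δ : ℝ := if B then 1 else if A then 1 / 2 else 0 with hδ
  have h3 : |(∑ m ∈ Icc 1 M, Nq m ω) -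
      (∑ m ∈ Icc 1 M, if T m then (1 : ℝ) else 0) * V ω| ≤ ε / 2 * (M * V ω) := by
    refine le_trans ?_ h1
    rw [sum_mul, ← sum_sub_distrib]
    refine (abs_sum_le_sum_abs _ _).trans (sum_le_sum fun m _ => ?_)
    by_cases ht : T m
    · rw [if_pos ht, if_pos ht, one_mul, hT m ω ht, sub_self, abs_zero]
    · rw [if_neg ht, if_neg ht, zero_mul, sub_zero, abs_of_nonneg (hNq m ω)]
      exact hle _ _ _
  have hM1 : (H₁ : ℝ) ≤ M := by exact_mod_cast (le_max_right H₀ H₁).trans hM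
  have h4 : 1 / 2 * V ω ≤ ε / 2 * (M * V ω) := by
    have h5 : 1 ≤ ε * M := by
      rw [div_le_iff₀ hε] at hH₁
      nlinarith
    nlinarith
  have h5 : |(∑ m ∈ Icc 1 M, if T m then (1 : ℝ) else 0) * V ω - δ * (M * V ω)| ≤
      1 / 2 * V ω := by
    have h6 : (∑ m ∈ Icc 1 M, if T m then (1 : ℝ) else 0) * V ω - δ * (M * V ω) =
        ((∑ m ∈ Icc 1 M, if T m then (1 : ℝ) else 0) - δ * M) * V ω := by ring
    rw [h6, abs_mul, abs_of_nonneg hP]
    exact mul_le_mul_of_nonneg_right h2 hP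
  have h6 := abs_sub_le (∑ m ∈ Icc 1 M, Nq m ω)
    ((∑ m ∈ Icc 1 M, if T m then (1 : ℝ) else 0) * V ω) (δ * (M * V ω))
  linarith

end

variable {R n : ℕ}

/-- trivial points of the base locus with rational coordinates -/
theorem trivB_iff {S : Set (MvPolynomial (Fin (R + (n + 1))) ℚ)}
    {S' : Finset (MvPolynomial (Fin (R + (n + 1))) ℤ)}
    (hSS : ∀ (K : Type) [Field K] [Algebra ℚ K] (z : Fin (R + (n + 1)) → K),
        (∀ F ∈ S', MvPolynomial.aeval z F = 0) ↔ ∀ F ∈ S, MvPolynomial.aeval z F = 0) (m : ℕ) :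
    TrivB S' m ↔ ∃ η : Fin (n + 1) → ℚ, (∀ i, η i = 0 ∨ η i = 1 ∨ η i = -1) ∧
      ∀ c : Fin R → ℤ, (η ≠ 0 ∧ ∀ F ∈ S,
        MvPolynomial.aeval (Fin.append (fun i => (c i : ℚ)) (fun j => η j ^ m)) F = 0) := by
  have hcast : ∀ (η : Fin (n + 1) → ℤ) (c : Fin R → ℤ) (F : MvPolynomial _ ℤ),
      ((MvPolynomial.aeval (Fin.append c (fun i => η i ^ m)) F : ℤ) : ℚ) =
      MvPolynomial.aeval (Fin.append (fun i => ((c i : ℤ) : ℚ))
        (fun i => ((η i : ℤ) : ℚ) ^ m)) F := by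
    intro η c F
    have h1 := aeval_ringHom (Int.castRingHom ℚ) (Fin.append c (fun i => η i ^ m)) F
    rw [append_hom] at h1
    simp only [map_pow, eq_intCast] at h1
    exact h1
  constructor
  · rintro ⟨η, h0, h1, h2⟩
    refine ⟨fun i => (η i : ℚ), fun i => ?_, fun c => ⟨?_, ?_⟩⟩
    · rcases h1 i with h | h | h <;> simp [h]
    · intro h
      apply h0
      funext i
      have := congrFun h i
      simpa using this
    · refine (hSS ℚ _).1 fun F hF => ?_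
      have h3 := hcast η c F
      rw [h2 F hF c, Int.cast_zero] at h3
      exact h3.symm
  · rintro ⟨η, h1, h2⟩
    have h3 : ∀ i, ∃ e : ℤ, (e = -1 ∨ e = 0 ∨ e = 1) ∧ (e : ℚ) = η i := by
      intro i
      rcases h1 i with h | h | h
      · exact ⟨0, by simp, by simp [h]⟩
      · exact ⟨1, by simp, by simp [h]⟩
      · exact ⟨-1, by simp, by simp [h]⟩
    choose e he1 he2 using h3
    refine ⟨e, ?_, he1, fun F hF c => ?_⟩
    · intro h
      apply (h2 0).1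
      funext i
      rw [← he2, h]
      simp
    · have h3 := (hSS ℚ _).2 (h2 c).2 F hF
      have h4 := hcast e c F
      simp only [he2] at h4
      rw [h3] at h4
      exact_mod_cast h4

/-- rational points give local points -/
theorem loc_of_rat {S : Set (MvPolynomial (Fin (R + (n + 1))) ℚ)}
    {S' : Finset (MvPolynomial (Fin (R + (n + 1))) ℤ)}
    (hSS : ∀ (K : Type) [Field K] [Algebra ℚ K] (z : Fin (R + (n + 1)) → K),
        (∀ F ∈ S', MvPolynomial.aeval z F = 0) ↔ ∀ F ∈ S, MvPolynomial.aeval z F = 0)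
    (c : Fin R → ℤ) (m q : ℕ) [Fact q.Prime] (h : ∃ x : Fin (n + 1) → ℚ, x ≠ 0 ∧ ∀ F ∈ S,
      MvPolynomial.aeval (Fin.append (fun i => (c i : ℚ)) (fun j => x j ^ m)) F = 0) :
    ∃ x : Fin (n + 1) → ℚ_[q], x ≠ 0 ∧ ∀ F ∈ S,
      MvPolynomial.aeval (Fin.append (fun i => (c i : ℚ_[q])) (fun j => x j ^ m)) F = 0 := by
  obtain ⟨x, hx, h⟩ := h
  refine ⟨fun i => (x i : ℚ_[q]), ?_, ?_⟩
  · intro h0
    apply hx
    funext i
    have := congrFun h0 i
    simpa using this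
  · refine (hSS ℚ_[q] _).1 fun F hF => ?_
    have h1 := (hSS ℚ _).2 h F hF
    have h2 := aeval_ringHom (algebraMap ℚ ℚ_[q])
      (Fin.append (fun i => (c i : ℚ)) (fun j => x j ^ m)) F
    rw [h1, map_zero, append_hom] at h2
    simp only [map_pow, eq_ratCast, Rat.cast_intCast] at h2
    exact h2.symm

/-- base points with coordinates in `{0, 1}` -/
theorem base_mono (S : Set (MvPolynomial (Fin (R + (n + 1))) ℚ)) :
    (∃ η : Fin (n + 1) → ℚ, (∀ i, η i ∈ ({0, 1} : Set ℚ)) ∧ ∀ c : Fin R → ℤ, (η ≠ 0 ∧ ∀ F ∈ S,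
      MvPolynomial.aeval (Fin.append (fun i => (c i : ℚ)) (fun j => η j ^ 1)) F = 0)) →
    (∃ η : Fin (n + 1) → ℚ, (∀ i, η i ∈ ({0, 1, -1} : Set ℚ)) ∧ ∀ c : Fin R → ℤ,
      (η ≠ 0 ∧ ∀ F ∈ S,
      MvPolynomial.aeval (Fin.append (fun i => (c i : ℚ)) (fun j => η j ^ 1)) F = 0)) := by
  rintro ⟨η, h1, h2⟩
  refine ⟨η, fun i => ?_, h2⟩
  have := h1 i
  simp only [Set.mem_insert_iff, Set.mem_singleton_iff] at this ⊢
  tauto

theorem base_odd (S : Set (MvPolynomial (Fin (R + (n + 1))) ℚ)) {m : ℕ} (hm : Odd m) :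
    (∃ η : Fin (n + 1) → ℚ, (∀ i, η i = 0 ∨ η i = 1 ∨ η i = -1) ∧
      ∀ c : Fin R → ℤ, (η ≠ 0 ∧ ∀ F ∈ S,
        MvPolynomial.aeval (Fin.append (fun i => (c i : ℚ)) (fun j => η j ^ m)) F = 0)) ↔
    (∃ η : Fin (n + 1) → ℚ, (∀ i, η i ∈ ({0, 1, -1} : Set ℚ)) ∧ ∀ c : Fin R → ℤ,
      (η ≠ 0 ∧ ∀ F ∈ S,
      MvPolynomial.aeval (Fin.append (fun i => (c i : ℚ)) (fun j => η j ^ 1)) F = 0)) := by
  refine exists_congr fun η => ?_
  have h0 : (∀ i, η i ∈ ({0, 1, -1} : Set ℚ)) ↔ ∀ i, η i = 0 ∨ η i = 1 ∨ η i = -1 := by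
    simp only [Set.mem_insert_iff, Set.mem_singleton_iff]
  rw [h0]
  refine and_congr_right fun h1 => forall_congr' fun c => ?_
  have h2 : (fun j => η j ^ m) = fun j => η j ^ 1 := by
    funext j
    rcases h1 j with h | h | h
    · rw [h, zero_pow (by rintro rfl; simp at hm), zero_pow one_ne_zero]
    · rw [h, one_pow, one_pow]
    · rw [h, hm.neg_one_pow, pow_one]
  rw [h2]

theorem base_even (S : Set (MvPolynomial (Fin (R + (n + 1))) ℚ)) {m : ℕ} (hm : Even m)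
    (hm1 : 1 ≤ m) :
    (∃ η : Fin (n + 1) → ℚ, (∀ i, η i = 0 ∨ η i = 1 ∨ η i = -1) ∧
      ∀ c : Fin R → ℤ, (η ≠ 0 ∧ ∀ F ∈ S,
        MvPolynomial.aeval (Fin.append (fun i => (c i : ℚ)) (fun j => η j ^ m)) F = 0)) ↔
    (∃ η : Fin (n + 1) → ℚ, (∀ i, η i ∈ ({0, 1} : Set ℚ)) ∧ ∀ c : Fin R → ℤ, (η ≠ 0 ∧ ∀ F ∈ S,
      MvPolynomial.aeval (Fin.append (fun i => (c i : ℚ)) (fun j => η j ^ 1)) F = 0)) := by
  have hm0 : m ≠ 0 := by omega
  constructor
  · rintro ⟨η, h1, h2⟩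
    refine ⟨fun i => η i ^ m, fun i => ?_, fun c => ⟨?_, ?_⟩⟩
    · rcases h1 i with h | h | h
      · simp [h, hm0]
      · simp [h]
      · simp [h, hm.neg_one_pow]
    · intro h0
      apply (h2 c).1
      funext i
      have := congrFun h0 i
      simp only [Pi.zero_apply] at this ⊢
      exact pow_eq_zero_iff hm0 |>.1 this
    · intro F hF
      have := (h2 c).2 F hF
      simp only [pow_one]
      exact this
  · rintro ⟨η, h1, h2⟩
    have h3 : ∀ i, η i = 0 ∨ η i = 1 := by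
      intro i
      have := h1 i
      simpa using this
    refine ⟨η, fun i => (h3 i).imp id Or.inl, fun c => ⟨(h2 c).1, fun F hF => ?_⟩⟩
    have h4 := (h2 c).2 F hF
    have h5 : (fun j => η j ^ m) = fun j => η j ^ 1 := by
      funext j
      rcases h3 j with h | h
      · rw [h, zero_pow hm0, zero_pow one_ne_zero]
      · rw [h, one_pow, one_pow]
    rw [h5]
    exact h4

end Pool.Agent.H912.AE
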