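import Pool.Agent.H912.AE.Tor

/-!
# Bad primes (helper912)
-/

set_option autoImplicit false

open Finset Polynomial

namespace Pool.Agent.H912.AE

variable {N : ℕ}

/-- the polynomial `F (ε_i X ^ (e_i))` -/
noncomputable def pat (F : MvPolynomial (Fin N) ℤ) (ε : Fin N → ℤ) (e : Fin N → ℕ) : ℤ[X] :=
  MvPolynomial.aeval (fun i => C (ε i) * X ^ (e i)) F

lemma aeval_pat {R : Type*} [CommRing R] (g : R) (F : MvPolynomial (Fin N) ℤ) (ε : Fin N → ℤ)
    (e : Fin N → ℕ) : aeval g (pat F ε e) =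
      MvPolynomial.aeval (fun i => (ε i : R) * g ^ (e i)) F := by
  unfold pat
  have h : (aeval g).comp (MvPolynomial.aeval (fun i => C (ε i) * X ^ (e i)) :
      MvPolynomial (Fin N) ℤ →ₐ[ℤ] ℤ[X]) =
      MvPolynomial.aeval (fun i => (ε i : R) * g ^ (e i)) := by
    ext i
    simp
  rw [← h]
  rfl

lemma aeval_expand {R : Type*} [CommRing R] (g : R) (F : MvPolynomial (Fin N) ℤ) (ε : Fin N → ℤ)
    (e : Fin N → ℕ) : aeval g (pat F ε e) =
      ∑ α ∈ F.support, (((F.coeff α * ∏ i, ε i ^ α i : ℤ)) : R) * g ^ (∑ i, e i * α i) := by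
  rw [aeval_pat, MvPolynomial.aeval_def, MvPolynomial.eval₂_eq']
  refine sum_congr rfl fun α _ => ?_
  rw [← prod_pow_eq_pow_sum]
  push_cast
  rw [mul_assoc, ← prod_mul_distrib]
  congr 1
  refine prod_congr rfl fun i _ => ?_
  rw [mul_pow, pow_mul]

lemma torsion {k : ℕ} (hk : Squarefree k) {ω : ℂ} (hω : IsPrimitiveRoot ω k)
    (F : MvPolynomial (Fin N) ℤ) (ε : Fin N → ℤ) (e : Fin N → ℕ)
    (hF : ∀ p : ℕ, p.Prime → p ∣ k → F.support.card < p) (h : aeval ω (pat F ε e) = 0) :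
    MvPolynomial.eval ε F = 0 := by
  rw [aeval_expand] at h
  rw [MvPolynomial.eval_eq']
  exact short_sum hk ω hω F.support _ _ hF h

/-- the resultant with the cyclotomic polynomial -/
noncomputable def Nn (k : ℕ) (F : MvPolynomial (Fin N) ℤ) (ε : Fin N → ℤ) (e : Fin N → ℕ) : ℤ :=
  resultant (cyclotomic k ℤ) (pat F ε e)

/-- the sum of the absolute values of the coefficients -/
def Lh (F : MvPolynomial (Fin N) ℤ) : ℕ := ∑ α ∈ F.support, (F.coeff α).natAbs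

lemma Nn_dvd {k q : ℕ} (hk : 0 < k) [Fact q.Prime] {g : ZMod q} (hg : IsPrimitiveRoot g k)
    (F : MvPolynomial (Fin N) ℤ) (ε : Fin N → ℤ) (e : Fin N → ℕ)
    (h : aeval g (pat F ε e) = 0) : (q : ℤ) ∣ Nn k F ε e := by
  obtain ⟨a, b, -, -, hab⟩ := exists_mul_add_mul_eq_C_resultant (cyclotomic k ℤ) (pat F ε e)
    le_rfl le_rfl (Or.inl (by
      rw [natDegree_cyclotomic]
      exact (Nat.totient_pos.2 hk).ne'))
  have h1 := congrArg (aeval g) hab
  rw [map_add, map_mul, map_mul, h, zero_mul, add_zero, aeval_C] at h1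
  have h2 : aeval g (cyclotomic k ℤ) = 0 := by
    rw [aeval_def, eval₂_eq_eval_map, map_cyclotomic]
    exact hg.isRoot_cyclotomic hk
  rw [h2, zero_mul] at h1
  rw [← ZMod.intCast_zmod_eq_zero_iff_dvd]
  exact h1.symm

lemma Nn_eq {k : ℕ} (hk : 0 < k) (F : MvPolynomial (Fin N) ℤ) (ε : Fin N → ℤ)
    (e : Fin N → ℕ) : ((Nn k F ε e : ℤ) : ℂ) =
      ∏ η ∈ primitiveRoots k ℂ, aeval η (pat F ε e) := by
  have : NeZero ((k : ℕ) : ℂ) := ⟨by exact_mod_cast hk.ne'⟩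
  have h1 := resultant_map_map (cyclotomic k ℤ) (pat F ε e) (cyclotomic k ℤ).natDegree
    (pat F ε e).natDegree (Int.castRingHom ℂ)
  have h2 := resultant_eq_prod_eval (cyclotomic k ℂ) ((pat F ε e).map (Int.castRingHom ℂ))
    (pat F ε e).natDegree natDegree_map_le (IsAlgClosed.splits _)
  have h3 : (cyclotomic k ℂ).natDegree = (cyclotomic k ℤ).natDegree := by
    rw [natDegree_cyclotomic, natDegree_cyclotomic]
  rw [h3] at h2
  rw [map_cyclotomic] at h1
  rw [h1, cyclotomic.roots_eq_primitiveRoots_val, (cyclotomic.monic k ℂ).leadingCoeff, one_pow,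
    one_mul] at h2
  have h4 : ((Nn k F ε e : ℤ) : ℂ) = (Int.castRingHom ℂ) (Nn k F ε e) := rfl
  rw [h4]
  unfold Nn
  rw [h2]
  change _ = Multiset.prod _
  congr 1
  refine Multiset.map_congr rfl fun η _ => ?_
  rw [aeval_def, eval₂_eq_eval_map]
  rfl

lemma Nn_le {k : ℕ} (hk : 0 < k) (F : MvPolynomial (Fin N) ℤ) (ε : Fin N → ℤ)
    (e : Fin N → ℕ) (hε : ∀ i, |ε i| ≤ 1) : (Nn k F ε e).natAbs ≤ Lh F ^ Nat.totient k := by
  have h1 : ‖((Nn k F ε e : ℤ) : ℂ)‖ ≤ (Lh F : ℝ) ^ Nat.totient k := by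
    rw [Nn_eq hk, norm_prod]
    have h2 : ∀ η ∈ primitiveRoots k ℂ, ‖aeval η (pat F ε e)‖ ≤ (Lh F : ℝ) := by
      intro η hη
      rw [mem_primitiveRoots hk] at hη
      have h3 : ‖η‖ = 1 := hη.norm'_eq_one hk.ne'
      rw [aeval_expand]
      refine (norm_sum_le _ _).trans ?_
      unfold Lh
      push_cast
      refine sum_le_sum fun α _ => ?_
      rw [norm_mul, norm_pow, h3, one_pow, mul_one, norm_mul, norm_prod]
      have h4 : ∏ i, ‖((ε i : ℂ)) ^ α i‖ ≤ 1 := by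
        refine prod_le_one (fun _ _ => norm_nonneg _) fun i _ => ?_
        rw [norm_pow]
        refine pow_le_one₀ (norm_nonneg _) ?_
        rw [Complex.norm_intCast]
        exact_mod_cast hε i
      have h5 : ‖((F.coeff α : ℤ) : ℂ)‖ = ((F.coeff α).natAbs : ℝ) := by
        rw [Complex.norm_intCast, Nat.cast_natAbs, Int.cast_abs]
      rw [h5]
      have h6 : (0 : ℝ) ≤ ((F.coeff α).natAbs : ℝ) := Nat.cast_nonneg _
      nlinarith
    refine (prod_le_prod (fun _ _ => norm_nonneg _) h2).trans ?_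
    rw [prod_const, Complex.card_primitiveRoots]
  rw [Complex.norm_intCast] at h1
  have h2 : (((Nn k F ε e).natAbs : ℕ) : ℝ) ≤ ((Lh F ^ Nat.totient k : ℕ) : ℝ) := by
    rw [Nat.cast_natAbs]
    push_cast
    exact h1
  exact_mod_cast h2

lemma Nn_zero {k : ℕ} (hk : 0 < k) (F : MvPolynomial (Fin N) ℤ) (ε : Fin N → ℤ)
    (e : Fin N → ℕ) (h : Nn k F ε e = 0) :
    ∃ η : ℂ, IsPrimitiveRoot η k ∧ aeval η (pat F ε e) = 0 := by
  have h1 := Nn_eq hk F ε e
  rw [h, Int.cast_zero] at h1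
  obtain ⟨η, hη, h2⟩ := prod_eq_zero_iff.1 h1.symm
  exact ⟨η, (mem_primitiveRoots hk).1 hη, h2⟩

lemma two_pow_card_le {n : ℕ} (hn : n ≠ 0) : 2 ^ n.primeFactors.card ≤ n := by
  calc 2 ^ n.primeFactors.card = ∏ _p ∈ n.primeFactors, 2 := by rw [prod_const]
    _ ≤ ∏ p ∈ n.primeFactors, p :=
      prod_le_prod' fun p hp => (Nat.prime_of_mem_primeFactors hp).two_le
    _ ≤ n := Nat.le_of_dvd (Nat.pos_of_ne_zero hn) (Nat.prod_primeFactors_dvd n)

lemma card_Nn {k : ℕ} (hk : 0 < k) (F : MvPolynomial (Fin N) ℤ) (ε : Fin N → ℤ)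
    (e : Fin N → ℕ) (hε : ∀ i, |ε i| ≤ 1) :
    (Nn k F ε e).natAbs.primeFactors.card ≤ Lh F * k := by
  by_cases h0 : (Nn k F ε e).natAbs = 0
  · rw [h0]
    simp
  · have h1 := two_pow_card_le h0
    have h2 := Nn_le hk F ε e hε
    have h3 : Lh F ^ Nat.totient k ≤ (2 ^ Lh F) ^ Nat.totient k :=
      Nat.pow_le_pow_left (Nat.lt_two_pow_self).le _
    have h4 : 2 ^ (Nn k F ε e).natAbs.primeFactors.card ≤ 2 ^ (Lh F * Nat.totient k) := by
      rw [pow_mul]
      omega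
    have h5 := (Nat.pow_le_pow_iff_right (by norm_num)).1 h4
    exact h5.trans (Nat.mul_le_mul_left _ (Nat.totient_le k))

/-- the sign patterns -/
def Eps (N : ℕ) : Finset (Fin N → ℤ) := Fintype.piFinset fun _ => {-1, 0, 1}

lemma mem_Eps {ε : Fin N → ℤ} : ε ∈ Eps N ↔ ∀ i, ε i = -1 ∨ ε i = 0 ∨ ε i = 1 := by
  rw [Eps, Fintype.mem_piFinset]
  simp only [mem_insert, mem_singleton]

/-- the bad primes for `k` -/
noncomputable def bad (S : Finset (MvPolynomial (Fin N) ℤ)) (k : ℕ) : Finset ℕ :=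
  S.biUnion fun F => (Eps N).biUnion fun ε => (Fintype.piFinset fun _ : Fin N => range k).biUnion
    fun e => (Nn k F ε e).natAbs.primeFactors

lemma card_bad (S : Finset (MvPolynomial (Fin N) ℤ)) {k : ℕ} (hk : 1 ≤ k) :
    ((bad S k).card : ℝ) ≤ (3 ^ N * ∑ F ∈ S, (Lh F : ℝ)) * (k : ℝ) ^ (N + 1) := by
  have h1 : (bad S k).card ≤ ∑ F ∈ S, 3 ^ N * (k ^ N * (Lh F * k)) := by
    refine card_biUnion_le.trans (sum_le_sum fun F _ => ?_)
    refine card_biUnion_le.trans ?_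
    have h2 : ∀ ε ∈ Eps N, ((Fintype.piFinset fun _ : Fin N => range k).biUnion
        fun e => (Nn k F ε e).natAbs.primeFactors).card ≤ k ^ N * (Lh F * k) := by
      intro ε hε
      refine card_biUnion_le.trans ?_
      have h3 : ∀ e ∈ (Fintype.piFinset fun _ : Fin N => range k),
          (Nn k F ε e).natAbs.primeFactors.card ≤ Lh F * k := fun e _ =>
        card_Nn hk F ε e fun i => by
          rcases mem_Eps.1 hε i with h | h | h <;> rw [h] <;> norm_num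
      refine (sum_le_sum h3).trans (le_of_eq ?_)
      rw [sum_const, smul_eq_mul, Fintype.card_piFinset]
      simp
    refine (sum_le_sum h2).trans (le_of_eq ?_)
    rw [sum_const, smul_eq_mul, Eps, Fintype.card_piFinset]
    simp
  have h2 : ((bad S k).card : ℝ) ≤ ((∑ F ∈ S, 3 ^ N * (k ^ N * (Lh F * k)) : ℕ) : ℝ) := by
    exact_mod_cast h1
  refine h2.trans (le_of_eq ?_)
  push_cast
  rw [mul_sum, sum_mul]
  refine sum_congr rfl fun F _ => ?_
  ring

/-- the statement modulo a good prime, for one pattern -/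
lemma not_bad {S : Finset (MvPolynomial (Fin N) ℤ)} {k q : ℕ} (hk : Squarefree k)
    [Fact q.Prime] (hq : q ∉ bad S k) {g : ZMod q} (hg : IsPrimitiveRoot g k)
    (hS : ∀ F ∈ S, ∀ p : ℕ, p.Prime → p ∣ k → F.support.card < p)
    (ε : Fin N → ℤ) (hε : ε ∈ Eps N) (e : Fin N → ℕ) (he : ∀ i, e i < k)
    (F : MvPolynomial (Fin N) ℤ) (hF : F ∈ S)
    (h : MvPolynomial.aeval (fun i => (ε i : ZMod q) * g ^ (e i)) F = 0) :
    MvPolynomial.eval ε F = 0 := by
  have hk0 : 0 < k := Nat.pos_of_ne_zero hk.ne_zero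
  have h1 : Nn k F ε e = 0 := by
    by_contra h0
    apply hq
    rw [bad, mem_biUnion]
    refine ⟨F, hF, mem_biUnion.2 ⟨ε, hε, mem_biUnion.2 ⟨e, ?_, ?_⟩⟩⟩
    · rw [Fintype.mem_piFinset]
      exact fun i => mem_range.2 (he i)
    · rw [← aeval_pat] at h
      have h2 := Nn_dvd hk0 hg F ε e h
      exact Nat.mem_primeFactors.2 ⟨Fact.out, Int.natCast_dvd.1 h2, Int.natAbs_ne_zero.2 h0⟩
  obtain ⟨η, hη, h2⟩ := Nn_zero hk0 F ε e h1
  exact torsion hk hη F ε e (hS F hF) h2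

end Pool.Agent.H912.AE
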