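import Mathlib

/-!
# Counting residues (helper912)
-/

set_option autoImplicit false

open Finset

namespace Pool.Agent.H912.AE

/-- independence of conditions to coprime moduli -/
lemma card_crt {M N : ℕ} (hM : 0 < M) (hN : 0 < N) (h : M.Coprime N) (A B : ℕ → Prop)
    [DecidablePred A] [DecidablePred B] (hA : ∀ a b, a ≡ b [MOD M] → (A a ↔ A b))
    (hB : ∀ a b, a ≡ b [MOD N] → (B a ↔ B b)) :
    ((range (M * N)).filter (fun a => A a ∧ B a)).card =
      ((range M).filter A).card * ((range N).filter B).card := by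
  rw [← card_product]
  refine card_nbij' (fun a => (a % M, a % N))
    (fun x => (Nat.chineseRemainder h x.1 x.2 : ℕ)) ?_ ?_ ?_ ?_
  · intro a ha
    simp only [coe_filter, mem_range, Set.mem_ofPred_eq] at ha
    simp only [coe_product, coe_filter, mem_range, Set.mem_prod, Set.mem_ofPred_eq]
    exact ⟨⟨Nat.mod_lt _ hM, (hA _ _ (Nat.mod_modEq a M)).2 ha.2.1⟩,
      ⟨Nat.mod_lt _ hN, (hB _ _ (Nat.mod_modEq a N)).2 ha.2.2⟩⟩
  · rintro ⟨a, b⟩ hab
    simp only [coe_product, coe_filter, mem_range, Set.mem_prod, Set.mem_ofPred_eq] at hab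
    simp only [coe_filter, mem_range, Set.mem_ofPred_eq]
    have h1 := (Nat.chineseRemainder h a b).2
    exact ⟨Nat.chineseRemainder_lt_mul h a b hM.ne' hN.ne', (hA _ _ h1.1).2 hab.1.2,
      (hB _ _ h1.2).2 hab.2.2⟩
  · intro a ha
    simp only [coe_filter, mem_range, Set.mem_ofPred_eq] at ha
    have h1 := (Nat.chineseRemainder h (a % M) (a % N)).2
    have h2 : (Nat.chineseRemainder h (a % M) (a % N) : ℕ) ≡ a [MOD M * N] :=
      (Nat.modEq_and_modEq_iff_modEq_mul h).1
        ⟨h1.1.trans (Nat.mod_modEq a M), h1.2.trans (Nat.mod_modEq a N)⟩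
    exact Nat.ModEq.eq_of_lt_of_lt h2 (Nat.chineseRemainder_lt_mul h _ _ hM.ne' hN.ne') ha.1
  · rintro ⟨a, b⟩ hab
    simp only [coe_product, coe_filter, mem_range, Set.mem_prod, Set.mem_ofPred_eq] at hab
    have h1 := (Nat.chineseRemainder h a b).2
    ext
    · exact (Nat.mod_eq_of_modEq h1.1 hab.1.1)
    · exact (Nat.mod_eq_of_modEq h1.2 hab.2.1)

/-- the primes up to `w` -/
def Sw (w : ℕ) : Finset ℕ := (range (w + 1)).filter Nat.Prime

/-- the product of the primes up to `w` -/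
def Pw (w : ℕ) : ℕ := ∏ p ∈ Sw w, p

/-- the product of `1 - 1 / p` over the primes up to `w` -/
noncomputable def Vw (w : ℕ) : ℝ := ∏ p ∈ Sw w, (1 - 1 / (p : ℝ))

lemma mem_Sw {w p : ℕ} : p ∈ Sw w ↔ p ≤ w ∧ p.Prime := by
  rw [Sw, mem_filter, mem_range, Nat.lt_succ_iff]

lemma Pw_pos (w : ℕ) : 0 < Pw w := prod_pos fun p hp => (mem_Sw.1 hp).2.pos

lemma Vw_pos (w : ℕ) : 0 < Vw w := prod_pos fun p hp => by
  have : (1 : ℝ) < p := by exact_mod_cast (mem_Sw.1 hp).2.one_lt
  rw [sub_pos, div_lt_one (by linarith)]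
  exact this

lemma primeFactors_Pw (w : ℕ) : (Pw w).primeFactors = Sw w :=
  Nat.primeFactors_prod fun _ hp => (mem_Sw.1 hp).2

lemma dvd_Pw {w p : ℕ} (hp : p.Prime) : p ∣ Pw w ↔ p ≤ w := by
  have h : p ∈ (Pw w).primeFactors ↔ p ∣ Pw w := by
    rw [Nat.mem_primeFactors]
    exact ⟨fun h => h.2.1, fun h => ⟨hp, h, (Pw_pos w).ne'⟩⟩
  rw [← h, primeFactors_Pw, mem_Sw]
  exact ⟨fun h => h.1, fun h => ⟨h, hp⟩⟩

lemma totient_Pw (w : ℕ) : (Nat.totient (Pw w) : ℝ) = Pw w * Vw w := by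
  have := Nat.totient_eq_mul_prod_factors (Pw w)
  rw [primeFactors_Pw] at this
  have h2 : ((Nat.totient (Pw w) : ℚ) : ℝ) =
      ((Pw w * ∏ p ∈ Sw w, (1 - (p : ℚ)⁻¹) : ℚ) : ℝ) := by
    rw [this]
  push_cast at h2
  rw [h2, Vw]
  simp only [one_div]

/-- `a` is good for the modulus `p` -/
def Gd (v p a : ℕ) : Prop := ¬ p ∣ a ∧ ¬ p ∣ v * a + 1

instance (v p : ℕ) : DecidablePred (Gd v p) := fun a => by unfold Gd; infer_instance

lemma Gd_congr (v p a b : ℕ) (h : a ≡ b [MOD p]) : Gd v p a ↔ Gd v p b := by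
  unfold Gd
  have h1 : p ∣ a ↔ p ∣ b := by
    rw [Nat.dvd_iff_mod_eq_zero, Nat.dvd_iff_mod_eq_zero, h]
  have h2 : p ∣ v * a + 1 ↔ p ∣ v * b + 1 := by
    have h3 : v * a + 1 ≡ v * b + 1 [MOD p] := (h.mul_left v).add_right 1
    rw [Nat.dvd_iff_mod_eq_zero, Nat.dvd_iff_mod_eq_zero, h3]
  rw [h1, h2]

/-- the number of good residues -/
def cp (p : ℕ) : ℕ := if p = 2 then 1 else p - 2

lemma card_Gd {v p : ℕ} (hp : p.Prime) (hv : 2 ∣ v) :
    cp p ≤ ((range p).filter (Gd v p)).card := by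
  unfold cp
  split_ifs with h2
  · subst h2
    rw [Nat.one_le_iff_ne_zero, card_ne_zero]
    refine ⟨1, mem_filter.2 ⟨mem_range.2 (by norm_num), by norm_num, ?_⟩⟩
    rw [mul_one]
    omega
  · have h1 : range p ⊆ (range p).filter (Gd v p) ∪ ({0} ∪
        (range p).filter (fun a => p ∣ v * a + 1)) := by
      intro a ha
      by_cases h3 : p ∣ v * a + 1
      · exact mem_union_right _ (mem_union_right _ (mem_filter.2 ⟨ha, h3⟩))
      · by_cases h4 : p ∣ a
        · have : a = 0 := Nat.eq_zero_of_dvd_of_lt h4 (mem_range.1 ha)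
          exact mem_union_right _ (mem_union_left _ (mem_singleton.2 this))
        · exact mem_union_left _ (mem_filter.2 ⟨ha, h4, h3⟩)
    have h5 : ((range p).filter (fun a => p ∣ v * a + 1)).card ≤ 1 := by
      rw [card_le_one]
      intro a ha b hb
      rw [mem_filter, mem_range] at ha hb
      have h6 : v * a ≡ v * b [MOD p] := by
        have h7 : v * a + 1 ≡ v * b + 1 [MOD p] := by
          rw [Nat.ModEq, Nat.mod_eq_zero_of_dvd ha.2, Nat.mod_eq_zero_of_dvd hb.2]
        exact Nat.ModEq.add_right_cancel' 1 h7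
      have h8 : Nat.gcd p v = 1 := by
        rcases (Nat.coprime_or_dvd_of_prime hp v) with h9 | h9
        · exact h9
        · exfalso
          have : p ∣ 1 := (Nat.dvd_add_right (h9.mul_right a)).1 ha.2
          exact hp.one_lt.ne' (Nat.dvd_one.1 this)
      have h10 : a ≡ b [MOD p] := Nat.ModEq.cancel_left_of_coprime h8 h6
      exact Nat.ModEq.eq_of_lt_of_lt h10 ha.1 hb.1
    have h11 := card_le_card h1
    have h12 := card_union_le ((range p).filter (Gd v p)) ({0} ∪
        (range p).filter (fun a => p ∣ v * a + 1))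
    have h13 := card_union_le ({0} : Finset ℕ) ((range p).filter (fun a => p ∣ v * a + 1))
    rw [card_range] at h11
    rw [card_singleton] at h13
    omega

lemma card_Gd_prod {v : ℕ} (hv : 2 ∣ v) (S : Finset ℕ) (hS : ∀ p ∈ S, p.Prime) :
    ∏ p ∈ S, cp p ≤ ((range (∏ p ∈ S, p)).filter (fun a => ∀ p ∈ S, Gd v p a)).card := by
  classical
  induction S using Finset.induction_on with
  | empty => simp
  | insert q S hq ih =>
    rw [prod_insert hq, prod_insert hq]
    have h1 : q.Coprime (∏ p ∈ S, p) := Nat.Coprime.prod_right fun p hp =>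
      (Nat.coprime_primes (hS q (mem_insert_self _ _)) (hS p (mem_insert_of_mem hp))).2
        (fun h => hq (h ▸ hp))
    have h2 := card_crt (hS q (mem_insert_self _ _)).pos
      (prod_pos fun p hp => (hS p (mem_insert_of_mem hp)).pos) h1 (Gd v q)
      (fun a => ∀ p ∈ S, Gd v p a) (Gd_congr v q) (fun a b h => forall₂_congr fun p hp =>
        Gd_congr v p a b (h.of_dvd (dvd_prod_of_mem _ hp)))
    have h3 : ((range (q * ∏ p ∈ S, p)).filter (fun a => ∀ p ∈ insert q S, Gd v p a)).card =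
        ((range (q * ∏ p ∈ S, p)).filter (fun a => Gd v q a ∧ ∀ p ∈ S, Gd v p a)).card := by
      congr 1
      ext a
      simp only [mem_filter, mem_insert, forall_eq_or_imp]
    rw [h3, h2]
    exact Nat.mul_le_mul (card_Gd (hS q (mem_insert_self _ _)) hv)
      (ih fun p hp => hS p (mem_insert_of_mem hp))

end Pool.Agent.H912.AE
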