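import Pool.Agent.H912.AE.Loc

/-!
# Cyclotomic fields: the local statement (helper912)
-/

set_option autoImplicit false

open Finset Polynomial

namespace Pool.Agent.H912.AE

/-- a vanishing integral combination of few powers of a root of unity `θw θk` of order `w k`, where
`k` is squarefree and all its prime factors are large -/
theorem short_sum2 {ι : Type*} {w k : ℕ} (hw : 0 < w) (hk : Squarefree k) (hwk : w.Coprime k)
    {θw θk : ℂ} (hθw : IsPrimitiveRoot θw w) (hθk : IsPrimitiveRoot θk k)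
    (A : Finset ι) (b : ι → ℤ) (e : ι → ℕ) (hA : ∀ p : ℕ, p.Prime → p ∣ k → A.card < p)
    (h : ∑ α ∈ A, (b α : ℂ) * (θw * θk) ^ (e α) = 0) :
    ∑ α ∈ A, (b α : ℂ) * θw ^ (e α) = 0 := by
  classical
  have hk0 : 0 < k := Nat.pos_of_ne_zero hk.ne_zero
  have hwk0 : 0 < w * k := Nat.mul_pos hw hk0
  obtain ⟨ρ, hρ⟩ := exists_shift A e k hk0 hA
  have hprim : ∀ η : ℂ, IsPrimitiveRoot η k → IsPrimitiveRoot (θw * η) (w * k) := by
    intro η hη
    have h1 : Commute θw η := Commute.all _ _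
    have h2 := h1.orderOf_mul_eq_mul_orderOf_of_coprime (by
      rw [← hθw.eq_orderOf, ← hη.eq_orderOf]
      exact hwk)
    rw [← hθw.eq_orderOf, ← hη.eq_orderOf] at h2
    rw [← h2]
    exact IsPrimitiveRoot.orderOf _
  set P : ℤ[X] := ∑ α ∈ A, C (b α) * X ^ (e α) with hP
  have hev : ∀ z : ℂ, aeval z P = ∑ α ∈ A, (b α : ℂ) * z ^ (e α) := by
    intro z
    rw [hP, map_sum]
    refine sum_congr rfl fun α _ => ?_
    rw [map_mul, map_pow, aeval_X, aeval_C]
    rfl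
  have h1 : cyclotomic (w * k) ℤ ∣ P := by
    rw [cyclotomic_eq_minpoly (hprim θk hθk) hwk0]
    exact minpoly.isIntegrallyClosed_dvd ((hprim θk hθk).isIntegral hwk0) (by rw [hev, h])
  have h2 : ∀ η ∈ primitiveRoots k ℂ, ∑ α ∈ A, (b α : ℂ) * (θw * η) ^ (e α) = 0 := by
    intro η hη
    rw [mem_primitiveRoots hk0] at hη
    obtain ⟨Q, hQ⟩ := h1
    rw [← hev, hQ, map_mul]
    have h3 : aeval (θw * η) (cyclotomic (w * k) ℤ) = 0 := by
      rw [aeval_def, eval₂_eq_eval_map, map_cyclotomic]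
      exact (hprim η hη).isRoot_cyclotomic hwk0
    rw [h3, zero_mul]
  have h3 : ∑ η ∈ primitiveRoots k ℂ, η ^ ρ * ∑ α ∈ A, (b α : ℂ) * (θw * η) ^ (e α) = 0 :=
    sum_eq_zero fun η hη => by rw [h2 η hη, mul_zero]
  have h4 : ∑ η ∈ primitiveRoots k ℂ, η ^ ρ * ∑ α ∈ A, (b α : ℂ) * (θw * η) ^ (e α) =
      (∑ α ∈ A, (b α : ℂ) * θw ^ (e α)) * ∑ η ∈ primitiveRoots k ℂ, η := by
    simp_rw [mul_sum]
    rw [sum_comm]
    rw [← mul_sum, sum_mul]
    refine sum_congr rfl fun α hα => ?_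
    rw [← sum_primitiveRoots_pow hk0 (hρ α hα), mul_sum]
    refine sum_congr rfl fun η _ => ?_
    rw [pow_add, mul_pow]
    ring
  rw [h4, sum_primitiveRoots hk0] at h3
  rcases mul_eq_zero.1 h3 with h5 | h5
  · exact h5
  · exfalso
    have : ArithmeticFunction.moebius k = 0 := by exact_mod_cast h5
    exact ArithmeticFunction.moebius_ne_zero_iff_squarefree.2 hk this

variable {N : ℕ}

lemma torsion2 {w k : ℕ} (hw : 0 < w) (hk : Squarefree k) (hwk : w.Coprime k)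
    {θw θk : ℂ} (hθw : IsPrimitiveRoot θw w) (hθk : IsPrimitiveRoot θk k)
    (F : MvPolynomial (Fin N) ℤ) (ε : Fin N → ℤ) (e : Fin N → ℕ)
    (hF : ∀ p : ℕ, p.Prime → p ∣ k → F.support.card < p)
    (h : aeval (θw * θk) (pat F ε e) = 0) :
    MvPolynomial.aeval (fun i => (ε i : ℂ) * θw ^ (e i)) F = 0 := by
  rw [aeval_expand] at h
  rw [← aeval_pat, aeval_expand]
  exact short_sum2 hw hk hwk hθw hθk F.support _ _ hF h

/-- the statement modulo a good prime, for one pattern -/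
lemma not_bad2 {S : Finset (MvPolynomial (Fin N) ℤ)} {w k q : ℕ} (hw : 0 < w) (hk : Squarefree k)
    (hwk : w.Coprime k) [Fact q.Prime] (hq : q ∉ bad S (w * k)) {g : ZMod q}
    (hg : IsPrimitiveRoot g (w * k))
    (hS : ∀ F ∈ S, ∀ p : ℕ, p.Prime → p ∣ k → F.support.card < p)
    (ε : Fin N → ℤ) (hε : ε ∈ Eps N) (e : Fin N → ℕ) (he : ∀ i, e i < w * k)
    (F : MvPolynomial (Fin N) ℤ) (hF : F ∈ S)
    (h : MvPolynomial.aeval (fun i => (ε i : ZMod q) * g ^ (e i)) F = 0)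
    {θw : ℂ} (hθw : IsPrimitiveRoot θw w) :
    MvPolynomial.aeval (fun i => (ε i : ℂ) * θw ^ (e i)) F = 0 := by
  have hk0 : 0 < k := Nat.pos_of_ne_zero hk.ne_zero
  have hwk0 : 0 < w * k := Nat.mul_pos hw hk0
  have h1 : Nn (w * k) F ε e = 0 := by
    by_contra h0
    apply hq
    rw [bad, mem_biUnion]
    refine ⟨F, hF, mem_biUnion.2 ⟨ε, hε, mem_biUnion.2 ⟨e, ?_, ?_⟩⟩⟩
    · rw [Fintype.mem_piFinset]
      exact fun i => mem_range.2 (he i)
    · rw [← aeval_pat] at h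
      have h2 := Nn_dvd hwk0 hg F ε e h
      exact Nat.mem_primeFactors.2 ⟨Fact.out, Int.natCast_dvd.1 h2, Int.natAbs_ne_zero.2 h0⟩
  obtain ⟨η, hη, h2⟩ := Nn_zero hwk0 F ε e h1
  -- any other primitive root is also a zero
  have hθk : IsPrimitiveRoot (Complex.exp (2 * Real.pi * Complex.I / k)) k :=
    Complex.isPrimitiveRoot_exp k hk0.ne'
  set θk := Complex.exp (2 * Real.pi * Complex.I / k)
  have hprim : IsPrimitiveRoot (θw * θk) (w * k) := by
    have h1 : Commute θw θk := Commute.all _ _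
    have h2 := h1.orderOf_mul_eq_mul_orderOf_of_coprime (by
      rw [← hθw.eq_orderOf, ← hθk.eq_orderOf]
      exact hwk)
    rw [← hθw.eq_orderOf, ← hθk.eq_orderOf] at h2
    rw [← h2]
    exact IsPrimitiveRoot.orderOf _
  have h3 : cyclotomic (w * k) ℤ ∣ pat F ε e := by
    rw [cyclotomic_eq_minpoly hη hwk0]
    exact minpoly.isIntegrallyClosed_dvd (hη.isIntegral hwk0) h2
  obtain ⟨Q, hQ⟩ := h3
  refine torsion2 hw hk hwk hθw hθk F ε e (hS F hF) ?_
  rw [hQ, map_mul]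
  have h4 : aeval (θw * θk) (cyclotomic (w * k) ℤ) = 0 := by
    rw [aeval_def, eval₂_eq_eval_map, map_cyclotomic]
    exact hprim.isRoot_cyclotomic hwk0
  rw [h4, zero_mul]

/-- the statement modulo a good prime -/
theorem local_zmod2 (S : Finset (MvPolynomial (Fin N) ℤ)) {w q k d T : ℕ} [hq : Fact q.Prime]
    (hw : 0 < w) (hqe : q = w * k * d + 1) (hqb : q ∉ bad S (w * k)) (hk : Squarefree k)
    (hkT : k ≡ 1 [MOD Pw T]) (hT : w ≤ T) (hST : ∀ F ∈ S, F.support.card ≤ T)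
    (y : Fin N → ZMod q) (hy1 : ∀ i, y i = 0 ∨ y i ^ (w * k) = 1)
    (hy : ∀ F ∈ S, MvPolynomial.aeval y F = 0) :
    ∃ (g : ZMod q) (e : Fin N → ℕ), IsPrimitiveRoot g (w * k) ∧
      (∀ i, y i ≠ 0 → y i = g ^ e i) ∧
      ∀ θ : ℂ, IsPrimitiveRoot θ w → ∀ F ∈ S,
        MvPolynomial.aeval (fun i => if y i = 0 then 0 else θ ^ (e i)) F = 0 := by
  classical
  have hk0 : 0 < k := Nat.pos_of_ne_zero hk.ne_zero
  have hwk0 : 0 < w * k := Nat.mul_pos hw hk0
  have hwk : w.Coprime k := by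
    refine Nat.coprime_of_dvd fun p hp hpw hpk => ?_
    have h1 := lt_of_dvd_k hkT hp hpk
    have h2 := Nat.le_of_dvd hw hpw
    omega
  have hkq : w * k ∣ q - 1 := by
    rw [hqe]
    exact ⟨d, by simp⟩
  obtain ⟨g, hg⟩ := exists_root hkq
  have : NeZero (w * k) := ⟨hwk0.ne'⟩
  have h1 : ∀ i, ∃ e, e < w * k ∧ (y i ≠ 0 → y i = g ^ e) := by
    intro i
    rcases hy1 i with h | h
    · exact ⟨0, hwk0, fun h2 => absurd h h2⟩
    · obtain ⟨e, he, h2⟩ := hg.eq_pow_of_pow_eq_one h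
      exact ⟨e, he, fun _ => h2.symm⟩
  choose e he1 he2 using h1
  refine ⟨g, e, hg, he2, fun θ hθ F hF => ?_⟩
  set ε : Fin N → ℤ := fun i => if y i = 0 then 0 else 1 with hε
  have h2 := not_bad2 hw hk hwk hqb hg
    (fun F hF p hp hpk => (hST F hF).trans_lt (lt_of_dvd_k hkT hp hpk)) ε
    (mem_Eps.2 fun i => by
      simp only [hε]
      split_ifs
      · exact Or.inr (Or.inl rfl)
      · exact Or.inr (Or.inr rfl)) e he1 F hF (by
      have h3 := hy F hF
      have h4 : y = fun i => (ε i : ZMod q) * g ^ (e i) := by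
        funext i
        simp only [hε]
        split_ifs with h5
        · rw [h5]
          simp
        · rw [he2 i h5]
          simp
      rw [← h4]
      exact h3) hθ
  have h5 : (fun i => if y i = 0 then (0 : ℂ) else θ ^ (e i)) =
      fun i => (ε i : ℂ) * θ ^ (e i) := by
    funext i
    simp only [hε]
    split_ifs <;> simp
  rw [h5]
  exact h2

end Pool.Agent.H912.AE
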