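import Pool.Agent.H912.AE.CycW

/-!
# Points over cyclotomic fields on the pull-backs of a projective variety under power maps

Let `w` be even and `K = ℚ(ζ_w)`.  For a closed set `X ⊂ ℙ^n` over `K`, given by an arbitrary
set `S` of forms, let `X_m = {x ∈ ℙ^n : (x_0^m : ... : x_n^m) ∈ X}`.  We prove a local-global
principle for the `K`-points of `X_m` for all `m` outside a set of natural density zero, and we
compute the density of `{m : X_m(K) ≠ ∅}`: it is the proportion of the residue classes `a` modulo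
`w` for which `X_a` has a point whose coordinates are zero or `w`-th roots of unity.

Ankeny and Erdős (1954) treated the diagonal equations `Σ a_i x_i^m = 0` over `ℚ`.
-/

set_option autoImplicit false

open Filter Topology

namespace Pool.Agent.H912.AE.Cyc0

/-- `x` is a vector of homogeneous coordinates of a point of `X_m` over the field `L`, where
`X ⊂ ℙ^n` is the set of common zeros of the forms in `S`, with coefficients in `K`, where
`X_m = {x : (x_0^m : ... : x_n^m) ∈ X}`, and where `L` is a `K`-algebra by means of `φ`. -/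
def IsPt {K L : Type} [Field K] [Field L] (φ : K →+* L) {n : ℕ}
    (S : Set (MvPolynomial (Fin (n + 1)) K)) (m : ℕ) (x : Fin (n + 1) → L) : Prop :=
  x ≠ 0 ∧ ∀ F ∈ S, MvPolynomial.eval₂ φ (fun i => x i ^ m) F = 0

/-- Every coordinate of `η` is zero or a `w`-th root of unity. -/
def IsTrivial (w : ℕ) {K : Type} [Field K] {n : ℕ} (η : Fin (n + 1) → K) : Prop :=
  ∀ i, η i = 0 ∨ η i ^ w = 1

/-- The set `A` of positive integers has natural density `δ`. -/
def HasDensity (A : Set ℕ) (δ : ℝ) : Prop :=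
  Tendsto (fun N : ℕ => ((A ∩ Set.Icc 1 N).ncard : ℝ) / N) atTop (𝓝 δ)

/-- **Main theorem.** Let `w` be even, `K = ℚ(ζ_w)`, let `X ⊂ ℙ^n` be the set of zeros of an
arbitrary set `S` of forms with coefficients in `K`, and let `X_m` be the pull-back of `X` under
`x ↦ x^m`.

1. For every `r` and all `m` outside a set of density zero, there are `r` primes `q`, such that
   `K` has an embedding in `ℚ_q`, with the following property: for every embedding
   `φ : K → ℚ_q` and every point `x` of `X_m` over `ℚ_q` there is a point `η ∈ X_m(K)`, all of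
   whose coordinates are zero or `w`-th roots of unity, whose nonzero coordinates are at the places
   of the coordinates of `x` of maximal absolute value.
2. For all `m` outside a set of density zero, if `X_m` has points over `ℚ_q` for all primes `q`
   and all embeddings of `K` in `ℚ_q`, then `X_m` has a point over `K` whose coordinates are zero
   or `w`-th roots of unity.
3. The set of `m` with `X_m(K) ≠ ∅` has a natural density, equal to the number of `a` with
   `1 ≤ a ≤ w` for which `X_a` has a point whose coordinates are zero or `w`-th roots of unity,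
   divided by `w`. -/
theorem cyclotomic {w : ℕ} [NeZero w] (hw : Even w) {K : Type} [Field K] [CharZero K]
    [IsCyclotomicExtension {w} ℚ K] {n : ℕ} (S : Set (MvPolynomial (Fin (n + 1)) K))
    (hS : ∀ F ∈ S, ∃ D, F.IsHomogeneous D) :
    (∀ r : ℕ, HasDensity {m | ∃ Q : Finset ℕ, Q.card = r ∧ ∀ q ∈ Q, ∃ _ : Fact q.Prime,
      Nonempty (K →+* ℚ_[q]) ∧ ∀ (φ : K →+* ℚ_[q]) (x : Fin (n + 1) → ℚ_[q]), IsPt φ S m x →
        ∃ η : Fin (n + 1) → K, IsTrivial w η ∧ IsPt (RingHom.id K) S m η ∧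
          ∀ i, (η i ≠ 0 ↔ ∀ j, ‖x j‖ ≤ ‖x i‖)} 1) ∧
    HasDensity {m | (∀ (q : ℕ) [Fact q.Prime] (φ : K →+* ℚ_[q]),
        ∃ x : Fin (n + 1) → ℚ_[q], IsPt φ S m x) →
      ∃ η : Fin (n + 1) → K, IsTrivial w η ∧ IsPt (RingHom.id K) S m η} 1 ∧
    HasDensity {m | ∃ x : Fin (n + 1) → K, IsPt (RingHom.id K) S m x}
      (({a ∈ Set.Icc 1 w | ∃ η : Fin (n + 1) → K, IsTrivial w η ∧
        IsPt (RingHom.id K) S a η}.ncard : ℝ) / w) := by
  classical
  have hw0 : 0 < w := Nat.pos_of_ne_zero (NeZero.ne w)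
  -- the set of good exponents
  set W : ℕ → Set ℕ := fun r => {m | ∃ Q : Finset ℕ, Q.card = r ∧ ∀ q ∈ Q,
    Pool.Agent.H912.AE.WitK w S m q} with hW
  have hWd : ∀ r, HasDensity (W r) 1 := by
    intro r
    refine Pool.Agent.H912.AE.full_of fun ε hε => ?_
    obtain ⟨N₀, h⟩ := Pool.Agent.H912.AE.witnessesK hw.two_dvd S hS r 0 hε
    refine ⟨N₀, fun M hM => le_trans ?_ (h M hM)⟩
    have h1 : (Finset.range M).filter (fun m => m ∉ W r) ⊆ (Finset.range M).filter (fun m =>
        ¬ ∃ Q : Finset ℕ, Q.card = r ∧ ∀ q ∈ Q, 0 < q ∧ Pool.Agent.H912.AE.WitK w S m q) := by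
      intro m hm
      rw [Finset.mem_filter] at hm ⊢
      refine ⟨hm.1, ?_⟩
      rintro ⟨Q, hQ, hQ'⟩
      exact hm.2 ⟨Q, hQ, fun q hq => (hQ' q hq).2⟩
    exact_mod_cast Finset.card_le_card h1
  have hcongr : ∀ (E O : Set ℕ) (r : ℕ) (δ : ℝ), HasDensity O δ →
      (∀ m ∈ W r, 1 ≤ m → (m ∈ E ↔ m ∈ O)) → HasDensity E δ := fun E O r δ hO h =>
    Pool.Agent.H912.AE.density_congr (hWd r) hO h
  have huniv : HasDensity Set.univ 1 := Pool.Agent.H912.AE.density_univ
  -- the property of a witness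
  have hwit : ∀ m q : ℕ, Pool.Agent.H912.AE.WitK w S m q → ∃ _ : Fact q.Prime,
      Nonempty (K →+* ℚ_[q]) ∧ ∀ (φ : K →+* ℚ_[q]) (x : Fin (n + 1) → ℚ_[q]), IsPt φ S m x →
        ∃ η : Fin (n + 1) → K, IsTrivial w η ∧ IsPt (RingHom.id K) S m η ∧
          ∀ i, (η i ≠ 0 ↔ ∀ j, ‖x j‖ ≤ ‖x i‖) := by
    rintro m q ⟨hq, h0, h⟩
    refine ⟨hq, h0, fun φ x hx => ?_⟩
    obtain ⟨η, h1, h2, h3⟩ := h φ x hx.1 hx.2
    refine ⟨η, h1, ⟨?_, ?_⟩, h2⟩
    · intro h5
      obtain ⟨i, hi⟩ := Finite.exists_max (fun i => ‖x i‖)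
      exact (h2 i).2 hi (congrFun h5 i)
    · exact h3
  have hloc : ∀ (m q : ℕ) [Fact q.Prime] (φ : K →+* ℚ_[q]) (x : Fin (n + 1) → K),
      IsPt (RingHom.id K) S m x → IsPt φ S m (fun i => φ (x i)) := by
    intro m q _ φ x hx
    refine ⟨fun h => hx.1 ?_, fun F hF => ?_⟩
    · funext i
      have := congrFun h i
      simp only [Pi.zero_apply, map_eq_zero] at this
      exact this
    · have h1 := congrArg φ (hx.2 F hF)
      rw [map_zero, MvPolynomial.hom_eval₂, RingHomCompTriple.comp_eq] at h1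
      have h2 : (⇑φ ∘ fun i => x i ^ m) = fun i => φ (x i) ^ m := by
        funext i
        simp
      rw [← h2]
      exact h1
  refine ⟨fun r => ?_, ?_, ?_⟩
  · refine hcongr _ _ r 1 huniv fun m hm _ => ⟨fun _ => Set.mem_univ _, fun _ => ?_⟩
    obtain ⟨Q, hQ, hQ'⟩ := hm
    exact ⟨Q, hQ, fun q hq => hwit m q (hQ' q hq)⟩
  · refine hcongr _ _ 1 1 huniv fun m hm _ => ⟨fun _ => Set.mem_univ _, fun _ => ?_⟩
    intro hall
    obtain ⟨Q, hQ, hQ'⟩ := hm
    obtain ⟨q, hq⟩ := Finset.card_eq_one.1 hQ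
    obtain ⟨h1, ⟨φ⟩, h2⟩ := hwit m q (hQ' q (by rw [hq]; exact Finset.mem_singleton_self q))
    obtain ⟨x, hx⟩ := hall q φ
    obtain ⟨η, h3, h4, -⟩ := h2 φ x hx
    exact ⟨η, h3, h4⟩
  · set A : Finset ℕ := (Finset.Icc 1 w).filter (fun a => ∃ η : Fin (n + 1) → K,
      IsTrivial w η ∧ IsPt (RingHom.id K) S a η) with hA
    have hAc : {a ∈ Set.Icc 1 w | ∃ η : Fin (n + 1) → K, IsTrivial w η ∧
        IsPt (RingHom.id K) S a η}.ncard = A.card := by
      rw [← Set.ncard_coe_finset]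
      congr 1
      ext a
      simp only [hA, Finset.coe_filter, Finset.mem_Icc, Set.mem_ofPred_eq, Set.mem_Icc]
    rw [hAc]
    have h1 : HasDensity {m | ∃ a ∈ A, m ≡ a [MOD w]} (A.card / w) :=
      Pool.Agent.H912.AE.density_periodic hw0 A (Finset.filter_subset _ _)
    have hper : ∀ (m a : ℕ) (η : Fin (n + 1) → K), 1 ≤ m → 1 ≤ a → m ≡ a [MOD w] →
        IsTrivial w η → IsPt (RingHom.id K) S m η → IsPt (RingHom.id K) S a η := by
      intro m a η hm ha hma hη hx
      refine ⟨hx.1, ?_⟩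
      have h2 : (fun i => η i ^ a) = fun i => η i ^ m := by
        funext i
        rcases hη i with h3 | h3
        · rw [h3, zero_pow (by omega), zero_pow (by omega)]
        · exact pow_eq_pow_of_modEq hma.symm h3
      rw [h2]
      exact hx.2
    refine hcongr _ _ 1 _ h1 fun m hm hm1 => ⟨fun h => ?_, fun h => ?_⟩
    · obtain ⟨Q, hQ, hQ'⟩ := hm
      obtain ⟨x, hx⟩ := h
      obtain ⟨q, hq⟩ := Finset.card_eq_one.1 hQ
      obtain ⟨h1, ⟨φ⟩, h2⟩ := hwit m q (hQ' q (by rw [hq]; exact Finset.mem_singleton_self q))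
      obtain ⟨η, h3, h4, -⟩ := h2 φ _ (hloc m q φ x hx)
      obtain ⟨a, ha1, ha2, ha3⟩ : ∃ a, 1 ≤ a ∧ a ≤ w ∧ m ≡ a [MOD w] := by
        by_cases h0 : m % w = 0
        · refine ⟨w, hw0, le_refl _, ?_⟩
          rw [Nat.ModEq, h0, Nat.mod_self]
        · exact ⟨m % w, by omega, (Nat.mod_lt m hw0).le, (Nat.mod_modEq m w).symm⟩
      refine ⟨a, ?_, ha3⟩
      rw [hA, Finset.mem_filter, Finset.mem_Icc]
      exact ⟨⟨ha1, ha2⟩, η, h3, hper m a η hm1 ha1 ha3 h3 h4⟩
    · obtain ⟨a, ha, hma⟩ := h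
      rw [hA, Finset.mem_filter, Finset.mem_Icc] at ha
      obtain ⟨⟨ha1, ha2⟩, η, h3, h4⟩ := ha
      exact ⟨η, hper a m η ha1 hm1 hma.symm h3 h4⟩

end Pool.Agent.H912.AE.Cyc0
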