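import Pool.Agent.H912.AE.Cyc

/-!
# Cyclotomic fields: from forms over `K` to polynomials with integral coefficients (helper912)
-/

set_option autoImplicit false

open Finset Polynomial

namespace Pool.Agent.H912.AE

/-- `ζ` generates `K` over the rational numbers -/
def Gen {K : Type} [Field K] [CharZero K] (ζ : K) : Prop := ∀ c : K, ∃ p : ℚ[X], aeval ζ p = c

lemma gen_of_cyclotomic {w : ℕ} [NeZero w] {K : Type} [Field K] [CharZero K]
    [IsCyclotomicExtension {w} ℚ K] {ζ : K} (hζ : IsPrimitiveRoot ζ w) : Gen ζ := by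
  intro c
  have h := IsCyclotomicExtension.adjoin_primitive_root_eq_top (A := ℚ) hζ
  rw [Algebra.adjoin_singleton_eq_range_aeval] at h
  have hc : c ∈ (aeval ζ : ℚ[X] →ₐ[ℚ] K).range := by
    rw [h]
    exact Algebra.mem_top
  exact hc

lemma exists_hom {w : ℕ} [NeZero w] {K : Type} [Field K] [CharZero K]
    [IsCyclotomicExtension {w} ℚ K] {ζ : K} (hζ : IsPrimitiveRoot ζ w) {R : Type} [Field R]
    [CharZero R] {z : R} (hz : IsPrimitiveRoot z w) : ∃ σ : K →+* R, σ ζ = z := by
  have hw : 0 < w := Nat.pos_of_ne_zero (NeZero.ne w)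
  have h1 : aeval z (minpoly ℚ (hζ.powerBasis ℚ).gen) = 0 := by
    rw [IsPrimitiveRoot.powerBasis_gen, ← cyclotomic_eq_minpoly_rat hζ hw, aeval_def,
      eval₂_eq_eval_map, map_cyclotomic]
    exact hz.isRoot_cyclotomic hw
  refine ⟨((hζ.powerBasis ℚ).lift z h1 : K →ₐ[ℚ] R), ?_⟩
  have h2 := (hζ.powerBasis ℚ).lift_gen z h1
  rw [IsPrimitiveRoot.powerBasis_gen] at h2
  exact h2

lemma exists_int {K : Type} [Field K] [CharZero K] {ζ : K} (hg : Gen ζ) (c : K) :
    ∃ (D : ℤ) (p : ℤ[X]), D ≠ 0 ∧ aeval ζ p = (D : K) * c := by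
  obtain ⟨p, hp⟩ := hg c
  obtain ⟨b, hb, h⟩ := IsLocalization.integerNormalization_spec (nonZeroDivisors ℤ) p
  refine ⟨b, IsLocalization.integerNormalization (nonZeroDivisors ℤ) p,
    nonZeroDivisors.ne_zero hb, ?_⟩
  have h1 := congrArg (aeval ζ) h
  rw [aeval_map_algebraMap] at h1
  rw [h1, map_zsmul, hp, zsmul_eq_mul]

lemma exists_common {K : Type} [Field K] [CharZero K] {ζ : K} (hg : Gen ζ) (T : Finset K) :
    ∃ D : ℤ, D ≠ 0 ∧ ∀ c ∈ T, ∃ p : ℤ[X], aeval ζ p = (D : K) * c := by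
  classical
  induction T using Finset.induction_on with
  | empty => exact ⟨1, one_ne_zero, by simp⟩
  | insert a T ha ih =>
    obtain ⟨D, hD, h⟩ := ih
    obtain ⟨D', p', hD', hp'⟩ := exists_int hg a
    refine ⟨D * D', mul_ne_zero hD hD', fun c hc => ?_⟩
    rcases mem_insert.1 hc with rfl | hc
    · refine ⟨C D * p', ?_⟩
      rw [map_mul, hp', aeval_C]
      push_cast
      simp only [algebraMap_int_eq, eq_intCast]
      ring
    · obtain ⟨p, hp⟩ := h c hc
      refine ⟨C D' * p, ?_⟩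
      rw [map_mul, hp, aeval_C]
      push_cast
      simp only [algebraMap_int_eq, eq_intCast]
      ring

variable {N : ℕ}

lemma exists_intForm {K : Type} [Field K] [CharZero K] {ζ : K} (hg : Gen ζ)
    (F : MvPolynomial (Fin N) K) : ∃ (G : MvPolynomial (Fin (N + 1)) ℤ) (D : ℤ), D ≠ 0 ∧
      ∀ (R : Type) [CommRing R] (φ : K →+* R) (z : Fin N → R),
        MvPolynomial.aeval (Fin.cons (φ ζ) z : Fin (N + 1) → R) G =
          (D : R) * MvPolynomial.eval₂ φ z F := by
  classical
  obtain ⟨D, hD, h⟩ := exists_common hg (F.support.image fun α => F.coeff α)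
  have h1 : ∀ α : Fin N →₀ ℕ, ∃ p : ℤ[X], α ∈ F.support → aeval ζ p = (D : K) * F.coeff α := by
    intro α
    by_cases hα : α ∈ F.support
    · obtain ⟨p, hp⟩ := h _ (mem_image_of_mem _ hα)
      exact ⟨p, fun _ => hp⟩
    · exact ⟨0, fun h => absurd h hα⟩
  choose p hp using h1
  refine ⟨∑ α ∈ F.support, aeval (MvPolynomial.X 0 : MvPolynomial (Fin (N + 1)) ℤ) (p α) *
    ∏ i, MvPolynomial.X i.succ ^ (α i), D, hD, fun R _ φ z => ?_⟩
  rw [map_sum, MvPolynomial.eval₂_eq', mul_sum]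
  refine sum_congr rfl fun α hα => ?_
  rw [map_mul, map_prod]
  have h2 : MvPolynomial.aeval (Fin.cons (φ ζ) z : Fin (N + 1) → R)
      (aeval (MvPolynomial.X 0 : MvPolynomial (Fin (N + 1)) ℤ) (p α)) = aeval (φ ζ) (p α) := by
    rw [← Polynomial.aeval_algHom_apply, MvPolynomial.aeval_X]
    rfl
  have h3 : aeval (φ ζ) (p α) = (D : R) * φ (F.coeff α) := by
    have h4 := congrArg φ (hp α hα)
    rw [map_mul, map_intCast, aeval_def, hom_eval₂] at h4
    rw [← h4, aeval_def]
    congr 1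
    exact RingHom.ext_int _ _
  rw [h2, h3, mul_assoc]
  congr 2
  refine prod_congr rfl fun i _ => ?_
  rw [map_pow, MvPolynomial.aeval_X, Fin.cons_succ]

/-- every set of polynomials over `K` may be replaced by a finite set of polynomials with integral
coefficients in one more variable -/
theorem reduceK {K : Type} [Field K] [CharZero K] {ζ : K} (hg : Gen ζ)
    (S : Set (MvPolynomial (Fin N) K)) :
    ∃ S' : Finset (MvPolynomial (Fin (N + 1)) ℤ), ∀ (R : Type) [CommRing R] [IsDomain R]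
      [CharZero R] (φ : K →+* R) (z : Fin N → R),
        (∀ G ∈ S', MvPolynomial.aeval (Fin.cons (φ ζ) z : Fin (N + 1) → R) G = 0) ↔
          ∀ F ∈ S, MvPolynomial.eval₂ φ z F = 0 := by
  classical
  have hfg : (Submodule.span (MvPolynomial (Fin N) K) S).FG := IsNoetherian.noetherian _
  obtain ⟨T, hT, hspan⟩ := (Submodule.fg_span_iff_fg_span_finset_subset S).1 hfg
  choose G D hD hG using fun F : MvPolynomial (Fin N) K => exists_intForm hg F
  have key : ∀ (R : Type) [CommRing R] [IsDomain R] [CharZero R] (φ : K →+* R) (z : Fin N → R)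
      (F : MvPolynomial (Fin N) K),
      MvPolynomial.aeval (Fin.cons (φ ζ) z : Fin (N + 1) → R) (G F) = 0 ↔
        MvPolynomial.eval₂ φ z F = 0 := by
    intro R _ _ _ φ z F
    rw [hG F R φ z, mul_eq_zero]
    have h : ((D F : ℤ) : R) ≠ 0 := by exact_mod_cast hD F
    exact ⟨fun h1 => h1.resolve_left h, fun h1 => Or.inr h1⟩
  refine ⟨T.image G, fun R _ _ _ φ z => ?_⟩
  constructor
  · intro h F hF
    have h1 : F ∈ Submodule.span (MvPolynomial (Fin N) K) (T : Set (MvPolynomial (Fin N) K)) := by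
      rw [← hspan]
      exact Submodule.subset_span hF
    have h2 : Submodule.span (MvPolynomial (Fin N) K) (T : Set (MvPolynomial (Fin N) K)) ≤
        RingHom.ker (MvPolynomial.eval₂Hom φ z) := by
      rw [Submodule.span_le]
      intro F' hF'
      rw [SetLike.mem_coe, RingHom.mem_ker]
      exact (key R φ z F').1 (h _ (mem_image_of_mem _ hF'))
    exact h2 h1
  · intro h F hF
    obtain ⟨F', hF', rfl⟩ := mem_image.1 hF
    exact (key R φ z F').2 (h F' (hT hF'))

lemma eval₂_smul_hom {K R : Type} [CommRing K] [CommRing R] (φ : K →+* R)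
    {F : MvPolynomial (Fin N) K} {D : ℕ} (hF : F.IsHomogeneous D) (c : R) (z : Fin N → R) :
    MvPolynomial.eval₂ φ (fun i => c * z i) F = c ^ D * MvPolynomial.eval₂ φ z F := by
  rw [MvPolynomial.eval₂_eq', MvPolynomial.eval₂_eq', mul_sum]
  refine sum_congr rfl fun α hα => ?_
  have h1 : ∑ i, α i = D := by
    have h2 := hF (MvPolynomial.mem_support_iff.1 hα)
    rw [← h2, Finsupp.weight_apply, Finsupp.sum_fintype _ _ (fun i => by simp)]
    simp
  simp_rw [mul_pow]
  rw [prod_mul_distrib, prod_pow_eq_pow_sum, h1]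
  ring

/-- primitive roots of unity in `ℚ_q` -/
lemma exists_padic_root {w q : ℕ} [hq : Fact q.Prime] (hw : 0 < w) (hwq : w ∣ q - 1) :
    ∃ z : ℚ_[q], IsPrimitiveRoot z w := by
  obtain ⟨g, hg⟩ := exists_root hwq
  obtain ⟨a, ha⟩ := ZMod.ringHom_surjective (PadicInt.toZMod (p := q)) g
  have hqw : ¬ q ∣ w := by
    intro h
    have h1 := Nat.le_of_dvd hw h
    have h2 := Nat.le_of_dvd (Nat.sub_pos_of_lt hq.out.one_lt) hwq
    have := hq.out.pos
    omega
  have hunit : ∀ b : ℤ_[q], PadicInt.toZMod b ≠ 0 → ‖b‖ = 1 := by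
    intro b hb
    by_contra h
    have h1 : ‖b‖ < 1 := lt_of_le_of_ne b.norm_le_one h
    apply hb
    rw [← RingHom.mem_ker, PadicInt.ker_toZMod, IsLocalRing.mem_maximalIdeal,
      PadicInt.mem_nonunits]
    exact h1
  have hsmall : ∀ b : ℤ_[q], PadicInt.toZMod b = 0 → ‖b‖ < 1 := by
    intro b hb
    rw [← RingHom.mem_ker, PadicInt.ker_toZMod, IsLocalRing.mem_maximalIdeal,
      PadicInt.mem_nonunits] at hb
    exact hb
  have hg0 : g ≠ 0 := hg.ne_zero hw.ne'
  have h1 : ‖aeval a (X ^ w - 1 : ℤ_[q][X])‖ < ‖aeval a (derivative (X ^ w - 1 : ℤ_[q][X]))‖ ^ 2 := by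
    have h2 : ‖aeval a (derivative (X ^ w - 1 : ℤ_[q][X]))‖ = 1 := by
      apply hunit
      simp only [derivative_sub, derivative_X_pow, derivative_one, sub_zero, map_mul, map_pow,
        aeval_X, map_natCast, ha]
      apply mul_ne_zero
      · rw [Ne, ZMod.natCast_eq_zero_iff]
        exact hqw
      · exact pow_ne_zero _ hg0
    rw [h2, one_pow]
    apply hsmall
    simp only [map_sub, map_pow, aeval_X, map_one, ha, hg.pow_eq_one, sub_self]
  obtain ⟨z, hz1, hz2, -, -⟩ := hensels_lemma h1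
  have h2 : z ^ w = 1 := by
    simp only [map_sub, map_pow, aeval_X, map_one] at hz1
    exact sub_eq_zero.1 hz1
  have h3 : PadicInt.toZMod z = g := by
    have h4 : ‖z - a‖ < 1 := by
      refine hz2.trans_le ?_
      exact PadicInt.norm_le_one _
    have h5 : PadicInt.toZMod (z - a) = 0 := by
      rw [← RingHom.mem_ker, PadicInt.ker_toZMod, IsLocalRing.mem_maximalIdeal,
        PadicInt.mem_nonunits]
      exact h4
    rw [map_sub, sub_eq_zero] at h5
    rw [h5, ha]
  refine ⟨(z : ℚ_[q]), ?_, fun l hl => ?_⟩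
  · rw [← PadicInt.coe_pow, h2, PadicInt.coe_one]
  · apply hg.dvd_of_pow_eq_one
    rw [← PadicInt.coe_pow] at hl
    have h4 : z ^ l = 1 := Subtype.coe_injective (hl.trans PadicInt.coe_one.symm)
    rw [← h3, ← map_pow, h4, map_one]

end Pool.Agent.H912.AE
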