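import Pool.Agent.H912.AE.CycK

/-!
# Cyclotomic fields: local points (helper912)
-/

set_option autoImplicit false

open Finset Polynomial

namespace Pool.Agent.H912.AE

variable {N : ℕ}

lemma eq_one_of_pow {w q : ℕ} [hq : Fact q.Prime] (hqw : ¬ q ∣ w) {u : ℤ_[q]} (hu : u ^ w = 1)
    (h1 : PadicInt.toZMod u = 1) : u = 1 := by
  have h2 : (∑ i ∈ range w, u ^ i) * (u - 1) = 0 := by
    rw [geom_sum_mul, hu, sub_self]
  rcases mul_eq_zero.1 h2 with h3 | h3
  · exfalso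
    have h4 := congrArg (PadicInt.toZMod (p := q)) h3
    rw [map_sum, map_zero] at h4
    simp only [map_pow, h1, one_pow, sum_const, card_range, nsmul_eq_mul, mul_one] at h4
    exact hqw ((ZMod.natCast_eq_zero_iff _ _).1 h4)
  · exact sub_eq_zero.1 h3

lemma exists_mul_modEq {w m e : ℕ} (hw : 0 < w) (h : Nat.gcd m w ∣ e) :
    ∃ b : ℕ, m * b ≡ e [MOD w] := by
  obtain ⟨e', rfl⟩ := h
  have h1 := Nat.gcd_eq_gcd_ab m w
  set a := Nat.gcdA m w with ha
  have hw' : (0 : ℤ) < w := by exact_mod_cast hw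
  have h2 : (((a % w).toNat : ℕ) : ℤ) = a % w := Int.toNat_of_nonneg (Int.emod_nonneg _ hw'.ne')
  refine ⟨(a % w).toNat * e', ?_⟩
  rw [← Int.natCast_modEq_iff]
  push_cast
  rw [h2]
  have h3 : (m : ℤ) * (a % w) ≡ (m : ℤ) * a [ZMOD w] := (Int.mod_modEq a w).mul_left _
  have h4 : (m : ℤ) * a ≡ (Nat.gcd m w : ℤ) [ZMOD w] := by
    rw [h1]
    have h5 : (m : ℤ) * a + w * Nat.gcdB m w ≡ (m : ℤ) * a + 0 [ZMOD w] :=
      Int.ModEq.add_left _ ((Int.modEq_zero_iff_dvd).2 (Dvd.intro _ rfl))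
    rw [add_zero] at h5
    exact h5.symm
  have h5 := (h3.trans h4).mul_right (e' : ℤ)
  rw [mul_assoc] at h5
  exact h5

theorem local_K {w : ℕ} [NeZero w] {K : Type} [Field K] [CharZero K]
    [IsCyclotomicExtension {w} ℚ K] {ζ : K} (hζ : IsPrimitiveRoot ζ w)
    (S : Set (MvPolynomial (Fin N) K)) (hom : ∀ F ∈ S, ∃ D, F.IsHomogeneous D)
    (S' : Finset (MvPolynomial (Fin (N + 1)) ℤ))
    (hS' : ∀ (R : Type) [CommRing R] [IsDomain R] [CharZero R] (φ : K →+* R) (z : Fin N → R),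
        (∀ G ∈ S', MvPolynomial.aeval (Fin.cons (φ ζ) z : Fin (N + 1) → R) G = 0) ↔
          ∀ F ∈ S, MvPolynomial.eval₂ φ z F = 0)
    {q k d m T : ℕ} [hq : Fact q.Prime] (hqe : q = w * k * d + 1) (hqb : q ∉ bad S' (w * k))
    (hk : Squarefree k) (hkT : k ≡ 1 [MOD Pw T]) (hT : w ≤ T)
    (hST : ∀ F ∈ S', F.support.card ≤ T) (hd : d ∣ m) (hdw : d.Coprime w) (hm0 : m ≠ 0)
    (φ : K →+* ℚ_[q]) (x : Fin N → ℚ_[q]) (hx : x ≠ 0)
    (hy : ∀ F ∈ S, MvPolynomial.eval₂ φ (fun i => x i ^ m) F = 0) :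
    ∃ η : Fin N → K, (∀ i, η i = 0 ∨ η i ^ w = 1) ∧ (∀ i, η i ≠ 0 ↔ ∀ j, ‖x j‖ ≤ ‖x i‖) ∧
      ∀ F ∈ S, MvPolynomial.eval (fun i => η i ^ m) F = 0 := by
  classical
  have hw : 0 < w := Nat.pos_of_ne_zero (NeZero.ne w)
  have hk0 : 0 < k := Nat.pos_of_ne_zero hk.ne_zero
  have hwk0 : 0 < w * k := Nat.mul_pos hw hk0
  have hd0 : 0 < d := Nat.pos_of_ne_zero (by
    rintro rfl
    exact hm0 (Nat.eq_zero_of_zero_dvd hd))
  have hwk : w.Coprime k := by
    refine Nat.coprime_of_dvd fun p hp hpw hpk => ?_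
    have h1 := lt_of_dvd_k hkT hp hpk
    have h2 := Nat.le_of_dvd hw hpw
    omega
  have hqw : ¬ q ∣ w := by
    intro h
    have h1 := Nat.le_of_dvd hw h
    have h2 : w * 1 ≤ w * (k * d) := Nat.mul_le_mul_left w (Nat.mul_pos hk0 hd0)
    have h3 : w * k * d = w * (k * d) := by ring
    omega
  obtain ⟨j₀, hj₀⟩ := Function.ne_iff.1 hx
  have : Nonempty (Fin N) := ⟨j₀⟩
  obtain ⟨i₀, hi₀⟩ := Finite.exists_max (fun i => ‖x i‖)
  have hx0 : x i₀ ≠ 0 := by
    intro h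
    have h1 := hi₀ j₀
    rw [h, norm_zero] at h1
    exact hj₀ (norm_le_zero_iff.1 h1)
  have hn0 : 0 < ‖x i₀‖ := norm_pos_iff.2 hx0
  have hz : ∀ i, ‖x i / x i₀‖ ≤ 1 := by
    intro i
    rw [norm_div, div_le_one hn0]
    exact hi₀ i
  let z : Fin N → ℤ_[q] := fun i => ⟨x i / x i₀, hz i⟩
  have hzx : ∀ i, (z i : ℚ_[q]) = x i / x i₀ := fun i => rfl
  have hφw : (φ ζ) ^ w = 1 := by rw [← map_pow, hζ.pow_eq_one, map_one]
  have hφn : ‖φ ζ‖ ≤ 1 := by
    have h1 : ‖φ ζ‖ ^ w = 1 := by rw [← norm_pow, hφw, norm_one]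
    exact ((pow_eq_one_iff_of_nonneg (norm_nonneg _) hw.ne').1 h1).le
  let zζ : ℤ_[q] := ⟨φ ζ, hφn⟩
  have hzζ : (zζ : ℚ_[q]) = φ ζ := rfl
  have hzζw : zζ ^ w = 1 := Subtype.coe_injective (hφw.trans PadicInt.coe_one.symm)
  -- the equations over `ℚ_q`
  have h1 : ∀ F ∈ S, MvPolynomial.eval₂ φ (fun i => (z i : ℚ_[q]) ^ m) F = 0 := by
    intro F hF
    obtain ⟨D, hD⟩ := hom F hF
    have h2 := hy F hF
    have h3 : (fun i => x i ^ m) = fun i => (x i₀ ^ m) * ((z i : ℚ_[q]) ^ m) := by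
      funext i
      rw [hzx, ← mul_pow]
      congr 1
      field_simp
    rw [h3, eval₂_smul_hom φ hD] at h2
    rcases mul_eq_zero.1 h2 with h4 | h4
    · exact absurd h4 (pow_ne_zero _ (pow_ne_zero _ hx0))
    · exact h4
  -- the equations over `ℤ_q`
  let c : Fin (N + 1) → ℤ_[q] := Fin.cons zζ fun i => z i ^ m
  have h2 : ∀ G ∈ S', MvPolynomial.aeval c G = 0 := by
    intro G hG
    have h3 := (hS' ℚ_[q] φ (fun i => (z i : ℚ_[q]) ^ m)).2 h1 G hG
    have h4 := aeval_ringHom (PadicInt.Coe.ringHom (p := q)) c G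
    have h5 : (fun i => PadicInt.Coe.ringHom (p := q) (c i)) =
        (Fin.cons (φ ζ) (fun i => (z i : ℚ_[q]) ^ m) : Fin (N + 1) → ℚ_[q]) := by
      funext i
      refine Fin.cases ?_ (fun j => ?_) i
      · rfl
      · simp only [c, Fin.cons_succ]
        exact PadicInt.coe_pow (z j) m
    rw [h5, h3] at h4
    exact Subtype.coe_injective h4
  -- the equations over the residue field
  let y : Fin (N + 1) → ZMod q := fun i => PadicInt.toZMod (c i)
  have h3 : ∀ G ∈ S', MvPolynomial.aeval y G = 0 := by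
    intro G hG
    have h4 := aeval_ringHom (PadicInt.toZMod (p := q)) c G
    rw [h2 G hG, map_zero] at h4
    exact h4.symm
  have hy0 : y 0 = PadicInt.toZMod zζ := rfl
  have hys : ∀ i : Fin N, y i.succ = (PadicInt.toZMod (z i)) ^ m := fun i => by
    simp only [y, c, Fin.cons_succ, map_pow]
  have hy0w : y 0 ^ w = 1 := by rw [hy0, ← map_pow, hzζw, map_one]
  obtain ⟨t, ht⟩ := (hdw.coprime_dvd_right (Nat.gcd_dvd_left w m)).mul_dvd_of_dvd_of_dvd hd
    (Nat.gcd_dvd_right w m)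
  obtain ⟨w', hw'⟩ := Nat.gcd_dvd_left w m
  set g0 := Nat.gcd w m with hg0
  have hw'0 : 0 < w' := Nat.pos_of_ne_zero (by
    rintro rfl
    rw [mul_zero] at hw'
    exact hw.ne' hw')
  have hq1 : q - 1 = w * k * d := by rw [hqe]; simp
  have hyw : ∀ i : Fin N, y i.succ ≠ 0 → y i.succ ^ (w' * k) = 1 := by
    intro i hi
    rw [hys] at hi ⊢
    have ha : PadicInt.toZMod (z i) ≠ 0 := by
      intro h
      rw [h, zero_pow hm0] at hi
      exact hi rfl
    have h4 := ZMod.pow_card_sub_one_eq_one ha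
    rw [← pow_mul]
    have h5 : m * (w' * k) = (q - 1) * t := by
      rw [hq1]
      calc m * (w' * k) = d * g0 * t * (w' * k) := by rw [← ht]
        _ = (g0 * w') * k * d * t := by ring
        _ = w * k * d * t := by rw [← hw']
    rw [h5, pow_mul, h4, one_pow]
  have hy1 : ∀ i, y i = 0 ∨ y i ^ (w * k) = 1 := by
    intro i
    refine Fin.cases ?_ (fun j => ?_) i
    · right
      rw [pow_mul, hy0w, one_pow]
    · by_cases hj : y j.succ = 0
      · exact Or.inl hj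
      · right
        have h5 : w * k = w' * k * g0 := by
          calc w * k = (g0 * w') * k := by rw [← hw']
            _ = w' * k * g0 := by ring
        rw [h5, pow_mul, hyw j hj, one_pow]
  obtain ⟨g, e, hg, he, hθ⟩ := local_zmod2 S' hw hqe hqb hk hkT hT hST y hy1 h3
  have hy00 : y 0 ≠ 0 := by
    intro h
    rw [h, zero_pow hw.ne'] at hy0w
    exact zero_ne_one hy0w
  have hy0e : y 0 = g ^ e 0 := he 0 hy00
  have hord : ∀ l, y 0 ^ l = 1 → w ∣ l := by
    intro l hl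
    have h4 : zζ ^ l = 1 := by
      refine eq_one_of_pow hqw ?_ ?_
      · rw [← pow_mul, mul_comm, pow_mul, hzζw, one_pow]
      · rw [map_pow, ← hy0, hl]
    have h5 : (φ ζ) ^ l = 1 := by
      rw [← hzζ, ← PadicInt.coe_pow, h4, PadicInt.coe_one]
    rw [← map_pow, ← map_one φ] at h5
    exact hζ.dvd_of_pow_eq_one _ (φ.injective h5)
  have he0 : (e 0).Coprime w := by
    have h4 : w * k ∣ e 0 * w := by
      apply hg.dvd_of_pow_eq_one
      rw [pow_mul, ← hy0e, hy0w]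
    have h5 : k ∣ e 0 := by
      rw [mul_comm (e 0) w] at h4
      exact Nat.dvd_of_mul_dvd_mul_left hw h4
    refine Nat.coprime_of_dvd fun p hp hpe hpw => ?_
    have hpk : p.Coprime k := hwk.coprime_dvd_left hpw
    have h6 : p * k ∣ e 0 := hpk.mul_dvd_of_dvd_of_dvd hpe h5
    obtain ⟨w₁, hw₁⟩ := hpw
    have hw₁0 : 0 < w₁ := Nat.pos_of_ne_zero (by
      rintro rfl
      rw [mul_zero] at hw₁
      exact hw.ne' hw₁)
    have h7 : y 0 ^ w₁ = 1 := by
      rw [hy0e, ← pow_mul]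
      rw [hg.pow_eq_one_iff_dvd]
      have h8 : w * k = p * k * w₁ := by rw [hw₁]; ring
      rw [h8]
      exact Nat.mul_dvd_mul_right h6 w₁
    have h8 := Nat.le_of_dvd hw₁0 (hord _ h7)
    have h9 := hp.two_le
    nlinarith
  -- the point over the complex numbers
  have hθ' : IsPrimitiveRoot (Complex.exp (2 * Real.pi * Complex.I / w)) w :=
    Complex.isPrimitiveRoot_exp w hw.ne'
  set θ := Complex.exp (2 * Real.pi * Complex.I / w)
  have hθe : IsPrimitiveRoot (θ ^ e 0) w := hθ'.pow_of_coprime (e 0) he0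
  obtain ⟨σ, hσ⟩ := exists_hom hζ hθe
  have h4 : ∀ F ∈ S, MvPolynomial.eval₂ σ
      (fun i : Fin N => if y i.succ = 0 then 0 else θ ^ (e i.succ)) F = 0 := by
    rw [← hS' ℂ σ]
    intro G hG
    have h5 := hθ θ hθ' G hG
    have h6 : (fun i => if y i = 0 then (0 : ℂ) else θ ^ (e i)) =
        (Fin.cons (σ ζ) (fun i : Fin N => if y i.succ = 0 then 0 else θ ^ (e i.succ)) :
          Fin (N + 1) → ℂ) := by
      funext i
      refine Fin.cases ?_ (fun j => ?_) i
      · simp only [Fin.cons_zero, if_neg hy00, hσ]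
      · simp only [Fin.cons_succ]
    rw [h6] at h5
    exact h5
  obtain ⟨c', -, hc'⟩ := hθe.eq_pow_of_pow_eq_one hθ'.pow_eq_one
  have hb : ∀ i : Fin N, ∃ b : ℕ, y i.succ ≠ 0 → m * b ≡ e i.succ [MOD w] := by
    intro i
    by_cases hi : y i.succ = 0
    · exact ⟨0, fun h => absurd hi h⟩
    · have h5 : g0 ∣ e i.succ := by
        have h6 := hyw i hi
        rw [he _ hi, ← pow_mul, hg.pow_eq_one_iff_dvd] at h6
        have h7 : w * k = g0 * (w' * k) := by
          calc w * k = (g0 * w') * k := by rw [← hw']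
            _ = g0 * (w' * k) := by ring
        rw [h7] at h6
        exact Nat.dvd_of_mul_dvd_mul_right (Nat.mul_pos hw'0 hk0) h6
      obtain ⟨b, hb⟩ := exists_mul_modEq hw (by rw [Nat.gcd_comm, ← hg0]; exact h5 :
        Nat.gcd m w ∣ e i.succ)
      exact ⟨b, fun _ => hb⟩
  choose b hb using hb
  have hz1 : ∀ i, y i.succ ≠ 0 ↔ ∀ j, ‖x j‖ ≤ ‖x i‖ := by
    intro i
    have h5 : y i.succ = 0 ↔ ‖z i‖ < 1 := by
      rw [hys, pow_eq_zero_iff hm0, ← RingHom.mem_ker, PadicInt.ker_toZMod,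
        IsLocalRing.mem_maximalIdeal, PadicInt.mem_nonunits]
    have h6 : ‖z i‖ = ‖x i‖ / ‖x i₀‖ := by
      rw [PadicInt.norm_def, hzx, norm_div]
    rw [Ne, h5, h6, div_lt_one hn0, not_lt]
    constructor
    · intro h j
      exact (hi₀ j).trans h
    · intro h
      exact h i₀
  refine ⟨fun i => if y i.succ = 0 then 0 else ζ ^ (c' * b i), fun i => ?_, fun i => ?_,
    fun F hF => ?_⟩
  · by_cases hi : y i.succ = 0
    · exact Or.inl (if_pos hi)
    · right
      simp only [if_neg hi]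
      rw [← pow_mul, mul_comm, pow_mul, hζ.pow_eq_one, one_pow]
  · rw [← hz1]
    by_cases hi : y i.succ = 0
    · simp [hi]
    · simp only [if_neg hi]
      refine ⟨fun _ => hi, fun _ => ?_⟩
      exact pow_ne_zero _ (hζ.ne_zero hw.ne')
  · apply σ.injective
    rw [map_zero, MvPolynomial.eval, MvPolynomial.coe_eval₂Hom, MvPolynomial.hom_eval₂]
    rw [RingHom.comp_id]
    rw [← h4 F hF]
    congr 1
    funext i
    by_cases hi : y i.succ = 0
    · simp only [if_pos hi, zero_pow hm0, map_zero]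
    · simp only [if_neg hi]
      rw [map_pow, map_pow, hσ, ← pow_mul, mul_assoc, pow_mul, hc']
      have h5 : b i * m ≡ e i.succ [MOD w] := by
        rw [mul_comm]
        exact hb i hi
      exact pow_eq_pow_of_modEq h5 hθ'.pow_eq_one

end Pool.Agent.H912.AE
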