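import Pool.Agent.H912.AE.Win

/-!
# Densities (helper912)
-/

set_option autoImplicit false

open Finset Filter Topology

namespace Pool.Agent.H912.AE

/-- the event of the window `(w, X]` : the part of `m` supported on the primes in `(w, X]` is in
`G` and at most `X` -/
def Ev (G : ℕ → Prop) (w X m : ℕ) : Prop :=
  ∃ d ∈ Gw G w X, ∃ e, m = d * e ∧ e.Coprime (Rw w X)

lemma mem_Gw {G : ℕ → Prop} {w X d : ℕ} :
    d ∈ Gw G w X ↔ (w < d ∧ d ≤ X) ∧ d.Coprime (Pw w) ∧ G d := by
  classical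
  rw [Gw, mem_filter, mem_Ioc]

lemma prime_dvd_Gw {G : ℕ → Prop} {w X d p : ℕ} (hd : d ∈ Gw G w X) (hp : p.Prime)
    (hpd : p ∣ d) : w < p ∧ p ≤ X := by
  rw [mem_Gw] at hd
  refine ⟨?_, (Nat.le_of_dvd (by omega) hpd).trans hd.1.2⟩
  by_contra h
  have h3 : p ∣ Pw w := (dvd_Pw hp).2 (by omega)
  have h4 : p ∣ 1 := by
    rw [← Nat.coprime_iff_gcd_eq_one.1 hd.2.1]
    exact Nat.dvd_gcd hpd h3
  exact hp.one_lt.ne' (Nat.dvd_one.1 h4)

lemma dvd_Rw {w X p : ℕ} (hp : p.Prime) : p ∣ Rw w X ↔ w < p ∧ p ≤ X := by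
  have h : p ∈ (Rw w X).primeFactors ↔ p ∣ Rw w X := by
    rw [Nat.mem_primeFactors]
    exact ⟨fun h => h.2.1, fun h => ⟨hp, h, (Rw_pos w X).ne'⟩⟩
  rw [← h, primeFactors_Rw, mem_filter, mem_Sw]
  exact ⟨fun h => ⟨h.2, h.1.1⟩, fun h => ⟨⟨h.2, hp⟩, h.1⟩⟩

lemma Gw_dvd {G : ℕ → Prop} {w X d : ℕ} (hd : d ∈ Gw G w X) : d * Rw w X ∣ Rw w X ^ (X + 1) := by
  rw [pow_succ]
  refine Nat.mul_dvd_mul_right ?_ _
  have hd' := mem_Gw.1 hd
  have hd0 : d ≠ 0 := by omega
  have hR := Rw_pos w X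
  refine (Nat.factorization_prime_le_iff_dvd hd0 (by positivity)).1 fun p hp => ?_
  by_cases hpd : p ∣ d
  · have h1 := (dvd_Rw (w := w) (X := X) hp).2 (prime_dvd_Gw hd hp hpd)
    have h2 : 1 ≤ (Rw w X).factorization p := hp.factorization_pos_of_dvd hR.ne' h1
    rw [Nat.factorization_pow, Finsupp.smul_apply, smul_eq_mul]
    have h3 := Nat.factorization_lt p hd0
    nlinarith [hd'.1.2]
  · rw [Nat.factorization_eq_zero_of_not_dvd hpd]
    exact Nat.zero_le _

lemma Ev_congr (G : ℕ → Prop) (w X a b : ℕ) (h : a ≡ b [MOD Rw w X ^ (X + 1)]) :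
    Ev G w X a ↔ Ev G w X b := by
  have key : ∀ a b : ℕ, a ≡ b [MOD Rw w X ^ (X + 1)] → Ev G w X a → Ev G w X b := by
    rintro a b h ⟨d, hd, e, rfl, he⟩
    have h1 : d * e ≡ b [MOD d * Rw w X] := h.of_dvd (Gw_dvd hd)
    have h2 : d ∣ b := by
      have h3 : d * e ≡ b [MOD d] := h1.of_dvd (Dvd.intro _ rfl)
      exact (Nat.modEq_zero_iff_dvd).1 (h3.symm.trans ((Nat.modEq_zero_iff_dvd).2 (Dvd.intro _ rfl)))
    obtain ⟨e', rfl⟩ := h2
    have hd0 : d ≠ 0 := by
      have := mem_Gw.1 hd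
      omega
    have h3 : e ≡ e' [MOD Rw w X] := Nat.ModEq.mul_left_cancel' hd0 h1
    refine ⟨d, hd, e', rfl, ?_⟩
    rw [Nat.coprime_iff_gcd_eq_one] at he ⊢
    rw [← he]
    exact h3.symm.gcd_eq
  exact ⟨key a b h, key b a h.symm⟩

lemma card_coprime_mul (R t : ℕ) :
    ((range (R * t)).filter (fun e => e.Coprime R)).card = t * Nat.totient R := by
  induction t with
  | zero => simp
  | succ t ih =>
    have h1 : range (R * (t + 1)) = range (R * t) ∪ Ico (R * t) (R * t + R) := by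
      ext a
      simp only [mem_range, mem_union, mem_Ico]
      have : R * (t + 1) = R * t + R := by ring
      omega
    have h2 : Disjoint ((range (R * t)).filter (fun e => e.Coprime R))
        ((Ico (R * t) (R * t + R)).filter (fun e => e.Coprime R)) := by
      rw [disjoint_left]
      intro a ha hb
      rw [mem_filter, mem_range] at ha
      rw [mem_filter, mem_Ico] at hb
      omega
    rw [h1, filter_union, card_union_of_disjoint h2, ih]
    have h3 := Nat.filter_coprime_Ico_eq_totient R (R * t)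
    have h4 : ((Ico (R * t) (R * t + R)).filter (fun e => e.Coprime R)).card =
        ((Ico (R * t) (R * t + R)).filter (fun e => R.Coprime e)).card := by
      congr 1
      ext e
      simp only [mem_filter, Nat.coprime_comm]
    rw [h4, h3]
    ring

lemma Ev_unique {G : ℕ → Prop} {w X d d' e e' : ℕ} (hd : d ∈ Gw G w X) (hd' : d' ∈ Gw G w X)
    (he : e.Coprime (Rw w X)) (he' : e'.Coprime (Rw w X)) (h : d * e = d' * e') : d = d' := by
  have key : ∀ d d' e e' : ℕ, d ∈ Gw G w X → e'.Coprime (Rw w X) → d * e = d' * e' → d ∣ d' := by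
    intro d d' e e' hd he' h
    have h1 : d.Coprime e' := by
      refine Nat.coprime_of_dvd fun p hp hpd hpe => ?_
      have h2 := (dvd_Rw (w := w) (X := X) hp).2 (prime_dvd_Gw hd hp hpd)
      have h3 : p ∣ 1 := by
        rw [← Nat.coprime_iff_gcd_eq_one.1 he']
        exact Nat.dvd_gcd hpe h2
      exact hp.one_lt.ne' (Nat.dvd_one.1 h3)
    exact h1.dvd_of_dvd_mul_right (h ▸ Dvd.intro _ rfl)
  exact Nat.dvd_antisymm (key d d' e e' hd he' h) (key d' d e' e hd' he h.symm)

open Classical in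
lemma card_Ev (G : ℕ → Prop) (w X : ℕ) :
    ((((range (Rw w X ^ (X + 1))).filter (Ev G w X)).card : ℕ) : ℝ) * Rw w X =
      ((Rw w X ^ (X + 1) : ℕ) : ℝ) *
        ((∑ d ∈ Gw G w X, 1 / (d : ℝ)) * Nat.totient (Rw w X)) := by
  set R := Rw w X with hR
  have hR0 : 0 < R := Rw_pos w X
  set M := R ^ (X + 1) with hM
  have h1 : (range M).filter (Ev G w X) = (Gw G w X).biUnion (fun d =>
      ((range (M / d)).filter (fun e => e.Coprime R)).image (fun e => d * e)) := by
    ext m
    rw [mem_filter, mem_range, mem_biUnion]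
    constructor
    · rintro ⟨h2, d, hd, e, rfl, he⟩
      refine ⟨d, hd, mem_image.2 ⟨e, ?_, rfl⟩⟩
      rw [mem_filter, mem_range]
      have hd' := mem_Gw.1 hd
      refine ⟨?_, he⟩
      rw [Nat.lt_div_iff_mul_lt' ((Dvd.intro _ rfl).trans (Gw_dvd hd))]
      exact h2
    · rintro ⟨d, hd, h2⟩
      obtain ⟨e, he, rfl⟩ := mem_image.1 h2
      rw [mem_filter, mem_range] at he
      rw [Nat.lt_div_iff_mul_lt' ((Dvd.intro _ rfl).trans (Gw_dvd hd))] at he
      exact ⟨he.1, d, hd, e, rfl, he.2⟩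
  rw [h1, card_biUnion]
  · push_cast
    rw [sum_mul, sum_mul, mul_sum]
    refine sum_congr rfl fun d hd => ?_
    have hd' := mem_Gw.1 hd
    have hd0 : 0 < d := by omega
    rw [card_image_of_injective _ (fun a b h => Nat.eq_of_mul_eq_mul_left hd0 h)]
    obtain ⟨t, ht⟩ := Gw_dvd hd
    rw [← hR, ← hM] at ht
    have h2 : M / d = R * t := by
      rw [ht, mul_assoc, Nat.mul_div_cancel_left _ hd0]
    rw [h2, card_coprime_mul]
    have h3 : (M : ℝ) = d * R * t := by
      rw [ht]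
      push_cast
      ring
    have hd1 : (d : ℝ) ≠ 0 := by exact_mod_cast hd0.ne'
    rw [h3]
    push_cast
    field_simp
  · intro d hd d' hd' hdd
    rw [Function.onFun, disjoint_left]
    intro m hm hm'
    obtain ⟨e, he, rfl⟩ := mem_image.1 hm
    obtain ⟨e', he', h⟩ := mem_image.1 hm'
    rw [mem_filter] at he he'
    exact hdd (Ev_unique hd hd' he.2 he'.2 h.symm)

/-- the hypothesis on the windows -/
def HW (G : ℕ → Prop) (c : ℝ) : Prop := ∀ w : ℕ, ∃ X : ℕ, w < X ∧
      c * Rw w X ≤ (∑ d ∈ Gw G w X, 1 / (d : ℝ)) * Nat.totient (Rw w X)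

open Classical in
lemma card_not_Ev {G : ℕ → Prop} {c : ℝ} {w X : ℕ}
    (h : c * Rw w X ≤ (∑ d ∈ Gw G w X, 1 / (d : ℝ)) * Nat.totient (Rw w X)) :
    ((((range (Rw w X ^ (X + 1))).filter (fun m => ¬ Ev G w X m)).card : ℕ) : ℝ) ≤
      (1 - c) * ((Rw w X ^ (X + 1) : ℕ) : ℝ) := by
  have h1 := card_Ev G w X
  have hR : (0 : ℝ) < Rw w X := by exact_mod_cast Rw_pos w X
  set M := Rw w X ^ (X + 1) with hM
  have hM0 : (0 : ℝ) ≤ M := Nat.cast_nonneg _
  have h2 : c * M ≤ (((range M).filter (Ev G w X)).card : ℝ) := by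
    refine le_of_mul_le_mul_right ?_ hR
    rw [h1]
    calc c * M * Rw w X = M * (c * Rw w X) := by ring
      _ ≤ _ := by gcongr
  have h3 : (((range M).filter (Ev G w X)).card : ℝ) +
      ((range M).filter (fun m => ¬ Ev G w X m)).card = M := by
    have := card_filter_add_card_filter_not (s := range M) (Ev G w X)
    rw [card_range] at this
    exact_mod_cast this
  linarith

open Classical in
theorem block (G : ℕ → Prop) {c : ℝ} (hW : HW G c) (w₀ J : ℕ) :
    ∃ X M : ℕ, w₀ ≤ X ∧ 0 < M ∧ (∀ p : ℕ, p.Prime → p ∣ M → p ≤ X) ∧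
      ∃ B : ℕ → Prop, (∀ a b, a ≡ b [MOD M] → (B a ↔ B b)) ∧
        (∀ m, ¬ B m → ∃ d, G d ∧ d.Coprime (Pw w₀) ∧ w₀ < d ∧ d ≤ X ∧ d ∣ m) ∧
        (((range M).filter B).card : ℝ) ≤ (1 - c) ^ J * M := by
  induction J with
  | zero =>
    refine ⟨w₀, 1, le_rfl, one_pos, fun p hp h => absurd (Nat.dvd_one.1 h) hp.one_lt.ne',
      fun _ => True, fun _ _ _ => Iff.rfl, fun m hm => absurd trivial hm, ?_⟩
    simp
  | succ J ih =>
    obtain ⟨X, M, hX, hM, hpM, B, hB, hBm, hcard⟩ := ih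
    obtain ⟨X', hX', hE⟩ := hW X
    set R := Rw X X' ^ (X' + 1) with hR
    have hR0 : 0 < R := pow_pos (Rw_pos X X') _
    have hco : M.Coprime R := by
      refine Nat.coprime_of_dvd fun p hp hpM' hpR => ?_
      have h1 := hpM p hp hpM'
      have h2 := ((dvd_Rw hp).1 (hp.dvd_of_dvd_pow hpR)).1
      omega
    have h1 := card_crt hM hR0 hco B (fun m => ¬ Ev G X X' m) hB
      (fun a b h => not_congr (Ev_congr G X X' a b h))
    refine ⟨X', M * R, by omega, by positivity, ?_, fun m => B m ∧ ¬ Ev G X X' m, ?_, ?_, ?_⟩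
    · intro p hp h
      rcases hp.dvd_mul.1 h with h | h
      · have := hpM p hp h
        omega
      · exact ((dvd_Rw hp).1 (hp.dvd_of_dvd_pow h)).2
    · intro a b h
      exact and_congr (hB a b (h.of_dvd (Dvd.intro _ rfl)))
        (not_congr (Ev_congr G X X' a b (h.of_dvd (Dvd.intro_left _ rfl))))
    · intro m hm
      by_cases h2 : B m
      · have h3 : Ev G X X' m := by
          by_contra h
          exact hm ⟨h2, h⟩
        obtain ⟨d, hd, e, rfl, -⟩ := h3
        rw [mem_Gw] at hd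
        have h4 : Pw w₀ ∣ Pw X := by
          refine prod_dvd_prod_of_subset _ _ _ fun p hp => ?_
          rw [mem_Sw] at hp ⊢
          exact ⟨by omega, hp.2⟩
        exact ⟨d, hd.2.2, hd.2.1.coprime_dvd_right h4, by omega, hd.1.2, Dvd.intro _ rfl⟩
      · obtain ⟨d, h3, h4, h5, h6, h7⟩ := hBm m h2
        exact ⟨d, h3, h4, h5, by omega, h7⟩
    · refine le_of_eq_of_le (b := ((((range M).filter B).card *
        ((range R).filter (fun m => ¬ Ev G X X' m)).card : ℕ) : ℝ)) ?_ ?_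
      · exact congrArg Nat.cast (by convert h1)
      have h2 := card_not_Ev hE
      push_cast
      rw [pow_succ]
      have h3 : (0 : ℝ) ≤ (((range R).filter (fun m => ¬ Ev G X X' m)).card : ℝ) :=
        Nat.cast_nonneg _
      rw [← hR] at h2
      calc (((range M).filter B).card : ℝ) * (((range R).filter (fun m => ¬ Ev G X X' m)).card : ℝ) ≤
          ((1 - c) ^ J * M) * ((1 - c) * R) := mul_le_mul hcard h2 h3 ((Nat.cast_nonneg _).trans hcard)
        _ = _ := by ring

open Classical in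
lemma card_periodic_le {M : ℕ} (hM : 0 < M) (B : ℕ → Prop)
    (hB : ∀ a b, a ≡ b [MOD M] → (B a ↔ B b)) (N : ℕ) :
    ((range N).filter B).card ≤ (N / M + 1) * ((range M).filter B).card := by
  have key : ∀ t : ℕ, ((range (M * t)).filter B).card = t * ((range M).filter B).card := by
    intro t
    induction t with
    | zero => simp
    | succ t ih =>
      have h1 : range (M * (t + 1)) = range (M * t) ∪ Ico (M * t) (M * t + M) := by
        ext a
        simp only [mem_range, mem_union, mem_Ico]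
        have : M * (t + 1) = M * t + M := by ring
        omega
      have h2 : Disjoint ((range (M * t)).filter B) ((Ico (M * t) (M * t + M)).filter B) := by
        rw [disjoint_left]
        intro a ha hb
        rw [mem_filter, mem_range] at ha
        rw [mem_filter, mem_Ico] at hb
        omega
      rw [h1, filter_union, card_union_of_disjoint h2, ih]
      have h3 : ((Ico (M * t) (M * t + M)).filter B).card = ((range M).filter B).card := by
        rw [Nat.filter_Ico_card_eq_of_periodic _ _ B ?_, Nat.count_eq_card_filter_range]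
        intro a
        exact propext (hB _ _ (Nat.add_modEq_right))
      rw [h3]
      ring
  have h1 : range N ⊆ range (M * (N / M + 1)) := by
    intro a ha
    rw [mem_range] at ha ⊢
    exact ha.trans (Nat.lt_mul_div_succ N hM)
  exact (card_le_card (filter_subset_filter _ h1)).trans (key _).le

open Classical in
/-- almost every `m` has a divisor in `G`, in a bounded range -/
theorem dense (G : ℕ → Prop) {c : ℝ} (hc : 0 < c) (hW : HW G c) (w₀ : ℕ) {ε : ℝ} (hε : 0 < ε) :
    ∃ X N₀ : ℕ, ∀ N : ℕ, N₀ ≤ N → (((range N).filter (fun m =>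
      ¬ ∃ d, G d ∧ d.Coprime (Pw w₀) ∧ w₀ < d ∧ d ≤ X ∧ d ∣ m)).card : ℝ) ≤ ε * N := by
  have hc1 : c ≤ 1 := by
    obtain ⟨X, -, h⟩ := hW 0
    have h1 := card_not_Ev h
    have h2 : (0 : ℝ) ≤ (1 - c) * ((Rw 0 X ^ (X + 1) : ℕ) : ℝ) := (Nat.cast_nonneg _).trans h1
    have h3 : (0 : ℝ) < ((Rw 0 X ^ (X + 1) : ℕ) : ℝ) := by
      exact_mod_cast pow_pos (Rw_pos 0 X) _
    have := nonneg_of_mul_nonneg_left h2 h3
    linarith
  obtain ⟨J, hJ⟩ := exists_pow_lt_of_lt_one (by positivity : 0 < ε / 2)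
    (by linarith : (1 - c) < 1)
  obtain ⟨X, M, -, hM, -, B, hB, hBm, hcard⟩ := block G hW w₀ J
  refine ⟨X, M, fun N hN => ?_⟩
  have h1 : ((range N).filter (fun m =>
      ¬ ∃ d, G d ∧ d.Coprime (Pw w₀) ∧ w₀ < d ∧ d ≤ X ∧ d ∣ m)).card ≤
      ((range N).filter B).card := by
    refine card_le_card fun m hm => ?_
    rw [mem_filter] at hm ⊢
    refine ⟨hm.1, ?_⟩
    by_contra h
    exact hm.2 (hBm m h)
  have h2 := h1.trans (card_periodic_le hM B hB N)
  have h3 : (((range N).filter (fun m =>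
      ¬ ∃ d, G d ∧ d.Coprime (Pw w₀) ∧ w₀ < d ∧ d ≤ X ∧ d ∣ m)).card : ℝ) ≤
      ((N / M : ℕ) + 1 : ℝ) * ((range M).filter B).card := by exact_mod_cast h2
  refine h3.trans ?_
  have hM1 : (0 : ℝ) < M := by exact_mod_cast hM
  have h4 : ((N / M : ℕ) : ℝ) ≤ N / M := Nat.cast_div_le
  have h5 : (1 : ℝ) ≤ N / M := by
    rw [le_div_iff₀ hM1, one_mul]
    exact_mod_cast hN
  calc ((N / M : ℕ) + 1 : ℝ) * ((range M).filter B).card ≤
      ((N : ℝ) / M + N / M) * (ε / 2 * M) := by
        refine mul_le_mul (by linarith) (hcard.trans ?_) (Nat.cast_nonneg _) (by positivity)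
        gcongr
    _ = ε * N := by
        field_simp
        ring

end Pool.Agent.H912.AE
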