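import Pool.Agent.H912.AE.CycL
import Pool.Agent.H912.AE.Den
import Pool.Agent.H912.AE.Dns

/-!
# Cyclotomic fields: witness primes (helper912)
-/

set_option autoImplicit false

open Finset Filter Topology

namespace Pool.Agent.H912.AE

variable {N : ℕ}

open Classical in
/-- from one witness prime to many -/
theorem many (W : ℕ → ℕ → Prop)
    (h : ∀ (D : ℕ) (ε : ℝ), 0 < ε → ∃ D' N₀ : ℕ, ∀ M : ℕ, N₀ ≤ M →
      (((range M).filter (fun m => ¬ ∃ q, D < q ∧ q ≤ D' ∧ W m q)).card : ℝ) ≤ ε * M)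
    (r D : ℕ) {ε : ℝ} (hε : 0 < ε) : ∃ N₀ : ℕ, ∀ M : ℕ, N₀ ≤ M →
      (((range M).filter (fun m => ¬ ∃ Q : Finset ℕ, Q.card = r ∧ ∀ q ∈ Q, D < q ∧
        W m q)).card : ℝ) ≤ ε * M := by
  induction r generalizing D ε with
  | zero =>
    refine ⟨0, fun M _ => ?_⟩
    have h1 : (range M).filter (fun m => ¬ ∃ Q : Finset ℕ, Q.card = 0 ∧ ∀ q ∈ Q, D < q ∧
        W m q) = ∅ := by
      rw [filter_eq_empty_iff]
      intro m _ h
      exact h ⟨∅, card_empty, by simp⟩
    rw [h1, card_empty, Nat.cast_zero]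
    positivity
  | succ r ih =>
    obtain ⟨D', N₁, h1⟩ := h D _ (half_pos hε)
    obtain ⟨N₂, h2⟩ := ih (max D D') (half_pos hε)
    refine ⟨max N₁ N₂, fun M hM => ?_⟩
    have h3 := h1 M ((le_max_left _ _).trans hM)
    have h4 := h2 M ((le_max_right _ _).trans hM)
    have hsub : (range M).filter (fun m => ¬ ∃ Q : Finset ℕ, Q.card = r + 1 ∧ ∀ q ∈ Q, D < q ∧
        W m q) ⊆ (range M).filter (fun m => ¬ ∃ q, D < q ∧ q ≤ D' ∧ W m q) ∪
        (range M).filter (fun m => ¬ ∃ Q : Finset ℕ, Q.card = r ∧ ∀ q ∈ Q, max D D' < q ∧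
        W m q) := by
      intro m hm
      rw [mem_filter] at hm
      by_cases h5 : ∃ q, D < q ∧ q ≤ D' ∧ W m q
      · refine mem_union_right _ (mem_filter.2 ⟨hm.1, ?_⟩)
        rintro ⟨Q, hQ, hQ'⟩
        obtain ⟨q, hq1, hq2, hq3⟩ := h5
        apply hm.2
        refine ⟨insert q Q, ?_, ?_⟩
        · rw [card_insert_of_notMem, hQ]
          intro hq
          have := (hQ' q hq).1
          have := (max_lt_iff.1 this).2
          omega
        · intro q' hq'
          rcases mem_insert.1 hq' with rfl | h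
          · exact ⟨hq1, hq3⟩
          · exact ⟨(max_lt_iff.1 (hQ' q' h).1).1, (hQ' q' h).2⟩
      · exact mem_union_left _ (mem_filter.2 ⟨hm.1, h5⟩)
    have h5 := (card_le_card hsub).trans (card_union_le _ _)
    have h6 : (((range M).filter (fun m => ¬ ∃ Q : Finset ℕ, Q.card = r + 1 ∧ ∀ q ∈ Q, D < q ∧
        W m q)).card : ℝ) ≤
        (((range M).filter (fun m => ¬ ∃ q, D < q ∧ q ≤ D' ∧ W m q)).card : ℝ) +
        (((range M).filter (fun m => ¬ ∃ Q : Finset ℕ, Q.card = r ∧ ∀ q ∈ Q, max D D' < q ∧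
        W m q)).card : ℝ) := by exact_mod_cast h5
    linarith

open Classical in
/-- one witness prime, for a fixed modulus `u` -/
theorem witnessU {u T : ℕ} (hu0 : 0 < u) (bad : ℕ → Finset ℕ) {c : ℝ} (hc : 0 < c)
    (hW : HW (Good u T bad) c) (W : ℕ → ℕ → Prop)
    (hWit : ∀ d : ℕ, Good u T bad d → 0 < d → d.Coprime u → ∃ q : ℕ, d < q ∧ ∀ m : ℕ, m ≠ 0 →
        d ∣ m → W m q)
    (D : ℕ) {ε : ℝ} (hε : 0 < ε) : ∃ D' N₀ : ℕ, ∀ M : ℕ, N₀ ≤ M →
      (((range M).filter (fun m => ¬ ∃ q, D < q ∧ q ≤ D' ∧ W m q)).card : ℝ) ≤ ε * M := by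
  obtain ⟨X, N₀, hX⟩ := dense _ hc hW (max D u) (half_pos hε)
  have hcop : ∀ d : ℕ, d.Coprime (Pw (max D u)) → d.Coprime u := by
    intro d hd
    refine Nat.coprime_of_dvd fun p hp hpd hpu => ?_
    have h1 : p ∣ Pw (max D u) := (dvd_Pw hp).2 ((Nat.le_of_dvd hu0 hpu).trans (le_max_right _ _))
    have h2 := Nat.dvd_gcd hpd h1
    rw [hd] at h2
    exact hp.one_lt.ne' (Nat.dvd_one.1 h2)
  have hq : ∀ d : ℕ, ∃ q : ℕ, Good u T bad d → 0 < d → d.Coprime u →
      (d < q ∧ ∀ m : ℕ, m ≠ 0 → d ∣ m → W m q) := by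
    intro d
    by_cases h : Good u T bad d ∧ 0 < d ∧ d.Coprime u
    · obtain ⟨q, h1⟩ := hWit d h.1 h.2.1 h.2.2
      exact ⟨q, fun _ _ _ => h1⟩
    · exact ⟨0, fun h1 h2 h3 => absurd ⟨h1, h2, h3⟩ h⟩
  choose q hq using hq
  obtain ⟨M₀, hM₀⟩ := exists_nat_ge (2 / ε)
  refine ⟨∑ d ∈ range (X + 1), q d, M₀ + N₀, fun M hM => ?_⟩
  have hsub : (range M).filter (fun m => ¬ ∃ q', D < q' ∧
      q' ≤ ∑ d ∈ range (X + 1), q d ∧ W m q') ⊆ {0} ∪
        (range M).filter (fun m => ¬ ∃ d, Good u T bad d ∧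
          d.Coprime (Pw (max D u)) ∧ max D u < d ∧ d ≤ X ∧ d ∣ m) := by
    intro m hm
    rw [mem_filter] at hm
    obtain ⟨hmM, hm⟩ := hm
    by_cases h1 : m = 0
    · exact mem_union_left _ (mem_singleton.2 h1)
    refine mem_union_right _ (mem_filter.2 ⟨hmM, ?_⟩)
    rintro ⟨d, hd1, hd2, hd3, hd4, hd5⟩
    have hd6 : D < d := lt_of_le_of_lt (le_max_left _ _) hd3
    obtain ⟨h4, h5⟩ := hq d hd1 (by omega) (hcop d hd2)
    apply hm
    refine ⟨q d, by omega, ?_, h5 m h1 hd5⟩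
    exact single_le_sum (f := fun d => q d) (fun _ _ => Nat.zero_le _) (mem_range.2 (by omega))
  have h1 := (card_le_card hsub).trans (card_union_le _ _)
  rw [card_singleton] at h1
  have h2 : (((range M).filter (fun m => ¬ ∃ q', D < q' ∧
      q' ≤ ∑ d ∈ range (X + 1), q d ∧ W m q')).card : ℝ) ≤ 1 +
        (((range M).filter (fun m => ¬ ∃ d, Good u T bad d ∧
          d.Coprime (Pw (max D u)) ∧ max D u < d ∧ d ≤ X ∧ d ∣ m)).card : ℝ) := by
    exact_mod_cast h1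
  have h3 := hX M (by omega)
  have hMr : (M₀ : ℝ) ≤ M := by
    have : M₀ ≤ M := by omega
    exact_mod_cast this
  have hMε : 1 ≤ ε / 2 * M := by
    have h1 : 2 / ε ≤ M := hM₀.trans hMr
    rw [div_le_iff₀ hε] at h1
    linarith
  linarith

/-- `q` is a witness prime for `m` over the cyclotomic field `K` -/
def WitK (w : ℕ) {K : Type} [Field K] (S : Set (MvPolynomial (Fin N) K)) (m q : ℕ) : Prop :=
  ∃ _ : Fact q.Prime, Nonempty (K →+* ℚ_[q]) ∧ ∀ (φ : K →+* ℚ_[q]) (x : Fin N → ℚ_[q]), x ≠ 0 →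
    (∀ F ∈ S, MvPolynomial.eval₂ φ (fun i => x i ^ m) F = 0) →
    ∃ η : Fin N → K, (∀ i, η i = 0 ∨ η i ^ w = 1) ∧ (∀ i, η i ≠ 0 ↔ ∀ j, ‖x j‖ ≤ ‖x i‖) ∧
      ∀ F ∈ S, MvPolynomial.eval (fun i => η i ^ m) F = 0

open Classical in
theorem witnessesK {w : ℕ} [NeZero w] (hw2 : 2 ∣ w) {K : Type} [Field K] [CharZero K]
    [IsCyclotomicExtension {w} ℚ K]
    (S : Set (MvPolynomial (Fin N) K)) (hom : ∀ F ∈ S, ∃ D, F.IsHomogeneous D)
    (r D : ℕ) {ε : ℝ} (hε : 0 < ε) : ∃ N₀ : ℕ, ∀ M : ℕ, N₀ ≤ M →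
      (((range M).filter (fun m => ¬ ∃ Q : Finset ℕ, Q.card = r ∧ ∀ q ∈ Q, D < q ∧
        WitK w S m q)).card : ℝ) ≤ ε * M := by
  have hw : 0 < w := Nat.pos_of_ne_zero (NeZero.ne w)
  obtain ⟨ζ, hζ⟩ := IsCyclotomicExtension.exists_isPrimitiveRoot (S := {w}) ℚ K
    (Set.mem_singleton w) (NeZero.ne w)
  obtain ⟨S', hS'⟩ := reduceK (gen_of_cyclotomic hζ) S
  obtain ⟨T, hT, hwT, hST⟩ : ∃ T : ℕ, 2 ≤ T ∧ w ≤ T ∧ ∀ F ∈ S', F.support.card ≤ T :=
    ⟨2 + w + ∑ F ∈ S', F.support.card, by omega, by omega, fun F hF => by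
      have := single_le_sum (f := fun F : MvPolynomial (Fin (N + 1)) ℤ => F.support.card)
        (fun _ _ => Nat.zero_le _) hF
      omega⟩
  obtain ⟨c, hc, hW⟩ := window w T hw2 hw hT (N + 1 + 1)
    ((3 ^ (N + 1) * ∑ F ∈ S', (Lh F : ℝ)) * (w : ℝ) ^ (N + 1 + 1)) (by positivity)
    (fun k => bad S' (w * k)) (by
      intro k hk
      have h1 := card_bad S' (k := w * k) (Nat.mul_pos hw hk)
      refine h1.trans (le_of_eq ?_)
      push_cast
      rw [mul_pow]
      ring)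
  refine many _ (fun D ε hε => ?_) r D hε
  refine witnessU hw _ hc hW _ (fun d hd hd0 hdw => ?_) D hε
  obtain ⟨k, hk, hkT, hq, hqb⟩ := hd
  have : Fact (w * k * d + 1).Prime := ⟨hq⟩
  refine ⟨w * k * d + 1, ?_, fun m hm0 hdm => ?_⟩
  · have hk0 : 0 < k := Nat.pos_of_ne_zero hk.ne_zero
    have h1 : 1 * d ≤ w * k * d := Nat.mul_le_mul_right d (Nat.mul_pos hw hk0)
    omega
  · refine ⟨this, ?_, fun φ x hx hy => ?_⟩
    · obtain ⟨z, hz⟩ := exists_padic_root (q := w * k * d + 1) hw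
        ⟨k * d, by rw [Nat.add_sub_cancel]; ring⟩
      obtain ⟨σ, -⟩ := exists_hom hζ hz
      exact ⟨σ⟩
    · exact local_K hζ S hom S' hS' rfl hqb hk hkT hwT hST hdm hdw hm0 φ x hx hy

/-- residue classes have the expected density -/
lemma density_modEq {w : ℕ} (hw : 0 < w) (a : ℕ) : HasDensity {m | m ≡ a [MOD w]} (1 / w) := by
  unfold HasDensity
  have hw' : (0 : ℝ) < w := by exact_mod_cast hw
  have h1 : Tendsto (fun N : ℕ => (3 : ℝ) / N) atTop (𝓝 0) :=
    tendsto_const_div_atTop_nhds_zero_nat 3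
  rw [tendsto_iff_dist_tendsto_zero]
  refine squeeze_zero' (Eventually.of_forall fun _ => dist_nonneg) ?_ h1
  filter_upwards [eventually_ge_atTop 1] with N hN
  have hN0 : (0 : ℝ) < N := by exact_mod_cast hN
  have h2 : ({m | m ≡ a [MOD w]} ∩ Set.Icc 1 N).ncard =
      ((Icc 1 N).filter (fun m => m ≡ a [MOD w])).card := by
    rw [← Set.ncard_coe_finset]
    congr 1
    ext m
    simp only [Set.mem_inter_iff, Set.mem_Icc, Finset.coe_filter, Finset.mem_Icc,
      Set.mem_ofPred_eq]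
    exact and_comm
  have h3 : Nat.count (· ≡ a [MOD w]) (N + 1) =
      ((range (N + 1)).filter (fun m => m ≡ a [MOD w])).card := Nat.count_eq_card_filter_range _ _
  have h4 := Nat.count_modEq_card (N + 1) hw a
  have h5 : ((Icc 1 N).filter (fun m => m ≡ a [MOD w])).card ≤
      ((range (N + 1)).filter (fun m => m ≡ a [MOD w])).card := by
    refine card_le_card (filter_subset_filter _ fun m hm => ?_)
    rw [mem_Icc] at hm
    rw [mem_range]
    omega
  have h6 : ((range (N + 1)).filter (fun m => m ≡ a [MOD w])).card ≤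
      ((Icc 1 N).filter (fun m => m ≡ a [MOD w])).card + 1 := by
    have h7 : (range (N + 1)).filter (fun m => m ≡ a [MOD w]) ⊆
        (Icc 1 N).filter (fun m => m ≡ a [MOD w]) ∪ {0} := by
      intro m hm
      rw [mem_filter, mem_range] at hm
      rw [mem_union, mem_filter, mem_Icc, mem_singleton]
      by_cases h0 : m = 0
      · exact Or.inr h0
      · exact Or.inl ⟨by omega, hm.2⟩
    refine (card_le_card h7).trans ((card_union_le _ _).trans ?_)
    rw [card_singleton]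
  have h8 : (((N + 1) / w : ℕ) : ℝ) ≤ ((N + 1 : ℕ) : ℝ) / w := Nat.cast_div_le
  have h9 : ((N + 1 : ℕ) : ℝ) / w - 1 ≤ (((N + 1) / w : ℕ) : ℝ) := by
    have h10 : N + 1 < ((N + 1) / w + 1) * w := by
      have := Nat.lt_mul_div_succ (N + 1) hw
      rw [mul_comm]
      exact this
    have h11 : ((N + 1 : ℕ) : ℝ) < (((N + 1) / w : ℕ) + 1 : ℝ) * w := by exact_mod_cast h10
    rw [sub_le_iff_le_add, div_le_iff₀ hw']
    exact h11.le
  have h10 : (Nat.count (· ≡ a [MOD w]) (N + 1) : ℝ) ≤ (((N + 1) / w : ℕ) : ℝ) + 1 := by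
    rw [h4]
    push_cast
    split_ifs <;> simp
  have h11 : (((N + 1) / w : ℕ) : ℝ) ≤ (Nat.count (· ≡ a [MOD w]) (N + 1) : ℝ) := by
    rw [h4]
    push_cast
    split_ifs <;> simp
  rw [h3] at h10 h11
  have h12 : (((Icc 1 N).filter (fun m => m ≡ a [MOD w])).card : ℝ) ≤
      ((range (N + 1)).filter (fun m => m ≡ a [MOD w])).card := by exact_mod_cast h5
  have h13 : (((range (N + 1)).filter (fun m => m ≡ a [MOD w])).card : ℝ) ≤
      ((Icc 1 N).filter (fun m => m ≡ a [MOD w])).card + 1 := by exact_mod_cast h6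
  have h14 : ((N + 1 : ℕ) : ℝ) / w = N / w + 1 / w := by
    push_cast
    ring
  have h15 : 1 / (w : ℝ) ≤ 1 := by
    rw [div_le_one hw']
    exact_mod_cast hw
  have h16 : 0 < 1 / (w : ℝ) := by positivity
  rw [h2, Real.dist_eq]
  have h17 : (((Icc 1 N).filter (fun m => m ≡ a [MOD w])).card : ℝ) / N - 1 / w =
      ((((Icc 1 N).filter (fun m => m ≡ a [MOD w])).card : ℝ) - N / w) / N := by
    field_simp
  rw [h17, abs_div, abs_of_pos hN0]
  apply div_le_div_of_nonneg_right _ hN0.le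
  rw [abs_le]
  constructor <;> linarith

lemma density_union {A B : Set ℕ} {a b : ℝ} (hA : HasDensity A a) (hB : HasDensity B b)
    (hAB : Disjoint A B) : HasDensity (A ∪ B) (a + b) := by
  unfold HasDensity at *
  refine (hA.add hB).congr fun N => ?_
  rw [← add_div]
  congr 1
  have h1 : (A ∪ B) ∩ Set.Icc 1 N = (A ∩ Set.Icc 1 N) ∪ (B ∩ Set.Icc 1 N) :=
    Set.union_inter_distrib_right _ _ _
  have hfin : (Set.Icc 1 N).Finite := Set.finite_Icc 1 N
  rw [h1, Set.ncard_union_eq (hAB.mono Set.inter_subset_left Set.inter_subset_left)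
    (hfin.inter_of_right A) (hfin.inter_of_right B)]
  push_cast
  ring

/-- the density of a union of residue classes -/
lemma density_periodic {w : ℕ} (hw : 0 < w) (A : Finset ℕ) (hA : A ⊆ Icc 1 w) :
    HasDensity {m | ∃ a ∈ A, m ≡ a [MOD w]} (A.card / w) := by
  classical
  induction A using Finset.induction_on with
  | empty =>
    have h1 : {m : ℕ | ∃ a ∈ (∅ : Finset ℕ), m ≡ a [MOD w]} = ∅ := by
      ext m
      simp
    rw [h1, card_empty, Nat.cast_zero, zero_div]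
    exact density_empty
  | insert a A ha ih =>
    have h1 : {m : ℕ | ∃ b ∈ insert a A, m ≡ b [MOD w]} =
        {m | m ≡ a [MOD w]} ∪ {m | ∃ b ∈ A, m ≡ b [MOD w]} := by
      ext m
      simp only [Set.mem_union, Set.mem_ofPred_eq, mem_insert]
      constructor
      · rintro ⟨b, rfl | hb, h⟩
        · exact Or.inl h
        · exact Or.inr ⟨b, hb, h⟩
      · rintro (h | ⟨b, hb, h⟩)
        · exact ⟨a, Or.inl rfl, h⟩
        · exact ⟨b, Or.inr hb, h⟩
    rw [h1, card_insert_of_notMem ha]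
    have h2 : (((A.card + 1 : ℕ) : ℝ)) / w = 1 / w + A.card / w := by
      push_cast
      ring
    rw [h2]
    refine density_union (density_modEq hw a) (ih ((subset_insert _ _).trans hA)) ?_
    rw [Set.disjoint_left]
    rintro m hm ⟨b, hb, hmb⟩
    apply ha
    have h3 : a ≡ b [MOD w] := (Nat.ModEq.symm hm).trans hmb
    have h4 := mem_Icc.1 (hA (mem_insert_self a A))
    have h5 := mem_Icc.1 (hA (mem_insert_of_mem hb))
    have h6 : a = b := by
      by_contra hne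
      rcases lt_or_gt_of_ne hne with hlt | hlt
      · have h7 := (Nat.modEq_iff_dvd' hlt.le).1 h3
        have := Nat.le_of_dvd (by omega) h7
        omega
      · have h7 := (Nat.modEq_iff_dvd' hlt.le).1 h3.symm
        have := Nat.le_of_dvd (by omega) h7
        omega
    rw [h6]
    exact hb

end Pool.Agent.H912.AE
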