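import Pool.Agent.H912.AE.Nf3

/-!
# Norms, twists by signs and integrality at a prime (helper912)

Common lemmas for the theorems on integral points of root stacks.
-/

set_option autoImplicit false

open Filter Topology NumberField nonZeroDivisors IsDedekindDomain

namespace Pool.Agent.H912.AE

/-- An element of a number field which is integral at all primes above `q` has a `q`-integral
norm. -/
lemma norm_int_at {L : Type} [Field L] [NumberField L] {q : ℕ} [hq : Fact q.Prime] (x : L)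
    (hx : ∀ P : HeightOneSpectrum (𝓞 L), ((q : ℕ) : 𝓞 L) ∈ P.asIdeal → P.valuation L x ≤ 1) :
    ‖((Algebra.norm ℚ x : ℚ) : ℚ_[q])‖ ≤ 1 := by
  let J : Ideal (𝓞 L) := Submodule.comap (LinearMap.toSpanSingleton (𝓞 L) L x)
    (1 : Submodule (𝓞 L) L)
  have hJ : ∀ a : 𝓞 L, a ∈ J ↔ ∃ b : 𝓞 L, (b : L) = a * x := by
    intro a
    simp only [J, Submodule.mem_comap, LinearMap.toSpanSingleton_apply, Submodule.mem_one,
      Algebra.smul_def]
  have htop : J ⊔ Ideal.span {((q : ℕ) : 𝓞 L)} = ⊤ := by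
    by_contra hne
    obtain ⟨M, hM, hle⟩ := Ideal.exists_le_maximal _ hne
    have hqM : ((q : ℕ) : 𝓞 L) ∈ M :=
      hle (Ideal.mem_sup_right (Ideal.mem_span_singleton_self _))
    have hM0 : M ≠ ⊥ := by
      intro h
      rw [h, Ideal.mem_bot] at hqM
      exact hq.out.ne_zero (by exact_mod_cast hqM)
    let P : HeightOneSpectrum (𝓞 L) := ⟨M, hM.isPrime, hM0⟩
    obtain ⟨n, d, hnd⟩ := HeightOneSpectrum.exists_primeCompl_mul_eq_of_integer P x (hx P hqM)
    have h1 : (d : 𝓞 L) ∈ J := (hJ _).2 ⟨n, by rw [mul_comm]; exact hnd.symm⟩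
    exact d.2 (hle (Ideal.mem_sup_left h1))
  have h1 : (1 : 𝓞 L) ∈ J ⊔ Ideal.span {((q : ℕ) : 𝓞 L)} := by rw [htop]; trivial
  obtain ⟨a, ha, b, hb, hab⟩ := Submodule.mem_sup.1 h1
  obtain ⟨c, hc⟩ := (hJ a).1 ha
  -- the norm of `a` is prime to `q`
  have ha' : ¬ ((q : ℕ) : ℤ) ∣ Algebra.norm ℤ a := by
    intro h
    have h2 : ((q : ℕ) : ℤ) ∣ ((Ideal.absNorm (Ideal.span ({a} : Set (𝓞 L))) : ℕ) : ℤ) := by
      rw [Ideal.absNorm_span_singleton]
      exact Int.dvd_natAbs.2 h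
    obtain ⟨M, hM, hMq, hMd⟩ := Ideal.exists_isMaximal_dvd_of_dvd_absNorm
      (Nat.prime_iff_prime_int.1 hq.out) _ h2
    have h3 : a ∈ M := Ideal.dvd_iff_le.1 hMd (Ideal.mem_span_singleton_self a)
    have h4 : ((q : ℕ) : 𝓞 L) ∈ M := by
      have h5 : ((q : ℕ) : ℤ) ∈ M.under ℤ := by
        rw [hMq]
        exact Ideal.mem_span_singleton_self _
      rw [Ideal.mem_comap] at h5
      simpa using h5
    have h5 : b ∈ M := (Ideal.span_singleton_le_iff_mem M).2 h4 hb
    exact hM.ne_top ((Ideal.eq_top_iff_one M).2 (hab ▸ M.add_mem h3 h5))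
  have h2 : (Algebra.norm ℚ (a : L)) * Algebra.norm ℚ x = ((Algebra.norm ℤ c : ℤ) : ℚ) := by
    rw [Algebra.coe_norm_int, ← map_mul]
    exact congrArg _ hc.symm
  have h3 : ‖((Algebra.norm ℚ (a : L) : ℚ) : ℚ_[q])‖ = 1 := by
    have h4 : ((Algebra.norm ℚ (a : L) : ℚ) : ℚ_[q]) = ((Algebra.norm ℤ a : ℤ) : ℚ_[q]) := by
      rw [← Algebra.coe_norm_int]
      push_cast
      rfl
    rw [h4]
    refine le_antisymm (Padic.norm_int_le_one _) ?_
    by_contra h5
    exact ha' (Padic.norm_intCast_lt_one_iff.1 (not_le.1 h5))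
  have h4 := congrArg (fun t : ℚ => ‖(t : ℚ_[q])‖) h2
  simp only [Rat.cast_mul, norm_mul, h3, one_mul] at h4
  rw [h4]
  push_cast
  exact Padic.norm_int_le_one _

/-- the norm of a point satisfies all equations of the Hadamard power -/
lemma norm_had {L : Type} [Field L] [Algebra ℚ L] [FiniteDimensional ℚ L] {n : ℕ}
    (S : Set (MvPolynomial (Fin n) ℚ)) {y : Fin n → L}
    (hy : ∀ F ∈ S, MvPolynomial.aeval y F = 0) {G : MvPolynomial (Fin n) ℚ}
    (hG : ∀ (E : Type) [Field E] [Algebra ℚ E] (z : Fin (Module.finrank ℚ L) → Fin n → E),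
      (∀ j, ∀ F ∈ S, MvPolynomial.aeval (z j) F = 0) →
        MvPolynomial.aeval (fun i => ∏ j, z j i) G = 0) :
    MvPolynomial.aeval (fun i => Algebra.norm ℚ (y i)) G = 0 := by
  let E := AlgebraicClosure ℚ
  have hcard : Fintype.card (L →ₐ[ℚ] E) = Module.finrank ℚ L := AlgHom.card ℚ L E
  let σ : Fin (Module.finrank ℚ L) ≃ (L →ₐ[ℚ] E) := (Fintype.equivFinOfCardEq hcard).symm
  have h1 := hG E (fun j i => σ j (y i)) (fun j F hF => by
    have h2 := congrArg (σ j) (hy F hF)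
    rw [map_zero, ← AlgHom.comp_apply, MvPolynomial.comp_aeval] at h2
    exact h2)
  have h2 : (fun i => ∏ j, σ j (y i)) = fun i => algebraMap ℚ E (Algebra.norm ℚ (y i)) := by
    funext i
    rw [Algebra.norm_eq_prod_embeddings ℚ E (y i)]
    exact Equiv.prod_comp σ (fun τ : L →ₐ[ℚ] E => τ (y i))
  rw [h2] at h1
  apply (algebraMap ℚ E).injective
  rw [map_zero, ← h1]
  exact (MvPolynomial.aeval_algebraMap_apply E _ G).symm

/-- the field of rational numbers is the second cyclotomic field -/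
lemma cyc_two : @IsCyclotomicExtension {2} ℚ ℚ _ _ DivisionRing.toRatAlgebra := by
  have h1 : IsCyclotomicExtension {2} ℚ ℚ := by
    rw [IsCyclotomicExtension.iff_singleton]
    refine ⟨⟨-1, ?_⟩, fun x => ?_⟩
    · exact IsPrimitiveRoot.neg_one 0 (by norm_num)
    · exact Subalgebra.algebraMap_mem _ x
  have h2 : (DivisionRing.toRatAlgebra : Algebra ℚ ℚ) = Algebra.id ℚ := Subsingleton.elim _ _
  rw [h2]
  exact h1

/-- The sign vectors. -/
def sg {n : ℕ} (s : Fin n → Bool) (i : Fin n) : ℚ := if s i then 1 else -1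

lemma sg_cases {n : ℕ} (s : Fin n → Bool) (i : Fin n) : sg s i = 1 ∨ sg s i = -1 := by
  unfold sg
  split_ifs
  · exact Or.inl rfl
  · exact Or.inr rfl

/-- the form `G(s_0 x_0, ..., s_n x_n)` -/
noncomputable def tw {n : ℕ} (s : Fin n → Bool) (G : MvPolynomial (Fin n) ℚ) :
    MvPolynomial (Fin n) ℚ :=
  MvPolynomial.aeval (fun i => MvPolynomial.C (sg s i) * MvPolynomial.X i) G

lemma tw_hom {n : ℕ} (s : Fin n → Bool) {G : MvPolynomial (Fin n) ℚ} {d : ℕ}
    (hG : G.IsHomogeneous d) : (tw s G).IsHomogeneous (1 * d) := by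
  refine hG.aeval _ fun i => ?_
  have h1 := (MvPolynomial.isHomogeneous_C (Fin n) (sg s i)).mul
    (MvPolynomial.isHomogeneous_X ℚ i)
  rwa [zero_add] at h1

lemma eval₂_tw {n : ℕ} {R : Type} [CommRing R] (φ : ℚ →+* R) (s : Fin n → Bool)
    (G : MvPolynomial (Fin n) ℚ) (z : Fin n → R) :
    MvPolynomial.eval₂ φ z (tw s G) = MvPolynomial.eval₂ φ (fun i => φ (sg s i) * z i) G := by
  have h1 := MvPolynomial.hom_eval₂ G (algebraMap ℚ (MvPolynomial (Fin n) ℚ))
    (MvPolynomial.eval₂Hom φ z) (fun i => MvPolynomial.C (sg s i) * MvPolynomial.X i)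
  have h2 : (MvPolynomial.eval₂Hom φ z).comp (algebraMap ℚ (MvPolynomial (Fin n) ℚ)) = φ := by
    ext a
    simp
  rw [h2] at h1
  have h3 : (fun i => (MvPolynomial.eval₂Hom φ z) (MvPolynomial.C (sg s i) *
      MvPolynomial.X i)) = fun i => φ (sg s i) * z i := by
    funext i
    simp
  rw [h3] at h1
  exact h1

end Pool.Agent.H912.AE
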