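import Pool.Agent.H912.AE.Fam2

/-!
# Families with exponential parameters (helper912)
-/

set_option autoImplicit false

open Finset Filter Topology

namespace Pool.Agent.H912.AE

variable {R n : ℕ}

/-- a good prime for the family with the parameters `b_l * g ^ u_l`, `b_l` prime to `q` -/
def SWG (S : Finset (MvPolynomial (Fin (R + (n + 1))) ℤ)) (C g B m q : ℕ) : Prop :=
  ∃ _ : Fact q.Prime, ∃ k : ℕ, 0 < k ∧
    (∀ j, 0 < j → j ≤ C * k ^ (n + 1) → (g : ZMod q) ^ j ≠ 1) ∧ ¬ q ∣ B * g ∧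
    (∀ a : ZMod q, a ^ m = 0 ∨ (a ^ m) ^ (2 * k) = 1) ∧
    ∀ y : Fin (n + 1) → ZMod q, y ≠ 0 → ∃ F ∈ S, ∃ c : Fin R → ZMod q,
      MvPolynomial.aeval (Fin.append c (fun j => y j ^ m)) F ≠ 0

/-- the additional excluded primes -/
def badG (C g B n k : ℕ) : Finset ℕ :=
  ((Icc 1 (C * k ^ (n + 1))).biUnion fun j => (g ^ j - 1).primeFactors) ∪ (B * g).primeFactors

lemma card_badG (C : ℕ) {g B : ℕ} (n : ℕ) {k : ℕ} (hg : 2 ≤ g) (hB : B ≠ 0) (hk : 1 ≤ k) :
    (badG C g B n k).card ≤ (C * (C * g) + B * g) * k ^ (2 * (n + 1)) := by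
  have h1 : ∀ j ∈ Icc 1 (C * k ^ (n + 1)), (g ^ j - 1).primeFactors.card ≤
      C * g * k ^ (n + 1) := by
    intro j hj
    rw [mem_Icc] at hj
    have h2 : 1 < g ^ j := Nat.one_lt_pow (by omega) (by omega)
    have h3 := two_pow_card_le (n := g ^ j - 1) (by omega)
    have h4 : g < 2 ^ g := Nat.lt_two_pow_self
    have h5 : g ^ j ≤ 2 ^ (g * j) := by
      rw [pow_mul]
      exact Nat.pow_le_pow_left h4.le _
    have h6 : 2 ^ (g ^ j - 1).primeFactors.card ≤ 2 ^ (g * j) := by omega
    have h7 : (g ^ j - 1).primeFactors.card ≤ g * j := (Nat.pow_le_pow_iff_right (by omega)).1 h6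
    calc (g ^ j - 1).primeFactors.card ≤ g * j := h7
      _ ≤ g * (C * k ^ (n + 1)) := Nat.mul_le_mul_left _ hj.2
      _ = C * g * k ^ (n + 1) := by ring
  have h2 : ((Icc 1 (C * k ^ (n + 1))).biUnion fun j => (g ^ j - 1).primeFactors).card ≤
      C * k ^ (n + 1) * (C * g * k ^ (n + 1)) := by
    refine card_biUnion_le.trans ((sum_le_sum h1).trans ?_)
    rw [sum_const, Nat.card_Icc, smul_eq_mul, Nat.add_sub_cancel]
  have h3 : (B * g).primeFactors.card ≤ B * g := by
    have h4 := two_pow_card_le (n := B * g) (by positivity)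
    have h5 : (B * g).primeFactors.card < 2 ^ (B * g).primeFactors.card := Nat.lt_two_pow_self
    omega
  have h4 : 1 ≤ k ^ (2 * (n + 1)) := Nat.one_le_pow _ _ hk
  calc (badG C g B n k).card ≤ C * k ^ (n + 1) * (C * g * k ^ (n + 1)) + B * g :=
        (card_union_le _ _).trans (Nat.add_le_add h2 h3)
    _ ≤ C * k ^ (n + 1) * (C * g * k ^ (n + 1)) + B * g * k ^ (2 * (n + 1)) :=
        Nat.add_le_add_left (Nat.le_mul_of_pos_right _ h4) _
    _ = _ := by ring

open Classical in
theorem primesG (S : Finset (MvPolynomial (Fin (R + (n + 1))) ℤ)) (C : ℕ) {g B : ℕ} (hg2 : 2 ≤ g)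
    (hB0 : B ≠ 0) {ε : ℝ} (hε : 0 < ε) :
    ∃ D' N₀ : ℕ, ∀ M : ℕ, N₀ ≤ M → (((range M).filter (fun m =>
      ¬ ∃ q, 0 < q ∧ q ≤ D' ∧ (TrivB S m ∨ SWG S C g B m q))).card : ℝ) ≤ ε * M := by
  obtain ⟨TB, hTB⟩ := base_finite S
  obtain ⟨T, hT, hST⟩ : ∃ T : ℕ, 2 ≤ T ∧ ∀ F ∈ TB, F.support.card ≤ T :=
    ⟨2 + ∑ F ∈ TB, F.support.card, by omega, fun F hF => by
      have := single_le_sum (f := fun F : MvPolynomial (Fin (n + 1)) ℤ => F.support.card)
        (fun _ _ => Nat.zero_le _) hF
      omega⟩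
  have hcard : ∀ k, 1 ≤ k → ((bad TB k ∪ badG C g B n k).card : ℝ) ≤
      ((3 ^ (n + 1) * ∑ F ∈ TB, (Lh F : ℝ)) + ((C * (C * g) + B * g : ℕ) : ℝ)) *
        (k : ℝ) ^ (2 * (n + 1)) := by
    intro k hk
    have h1 := card_bad TB hk
    have h2 : (((bad TB k ∪ badG C g B n k).card : ℕ) : ℝ) ≤
        ((bad TB k).card : ℝ) + (((C * (C * g) + B * g) * k ^ (2 * (n + 1)) : ℕ) : ℝ) := by
      have h3 := (card_union_le (bad TB k) (badG C g B n k)).trans
        (Nat.add_le_add_left (card_badG C n hg2 hB0 hk) _)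
      exact_mod_cast h3
    have hk1 : (1 : ℝ) ≤ k := by exact_mod_cast hk
    have h4 : (k : ℝ) ^ (n + 2) ≤ (k : ℝ) ^ (2 * (n + 1)) := pow_le_pow_right₀ hk1 (by omega)
    have h5 : (3 ^ (n + 1) * ∑ F ∈ TB, (Lh F : ℝ)) * (k : ℝ) ^ (n + 2) ≤
        (3 ^ (n + 1) * ∑ F ∈ TB, (Lh F : ℝ)) * (k : ℝ) ^ (2 * (n + 1)) :=
      mul_le_mul_of_nonneg_left h4 (by positivity)
    rw [add_mul]
    push_cast at h2 ⊢
    linarith
  refine witnessB (fun k => bad TB k ∪ badG C g B n k) (2 * (n + 1)) (by positivity) hcard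
    hT (fun m q => TrivB S m ∨ SWG S C g B m q) ?_ 0 hε
  rintro s d ⟨k, hk, hkT, hq, hqb⟩ hd0
  have hk0 : 0 < k := Nat.pos_of_ne_zero hk.ne_zero
  have hfq : Fact (2 ^ (max s 1) * k * d + 1).Prime := ⟨hq⟩
  have hqb1 : 2 ^ (max s 1) * k * d + 1 ∉ bad TB k := fun h => hqb (mem_union_left _ h)
  have hqb2 : 2 ^ (max s 1) * k * d + 1 ∉ badG C g B n k := fun h => hqb (mem_union_right _ h)
  refine ⟨2 ^ (max s 1) * k * d + 1, ?_, fun m hm0 hdm hdm' => ?_⟩
  · have h1 : 1 * d ≤ 2 ^ (max s 1) * k * d := Nat.mul_le_mul_right d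
      (Nat.one_le_iff_ne_zero.2 (by positivity))
    omega
  by_cases hex : ∀ y : Fin (n + 1) → ZMod (2 ^ (max s 1) * k * d + 1), y ≠ 0 →
      ∃ F ∈ S, ∃ c : Fin R → ZMod (2 ^ (max s 1) * k * d + 1),
        MvPolynomial.aeval (Fin.append c (fun j => y j ^ m)) F ≠ 0
  · refine Or.inr ⟨hfq, k, hk0, fun j hj0 hj h1 => ?_, fun h1 => ?_, fun a => ?_, hex⟩
    · apply hqb2
      refine mem_union_left _ (mem_biUnion.2 ⟨j, mem_Icc.2 ⟨hj0, hj⟩, ?_⟩)
      have h2 : 1 < g ^ j := Nat.one_lt_pow (by omega) (by omega)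
      refine Nat.mem_primeFactors.2 ⟨hq, ?_, by omega⟩
      rw [← ZMod.natCast_eq_zero_iff, Nat.cast_sub h2.le, Nat.cast_pow, h1]
      simp
    · apply hqb2
      exact mem_union_right _ (Nat.mem_primeFactors.2 ⟨hq, h1, by positivity⟩)
    by_cases ha : a = 0
    · left
      rw [ha, zero_pow hm0]
    · right
      obtain ⟨t, rfl⟩ := hdm
      have h1 := ZMod.pow_card_sub_one_eq_one ha
      rw [Nat.add_sub_cancel] at h1
      obtain ⟨u, hu⟩ : 2 ^ (max s 1) ∣ 2 ^ (s + 1) := pow_dvd_pow 2 (by omega)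
      rw [← pow_mul]
      have h2 : 2 ^ s * d * t * (2 * k) = 2 ^ (max s 1) * k * d * (u * t) := by
        calc 2 ^ s * d * t * (2 * k) = 2 ^ (s + 1) * (d * t * k) := by ring
          _ = 2 ^ (max s 1) * u * (d * t * k) := by rw [hu]
          _ = _ := by ring
      rw [h2, pow_mul, h1, one_pow]
  · left
    push Not at hex
    obtain ⟨y, hy0, hy⟩ := hex
    have h1 : ∀ G ∈ TB, MvPolynomial.aeval (fun i => y i ^ m) G = 0 := by
      rw [hTB]
      exact fun F hF c => hy F hF _
    obtain ⟨ε', hε', h2, h3, h4⟩ := local_zmod TB rfl hqb1 hk hkT hT hST hdm hm0 y h1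
    rw [mem_Eps] at hε'
    refine ⟨ε', ?_, hε', fun F hF c => ?_⟩
    · intro h
      apply hy0
      funext i
      exact (h2 i).1 (congrFun h i)
    · have h5 : (fun i => ε' i ^ m) = ε' := by
        funext i
        rcases Nat.eq_zero_or_pos s with hs | hs
        · subst hs
          have hodd : Odd m := by
            rw [← Nat.not_even_iff_odd, even_iff_two_dvd]
            simpa using hdm'
          rcases hε' i with h | h | h
          · rw [h, hodd.neg_one_pow]
          · rw [h, zero_pow hm0]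
          · rw [h, one_pow]
        · rcases hε' i with h | h | h
          · have := h3 hs i
            omega
          · rw [h, zero_pow hm0]
          · rw [h, one_pow]
      rw [h5]
      have h6 := (hTB ℤ ε').1 (fun G hG => by
        have := h4 G hG
        rw [MvPolynomial.aeval_def]
        exact this) F hF c
      exact h6

/-- the bad classes of exponents -/
noncomputable def PG (S : Finset (MvPolynomial (Fin (R + (n + 1))) ℤ)) (q m g h : ℕ)
    [Fact q.Prime] [NeZero h] (b : Fin R → ZMod q) : Finset (Fin R → ZMod h) := by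
  classical
  exact (univ : Finset (Fin R → ZMod h)).filter (fun u =>
    ∃ y : Fin (n + 1) → ZMod q, y ≠ 0 ∧
      ∀ F ∈ S, MvPolynomial.aeval (Fin.append (fun l => b l * (g : ZMod q) ^ (u l).val)
        (fun j => y j ^ m)) F = 0)

theorem card_PG (S : Finset (MvPolynomial (Fin (R + (n + 1))) ℤ)) {D q m k g h : ℕ}
    [hq : Fact q.Prime] [NeZero h] (hh : orderOf (g : ZMod q) = h) (hk : 0 < k)
    (hD : ∀ F ∈ S, F.totalDegree ≤ D)
    (hm : ∀ a : ZMod q, a ^ m = 0 ∨ (a ^ m) ^ (2 * k) = 1)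
    (hg : ∀ y : Fin (n + 1) → ZMod q, y ≠ 0 →
      ∃ F ∈ S, ∃ c : Fin R → ZMod q,
        MvPolynomial.aeval (Fin.append c (fun j => y j ^ m)) F ≠ 0)
    (b : Fin R → ZMod q) (hb : ∀ l, b l ≠ 0) :
    (PG S q m g h b).card * h ≤ (3 * k) ^ (n + 1) * (D * h ^ R) := by
  classical
  have hh0 : 0 < h := Nat.pos_of_ne_zero (NeZero.ne h)
  set G : Finset (ZMod q) := (range h).image (fun i => (g : ZMod q) ^ i) with hG
  have hinj : Set.InjOn (fun i => (g : ZMod q) ^ i) (range h : Set ℕ) := by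
    have h1 := pow_injOn_Iio_orderOf (x := (g : ZMod q))
    rw [hh] at h1
    intro i hi j hj hij
    exact h1 (by simpa using hi) (by simpa using hj) hij
  have hGc : G.card = h := by
    rw [hG, card_image_of_injOn hinj, card_range]
  set Y : Finset (Fin (n + 1) → ZMod q) := Fintype.piFinset fun _ =>
    (univ : Finset (ZMod q)).filter (fun a => a = 0 ∨ a ^ (2 * k) = 1) with hY
  have hYc : Y.card ≤ (3 * k) ^ (n + 1) := by
    rw [hY, Fintype.card_piFinset, prod_const, card_univ, Fintype.card_fin]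
    refine Nat.pow_le_pow_left ?_ _
    have := card_pow_le (q := q) (k := 2 * k) (by omega)
    omega
  have hsub : (PG S q m g h b).image (fun u l => (g : ZMod q) ^ (u l).val) ⊆
      (Y.filter (fun v => ∃ F ∈ S, ∃ c : Fin R → ZMod q,
      MvPolynomial.aeval (Fin.append c v) F ≠ 0)).biUnion fun v =>
      (Fintype.piFinset fun _ : Fin R => G).filter (fun c =>
        ∀ F ∈ S, MvPolynomial.aeval (Fin.append (fun l => b l * c l) v) F = 0) := by
    intro c hc
    obtain ⟨u, hu, rfl⟩ := mem_image.1 hc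
    rw [PG, mem_filter] at hu
    obtain ⟨-, y, hy0, hy2⟩ := hu
    refine mem_biUnion.2 ⟨fun j => y j ^ m, mem_filter.2 ⟨?_, hg y hy0⟩,
      mem_filter.2 ⟨?_, hy2⟩⟩
    · rw [hY, Fintype.mem_piFinset]
      intro j
      rw [mem_filter]
      exact ⟨mem_univ _, hm (y j)⟩
    · rw [Fintype.mem_piFinset]
      intro l
      exact mem_image.2 ⟨(u l).val, mem_range.2 (ZMod.val_lt _), rfl⟩
  have hcimg : ((PG S q m g h b).image (fun u l => (g : ZMod q) ^ (u l).val)).card =
      (PG S q m g h b).card := by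
    refine card_image_of_injective _ fun u v huv => ?_
    funext l
    have h1 := congrFun huv l
    have h2 := hinj (by simpa using ZMod.val_lt (u l)) (by simpa using ZMod.val_lt (v l)) h1
    exact ZMod.val_injective h h2
  have hone : ∀ v ∈ Y.filter (fun v => ∃ F ∈ S, ∃ c : Fin R → ZMod q,
      MvPolynomial.aeval (Fin.append c v) F ≠ 0), ((Fintype.piFinset fun _ : Fin R => G).filter
      (fun c => ∀ F ∈ S, MvPolynomial.aeval (Fin.append (fun l => b l * c l) v) F = 0)).card * h
        ≤ D * h ^ R := by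
    intro v hv
    obtain ⟨F, hF, c₀, hc₀⟩ := (mem_filter.1 hv).2
    set p : MvPolynomial (Fin R) (ZMod q) := MvPolynomial.aeval
      (Fin.append (fun i => MvPolynomial.C (b i) * MvPolynomial.X i)
        (fun j => MvPolynomial.C (v j))) F with hp
    have hev : ∀ c : Fin R → ZMod q, MvPolynomial.eval c p =
        MvPolynomial.aeval (Fin.append (fun l => b l * c l) v) F := by
      intro c
      have h1 := aeval_ringHom (MvPolynomial.eval c)
        (Fin.append (fun i => (MvPolynomial.C (b i) * MvPolynomial.X i :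
          MvPolynomial (Fin R) (ZMod q))) (fun j => MvPolynomial.C (v j))) F
      rw [append_hom] at h1
      simp only [map_mul, MvPolynomial.eval_X, MvPolynomial.eval_C] at h1
      exact h1
    have hp0 : p ≠ 0 := by
      intro h0
      apply hc₀
      have h1 := hev (fun l => (b l)⁻¹ * c₀ l)
      rw [h0, map_zero] at h1
      have h2 : (fun l => b l * ((b l)⁻¹ * c₀ l)) = c₀ := by
        funext l
        rw [← mul_assoc, mul_inv_cancel₀ (hb l), one_mul]
      rw [h2] at h1
      exact h1.symm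
    have hdeg : p.totalDegree ≤ D := by
      refine le_trans ?_ (hD F hF)
      rw [hp, MvPolynomial.aeval_def, MvPolynomial.eval₂_eq']
      refine MvPolynomial.totalDegree_finsetSum_le fun α hα => ?_
      refine (MvPolynomial.totalDegree_mul _ _).trans ?_
      have h1 : ((algebraMap ℤ (MvPolynomial (Fin R) (ZMod q))) (F.coeff α)).totalDegree = 0 := by
        have h2 : (algebraMap ℤ (MvPolynomial (Fin R) (ZMod q))) (F.coeff α) =
            MvPolynomial.C ((F.coeff α : ℤ) : ZMod q) := by simp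
        rw [h2, MvPolynomial.totalDegree_C]
      rw [h1, zero_add]
      refine (MvPolynomial.totalDegree_finsetProd _ _).trans ?_
      refine le_trans ?_ (MvPolynomial.le_totalDegree hα)
      rw [Finsupp.sum_fintype _ _ (fun _ => rfl)]
      refine sum_le_sum fun i _ => ?_
      refine (MvPolynomial.totalDegree_pow _ _).trans ?_
      have h3 : (Fin.append (fun i => (MvPolynomial.C (b i) * MvPolynomial.X i :
          MvPolynomial (Fin R) (ZMod q))) (fun j => MvPolynomial.C (v j)) i).totalDegree ≤ 1 := by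
        refine Fin.addCases (fun i => ?_) (fun i => ?_) i
        · rw [Fin.append_left]
          refine (MvPolynomial.totalDegree_mul _ _).trans ?_
          rw [MvPolynomial.totalDegree_C, MvPolynomial.totalDegree_X]
        · rw [Fin.append_right, MvPolynomial.totalDegree_C]
          exact zero_le_one
      calc α i * _ ≤ α i * 1 := Nat.mul_le_mul_left _ h3
        _ = α i := mul_one _
    have h1 := MvPolynomial.schwartz_zippel_totalDegree hp0 G
    rw [hGc] at h1
    have hq0 : (0 : ℚ≥0) < h := by exact_mod_cast hh0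
    rw [div_le_div_iff₀ (by positivity) hq0] at h1
    have h2 : ((Fintype.piFinset fun _ : Fin R => G).filter
        (fun c => MvPolynomial.eval c p = 0)).card * h ≤ p.totalDegree * h ^ R := by
      exact_mod_cast h1
    have h3 : ((Fintype.piFinset fun _ : Fin R => G).filter
        (fun c => ∀ F ∈ S, MvPolynomial.aeval (Fin.append (fun l => b l * c l) v) F = 0)).card ≤
        ((Fintype.piFinset fun _ : Fin R => G).filter
          (fun c => MvPolynomial.eval c p = 0)).card := by
      refine card_le_card fun c hc => ?_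
      rw [mem_filter] at hc ⊢
      exact ⟨hc.1, by rw [hev]; exact hc.2 F hF⟩
    exact (Nat.mul_le_mul_right _ h3).trans (h2.trans (Nat.mul_le_mul_right _ hdeg))
  have h1 := (card_le_card hsub).trans card_biUnion_le
  rw [hcimg] at h1
  set Y' := Y.filter (fun v => ∃ F ∈ S, ∃ c : Fin R → ZMod q,
      MvPolynomial.aeval (Fin.append c v) F ≠ 0) with hY'
  calc (PG S q m g h b).card * h ≤ (∑ v ∈ Y',
        ((Fintype.piFinset fun _ : Fin R => G).filter (fun c => ∀ F ∈ S,
          MvPolynomial.aeval (Fin.append (fun l => b l * c l) v) F = 0)).card) * h :=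
        Nat.mul_le_mul_right _ h1
    _ = ∑ v ∈ Y', ((Fintype.piFinset fun _ : Fin R => G).filter (fun c => ∀ F ∈ S,
          MvPolynomial.aeval (Fin.append (fun l => b l * c l) v) F = 0)).card * h := sum_mul _ _ _
    _ ≤ ∑ v ∈ Y', D * h ^ R := sum_le_sum hone
    _ = Y'.card * (D * h ^ R) := by rw [sum_const, smul_eq_mul]
    _ ≤ (3 * k) ^ (n + 1) * (D * h ^ R) :=
        Nat.mul_le_mul_right _ ((card_filter_le _ _).trans hYc)

end Pool.Agent.H912.AE
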