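import Pool.Agent.H912.AE.Ex

/-!
# Families with exponential parameters: the count in boxes (helper912)
-/

set_option autoImplicit false

open Finset Filter Topology

namespace Pool.Agent.H912.AE

variable {R n : ℕ}

open Classical in
theorem boxG (S : Finset (MvPolynomial (Fin (R + (n + 1))) ℤ)) (hS : ∀ F ∈ S, ∃ d, FormY F d)
    {D q m k g C : ℕ} [hq : Fact q.Prime] (hk : 0 < k)
    (hD : ∀ F ∈ S, F.totalDegree ≤ D)
    (hm : ∀ a : ZMod q, a ^ m = 0 ∨ (a ^ m) ^ (2 * k) = 1)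
    (hg : ∀ y : Fin (n + 1) → ZMod q, y ≠ 0 →
      ∃ F ∈ S, ∃ c : Fin R → ZMod q,
        MvPolynomial.aeval (Fin.append c (fun j => y j ^ m)) F ≠ 0)
    (hord : ∀ j, 0 < j → j ≤ C * k ^ (n + 1) → (g : ZMod q) ^ j ≠ 1) (hqg : (g : ZMod q) ≠ 0)
    (b : Fin R → ℤ) (hb : ∀ l, (b l : ZMod q) ≠ 0) (a H : Fin R → ℕ) (hH : ∀ l, q ≤ H l)
    {ε : ℝ} (hε : 0 < ε) (hC : (3 ^ (n + 1) * D * 2 ^ R : ℝ) / ε ≤ C) :
    (((Fintype.piFinset fun i => Ico (a i) (a i + H i)).filter (fun u : Fin R → ℕ =>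
      HasQ S m (fun l => b l * (g : ℤ) ^ u l) q)).card : ℝ) ≤ ε * ∏ i, (H i : ℝ) := by
  have hq1 : (g : ZMod q) ^ (q - 1) = 1 := ZMod.pow_card_sub_one_eq_one hqg
  have hq2 : 0 < q - 1 := by
    have := hq.out.two_le
    omega
  set h := orderOf (g : ZMod q) with hh
  have hh0 : 0 < h := by
    rw [hh, orderOf_pos_iff, isOfFinOrder_iff_pow_eq_one]
    exact ⟨q - 1, hq2, hq1⟩
  have hhq : h ≤ q := (orderOf_le_of_pow_eq_one hq2 hq1).trans (by omega)
  have hhC : C * k ^ (n + 1) < h := by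
    by_contra hcon
    exact hord h hh0 (not_lt.1 hcon) (pow_orderOf_eq_one _)
  have : NeZero h := ⟨hh0.ne'⟩
  have hP := card_PG S (h := h) rfl hk hD hm hg (fun l => (b l : ZMod q)) hb
  set P := PG S q m g h (fun l => (b l : ZMod q)) with hPdef
  have hsub2 : (Fintype.piFinset fun i => Ico (a i) (a i + H i)).filter
      (fun u : Fin R → ℕ => HasQ S m (fun l => b l * (g : ℤ) ^ u l) q) ⊆
      (Fintype.piFinset fun i => Ico (a i) (a i + H i)).filter
      (fun u : Fin R → ℕ => (fun i => (u i : ZMod h)) ∈ P) := by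
    intro u hu
    rw [mem_filter] at hu ⊢
    refine ⟨hu.1, ?_⟩
    obtain ⟨x, hx, hx1⟩ := hu.2
    obtain ⟨v, hv, hv1⟩ := pattern_fam S hS _ x hx hx1
    rw [hPdef, PG, mem_filter]
    refine ⟨mem_univ _, v, hv, fun F hF => ?_⟩
    have h1 := hv1 F hF
    have h2 : (fun l => ((b l * (g : ℤ) ^ u l : ℤ) : ZMod q)) =
        fun l => (b l : ZMod q) * (g : ZMod q) ^ ((u l : ZMod h)).val := by
      funext l
      rw [ZMod.val_natCast, hh, pow_mod_orderOf]
      push_cast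
      ring
    rw [h2] at h1
    exact h1
  have hinj : ((Fintype.piFinset fun i => Ico (a i) (a i + H i)).filter
      (fun u : Fin R → ℕ => (fun i => (u i : ZMod h)) ∈ P)).card ≤
      ((Fintype.piFinset fun i => Ico ((a i : ℕ) : ℤ) ((a i : ℤ) + H i)).filter
      (fun c => (fun i => (c i : ZMod h)) ∈ P)).card := by
    refine card_le_card_of_injOn (fun u i => (u i : ℤ)) (fun u hu => ?_) fun u _ v _ huv => ?_
    · rw [mem_coe, mem_filter, Fintype.mem_piFinset] at hu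
      rw [mem_coe, mem_filter, Fintype.mem_piFinset]
      refine ⟨fun i => ?_, ?_⟩
      · have := mem_Ico.1 (hu.1 i)
        rw [mem_Ico]
        constructor
        · change ((a i : ℕ) : ℤ) ≤ ((u i : ℕ) : ℤ)
          exact_mod_cast this.1
        · change ((u i : ℕ) : ℤ) < ((a i : ℕ) : ℤ) + ((H i : ℕ) : ℤ)
          exact_mod_cast this.2
      · simpa using hu.2
    · funext i
      have : ((u i : ℕ) : ℤ) = ((v i : ℕ) : ℤ) := congrFun huv i
      exact_mod_cast this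
  have h1 := (card_le_card hsub2).trans (hinj.trans (card_box hh0 (fun i => (a i : ℤ)) H P))
  have h2 : ∀ i, H i / h + 1 ≤ 2 * (H i / h) := by
    intro i
    have h3 : h ≤ H i := hhq.trans (hH i)
    have h4 : 1 ≤ H i / h := (Nat.one_le_div_iff hh0).2 h3
    omega
  have hqr : (0 : ℝ) < h := by exact_mod_cast hh0
  have h3 : ((∏ i, (H i / h + 1) : ℕ) : ℝ) ≤ ∏ i, (2 * ((H i : ℝ) / h)) := by
    push_cast
    refine prod_le_prod (fun i _ => by positivity) fun i _ => ?_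
    have h4 : (((H i / h + 1 : ℕ)) : ℝ) ≤ ((2 * (H i / h) : ℕ) : ℝ) := by exact_mod_cast h2 i
    push_cast at h4
    have h5 : ((H i / h : ℕ) : ℝ) ≤ (H i : ℝ) / h := Nat.cast_div_le
    linarith
  have h4 : ∏ i : Fin R, (2 * ((H i : ℝ) / h)) = 2 ^ R * (∏ i, (H i : ℝ)) / h ^ R := by
    rw [prod_mul_distrib, prod_const, card_univ, Fintype.card_fin, prod_div_distrib,
      prod_const, card_univ, Fintype.card_fin]
    ring
  have hH0 : (0 : ℝ) ≤ ∏ i, (H i : ℝ) := prod_nonneg fun i _ => by positivity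
  have hP' : (P.card : ℝ) ≤ (3 * k) ^ (n + 1) * (D * h ^ R) / h := by
    rw [le_div_iff₀ hqr]
    exact_mod_cast hP
  have h5 : (((Fintype.piFinset fun i => Ico (a i) (a i + H i)).filter (fun u : Fin R → ℕ =>
      HasQ S m (fun l => b l * (g : ℤ) ^ u l) q)).card : ℝ) ≤
      ((3 * k) ^ (n + 1) * (D * h ^ R) / h) * (2 ^ R * (∏ i, (H i : ℝ)) / h ^ R) := by
    rw [← h4]
    have h6 : (((Fintype.piFinset fun i => Ico (a i) (a i + H i)).filter (fun u : Fin R → ℕ =>
      HasQ S m (fun l => b l * (g : ℤ) ^ u l) q)).card : ℝ) ≤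
        (P.card : ℝ) * ((∏ i, (H i / h + 1) : ℕ) : ℝ) := by exact_mod_cast h1
    exact h6.trans (mul_le_mul hP' h3 (by positivity) (by positivity))
  refine h5.trans ?_
  have h6 : ((3 * (k : ℝ)) ^ (n + 1) * (D * (h : ℝ) ^ R) / h) *
      (2 ^ R * (∏ i, (H i : ℝ)) / h ^ R) =
      ((3 ^ (n + 1) * D * 2 ^ R) * k ^ (n + 1) / h) * ∏ i, (H i : ℝ) := by
    rw [mul_pow]
    field_simp
  rw [h6]
  refine mul_le_mul_of_nonneg_right ?_ hH0
  rw [div_le_iff₀ hqr]
  have h7 : (3 ^ (n + 1) * D * 2 ^ R : ℝ) ≤ C * ε := by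
    rwa [div_le_iff₀ hε] at hC
  have h8 : ((C * k ^ (n + 1) : ℕ) : ℝ) ≤ h := by exact_mod_cast hhC.le
  push_cast at h8
  calc (3 ^ (n + 1) * D * 2 ^ R : ℝ) * k ^ (n + 1) ≤ C * ε * k ^ (n + 1) :=
        mul_le_mul_of_nonneg_right h7 (by positivity)
    _ = ε * (C * k ^ (n + 1)) := by ring
    _ ≤ ε * h := mul_le_mul_of_nonneg_left h8 hε.le

/-- the coefficients `σ_l ∏ p_j ^ e_{l,j}` -/
def coefS {R s : ℕ} (p : Fin s → ℕ) (σ : Fin R → ℤ) (e : Fin R → Fin s → ℕ) : Fin R → ℤ :=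
  fun l => σ l * ∏ j, (p j : ℤ) ^ e l j

/-- the box of exponents -/
def ebox {R s : ℕ} (a H : Fin R → Fin s → ℕ) : Finset (Fin R → Fin s → ℕ) :=
  Fintype.piFinset fun l => Fintype.piFinset fun j => Ico (a l j) (a l j + H l j)

open Classical in
/-- fibering a box over the exponents of the other primes -/
theorem card_ebox {s : ℕ} (a H : Fin R → Fin (s + 1) → ℕ)
    (P : (Fin R → Fin (s + 1) → ℕ) → Prop) {ε : ℝ} (hε : 0 ≤ ε)
    (h : ∀ r : Fin R → Fin s → ℕ,
      (((Fintype.piFinset fun l => Ico (a l 0) (a l 0 + H l 0)).filter (fun u : Fin R → ℕ =>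
        P (fun l => Fin.cons (u l) (r l)))).card : ℝ) ≤ ε * ∏ l, (H l 0 : ℝ)) :
    (((ebox a H).filter P).card : ℝ) ≤ ε * ∏ l, ∏ j, (H l j : ℝ) := by
  set t : Finset (Fin R → Fin s → ℕ) := ebox (fun l j => a l j.succ) (fun l j => H l j.succ)
    with ht
  have hmaps : ∀ e ∈ (ebox a H).filter P, (fun l => Fin.tail (e l)) ∈ t := by
    intro e he
    rw [mem_filter, ebox, Fintype.mem_piFinset] at he
    rw [ht, ebox, Fintype.mem_piFinset]
    intro l
    rw [Fintype.mem_piFinset]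
    intro j
    exact (Fintype.mem_piFinset.1 (he.1 l)) j.succ
  have hfib : ∀ r ∈ t, (((ebox a H).filter P).filter
      (fun e => (fun l => Fin.tail (e l)) = r)).card ≤ ⌊ε * ∏ l, (H l 0 : ℝ)⌋₊ := by
    intro r _
    refine Nat.le_floor (le_trans ?_ (h r))
    have h1 : (((ebox a H).filter P).filter
      (fun e => (fun l => Fin.tail (e l)) = r)).card ≤
      ((Fintype.piFinset fun l => Ico (a l 0) (a l 0 + H l 0)).filter (fun u : Fin R → ℕ =>
        P (fun l => Fin.cons (u l) (r l)))).card := by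
      refine card_le_card_of_injOn (fun e l => e l 0) (fun e he => ?_) fun e he e' he' hee => ?_
      · rw [mem_coe, mem_filter, mem_filter, ebox, Fintype.mem_piFinset] at he
        rw [mem_coe, mem_filter, Fintype.mem_piFinset]
        refine ⟨fun l => (Fintype.mem_piFinset.1 (he.1.1 l)) 0, ?_⟩
        have h2 : (fun l => (Fin.cons (e l 0) (r l) : Fin (s + 1) → ℕ)) = e := by
          funext l
          rw [← he.2]
          exact Fin.cons_self_tail (e l)
        simp only [h2]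
        exact he.1.2
      · rw [mem_coe, mem_filter] at he he'
        have h2 := he.2.trans he'.2.symm
        funext l
        rw [← Fin.cons_self_tail (e l), ← Fin.cons_self_tail (e' l)]
        have h3 := congrFun hee l
        have h4 := congrFun h2 l
        simp only at h3 h4
        rw [h3, h4]
    exact_mod_cast h1
  have h1 := card_le_mul_card_image_of_maps_to hmaps _ hfib
  have h2 : (t.card : ℝ) = ∏ l, ∏ j : Fin s, (H l j.succ : ℝ) := by
    rw [ht, ebox, Fintype.card_piFinset]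
    push_cast
    refine prod_congr rfl fun l _ => ?_
    rw [Fintype.card_piFinset]
    push_cast
    refine prod_congr rfl fun j _ => ?_
    rw [Nat.card_Ico, Nat.add_sub_cancel_left]
  have h3 : (((ebox a H).filter P).card : ℝ) ≤ (⌊ε * ∏ l, (H l 0 : ℝ)⌋₊ : ℝ) * t.card := by
    exact_mod_cast h1
  have h4 : (⌊ε * ∏ l, (H l 0 : ℝ)⌋₊ : ℝ) ≤ ε * ∏ l, (H l 0 : ℝ) :=
    Nat.floor_le (mul_nonneg hε (prod_nonneg fun _ _ => Nat.cast_nonneg _))
  refine h3.trans ((mul_le_mul_of_nonneg_right h4 (Nat.cast_nonneg _)).trans ?_)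
  rw [h2, mul_assoc, ← prod_mul_distrib]
  refine le_of_eq ?_
  congr 1
  refine prod_congr rfl fun l _ => ?_
  rw [Fin.prod_univ_succ]

open Classical in
theorem familiesS (S : Finset (MvPolynomial (Fin (R + (n + 1))) ℤ))
    (hS : ∀ F ∈ S, ∃ d, FormY F d) {s : ℕ} (p : Fin (s + 1) → ℕ) (hp : ∀ j, 2 ≤ p j)
    {ε : ℝ} (hε : 0 < ε) :
    ∃ H₀ N₀ : ℕ, ∀ M : ℕ, N₀ ≤ M → (((range M).filter (fun m =>
      ¬ (TrivB S m ∨ ∀ (σ : Fin R → ℤ) (a H : Fin R → Fin (s + 1) → ℕ),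
        (∀ l, σ l = 1 ∨ σ l = -1) → (∀ l j, H₀ ≤ H l j) →
        (((ebox a H).filter (fun e => ∀ (q : ℕ) [Fact q.Prime], q ≤ H₀ →
          HasQ S m (coefS p σ e) q)).card : ℝ) ≤ ε * ∏ l, ∏ j, (H l j : ℝ)))).card : ℝ)
            ≤ ε * M := by
  obtain ⟨D, hD⟩ : ∃ D : ℕ, ∀ F ∈ S, F.totalDegree ≤ D :=
    ⟨∑ F ∈ S, F.totalDegree, fun F hF => single_le_sum (f := fun F => F.totalDegree)
      (fun _ _ => Nat.zero_le _) hF⟩
  obtain ⟨C₂, hC₂⟩ := exists_nat_ge ((3 ^ (n + 1) * D * 2 ^ R : ℝ) / ε)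
  have hB : (∏ j, p j) ≠ 0 := prod_ne_zero_iff.2 fun j _ => by
    have := hp j
    omega
  obtain ⟨D', N₀, h⟩ := primesG S C₂ (hp 0) hB hε
  refine ⟨D', N₀, fun M hM => le_trans ?_ (h M hM)⟩
  have hsub : (range M).filter (fun m =>
      ¬ (TrivB S m ∨ ∀ (σ : Fin R → ℤ) (a H : Fin R → Fin (s + 1) → ℕ),
        (∀ l, σ l = 1 ∨ σ l = -1) → (∀ l j, D' ≤ H l j) →
        (((ebox a H).filter (fun e => ∀ (q : ℕ) [Fact q.Prime], q ≤ D' →
          HasQ S m (coefS p σ e) q)).card : ℝ) ≤ ε * ∏ l, ∏ j, (H l j : ℝ))) ⊆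
      (range M).filter (fun m => ¬ ∃ q, 0 < q ∧ q ≤ D' ∧
        (TrivB S m ∨ SWG S C₂ (p 0) (∏ j, p j) m q)) := by
    intro m hm
    rw [mem_filter] at hm ⊢
    refine ⟨hm.1, ?_⟩
    rintro ⟨q, hq0, hqD, h | ⟨hq, k, hk0, hord, hqB, hk, hg⟩⟩
    · exact hm.2 (Or.inl h)
    refine hm.2 (Or.inr fun σ a H hσ hH => ?_)
    have hqj : ∀ j, ((p j : ℕ) : ZMod q) ≠ 0 := by
      intro j hj
      rw [ZMod.natCast_eq_zero_iff] at hj
      exact hqB ((hj.trans (dvd_prod_of_mem p (mem_univ j))).mul_right _)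
    have key := card_ebox a H (fun e => ∀ (q : ℕ) [Fact q.Prime], q ≤ D' →
          HasQ S m (coefS p σ e) q) hε.le fun r => by
      have h1 := boxG S hS hk0 hD hk hg hord (hqj 0)
        (fun l => σ l * ∏ j : Fin s, (p j.succ : ℤ) ^ r l j) (fun l => by
          push_cast
          refine mul_ne_zero ?_ (prod_ne_zero_iff.2 fun j _ => pow_ne_zero _ (hqj _))
          rcases hσ l with h | h <;> rw [h] <;> simp)
        (fun l => a l 0) (fun l => H l 0) (fun l => hqD.trans (hH l 0)) hε hC₂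
      refine le_trans ?_ h1
      have h2 : (Fintype.piFinset fun l => Ico (a l 0) (a l 0 + H l 0)).filter
          (fun u : Fin R → ℕ => ∀ (q : ℕ) [Fact q.Prime], q ≤ D' →
            HasQ S m (coefS p σ (fun l => Fin.cons (u l) (r l))) q) ⊆
          (Fintype.piFinset fun l => Ico (a l 0) (a l 0 + H l 0)).filter
          (fun u : Fin R → ℕ => HasQ S m (fun l => (σ l * ∏ j : Fin s, (p j.succ : ℤ) ^ r l j) *
            (p 0 : ℤ) ^ u l) q) := by
        intro u hu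
        rw [mem_filter] at hu ⊢
        refine ⟨hu.1, ?_⟩
        have h3 := hu.2 q hqD
        have h4 : coefS p σ (fun l => (Fin.cons (u l) (r l) : Fin (s + 1) → ℕ)) =
            fun l => (σ l * ∏ j : Fin s, (p j.succ : ℤ) ^ r l j) * (p 0 : ℤ) ^ u l := by
          funext l
          rw [coefS, Fin.prod_univ_succ]
          simp only [Fin.cons_zero, Fin.cons_succ]
          ring
        rw [h4] at h3
        exact h3
      exact_mod_cast card_le_card h2
    exact key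
  exact_mod_cast card_le_card hsub

end Pool.Agent.H912.AE
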