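import Pool.Agent.H912.AE.Avg

/-!
# Families of affine schemes (helper912)
-/

set_option autoImplicit false

open Finset Filter Topology

namespace Pool.Agent.H912.AE

variable {R n : ℕ}

/-- the common zeros of the family contain a trivial point for `m`, with `±1` at the places
in `I` -/
def TrivA (S : Finset (MvPolynomial (Fin (R + (n + 1))) ℤ)) (I : Finset (Fin (n + 1))) (m : ℕ) :
    Prop :=
  ∃ η : Fin (n + 1) → ℤ, (∀ i, η i = -1 ∨ η i = 0 ∨ η i = 1) ∧ (∀ i ∈ I, η i ≠ 0) ∧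
    ∀ F ∈ S, ∀ c : Fin R → ℤ, MvPolynomial.aeval (Fin.append c (fun i => η i ^ m)) F = 0

/-- a good prime for the family -/
def SWA (S : Finset (MvPolynomial (Fin (R + (n + 1))) ℤ)) (I : Finset (Fin (n + 1)))
    (C m q : ℕ) : Prop :=
  ∃ _ : Fact q.Prime, ∃ k : ℕ, 0 < k ∧ C * k ^ (n + 1) < q ∧
    (∀ a : ZMod q, a ^ m = 0 ∨ (a ^ m) ^ (2 * k) = 1) ∧
    ∀ y : Fin (n + 1) → ZMod q, (∀ i ∈ I, y i ≠ 0) → ∃ F ∈ S, ∃ c : Fin R → ZMod q,
      MvPolynomial.aeval (Fin.append c (fun j => y j ^ m)) F ≠ 0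

open Classical in
theorem primesA (S : Finset (MvPolynomial (Fin (R + (n + 1))) ℤ)) (I : Finset (Fin (n + 1)))
    (C P : ℕ) {ε : ℝ} (hε : 0 < ε) :
    ∃ D' N₀ : ℕ, ∀ M : ℕ, N₀ ≤ M → (((range M).filter (fun m =>
      ¬ ∃ q, P < q ∧ q ≤ D' ∧ (TrivA S I m ∨ SWA S I C m q))).card : ℝ) ≤ ε * M := by
  obtain ⟨TB, hTB⟩ := base_finite S
  obtain ⟨T, hT, hST⟩ : ∃ T : ℕ, 2 ≤ T ∧ ∀ F ∈ TB, F.support.card ≤ T :=
    ⟨2 + ∑ F ∈ TB, F.support.card, by omega, fun F hF => by
      have := single_le_sum (f := fun F : MvPolynomial (Fin (n + 1)) ℤ => F.support.card)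
        (fun _ _ => Nat.zero_le _) hF
      omega⟩
  have hcard : ∀ k, 1 ≤ k → ((bad TB k ∪ range (C * k ^ (n + 1) + 1)).card : ℝ) ≤
      ((3 ^ (n + 1) * ∑ F ∈ TB, (Lh F : ℝ)) + (C + 1)) * (k : ℝ) ^ (n + 2) := by
    intro k hk
    have h1 := card_bad TB hk
    have h2 : (((bad TB k ∪ range (C * k ^ (n + 1) + 1)).card : ℕ) : ℝ) ≤
        ((bad TB k).card : ℝ) + (C * k ^ (n + 1) + 1) := by
      have h3 := card_union_le (bad TB k) (range (C * k ^ (n + 1) + 1))
      rw [card_range] at h3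
      exact_mod_cast h3
    have hk1 : (1 : ℝ) ≤ k := by exact_mod_cast hk
    have h3 : (1 : ℝ) ≤ (k : ℝ) ^ (n + 2) := one_le_pow₀ hk1
    have h4 : (k : ℝ) ^ (n + 1) ≤ (k : ℝ) ^ (n + 2) := pow_le_pow_right₀ hk1 (by omega)
    have h5 : (C : ℝ) * k ^ (n + 1) ≤ C * (k : ℝ) ^ (n + 2) :=
      mul_le_mul_of_nonneg_left h4 (Nat.cast_nonneg _)
    have h6 : ((3 ^ (n + 1) * ∑ F ∈ TB, (Lh F : ℝ)) + (C + 1)) * (k : ℝ) ^ (n + 2) =
        (3 ^ (n + 1) * ∑ F ∈ TB, (Lh F : ℝ)) * (k : ℝ) ^ (n + 2) + C * (k : ℝ) ^ (n + 2) +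
          (k : ℝ) ^ (n + 2) := by ring
    rw [h6]
    linarith
  refine witnessB (fun k => bad TB k ∪ range (C * k ^ (n + 1) + 1)) (n + 2) (by positivity) hcard
    hT (fun m q => TrivA S I m ∨ SWA S I C m q) ?_ P hε
  rintro s d ⟨k, hk, hkT, hq, hqb⟩ hd0
  have hk0 : 0 < k := Nat.pos_of_ne_zero hk.ne_zero
  have hfq : Fact (2 ^ (max s 1) * k * d + 1).Prime := ⟨hq⟩
  have hqb1 : 2 ^ (max s 1) * k * d + 1 ∉ bad TB k := fun h => hqb (mem_union_left _ h)
  have hqb2 : C * k ^ (n + 1) < 2 ^ (max s 1) * k * d + 1 := by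
    by_contra h
    exact hqb (mem_union_right _ (mem_range.2 (by omega)))
  refine ⟨2 ^ (max s 1) * k * d + 1, ?_, fun m hm0 hdm hdm' => ?_⟩
  · have h1 : 1 * d ≤ 2 ^ (max s 1) * k * d := Nat.mul_le_mul_right d
      (Nat.one_le_iff_ne_zero.2 (by positivity))
    omega
  by_cases hex : ∀ y : Fin (n + 1) → ZMod (2 ^ (max s 1) * k * d + 1), (∀ i ∈ I, y i ≠ 0) →
      ∃ F ∈ S, ∃ c : Fin R → ZMod (2 ^ (max s 1) * k * d + 1),
        MvPolynomial.aeval (Fin.append c (fun j => y j ^ m)) F ≠ 0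
  · refine Or.inr ⟨hfq, k, hk0, hqb2, fun a => ?_, hex⟩
    by_cases ha : a = 0
    · left
      rw [ha, zero_pow hm0]
    · right
      obtain ⟨t, rfl⟩ := hdm
      have h1 := ZMod.pow_card_sub_one_eq_one ha
      rw [Nat.add_sub_cancel] at h1
      obtain ⟨u, hu⟩ : 2 ^ (max s 1) ∣ 2 ^ (s + 1) := pow_dvd_pow 2 (by omega)
      rw [← pow_mul]
      have h2 : 2 ^ s * d * t * (2 * k) = 2 ^ (max s 1) * k * d * (u * t) := by
        calc 2 ^ s * d * t * (2 * k) = 2 ^ (s + 1) * (d * t * k) := by ring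
          _ = 2 ^ (max s 1) * u * (d * t * k) := by rw [hu]
          _ = _ := by ring
      rw [h2, pow_mul, h1, one_pow]
  · left
    push Not at hex
    obtain ⟨y, hy0, hy⟩ := hex
    have h1 : ∀ G ∈ TB, MvPolynomial.aeval (fun i => y i ^ m) G = 0 := by
      rw [hTB]
      exact fun F hF c => hy F hF _
    obtain ⟨ε', hε', h2, h3, h4⟩ := local_zmod TB rfl hqb1 hk hkT hT hST hdm hm0 y h1
    rw [mem_Eps] at hε'
    refine ⟨ε', hε', fun i hi h => hy0 i hi ((h2 i).1 h), fun F hF c => ?_⟩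
    have h5 : (fun i => ε' i ^ m) = ε' := by
      funext i
      rcases Nat.eq_zero_or_pos s with hs | hs
      · subst hs
        have hodd : Odd m := by
          rw [← Nat.not_even_iff_odd, even_iff_two_dvd]
          simpa using hdm'
        rcases hε' i with h | h | h
        · rw [h, hodd.neg_one_pow]
        · rw [h, zero_pow hm0]
        · rw [h, one_pow]
      · rcases hε' i with h | h | h
        · have := h3 hs i
          omega
        · rw [h, zero_pow hm0]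
        · rw [h, one_pow]
    rw [h5]
    have h6 := (hTB ℤ ε').1 (fun G hG => by
      have := h4 G hG
      rw [MvPolynomial.aeval_def]
      exact this) F hF c
    exact h6

/-- the bad classes of parameters modulo `q` -/
noncomputable def PA (S : Finset (MvPolynomial (Fin (R + (n + 1))) ℤ)) (I : Finset (Fin (n + 1)))
    (q m : ℕ) [Fact q.Prime] : Finset (Fin R → ZMod q) := by
  classical
  exact (univ : Finset (Fin R → ZMod q)).filter (fun c =>
    ∃ y : Fin (n + 1) → ZMod q, (∀ i ∈ I, y i ≠ 0) ∧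
      ∀ F ∈ S, MvPolynomial.aeval (Fin.append c (fun j => y j ^ m)) F = 0)

theorem card_PA (S : Finset (MvPolynomial (Fin (R + (n + 1))) ℤ)) (I : Finset (Fin (n + 1)))
    {D q m k : ℕ} [hq : Fact q.Prime] (hk : 0 < k) (hD : ∀ F ∈ S, F.totalDegree ≤ D)
    (hm : ∀ a : ZMod q, a ^ m = 0 ∨ (a ^ m) ^ (2 * k) = 1)
    (hg : ∀ y : Fin (n + 1) → ZMod q, (∀ i ∈ I, y i ≠ 0) →
      ∃ F ∈ S, ∃ c : Fin R → ZMod q,
        MvPolynomial.aeval (Fin.append c (fun j => y j ^ m)) F ≠ 0) :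
    (PA S I q m).card * q ≤ (3 * k) ^ (n + 1) * (D * q ^ R) := by
  classical
  set Y : Finset (Fin (n + 1) → ZMod q) := Fintype.piFinset fun _ =>
    (univ : Finset (ZMod q)).filter (fun a => a = 0 ∨ a ^ (2 * k) = 1) with hY
  have hYc : Y.card ≤ (3 * k) ^ (n + 1) := by
    rw [hY, Fintype.card_piFinset, prod_const, card_univ, Fintype.card_fin]
    refine Nat.pow_le_pow_left ?_ _
    have := card_pow_le (q := q) (k := 2 * k) (by omega)
    omega
  have hsub : PA S I q m ⊆ (Y.filter (fun v => ∃ F ∈ S, ∃ c : Fin R → ZMod q,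
      MvPolynomial.aeval (Fin.append c v) F ≠ 0)).biUnion fun v =>
      (univ : Finset (Fin R → ZMod q)).filter (fun c =>
        ∀ F ∈ S, MvPolynomial.aeval (Fin.append c v) F = 0) := by
    intro c hc
    rw [PA, mem_filter] at hc
    obtain ⟨-, y, hy0, hy2⟩ := hc
    refine mem_biUnion.2 ⟨fun j => y j ^ m, mem_filter.2 ⟨?_, hg y hy0⟩,
      mem_filter.2 ⟨mem_univ _, hy2⟩⟩
    rw [hY, Fintype.mem_piFinset]
    intro j
    rw [mem_filter]
    exact ⟨mem_univ _, hm (y j)⟩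
  have hone : ∀ v ∈ Y.filter (fun v => ∃ F ∈ S, ∃ c : Fin R → ZMod q,
      MvPolynomial.aeval (Fin.append c v) F ≠ 0), ((univ : Finset (Fin R → ZMod q)).filter
      (fun c => ∀ F ∈ S, MvPolynomial.aeval (Fin.append c v) F = 0)).card * q ≤ D * q ^ R := by
    intro v hv
    obtain ⟨F, hF, c₀, hc₀⟩ := (mem_filter.1 hv).2
    set p : MvPolynomial (Fin R) (ZMod q) := MvPolynomial.aeval
      (Fin.append (fun i => MvPolynomial.X i) (fun j => MvPolynomial.C (v j))) F with hp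
    have hev : ∀ c : Fin R → ZMod q, MvPolynomial.eval c p =
        MvPolynomial.aeval (Fin.append c v) F := by
      intro c
      have h1 := aeval_ringHom (MvPolynomial.eval c)
        (Fin.append (fun i => (MvPolynomial.X i : MvPolynomial (Fin R) (ZMod q)))
          (fun j => MvPolynomial.C (v j))) F
      rw [append_hom] at h1
      simp only [MvPolynomial.eval_X, MvPolynomial.eval_C] at h1
      exact h1
    have hp0 : p ≠ 0 := by
      intro h
      apply hc₀
      rw [← hev, h, map_zero]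
    have hdeg : p.totalDegree ≤ D := by
      refine le_trans ?_ (hD F hF)
      rw [hp, MvPolynomial.aeval_def, MvPolynomial.eval₂_eq']
      refine MvPolynomial.totalDegree_finsetSum_le fun α hα => ?_
      refine (MvPolynomial.totalDegree_mul _ _).trans ?_
      have h1 : ((algebraMap ℤ (MvPolynomial (Fin R) (ZMod q))) (F.coeff α)).totalDegree = 0 := by
        have h2 : (algebraMap ℤ (MvPolynomial (Fin R) (ZMod q))) (F.coeff α) =
            MvPolynomial.C ((F.coeff α : ℤ) : ZMod q) := by simp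
        rw [h2, MvPolynomial.totalDegree_C]
      rw [h1, zero_add]
      refine (MvPolynomial.totalDegree_finsetProd _ _).trans ?_
      refine le_trans ?_ (MvPolynomial.le_totalDegree hα)
      rw [Finsupp.sum_fintype _ _ (fun _ => rfl)]
      refine sum_le_sum fun i _ => ?_
      refine (MvPolynomial.totalDegree_pow _ _).trans ?_
      have h3 : (Fin.append (fun i => (MvPolynomial.X i : MvPolynomial (Fin R) (ZMod q)))
          (fun j => MvPolynomial.C (v j)) i).totalDegree ≤ 1 := by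
        refine Fin.addCases (fun i => ?_) (fun i => ?_) i
        · rw [Fin.append_left, MvPolynomial.totalDegree_X]
        · rw [Fin.append_right, MvPolynomial.totalDegree_C]
          exact zero_le_one
      calc α i * _ ≤ α i * 1 := Nat.mul_le_mul_left _ h3
        _ = α i := mul_one _
    have h1 := MvPolynomial.schwartz_zippel_totalDegree hp0 (univ : Finset (ZMod q))
    rw [Fintype.piFinset_univ, card_univ, ZMod.card] at h1
    have hq0 : (0 : ℚ≥0) < q := by exact_mod_cast hq.out.pos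
    rw [div_le_div_iff₀ (by positivity) hq0] at h1
    have h2 : ((univ : Finset (Fin R → ZMod q)).filter (fun c => MvPolynomial.eval c p = 0)).card
        * q ≤ p.totalDegree * q ^ R := by exact_mod_cast h1
    have h3 : ((univ : Finset (Fin R → ZMod q)).filter
        (fun c => ∀ F ∈ S, MvPolynomial.aeval (Fin.append c v) F = 0)).card ≤
        ((univ : Finset (Fin R → ZMod q)).filter (fun c => MvPolynomial.eval c p = 0)).card := by
      refine card_le_card fun c hc => ?_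
      rw [mem_filter] at hc ⊢
      exact ⟨hc.1, by rw [hev]; exact hc.2 F hF⟩
    exact (Nat.mul_le_mul_right _ h3).trans (h2.trans (Nat.mul_le_mul_right _ hdeg))
  have h1 := (card_le_card hsub).trans card_biUnion_le
  set Y' := Y.filter (fun v => ∃ F ∈ S, ∃ c : Fin R → ZMod q,
      MvPolynomial.aeval (Fin.append c v) F ≠ 0) with hY'
  calc (PA S I q m).card * q ≤ (∑ v ∈ Y',
        ((univ : Finset (Fin R → ZMod q)).filter
          (fun c => ∀ F ∈ S, MvPolynomial.aeval (Fin.append c v) F = 0)).card) * q :=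
        Nat.mul_le_mul_right _ h1
    _ = ∑ v ∈ Y', ((univ : Finset (Fin R → ZMod q)).filter
          (fun c => ∀ F ∈ S, MvPolynomial.aeval (Fin.append c v) F = 0)).card * q := sum_mul _ _ _
    _ ≤ ∑ v ∈ Y', D * q ^ R := sum_le_sum hone
    _ = Y'.card * (D * q ^ R) := by rw [sum_const, smul_eq_mul]
    _ ≤ (3 * k) ^ (n + 1) * (D * q ^ R) :=
        Nat.mul_le_mul_right _ ((card_filter_le _ _).trans hYc)

/-- The member of the family with the parameters `c` has a point over the ring `A`, with units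
at the places in `I`. -/
def HasA (S : Finset (MvPolynomial (Fin (R + (n + 1))) ℤ)) (I : Finset (Fin (n + 1))) (m : ℕ)
    (c : Fin R → ℤ) (A : Type) [CommRing A] : Prop :=
  ∃ x : Fin (n + 1) → A, (∀ i ∈ I, IsUnit (x i)) ∧ ∀ F ∈ S, MvPolynomial.aeval
    (Fin.append (fun i => (c i : A)) (fun j => x j ^ m)) F = 0

lemma HasA.map {S : Finset (MvPolynomial (Fin (R + (n + 1))) ℤ)} {I : Finset (Fin (n + 1))}
    {m : ℕ} {c : Fin R → ℤ} {A B : Type} [CommRing A] [CommRing B] (φ : A →+* B)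
    (h : HasA S I m c A) : HasA S I m c B := by
  obtain ⟨x, hx, h⟩ := h
  refine ⟨fun i => φ (x i), fun i hi => (hx i hi).map φ, fun F hF => ?_⟩
  have h4 := aeval_ringHom φ (Fin.append (fun i => ((c i : ℤ) : A)) (fun j => x j ^ m)) F
  rw [h F hF, map_zero, append_hom] at h4
  simp only [map_intCast, map_pow] at h4
  exact h4.symm

open Classical in
theorem familiesA (S : Finset (MvPolynomial (Fin (R + (n + 1))) ℤ)) (I : Finset (Fin (n + 1)))
    (P : ℕ) {ε : ℝ} (hε : 0 < ε) :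
    ∃ H₀ N₀ : ℕ, ∀ M : ℕ, N₀ ≤ M → (((range M).filter (fun m =>
      ¬ (TrivA S I m ∨ ∀ (a : Fin R → ℤ) (H : Fin R → ℕ), (∀ i, H₀ ≤ H i) →
        (((Fintype.piFinset fun i => Ico (a i) (a i + H i)).filter (fun c =>
          ∀ q : ℕ, q.Prime → P < q → q ≤ H₀ → HasA S I m c (ZMod q))).card : ℝ)
          ≤ ε * ∏ i, (H i : ℝ)))).card : ℝ) ≤ ε * M := by
  obtain ⟨D, hD⟩ : ∃ D : ℕ, ∀ F ∈ S, F.totalDegree ≤ D :=
    ⟨∑ F ∈ S, F.totalDegree, fun F hF => single_le_sum (f := fun F => F.totalDegree)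
      (fun _ _ => Nat.zero_le _) hF⟩
  obtain ⟨C₂, hC₂⟩ := exists_nat_ge ((3 ^ (n + 1) * D * 2 ^ R : ℝ) / ε)
  obtain ⟨D', N₀, h⟩ := primesA S I C₂ P hε
  refine ⟨D', N₀, fun M hM => le_trans ?_ (h M hM)⟩
  have hsub : (range M).filter (fun m =>
      ¬ (TrivA S I m ∨ ∀ (a : Fin R → ℤ) (H : Fin R → ℕ), (∀ i, D' ≤ H i) →
        (((Fintype.piFinset fun i => Ico (a i) (a i + H i)).filter (fun c =>
          ∀ q : ℕ, q.Prime → P < q → q ≤ D' → HasA S I m c (ZMod q))).card : ℝ)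
          ≤ ε * ∏ i, (H i : ℝ))) ⊆
      (range M).filter (fun m => ¬ ∃ q, P < q ∧ q ≤ D' ∧ (TrivA S I m ∨ SWA S I C₂ m q)) := by
    intro m hm
    rw [mem_filter] at hm ⊢
    refine ⟨hm.1, ?_⟩
    rintro ⟨q, hqP, hqD, h | ⟨hq, k, hk0, hkq, hk, hg⟩⟩
    · exact hm.2 (Or.inl h)
    refine hm.2 (Or.inr fun a H hH => ?_)
    have hq0 : 0 < q := hq.out.pos
    have hP := card_PA S I hk0 hD hk hg
    have hsub2 : (Fintype.piFinset fun i => Ico (a i) (a i + H i)).filter
        (fun c => ∀ q : ℕ, q.Prime → P < q → q ≤ D' → HasA S I m c (ZMod q)) ⊆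
        (Fintype.piFinset fun i => Ico (a i) (a i + H i)).filter
        (fun c => (fun i => (c i : ZMod q)) ∈ PA S I q m) := by
      intro c hc
      rw [mem_filter] at hc ⊢
      refine ⟨hc.1, ?_⟩
      obtain ⟨x, hx, hx1⟩ := hc.2 q hq.out hqP hqD
      rw [PA, mem_filter]
      exact ⟨mem_univ _, x, fun i hi => (hx i hi).ne_zero, hx1⟩
    have h1 := (card_le_card hsub2).trans (card_box hq0 a H (PA S I q m))
    have h2 : ∀ i, H i / q + 1 ≤ 2 * (H i / q) := by
      intro i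
      have h3 : q ≤ H i := hqD.trans (hH i)
      have h4 : 1 ≤ H i / q := (Nat.one_le_div_iff hq0).2 h3
      omega
    have hqr : (0 : ℝ) < q := by exact_mod_cast hq0
    have h3 : ((∏ i, (H i / q + 1) : ℕ) : ℝ) ≤ ∏ i, (2 * ((H i : ℝ) / q)) := by
      push_cast
      refine prod_le_prod (fun i _ => by positivity) fun i _ => ?_
      have h4 : (((H i / q + 1 : ℕ)) : ℝ) ≤ ((2 * (H i / q) : ℕ) : ℝ) := by exact_mod_cast h2 i
      push_cast at h4
      have h5 : ((H i / q : ℕ) : ℝ) ≤ (H i : ℝ) / q := Nat.cast_div_le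
      linarith
    have h4 : ∏ i : Fin R, (2 * ((H i : ℝ) / q)) = 2 ^ R * (∏ i, (H i : ℝ)) / q ^ R := by
      rw [prod_mul_distrib, prod_const, card_univ, Fintype.card_fin, prod_div_distrib,
        prod_const, card_univ, Fintype.card_fin]
      ring
    have hH0 : (0 : ℝ) ≤ ∏ i, (H i : ℝ) := prod_nonneg fun i _ => by positivity
    have hP' : ((PA S I q m).card : ℝ) ≤ (3 * k) ^ (n + 1) * (D * q ^ R) / q := by
      rw [le_div_iff₀ hqr]
      exact_mod_cast hP
    have h5 : (((Fintype.piFinset fun i => Ico (a i) (a i + H i)).filter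
        (fun c => ∀ q : ℕ, q.Prime → P < q → q ≤ D' → HasA S I m c (ZMod q))).card : ℝ) ≤
        ((3 * k) ^ (n + 1) * (D * q ^ R) / q) * (2 ^ R * (∏ i, (H i : ℝ)) / q ^ R) := by
      rw [← h4]
      have h6 : (((Fintype.piFinset fun i => Ico (a i) (a i + H i)).filter
        (fun c => ∀ q : ℕ, q.Prime → P < q → q ≤ D' → HasA S I m c (ZMod q))).card : ℝ) ≤
          ((PA S I q m).card : ℝ) * ((∏ i, (H i / q + 1) : ℕ) : ℝ) := by exact_mod_cast h1
      exact h6.trans (mul_le_mul hP' h3 (by positivity) (by positivity))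
    refine h5.trans ?_
    have h6 : ((3 * (k : ℝ)) ^ (n + 1) * (D * (q : ℝ) ^ R) / q) *
        (2 ^ R * (∏ i, (H i : ℝ)) / q ^ R) =
        ((3 ^ (n + 1) * D * 2 ^ R) * k ^ (n + 1) / q) * ∏ i, (H i : ℝ) := by
      rw [mul_pow]
      field_simp
    rw [h6]
    refine mul_le_mul_of_nonneg_right ?_ hH0
    rw [div_le_iff₀ hqr]
    have h7 : (3 ^ (n + 1) * D * 2 ^ R : ℝ) ≤ C₂ * ε := by
      rwa [div_le_iff₀ hε] at hC₂
    have h8 : ((C₂ * k ^ (n + 1) : ℕ) : ℝ) ≤ q := by exact_mod_cast hkq.le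
    push_cast at h8
    calc (3 ^ (n + 1) * D * 2 ^ R : ℝ) * k ^ (n + 1) ≤ C₂ * ε * k ^ (n + 1) :=
          mul_le_mul_of_nonneg_right h7 (by positivity)
      _ = ε * (C₂ * k ^ (n + 1)) := by ring
      _ ≤ ε * q := mul_le_mul_of_nonneg_left h8 hε.le
  exact_mod_cast card_le_card hsub

end Pool.Agent.H912.AE
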