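import Pool.Agent.H912.AE.Tws2

/-!
# Families: good primes, reduction and count modulo a prime (helper912)
-/

set_option autoImplicit false

open Finset Filter Topology

namespace Pool.Agent.H912.AE

variable {R n : ℕ}

/-- `F` is a form of degree `d` in the last `n + 1` variables -/
def FormY {k : Type*} [CommSemiring k] (F : MvPolynomial (Fin (R + (n + 1))) k) (d : ℕ) : Prop :=
  ∀ α ∈ F.support, ∑ j : Fin (n + 1), α (Fin.natAdd R j) = d

lemma aeval_formY {A : Type*} [CommRing A] {F : MvPolynomial (Fin (R + (n + 1))) ℤ} {d : ℕ}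
    (hF : FormY F d) (t : A) (c : Fin R → A) (y : Fin (n + 1) → A) :
    MvPolynomial.aeval (Fin.append c (fun j => t * y j)) F =
      t ^ d * MvPolynomial.aeval (Fin.append c y) F := by
  rw [MvPolynomial.aeval_def, MvPolynomial.aeval_def, MvPolynomial.eval₂_eq',
    MvPolynomial.eval₂_eq', mul_sum]
  refine sum_congr rfl fun α hα => ?_
  have h1 := hF α hα
  have e1 := Fin.prod_univ_add (a := R) (b := n + 1)
    (fun i => (Fin.append c (fun j => t * y j) i) ^ α i)
  have e2 := Fin.prod_univ_add (a := R) (b := n + 1) (fun i => (Fin.append c y i) ^ α i)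
  rw [e1, e2]
  simp only [Fin.append_left, Fin.append_right, mul_pow, prod_mul_distrib]
  rw [prod_pow_eq_pow_sum, h1]
  ring

lemma formY_intF {F : MvPolynomial (Fin (R + (n + 1))) ℚ} {d : ℕ} (hF : FormY F d) :
    FormY (intF F) d := by
  classical
  intro α hα
  refine hF α ?_
  by_contra h
  rw [MvPolynomial.mem_support_iff, intF, MvPolynomial.coeff_sum] at hα
  apply hα
  refine sum_eq_zero fun β hβ => ?_
  rw [MvPolynomial.coeff_monomial, if_neg]
  rintro rfl
  exact h hβ

lemma append_hom {A B : Type*} [CommRing A] [CommRing B] (φ : A →+* B) (c : Fin R → A)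
    (y : Fin (n + 1) → A) : (fun i => φ (Fin.append c y i)) =
      Fin.append (fun i => φ (c i)) (fun j => φ (y j)) := by
  funext i
  refine Fin.addCases (fun i => ?_) (fun i => ?_) i
  · rw [Fin.append_left, Fin.append_left]
  · rw [Fin.append_right, Fin.append_right]

/-- reduction modulo `q` of a `ℚ_q`-point of a member of the family -/
theorem pattern_fam {q m : ℕ} [hq : Fact q.Prime]
    (S : Finset (MvPolynomial (Fin (R + (n + 1))) ℤ)) (hS : ∀ F ∈ S, ∃ d, FormY F d)
    (c : Fin R → ℤ) (x : Fin (n + 1) → ℚ_[q]) (hx : x ≠ 0)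
    (h : ∀ F ∈ S, MvPolynomial.aeval (Fin.append (fun i => (c i : ℚ_[q]))
      (fun j => x j ^ m)) F = 0) :
    ∃ y : Fin (n + 1) → ZMod q, y ≠ 0 ∧
      ∀ F ∈ S, MvPolynomial.aeval (Fin.append (fun i => (c i : ZMod q))
        (fun j => y j ^ m)) F = 0 := by
  obtain ⟨i₀, hi₀⟩ := Finite.exists_max (fun i => ‖x i‖)
  obtain ⟨j₀, hj₀⟩ := Function.ne_iff.1 hx
  have hy0 : x i₀ ≠ 0 := by
    intro h0
    have h1 := hi₀ j₀
    rw [h0, norm_zero] at h1
    exact hj₀ (norm_le_zero_iff.1 h1)
  have hn0 : 0 < ‖x i₀‖ := norm_pos_iff.2 hy0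
  have hz : ∀ i, ‖x i / x i₀‖ ≤ 1 := by
    intro i
    rw [norm_div, div_le_one hn0]
    exact hi₀ i
  let z : Fin (n + 1) → ℤ_[q] := fun i => ⟨x i / x i₀, hz i⟩
  have hzy : ∀ i, (z i : ℚ_[q]) = x i / x i₀ := fun i => rfl
  have hz1 : z i₀ = 1 := Subtype.ext (div_self hy0)
  have h1 : ∀ F ∈ S, MvPolynomial.aeval (Fin.append (fun i => (c i : ℚ_[q]))
      (fun j => (z j : ℚ_[q]) ^ m)) F = 0 := by
    intro F hF
    obtain ⟨d, hd⟩ := hS F hF
    have h2 := h F hF
    have h3 : (fun j => x j ^ m) = fun j => (x i₀ ^ m) * ((z j : ℚ_[q]) ^ m) := by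
      funext j
      rw [hzy, ← mul_pow, mul_div_cancel₀ _ hy0]
    rw [h3, aeval_formY hd] at h2
    rcases mul_eq_zero.1 h2 with h4 | h4
    · exact absurd h4 (pow_ne_zero _ (pow_ne_zero _ hy0))
    · exact h4
  have h2 : ∀ F ∈ S, MvPolynomial.aeval (Fin.append (fun i => ((c i : ℤ) : ℤ_[q]))
      (fun j => z j ^ m)) F = 0 := by
    intro F hF
    have h4 := aeval_ringHom (PadicInt.Coe.ringHom (p := q))
      (Fin.append (fun i => ((c i : ℤ) : ℤ_[q])) (fun j => z j ^ m)) F
    rw [append_hom] at h4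
    have h5 : (fun i => PadicInt.Coe.ringHom (p := q) ((c i : ℤ) : ℤ_[q])) =
        fun i => (c i : ℚ_[q]) := by
      funext i
      exact map_intCast _ _
    have h6 : (fun j => PadicInt.Coe.ringHom (p := q) (z j ^ m)) =
        fun j => (z j : ℚ_[q]) ^ m := by
      funext j
      rw [map_pow]
      rfl
    rw [h5, h6, h1 F hF] at h4
    exact Subtype.coe_injective h4
  refine ⟨fun j => PadicInt.toZMod (z j), ?_, fun F hF => ?_⟩
  · intro h3
    have h4 := congrFun h3 i₀
    simp only [hz1, map_one, Pi.zero_apply] at h4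
    exact one_ne_zero h4
  · have h4 := aeval_ringHom (PadicInt.toZMod (p := q))
      (Fin.append (fun i => ((c i : ℤ) : ℤ_[q])) (fun j => z j ^ m)) F
    rw [h2 F hF, map_zero, append_hom] at h4
    have h5 : (fun i => PadicInt.toZMod (p := q) ((c i : ℤ) : ℤ_[q])) =
        fun i => (c i : ZMod q) := by
      funext i
      exact map_intCast _ _
    have h6 : (fun j => PadicInt.toZMod (p := q) (z j ^ m)) =
        fun j => (PadicInt.toZMod (z j)) ^ m := by
      funext j
      rw [map_pow]
    rw [h5, h6] at h4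
    exact h4.symm

/-- the bad classes of parameters modulo `q` -/
noncomputable def PF (S : Finset (MvPolynomial (Fin (R + (n + 1))) ℤ)) (q m : ℕ)
    [Fact q.Prime] : Finset (Fin R → ZMod q) := by
  classical
  exact (univ : Finset (Fin R → ZMod q)).filter (fun c =>
    ∃ y : Fin (n + 1) → ZMod q, y ≠ 0 ∧
      ∀ F ∈ S, MvPolynomial.aeval (Fin.append c (fun j => y j ^ m)) F = 0)

theorem card_PF (S : Finset (MvPolynomial (Fin (R + (n + 1))) ℤ)) {D q m k : ℕ}
    [hq : Fact q.Prime] (hk : 0 < k) (hD : ∀ F ∈ S, F.totalDegree ≤ D)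
    (hm : ∀ a : ZMod q, a ^ m = 0 ∨ (a ^ m) ^ (2 * k) = 1)
    (hg : ∀ y : Fin (n + 1) → ZMod q, y ≠ 0 →
      ∃ F ∈ S, ∃ c : Fin R → ZMod q,
        MvPolynomial.aeval (Fin.append c (fun j => y j ^ m)) F ≠ 0) :
    (PF S q m).card * q ≤ (3 * k) ^ (n + 1) * (D * q ^ R) := by
  classical
  set Y : Finset (Fin (n + 1) → ZMod q) := Fintype.piFinset fun _ =>
    (univ : Finset (ZMod q)).filter (fun a => a = 0 ∨ a ^ (2 * k) = 1) with hY
  have hYc : Y.card ≤ (3 * k) ^ (n + 1) := by
    rw [hY, Fintype.card_piFinset, prod_const, card_univ, Fintype.card_fin]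
    refine Nat.pow_le_pow_left ?_ _
    have := card_pow_le (q := q) (k := 2 * k) (by omega)
    omega
  have hsub : PF S q m ⊆ (Y.filter (fun v => ∃ F ∈ S, ∃ c : Fin R → ZMod q,
      MvPolynomial.aeval (Fin.append c v) F ≠ 0)).biUnion fun v =>
      (univ : Finset (Fin R → ZMod q)).filter (fun c =>
        ∀ F ∈ S, MvPolynomial.aeval (Fin.append c v) F = 0) := by
    intro c hc
    rw [PF, mem_filter] at hc
    obtain ⟨-, y, hy0, hy2⟩ := hc
    refine mem_biUnion.2 ⟨fun j => y j ^ m, mem_filter.2 ⟨?_, hg y hy0⟩,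
      mem_filter.2 ⟨mem_univ _, hy2⟩⟩
    rw [hY, Fintype.mem_piFinset]
    intro j
    rw [mem_filter]
    exact ⟨mem_univ _, hm (y j)⟩
  have hone : ∀ v ∈ Y.filter (fun v => ∃ F ∈ S, ∃ c : Fin R → ZMod q,
      MvPolynomial.aeval (Fin.append c v) F ≠ 0), ((univ : Finset (Fin R → ZMod q)).filter
      (fun c => ∀ F ∈ S, MvPolynomial.aeval (Fin.append c v) F = 0)).card * q ≤ D * q ^ R := by
    intro v hv
    obtain ⟨F, hF, c₀, hc₀⟩ := (mem_filter.1 hv).2
    set p : MvPolynomial (Fin R) (ZMod q) := MvPolynomial.aeval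
      (Fin.append (fun i => MvPolynomial.X i) (fun j => MvPolynomial.C (v j))) F with hp
    have hev : ∀ c : Fin R → ZMod q, MvPolynomial.eval c p =
        MvPolynomial.aeval (Fin.append c v) F := by
      intro c
      have h1 := aeval_ringHom (MvPolynomial.eval c)
        (Fin.append (fun i => (MvPolynomial.X i : MvPolynomial (Fin R) (ZMod q)))
          (fun j => MvPolynomial.C (v j))) F
      rw [append_hom] at h1
      simp only [MvPolynomial.eval_X, MvPolynomial.eval_C] at h1
      exact h1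
    have hp0 : p ≠ 0 := by
      intro h
      apply hc₀
      rw [← hev, h, map_zero]
    have hdeg : p.totalDegree ≤ D := by
      refine le_trans ?_ (hD F hF)
      rw [hp, MvPolynomial.aeval_def, MvPolynomial.eval₂_eq']
      refine MvPolynomial.totalDegree_finsetSum_le fun α hα => ?_
      refine (MvPolynomial.totalDegree_mul _ _).trans ?_
      have h1 : ((algebraMap ℤ (MvPolynomial (Fin R) (ZMod q))) (F.coeff α)).totalDegree = 0 := by
        have h2 : (algebraMap ℤ (MvPolynomial (Fin R) (ZMod q))) (F.coeff α) =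
            MvPolynomial.C ((F.coeff α : ℤ) : ZMod q) := by simp
        rw [h2, MvPolynomial.totalDegree_C]
      rw [h1, zero_add]
      refine (MvPolynomial.totalDegree_finsetProd _ _).trans ?_
      refine le_trans ?_ (MvPolynomial.le_totalDegree hα)
      rw [Finsupp.sum_fintype _ _ (fun _ => rfl)]
      refine sum_le_sum fun i _ => ?_
      refine (MvPolynomial.totalDegree_pow _ _).trans ?_
      have h3 : (Fin.append (fun i => (MvPolynomial.X i : MvPolynomial (Fin R) (ZMod q)))
          (fun j => MvPolynomial.C (v j)) i).totalDegree ≤ 1 := by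
        refine Fin.addCases (fun i => ?_) (fun i => ?_) i
        · rw [Fin.append_left, MvPolynomial.totalDegree_X]
        · rw [Fin.append_right, MvPolynomial.totalDegree_C]
          exact zero_le_one
      calc α i * _ ≤ α i * 1 := Nat.mul_le_mul_left _ h3
        _ = α i := mul_one _
    have h1 := MvPolynomial.schwartz_zippel_totalDegree hp0 (univ : Finset (ZMod q))
    rw [Fintype.piFinset_univ, card_univ, ZMod.card] at h1
    have hq0 : (0 : ℚ≥0) < q := by exact_mod_cast hq.out.pos
    rw [div_le_div_iff₀ (by positivity) hq0] at h1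
    have h2 : ((univ : Finset (Fin R → ZMod q)).filter (fun c => MvPolynomial.eval c p = 0)).card
        * q ≤ p.totalDegree * q ^ R := by exact_mod_cast h1
    have h3 : ((univ : Finset (Fin R → ZMod q)).filter
        (fun c => ∀ F ∈ S, MvPolynomial.aeval (Fin.append c v) F = 0)).card ≤
        ((univ : Finset (Fin R → ZMod q)).filter (fun c => MvPolynomial.eval c p = 0)).card := by
      refine card_le_card fun c hc => ?_
      rw [mem_filter] at hc ⊢
      exact ⟨hc.1, by rw [hev]; exact hc.2 F hF⟩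
    exact (Nat.mul_le_mul_right _ h3).trans (h2.trans (Nat.mul_le_mul_right _ hdeg))
  have h1 := (card_le_card hsub).trans card_biUnion_le
  set Y' := Y.filter (fun v => ∃ F ∈ S, ∃ c : Fin R → ZMod q,
      MvPolynomial.aeval (Fin.append c v) F ≠ 0) with hY'
  calc (PF S q m).card * q ≤ (∑ v ∈ Y',
        ((univ : Finset (Fin R → ZMod q)).filter
          (fun c => ∀ F ∈ S, MvPolynomial.aeval (Fin.append c v) F = 0)).card) * q :=
        Nat.mul_le_mul_right _ h1
    _ = ∑ v ∈ Y', ((univ : Finset (Fin R → ZMod q)).filter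
          (fun c => ∀ F ∈ S, MvPolynomial.aeval (Fin.append c v) F = 0)).card * q := sum_mul _ _ _
    _ ≤ ∑ v ∈ Y', D * q ^ R := sum_le_sum hone
    _ = Y'.card * (D * q ^ R) := by rw [sum_const, smul_eq_mul]
    _ ≤ (3 * k) ^ (n + 1) * (D * q ^ R) :=
        Nat.mul_le_mul_right _ ((card_filter_le _ _).trans hYc)

end Pool.Agent.H912.AE
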