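import Pool.Agent.H912.AE.Wb

/-!
# Families: the count in boxes (helper912)
-/

set_option autoImplicit false

open Finset Filter Topology

namespace Pool.Agent.H912.AE

variable {R n : ℕ}

/-- The member of the family with the parameters `c` has a `ℚ_q`-point. -/
def HasQ (S : Finset (MvPolynomial (Fin (R + (n + 1))) ℤ)) (m : ℕ) (c : Fin R → ℤ) (q : ℕ)
    [Fact q.Prime] : Prop :=
  ∃ x : Fin (n + 1) → ℚ_[q], x ≠ 0 ∧ ∀ F ∈ S, MvPolynomial.aeval
    (Fin.append (fun i => (c i : ℚ_[q])) (fun j => x j ^ m)) F = 0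

/-- the specialization of the parameters -/
noncomputable def spec (F : MvPolynomial (Fin (R + (n + 1))) ℤ) (c : Fin R → ℤ) :
    MvPolynomial (Fin (n + 1)) ℤ :=
  MvPolynomial.aeval (Fin.append (fun i => MvPolynomial.C (c i)) MvPolynomial.X) F

lemma aeval_spec {A : Type} [CommRing A] (F : MvPolynomial (Fin (R + (n + 1))) ℤ)
    (c : Fin R → ℤ) (y : Fin (n + 1) → A) : MvPolynomial.aeval y (spec F c) =
      MvPolynomial.aeval (Fin.append (fun i => (c i : A)) y) F := by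
  have h1 := aeval_ringHom ((MvPolynomial.aeval y : MvPolynomial (Fin (n + 1)) ℤ →ₐ[ℤ] A) :
    MvPolynomial (Fin (n + 1)) ℤ →+* A)
    (Fin.append (fun i => MvPolynomial.C (c i)) MvPolynomial.X) F
  rw [append_hom] at h1
  simp only [RingHom.coe_coe, MvPolynomial.aeval_C, MvPolynomial.aeval_X] at h1
  have h2 : (fun i => (algebraMap ℤ A) (c i)) = fun i => (c i : A) := by
    funext i
    simp
  rw [h2] at h1
  exact h1

/-- the base locus is given by finitely many forms -/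
lemma base_finite (S : Finset (MvPolynomial (Fin (R + (n + 1))) ℤ)) :
    ∃ T : Finset (MvPolynomial (Fin (n + 1)) ℤ), ∀ (A : Type) [CommRing A]
      (y : Fin (n + 1) → A), (∀ G ∈ T, MvPolynomial.aeval y G = 0) ↔
        ∀ F ∈ S, ∀ c : Fin R → ℤ,
          MvPolynomial.aeval (Fin.append (fun i => (c i : A)) y) F = 0 := by
  classical
  set B : Set (MvPolynomial (Fin (n + 1)) ℤ) := {G | ∃ F ∈ S, ∃ c : Fin R → ℤ, G = spec F c}
    with hB
  have hfg : (Submodule.span (MvPolynomial (Fin (n + 1)) ℤ) B).FG := IsNoetherian.noetherian _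
  obtain ⟨T, hT, hspan⟩ := (Submodule.fg_span_iff_fg_span_finset_subset B).1 hfg
  refine ⟨T, fun A _ y => ⟨fun h F hF c => ?_, fun h G hG => ?_⟩⟩
  · have h1 : spec F c ∈ Submodule.span (MvPolynomial (Fin (n + 1)) ℤ)
        (T : Set (MvPolynomial (Fin (n + 1)) ℤ)) := by
      rw [← hspan]
      exact Submodule.subset_span ⟨F, hF, c, rfl⟩
    have h2 : Submodule.span (MvPolynomial (Fin (n + 1)) ℤ)
        (T : Set (MvPolynomial (Fin (n + 1)) ℤ)) ≤
        RingHom.ker (MvPolynomial.aeval y : MvPolynomial (Fin (n + 1)) ℤ →ₐ[ℤ] A) := by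
      rw [Submodule.span_le]
      intro G hG
      rw [SetLike.mem_coe, RingHom.mem_ker]
      exact h G hG
    rw [← aeval_spec]
    exact h2 h1
  · obtain ⟨F, hF, c, rfl⟩ := hT hG
    rw [aeval_spec]
    exact h F hF c

/-- the base locus has a trivial point for `m` -/
def TrivB (S : Finset (MvPolynomial (Fin (R + (n + 1))) ℤ)) (m : ℕ) : Prop :=
  ∃ η : Fin (n + 1) → ℤ, η ≠ 0 ∧ (∀ i, η i = -1 ∨ η i = 0 ∨ η i = 1) ∧
    ∀ F ∈ S, ∀ c : Fin R → ℤ, MvPolynomial.aeval (Fin.append c (fun i => η i ^ m)) F = 0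

/-- a good prime for the family -/
def SWB (S : Finset (MvPolynomial (Fin (R + (n + 1))) ℤ)) (C m q : ℕ) : Prop :=
  ∃ _ : Fact q.Prime, ∃ k : ℕ, 0 < k ∧ C * k ^ (n + 1) < q ∧
    (∀ a : ZMod q, a ^ m = 0 ∨ (a ^ m) ^ (2 * k) = 1) ∧
    ∀ y : Fin (n + 1) → ZMod q, y ≠ 0 → ∃ F ∈ S, ∃ c : Fin R → ZMod q,
      MvPolynomial.aeval (Fin.append c (fun j => y j ^ m)) F ≠ 0

open Classical in
theorem primesB (S : Finset (MvPolynomial (Fin (R + (n + 1))) ℤ)) (C : ℕ) {ε : ℝ} (hε : 0 < ε) :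
    ∃ D' N₀ : ℕ, ∀ M : ℕ, N₀ ≤ M → (((range M).filter (fun m =>
      ¬ ∃ q, 0 < q ∧ q ≤ D' ∧ (TrivB S m ∨ SWB S C m q))).card : ℝ) ≤ ε * M := by
  obtain ⟨TB, hTB⟩ := base_finite S
  obtain ⟨T, hT, hST⟩ : ∃ T : ℕ, 2 ≤ T ∧ ∀ F ∈ TB, F.support.card ≤ T :=
    ⟨2 + ∑ F ∈ TB, F.support.card, by omega, fun F hF => by
      have := single_le_sum (f := fun F : MvPolynomial (Fin (n + 1)) ℤ => F.support.card)
        (fun _ _ => Nat.zero_le _) hF
      omega⟩
  have hcard : ∀ k, 1 ≤ k → ((bad TB k ∪ range (C * k ^ (n + 1) + 1)).card : ℝ) ≤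
      ((3 ^ (n + 1) * ∑ F ∈ TB, (Lh F : ℝ)) + (C + 1)) * (k : ℝ) ^ (n + 2) := by
    intro k hk
    have h1 := card_bad TB hk
    have h2 : (((bad TB k ∪ range (C * k ^ (n + 1) + 1)).card : ℕ) : ℝ) ≤
        ((bad TB k).card : ℝ) + (C * k ^ (n + 1) + 1) := by
      have h3 := card_union_le (bad TB k) (range (C * k ^ (n + 1) + 1))
      rw [card_range] at h3
      exact_mod_cast h3
    have hk1 : (1 : ℝ) ≤ k := by exact_mod_cast hk
    have h3 : (1 : ℝ) ≤ (k : ℝ) ^ (n + 2) := one_le_pow₀ hk1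
    have h4 : (k : ℝ) ^ (n + 1) ≤ (k : ℝ) ^ (n + 2) := pow_le_pow_right₀ hk1 (by omega)
    have h5 : (C : ℝ) * k ^ (n + 1) ≤ C * (k : ℝ) ^ (n + 2) :=
      mul_le_mul_of_nonneg_left h4 (Nat.cast_nonneg _)
    have h6 : ((3 ^ (n + 1) * ∑ F ∈ TB, (Lh F : ℝ)) + (C + 1)) * (k : ℝ) ^ (n + 2) =
        (3 ^ (n + 1) * ∑ F ∈ TB, (Lh F : ℝ)) * (k : ℝ) ^ (n + 2) + C * (k : ℝ) ^ (n + 2) +
          (k : ℝ) ^ (n + 2) := by ring
    rw [h6]
    linarith
  refine witnessB (fun k => bad TB k ∪ range (C * k ^ (n + 1) + 1)) (n + 2) (by positivity) hcard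
    hT (fun m q => TrivB S m ∨ SWB S C m q) ?_ 0 hε
  rintro s d ⟨k, hk, hkT, hq, hqb⟩ hd0
  have hk0 : 0 < k := Nat.pos_of_ne_zero hk.ne_zero
  have hfq : Fact (2 ^ (max s 1) * k * d + 1).Prime := ⟨hq⟩
  have hqb1 : 2 ^ (max s 1) * k * d + 1 ∉ bad TB k := fun h => hqb (mem_union_left _ h)
  have hqb2 : C * k ^ (n + 1) < 2 ^ (max s 1) * k * d + 1 := by
    by_contra h
    exact hqb (mem_union_right _ (mem_range.2 (by omega)))
  refine ⟨2 ^ (max s 1) * k * d + 1, ?_, fun m hm0 hdm hdm' => ?_⟩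
  · have h1 : 1 * d ≤ 2 ^ (max s 1) * k * d := Nat.mul_le_mul_right d
      (Nat.one_le_iff_ne_zero.2 (by positivity))
    omega
  by_cases hex : ∀ y : Fin (n + 1) → ZMod (2 ^ (max s 1) * k * d + 1), y ≠ 0 →
      ∃ F ∈ S, ∃ c : Fin R → ZMod (2 ^ (max s 1) * k * d + 1),
        MvPolynomial.aeval (Fin.append c (fun j => y j ^ m)) F ≠ 0
  · refine Or.inr ⟨hfq, k, hk0, hqb2, fun a => ?_, hex⟩
    by_cases ha : a = 0
    · left
      rw [ha, zero_pow hm0]
    · right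
      obtain ⟨t, rfl⟩ := hdm
      have h1 := ZMod.pow_card_sub_one_eq_one ha
      rw [Nat.add_sub_cancel] at h1
      obtain ⟨u, hu⟩ : 2 ^ (max s 1) ∣ 2 ^ (s + 1) := pow_dvd_pow 2 (by omega)
      rw [← pow_mul]
      have h2 : 2 ^ s * d * t * (2 * k) = 2 ^ (max s 1) * k * d * (u * t) := by
        calc 2 ^ s * d * t * (2 * k) = 2 ^ (s + 1) * (d * t * k) := by ring
          _ = 2 ^ (max s 1) * u * (d * t * k) := by rw [hu]
          _ = _ := by ring
      rw [h2, pow_mul, h1, one_pow]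
  · left
    push Not at hex
    obtain ⟨y, hy0, hy⟩ := hex
    have h1 : ∀ G ∈ TB, MvPolynomial.aeval (fun i => y i ^ m) G = 0 := by
      rw [hTB]
      exact fun F hF c => hy F hF _
    obtain ⟨ε', hε', h2, h3, h4⟩ := local_zmod TB rfl hqb1 hk hkT hT hST hdm hm0 y h1
    rw [mem_Eps] at hε'
    refine ⟨ε', ?_, hε', fun F hF c => ?_⟩
    · intro h
      apply hy0
      funext i
      exact (h2 i).1 (congrFun h i)
    · have h5 : (fun i => ε' i ^ m) = ε' := by
        funext i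
        rcases Nat.eq_zero_or_pos s with hs | hs
        · subst hs
          have hodd : Odd m := by
            rw [← Nat.not_even_iff_odd, even_iff_two_dvd]
            simpa using hdm'
          rcases hε' i with h | h | h
          · rw [h, hodd.neg_one_pow]
          · rw [h, zero_pow hm0]
          · rw [h, one_pow]
        · rcases hε' i with h | h | h
          · have := h3 hs i
            omega
          · rw [h, zero_pow hm0]
          · rw [h, one_pow]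
      rw [h5]
      have h6 := (hTB ℤ ε').1 (fun G hG => by
        have := h4 G hG
        rw [MvPolynomial.aeval_def]
        exact this) F hF c
      exact h6

open Classical in
theorem families (S : Finset (MvPolynomial (Fin (R + (n + 1))) ℤ))
    (hS : ∀ F ∈ S, ∃ d, FormY F d) {ε : ℝ} (hε : 0 < ε) :
    ∃ H₀ N₀ : ℕ, ∀ M : ℕ, N₀ ≤ M → (((range M).filter (fun m =>
      ¬ (TrivB S m ∨ ∀ (a : Fin R → ℤ) (H : Fin R → ℕ), (∀ i, H₀ ≤ H i) →
        (((Fintype.piFinset fun i => Ico (a i) (a i + H i)).filter (fun c =>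
          ∀ (q : ℕ) [Fact q.Prime], q ≤ H₀ → HasQ S m c q)).card : ℝ)
          ≤ ε * ∏ i, (H i : ℝ)))).card : ℝ) ≤ ε * M := by
  obtain ⟨D, hD⟩ : ∃ D : ℕ, ∀ F ∈ S, F.totalDegree ≤ D :=
    ⟨∑ F ∈ S, F.totalDegree, fun F hF => single_le_sum (f := fun F => F.totalDegree)
      (fun _ _ => Nat.zero_le _) hF⟩
  obtain ⟨C₂, hC₂⟩ := exists_nat_ge ((3 ^ (n + 1) * D * 2 ^ R : ℝ) / ε)
  obtain ⟨D', N₀, h⟩ := primesB S C₂ hε
  refine ⟨D', N₀, fun M hM => le_trans ?_ (h M hM)⟩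
  have hsub : (range M).filter (fun m =>
      ¬ (TrivB S m ∨ ∀ (a : Fin R → ℤ) (H : Fin R → ℕ), (∀ i, D' ≤ H i) →
        (((Fintype.piFinset fun i => Ico (a i) (a i + H i)).filter (fun c =>
          ∀ (q : ℕ) [Fact q.Prime], q ≤ D' → HasQ S m c q)).card : ℝ)
          ≤ ε * ∏ i, (H i : ℝ))) ⊆
      (range M).filter (fun m => ¬ ∃ q, 0 < q ∧ q ≤ D' ∧ (TrivB S m ∨ SWB S C₂ m q)) := by
    intro m hm
    rw [mem_filter] at hm ⊢
    refine ⟨hm.1, ?_⟩
    rintro ⟨q, hq0, hqD, h | ⟨hq, k, hk0, hkq, hk, hg⟩⟩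
    · exact hm.2 (Or.inl h)
    refine hm.2 (Or.inr fun a H hH => ?_)
    have hP := card_PF S hk0 hD hk hg
    have hsub2 : (Fintype.piFinset fun i => Ico (a i) (a i + H i)).filter
        (fun c => ∀ (q : ℕ) [Fact q.Prime], q ≤ D' → HasQ S m c q) ⊆
        (Fintype.piFinset fun i => Ico (a i) (a i + H i)).filter
        (fun c => (fun i => (c i : ZMod q)) ∈ PF S q m) := by
      intro c hc
      rw [mem_filter] at hc ⊢
      refine ⟨hc.1, ?_⟩
      obtain ⟨x, hx, hx1⟩ := hc.2 q hqD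
      obtain ⟨v, hv, hv1⟩ := pattern_fam S hS c x hx hx1
      rw [PF, mem_filter]
      exact ⟨mem_univ _, v, hv, hv1⟩
    have h1 := (card_le_card hsub2).trans (card_box hq0 a H (PF S q m))
    have h2 : ∀ i, H i / q + 1 ≤ 2 * (H i / q) := by
      intro i
      have h3 : q ≤ H i := hqD.trans (hH i)
      have h4 : 1 ≤ H i / q := (Nat.one_le_div_iff hq0).2 h3
      omega
    have hqr : (0 : ℝ) < q := by exact_mod_cast hq0
    have h3 : ((∏ i, (H i / q + 1) : ℕ) : ℝ) ≤ ∏ i, (2 * ((H i : ℝ) / q)) := by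
      push_cast
      refine prod_le_prod (fun i _ => by positivity) fun i _ => ?_
      have h4 : (((H i / q + 1 : ℕ)) : ℝ) ≤ ((2 * (H i / q) : ℕ) : ℝ) := by exact_mod_cast h2 i
      push_cast at h4
      have h5 : ((H i / q : ℕ) : ℝ) ≤ (H i : ℝ) / q := Nat.cast_div_le
      linarith
    have h4 : ∏ i : Fin R, (2 * ((H i : ℝ) / q)) = 2 ^ R * (∏ i, (H i : ℝ)) / q ^ R := by
      rw [prod_mul_distrib, prod_const, card_univ, Fintype.card_fin, prod_div_distrib,
        prod_const, card_univ, Fintype.card_fin]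
      ring
    have hH0 : (0 : ℝ) ≤ ∏ i, (H i : ℝ) := prod_nonneg fun i _ => by positivity
    have hP' : ((PF S q m).card : ℝ) ≤ (3 * k) ^ (n + 1) * (D * q ^ R) / q := by
      rw [le_div_iff₀ hqr]
      exact_mod_cast hP
    have h5 : (((Fintype.piFinset fun i => Ico (a i) (a i + H i)).filter
        (fun c => ∀ (q : ℕ) [Fact q.Prime], q ≤ D' → HasQ S m c q)).card : ℝ) ≤
        ((3 * k) ^ (n + 1) * (D * q ^ R) / q) * (2 ^ R * (∏ i, (H i : ℝ)) / q ^ R) := by
      rw [← h4]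
      have h6 : (((Fintype.piFinset fun i => Ico (a i) (a i + H i)).filter
        (fun c => ∀ (q : ℕ) [Fact q.Prime], q ≤ D' → HasQ S m c q)).card : ℝ) ≤
          ((PF S q m).card : ℝ) * ((∏ i, (H i / q + 1) : ℕ) : ℝ) := by exact_mod_cast h1
      exact h6.trans (mul_le_mul hP' h3 (by positivity) (by positivity))
    refine h5.trans ?_
    have h6 : ((3 * (k : ℝ)) ^ (n + 1) * (D * (q : ℝ) ^ R) / q) *
        (2 ^ R * (∏ i, (H i : ℝ)) / q ^ R) =
        ((3 ^ (n + 1) * D * 2 ^ R) * k ^ (n + 1) / q) * ∏ i, (H i : ℝ) := by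
      rw [mul_pow]
      field_simp
    rw [h6]
    refine mul_le_mul_of_nonneg_right ?_ hH0
    rw [div_le_iff₀ hqr]
    have h7 : (3 ^ (n + 1) * D * 2 ^ R : ℝ) ≤ C₂ * ε := by
      rwa [div_le_iff₀ hε] at hC₂
    have h8 : ((C₂ * k ^ (n + 1) : ℕ) : ℝ) ≤ q := by exact_mod_cast hkq.le
    push_cast at h8
    calc (3 ^ (n + 1) * D * 2 ^ R : ℝ) * k ^ (n + 1) ≤ C₂ * ε * k ^ (n + 1) :=
          mul_le_mul_of_nonneg_right h7 (by positivity)
      _ = ε * (C₂ * k ^ (n + 1)) := by ring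
      _ ≤ ε * q := mul_le_mul_of_nonneg_left h8 hε.le
  exact_mod_cast card_le_card hsub

/-- finitely many integral polynomials suffice -/
theorem reduceF (S : Set (MvPolynomial (Fin (R + (n + 1))) ℚ))
    (hS : ∀ F ∈ S, ∃ d, FormY F d) :
    ∃ S' : Finset (MvPolynomial (Fin (R + (n + 1))) ℤ), (∀ F ∈ S', ∃ d, FormY F d) ∧
      ∀ (K : Type) [Field K] [Algebra ℚ K] (z : Fin (R + (n + 1)) → K),
        (∀ F ∈ S', MvPolynomial.aeval z F = 0) ↔ ∀ F ∈ S, MvPolynomial.aeval z F = 0 := by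
  classical
  have hfg : (Submodule.span (MvPolynomial (Fin (R + (n + 1))) ℚ) S).FG :=
    IsNoetherian.noetherian _
  obtain ⟨T, hT, hspan⟩ := (Submodule.fg_span_iff_fg_span_finset_subset S).1 hfg
  refine ⟨T.image intF, ?_, ?_⟩
  · intro F hF
    obtain ⟨G, hG, rfl⟩ := mem_image.1 hF
    obtain ⟨D, hD⟩ := hS G (hT hG)
    exact ⟨D, formY_intF hD⟩
  · intro K _ _ z
    constructor
    · intro h F hF
      have h1 : F ∈ Submodule.span (MvPolynomial (Fin (R + (n + 1))) ℚ)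
          (T : Set (MvPolynomial (Fin (R + (n + 1))) ℚ)) := by
        rw [← hspan]
        exact Submodule.subset_span hF
      have h2 : Submodule.span (MvPolynomial (Fin (R + (n + 1))) ℚ)
          (T : Set (MvPolynomial (Fin (R + (n + 1))) ℚ)) ≤
          RingHom.ker (MvPolynomial.aeval z : MvPolynomial (Fin (R + (n + 1))) ℚ →ₐ[ℚ] K) := by
        rw [Submodule.span_le]
        intro G hG
        rw [SetLike.mem_coe, RingHom.mem_ker]
        exact (zero_iff z G).1 (h _ (mem_image_of_mem _ hG))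
      exact h2 h1
    · intro h F hF
      obtain ⟨G, hG, rfl⟩ := mem_image.1 hF
      exact (zero_iff z G).2 (h G (hT hG))

end Pool.Agent.H912.AE
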