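import Pool.Agent.H912.AE.Sqf
import Pool.Graph.R_seed8.Results.MP_00e23e_nt.LogLogLoss

/-!
# The first moment (helper912)
-/

set_option autoImplicit false

open Finset

namespace Pool.Agent.H912.AE

open Pool.Agent.Results.MP_00e23e_nt.LogLogLoss

lemma ap_diff (v P Y a : ℕ) (hv : 0 < v) :
    (primesAP ((2 * v * Y + 1 : ℕ) : ℝ) (v * P) (v * a + 1) : ℝ) -
      primesAP ((v * Y + 1 : ℕ) : ℝ) (v * P) (v * a + 1) ≤
      (((Ioc Y (2 * Y)).filter (fun d => d ≡ a [MOD P] ∧ (v * d + 1).Prime)).card : ℝ) := by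
  unfold primesAP
  rw [Nat.floor_natCast, Nat.floor_natCast]
  have h1 : Icc 1 (2 * v * Y + 1) = Icc 1 (v * Y + 1) ∪ Ioc (v * Y + 1) (2 * v * Y + 1) := by
    ext q
    simp only [mem_Icc, mem_union, mem_Ioc]
    have : v * Y ≤ 2 * v * Y := by nlinarith
    omega
  have h2 : ((Ioc (v * Y + 1) (2 * v * Y + 1)).filter
      (fun p => p.Prime ∧ p ≡ v * a + 1 [MOD v * P])).card ≤
      ((Ioc Y (2 * Y)).filter (fun d => d ≡ a [MOD P] ∧ (v * d + 1).Prime)).card := by
    refine card_le_card_of_injOn (fun q => (q - 1) / v) ?_ ?_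
    · intro q hq
      simp only [coe_filter, mem_Ioc, Set.mem_ofPred_eq] at hq ⊢
      obtain ⟨⟨h3, h4⟩, h5, h6⟩ := hq
      have h7 : v ∣ q - 1 := by
        have h8 : q ≡ 1 [MOD v] := by
          have h9 : q ≡ v * a + 1 [MOD v] := h6.of_dvd (Dvd.intro _ rfl)
          have h10 : v * a + 1 ≡ 0 + 1 [MOD v] := Nat.ModEq.add_right 1
            ((Nat.modEq_zero_iff_dvd).2 (Dvd.intro _ rfl))
          exact h9.trans h10
        exact (Nat.modEq_iff_dvd' (by omega)).1 h8.symm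
      obtain ⟨d, hd⟩ := h7
      have h8 : q = v * d + 1 := by omega
      subst h8
      have h9 : (v * d + 1 - 1) / v = d := by
        rw [Nat.add_sub_cancel, Nat.mul_div_cancel_left _ hv]
      rw [h9]
      refine ⟨⟨?_, ?_⟩, ?_, h5⟩
      · exact lt_of_mul_lt_mul_left (by omega : v * Y < v * d) (Nat.zero_le v)
      · have : v * d ≤ v * (2 * Y) := by
          have : 2 * v * Y = v * (2 * Y) := by ring
          omega
        exact le_of_mul_le_mul_left this hv
      · exact Nat.ModEq.mul_left_cancel' hv.ne' (Nat.ModEq.add_right_cancel' 1 h6)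
    · intro q hq q' hq' h
      simp only [coe_filter, mem_Ioc, Set.mem_ofPred_eq] at hq hq' h
      have key : ∀ q : ℕ, v * Y + 1 < q → q ≡ v * a + 1 [MOD v * P] → v ∣ q - 1 := by
        intro q h3 h6
        have h8 : q ≡ 1 [MOD v] := by
          have h9 : q ≡ v * a + 1 [MOD v] := h6.of_dvd (Dvd.intro _ rfl)
          have h10 : v * a + 1 ≡ 0 + 1 [MOD v] := Nat.ModEq.add_right 1
            ((Nat.modEq_zero_iff_dvd).2 (Dvd.intro _ rfl))
          exact h9.trans h10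
        exact (Nat.modEq_iff_dvd' (by omega)).1 h8.symm
      have h3 := Nat.div_mul_cancel (key q hq.1.1 hq.2.2)
      have h4 := Nat.div_mul_cancel (key q' hq'.1.1 hq'.2.2)
      rw [h] at h3
      omega
  have h3 : (((Icc 1 (2 * v * Y + 1)).filter
      (fun p => p.Prime ∧ p ≡ v * a + 1 [MOD v * P])).card : ℝ) ≤
      (((Icc 1 (v * Y + 1)).filter (fun p => p.Prime ∧ p ≡ v * a + 1 [MOD v * P])).card : ℝ) +
      (((Ioc (v * Y + 1) (2 * v * Y + 1)).filter
        (fun p => p.Prime ∧ p ≡ v * a + 1 [MOD v * P])).card : ℝ) := by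
    rw [h1, filter_union]
    exact_mod_cast card_union_le _ _
  have h4 : (((Ioc (v * Y + 1) (2 * v * Y + 1)).filter
      (fun p => p.Prime ∧ p ≡ v * a + 1 [MOD v * P])).card : ℝ) ≤
      (((Ioc Y (2 * Y)).filter (fun d => d ≡ a [MOD P] ∧ (v * d + 1).Prime)).card : ℝ) := by
    exact_mod_cast h2
  linarith

/-- the good residues -/
def Rr (w v : ℕ) : Finset ℕ := (range (Pw w)).filter (fun a => ∀ p ∈ Sw w, Gd v p a)

lemma card_Rr {w v : ℕ} (hv : 2 ∣ v) : (Pw w : ℝ) * Vw w ^ 2 / 2 ≤ (Rr w v).card :=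
  (prod_cp w).trans (by exact_mod_cast card_Gd_prod hv (Sw w) fun p hp => (mem_Sw.1 hp).2)

lemma Rr_coprime {w v a : ℕ} (ha : a ∈ Rr w v) : a.Coprime (Pw w) ∧ (v * a + 1).Coprime (Pw w) := by
  rw [Rr, mem_filter] at ha
  constructor
  · exact Nat.Coprime.prod_right fun p hp =>
      ((Nat.Prime.coprime_iff_not_dvd (mem_Sw.1 hp).2).2 (ha.2 p hp).1).symm
  · exact Nat.Coprime.prod_right fun p hp =>
      ((Nat.Prime.coprime_iff_not_dvd (mem_Sw.1 hp).2).2 (ha.2 p hp).2).symm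

/-- the `d` in `(Y, 2 Y]`, prime to the primes up to `w`, for which `v d + 1` is prime -/
def Dd (w v Y : ℕ) : Finset ℕ :=
  (Ioc Y (2 * Y)).filter (fun d => d.Coprime (Pw w) ∧ (v * d + 1).Prime)

lemma card_Dd (w v Y : ℕ) (hv : 0 < v) :
    ∑ a ∈ Rr w v, ((primesAP ((2 * v * Y + 1 : ℕ) : ℝ) (v * Pw w) (v * a + 1) : ℝ) -
      primesAP ((v * Y + 1 : ℕ) : ℝ) (v * Pw w) (v * a + 1)) ≤ ((Dd w v Y).card : ℝ) := by
  refine (sum_le_sum fun a _ => ap_diff v (Pw w) Y a hv).trans ?_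
  have h1 : ((Rr w v).biUnion fun a => (Ioc Y (2 * Y)).filter
      (fun d => d ≡ a [MOD Pw w] ∧ (v * d + 1).Prime)) ⊆ Dd w v Y := by
    intro d hd
    rw [mem_biUnion] at hd
    obtain ⟨a, ha, h⟩ := hd
    rw [mem_filter] at h
    refine mem_filter.2 ⟨h.1, ?_, h.2.2⟩
    have h2 := (Rr_coprime ha).1
    have h3 := h.2.1.gcd_eq
    rw [Nat.coprime_iff_gcd_eq_one] at h2 ⊢
    rw [h3, h2]
  have h2 := card_le_card h1
  rw [card_biUnion] at h2
  · exact_mod_cast h2
  · intro a ha b hb hab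
    rw [Function.onFun, disjoint_left]
    intro d hd hd'
    rw [mem_filter] at hd hd'
    rw [mem_coe, Rr, mem_filter, mem_range] at ha hb
    exact hab (Nat.ModEq.eq_of_lt_of_lt (hd.2.1.symm.trans hd'.2.1) ha.1 hb.1)

lemma li_diff {y₁ y₂ x : ℝ} (h1 : 2 ≤ y₁) (h2 : y₁ ≤ y₂) (h3 : y₂ ≤ x) :
    (y₂ - y₁) / Real.log x ≤ (∫ t in (2 : ℝ)..y₂, 1 / Real.log t) -
      ∫ t in (2 : ℝ)..y₁, 1 / Real.log t := by
  have hint : ∀ a b : ℝ, 2 ≤ a → 2 ≤ b → IntervalIntegrable (fun t => 1 / Real.log t)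
      MeasureTheory.volume a b := by
    intro a b ha hb
    apply ContinuousOn.intervalIntegrable
    intro t ht
    have h4 : 2 ≤ t := by
      rcases le_total a b with h | h
      · rw [Set.uIcc_of_le h] at ht
        exact ha.trans ht.1
      · rw [Set.uIcc_of_ge h] at ht
        exact hb.trans ht.1
    have h5 : Real.log t ≠ 0 := (Real.log_pos (by linarith)).ne'
    exact (continuousAt_const.div (Real.continuousAt_log (by linarith)) h5).continuousWithinAt
  rw [intervalIntegral.integral_interval_sub_left (hint _ _ le_rfl (h1.trans h2))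
    (hint _ _ le_rfl h1)]
  have h4 : (y₂ - y₁) / Real.log x = ∫ _t in y₁..y₂, 1 / Real.log x := by
    rw [intervalIntegral.integral_const, smul_eq_mul, mul_one_div]
  rw [h4]
  refine intervalIntegral.integral_mono_on h2 intervalIntegrable_const
    (hint _ _ h1 (h1.trans h2)) fun t ht => ?_
  have h5 : 0 < Real.log t := Real.log_pos (by linarith [ht.1])
  exact one_div_le_one_div_of_le h5 (Real.log_le_log (by linarith [ht.1]) (ht.2.trans h3))

lemma totient_mul_le (a b : ℕ) (ha : 0 < a) : Nat.totient (a * b) ≤ a * Nat.totient b := by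
  rcases Nat.eq_zero_or_pos b with rfl | hb
  · simp
  have h1 : ((Nat.totient (a * b) : ℕ) : ℚ) ≤ ((a * Nat.totient b : ℕ) : ℚ) := by
    push_cast
    rw [Nat.totient_eq_mul_prod_factors, Nat.totient_eq_mul_prod_factors b]
    push_cast
    rw [mul_assoc]
    refine mul_le_mul_of_nonneg_left ?_ (by positivity)
    refine mul_le_mul_of_nonneg_left ?_ (by positivity)
    have h2 : b.primeFactors ⊆ (a * b).primeFactors :=
      Nat.primeFactors_mono (Dvd.intro_left a rfl) (by positivity)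
    refine prod_le_prod_of_subset_of_le_one h2 (fun p hp => ?_) fun p hp _ => ?_
    · have h3 : (1 : ℚ) ≤ p := by
        exact_mod_cast (Nat.prime_of_mem_primeFactors hp).one_lt.le
      rw [sub_nonneg]
      exact inv_le_one_of_one_le₀ h3
    · rw [sub_le_self_iff]
      positivity
  exact_mod_cast h1

lemma E_eq (y : ℝ) (d l : ℕ) : (primesAP y d l : ℝ) = E y d l +
    (∫ t in (2 : ℝ)..y, 1 / Real.log t) / (Nat.totient d : ℝ) := by
  unfold E
  ring

/-- the errors for one residue `a` -/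
lemma err_le {C x : ℝ} (hx : 3 ≤ x) (hC : ∀ D : ℝ, 0 ≤ D → D ≤ Real.sqrt x →
    ∀ y : ℕ → ℝ, (∀ d, 2 ≤ y d ∧ y d ≤ x) →
    ∀ l : ℕ → ℕ, (∀ d, 1 ≤ d → (l d).Coprime d) →
    ∑ d ∈ Icc 1 ⌊D⌋₊, |E (y d) d (l d)| ≤
      C * (x / Real.log x ^ (2 : ℝ) + D * Real.sqrt x * Real.log (Real.log x) ^ 2))
    (u T w K Y : ℕ) (hu0 : 0 < u) (hY : 1 ≤ Y) (hKx : ((2 * u * K * Y + 1 : ℕ) : ℝ) ≤ x)
    (hD : ((u * K * Pw w : ℕ) : ℝ) ≤ Real.sqrt x) (c : ℕ) (hc : 1 ≤ c) (hc2 : c ≤ 2) (a : ℕ) :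
    ∑ k ∈ (Kk T K).filter (fun k => a ∈ Rr w (u * k)),
      |E ((c * (u * k) * Y + 1 : ℕ) : ℝ) (u * k * Pw w) (u * k * a + 1)| ≤
      C * (x / Real.log x ^ (2 : ℝ) +
        ((u * K * Pw w : ℕ) : ℝ) * Real.sqrt x * Real.log (Real.log x) ^ 2) := by
  classical
  set P := Pw w with hP
  have hP0 : 0 < P := Pw_pos w
  let l : ℕ → ℕ := fun d => if (d / P * a + 1).Coprime d then d / P * a + 1 else 1
  let y : ℕ → ℝ := fun d => if (2 : ℝ) ≤ ((c * (d / P) * Y + 1 : ℕ) : ℝ) ∧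
    ((c * (d / P) * Y + 1 : ℕ) : ℝ) ≤ x then ((c * (d / P) * Y + 1 : ℕ) : ℝ) else 2
  have hl : ∀ d, 1 ≤ d → (l d).Coprime d := by
    intro d _
    simp only [l]
    split_ifs with h
    · exact h
    · exact Nat.coprime_one_left d
  have hy : ∀ d, 2 ≤ y d ∧ y d ≤ x := by
    intro d
    simp only [y]
    split_ifs with h
    · exact h
    · exact ⟨le_rfl, by linarith⟩
  refine le_trans ?_ (hC _ (by positivity) hD y hy l hl)
  rw [Nat.floor_natCast]
  have hK : ∀ k ∈ (Kk T K).filter (fun k => a ∈ Rr w (u * k)), 1 ≤ k ∧ k ≤ K := by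
    intro k hk
    rw [mem_filter, Kk, mem_filter, mem_Icc] at hk
    exact hk.1.1
  have hterm : ∀ k ∈ (Kk T K).filter (fun k => a ∈ Rr w (u * k)),
      |E ((c * (u * k) * Y + 1 : ℕ) : ℝ) (u * k * P) (u * k * a + 1)| =
      (fun d => |E (y d) d (l d)|) (u * k * P) := by
    intro k hk
    obtain ⟨hk1, hk2⟩ := hK k hk
    have h1 : u * k * P / P = u * k := Nat.mul_div_cancel _ hP0
    have h2 : l (u * k * P) = u * k * a + 1 := by
      simp only [l, h1]
      rw [if_pos]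
      have h3 := (Rr_coprime (mem_filter.1 hk).2).2
      refine Nat.Coprime.mul_right ?_ h3
      rw [Nat.coprime_iff_gcd_eq_one, Nat.gcd_mul_left_add_left, Nat.gcd_one_left]
    have h3 : y (u * k * P) = ((c * (u * k) * Y + 1 : ℕ) : ℝ) := by
      simp only [y, h1]
      rw [if_pos]
      constructor
      · have : 1 ≤ c * (u * k) * Y := Nat.one_le_iff_ne_zero.2 (by positivity)
        exact_mod_cast Nat.succ_le_succ this
      · refine le_trans ?_ hKx
        have : c * (u * k) * Y + 1 ≤ 2 * u * K * Y + 1 := by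
          have h4 : c * (u * k) * Y ≤ 2 * (u * K) * Y := by gcongr
          have h5 : 2 * (u * K) * Y = 2 * u * K * Y := by ring
          omega
        exact_mod_cast this
    simp only [h2, h3]
  rw [sum_congr rfl hterm]
  have hinj : Set.InjOn (fun k => u * k * P)
      ((Kk T K).filter (fun k => a ∈ Rr w (u * k)) : Set ℕ) := by
    intro k _ k' _ h
    simp only at h
    exact Nat.eq_of_mul_eq_mul_left hu0 (Nat.eq_of_mul_eq_mul_right hP0 h)
  have h1 := sum_image (f := fun d => |E (y d) d (l d)|) hinj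
  rw [← h1]
  refine sum_le_sum_of_subset_of_nonneg ?_ fun _ _ _ => abs_nonneg _
  intro d hd
  rw [mem_image] at hd
  obtain ⟨k, hk, rfl⟩ := hd
  obtain ⟨hk1, hk2⟩ := hK k hk
  rw [mem_Icc]
  exact ⟨Nat.one_le_iff_ne_zero.2 (by positivity), by gcongr⟩

/-- **The first moment.** -/
theorem fm {C x : ℝ} (hx : 3 ≤ x) (hC : ∀ D : ℝ, 0 ≤ D → D ≤ Real.sqrt x →
    ∀ y : ℕ → ℝ, (∀ d, 2 ≤ y d ∧ y d ≤ x) →
    ∀ l : ℕ → ℕ, (∀ d, 1 ≤ d → (l d).Coprime d) →
    ∑ d ∈ Icc 1 ⌊D⌋₊, |E (y d) d (l d)| ≤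
      C * (x / Real.log x ^ (2 : ℝ) + D * Real.sqrt x * Real.log (Real.log x) ^ 2))
    (u T w K Y : ℕ) (hu : 2 ∣ u) (hu0 : 0 < u) (hY : 1 ≤ Y)
    (hKx : ((2 * u * K * Y + 1 : ℕ) : ℝ) ≤ x)
    (hD : ((u * K * Pw w : ℕ) : ℝ) ≤ Real.sqrt x) :
    ((Kk T K).card : ℝ) * (Vw w / 2) * (Y / Real.log x) - 2 * Pw w * (C * (x / Real.log x ^ (2 : ℝ) +
        ((u * K * Pw w : ℕ) : ℝ) * Real.sqrt x * Real.log (Real.log x) ^ 2)) ≤
      ∑ k ∈ Kk T K, ((Dd w (u * k) Y).card : ℝ) := by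
  classical
  set P := Pw w with hP
  have hP0 : 0 < P := Pw_pos w
  have hP1 : (0 : ℝ) < P := by exact_mod_cast hP0
  have hV := Vw_pos w
  have hlx : 0 < Real.log x := Real.log_pos (by linarith)
  have hY0 : (0 : ℝ) < Y := by exact_mod_cast hY
  set B := C * (x / Real.log x ^ (2 : ℝ) +
        ((u * K * P : ℕ) : ℝ) * Real.sqrt x * Real.log (Real.log x) ^ 2) with hB
  let F : ℕ → ℕ → ℕ → ℝ := fun c k a =>
    E ((c * (u * k) * Y + 1 : ℕ) : ℝ) (u * k * P) (u * k * a + 1)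
  have h1 : ∀ k ∈ Kk T K, ((Rr w (u * k)).card : ℝ) * (Y / (Real.log x * Nat.totient P)) -
      ∑ a ∈ Rr w (u * k), (|F 2 k a| + |F 1 k a|) ≤ ((Dd w (u * k) Y).card : ℝ) := by
    intro k hk
    rw [Kk, mem_filter, mem_Icc] at hk
    have hk1 := hk.1.1
    have hk0 : (0 : ℝ) < k := by exact_mod_cast hk1
    have hu1 : (0 : ℝ) < u := by exact_mod_cast hu0
    refine le_trans ?_ (card_Dd w (u * k) Y (by positivity))
    rw [← nsmul_eq_mul, ← sum_const, ← sum_sub_distrib]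
    refine sum_le_sum fun a ha => ?_
    have e2 : ((2 * (u * k) * Y + 1 : ℕ) : ℝ) = ((2 * (u * k) * Y + 1 : ℕ) : ℝ) := rfl
    rw [E_eq, E_eq]
    have h2 : F 2 k a = E ((2 * (u * k) * Y + 1 : ℕ) : ℝ) (u * k * P) (u * k * a + 1) := rfl
    have h3 : F 1 k a = E (((u * k) * Y + 1 : ℕ) : ℝ) (u * k * P) (u * k * a + 1) := by
      simp only [F, one_mul]
    rw [← h2, ← h3]
    have h4 : (Nat.totient (u * k * P) : ℝ) ≤ u * k * Nat.totient P := by
      exact_mod_cast totient_mul_le (u * k) P (by positivity)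
    have h5 : (0 : ℝ) < Nat.totient (u * k * P) := by
      exact_mod_cast Nat.totient_pos.2 (by positivity)
    have h6 : (0 : ℝ) < Nat.totient P := by
      exact_mod_cast Nat.totient_pos.2 hP0
    have h7 : (((2 * (u * k) * Y + 1 : ℕ) : ℝ) - (((u * k) * Y + 1 : ℕ) : ℝ)) / Real.log x ≤
        (∫ t in (2 : ℝ)..((2 * (u * k) * Y + 1 : ℕ) : ℝ), 1 / Real.log t) -
          ∫ t in (2 : ℝ)..(((u * k) * Y + 1 : ℕ) : ℝ), 1 / Real.log t := by
      apply li_diff
      · have : 1 ≤ u * k * Y := Nat.one_le_iff_ne_zero.2 (by positivity)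
        exact_mod_cast Nat.succ_le_succ this
      · push_cast
        nlinarith [mul_pos (mul_pos hu1 hk0) hY0]
      · refine le_trans ?_ hKx
        have : 2 * (u * k) * Y + 1 ≤ 2 * u * K * Y + 1 := by
          have h4 : 2 * (u * k) * Y ≤ 2 * (u * K) * Y := by
            have := hk.1.2
            gcongr
          have h5 : 2 * (u * K) * Y = 2 * u * K * Y := by ring
          omega
        exact_mod_cast this
    have h8 : (((2 * (u * k) * Y + 1 : ℕ) : ℝ) - (((u * k) * Y + 1 : ℕ) : ℝ)) / Real.log x =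
        u * k * Y / Real.log x := by
      push_cast
      ring
    rw [h8] at h7
    have h9 : (Y : ℝ) / (Real.log x * Nat.totient P) ≤
        ((∫ t in (2 : ℝ)..((2 * (u * k) * Y + 1 : ℕ) : ℝ), 1 / Real.log t) -
          ∫ t in (2 : ℝ)..(((u * k) * Y + 1 : ℕ) : ℝ), 1 / Real.log t) /
          (Nat.totient (u * k * P) : ℝ) := by
      rw [le_div_iff₀ h5]
      refine le_trans ?_ h7
      calc (Y : ℝ) / (Real.log x * Nat.totient P) * Nat.totient (u * k * P) ≤
          (Y : ℝ) / (Real.log x * Nat.totient P) * (u * k * Nat.totient P) := by gcongr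
        _ = _ := by
          field_simp
    rw [sub_div] at h9
    have h10 := neg_abs_le (F 2 k a)
    have h11 := le_abs_self (F 1 k a)
    linarith
  refine le_trans ?_ (sum_le_sum h1)
  rw [sum_sub_distrib]
  have h2 : ∑ k ∈ Kk T K, ∑ a ∈ Rr w (u * k), (|F 2 k a| + |F 1 k a|) ≤ 2 * P * B := by
    have h3 : ∑ k ∈ Kk T K, ∑ a ∈ Rr w (u * k), (|F 2 k a| + |F 1 k a|) =
        ∑ a ∈ range P, ∑ k ∈ (Kk T K).filter (fun k => a ∈ Rr w (u * k)),
          (|F 2 k a| + |F 1 k a|) := by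
      refine sum_comm' ?_
      intro k a
      rw [mem_filter]
      constructor
      · rintro ⟨h4, h5⟩
        exact ⟨⟨h4, h5⟩, (mem_filter.1 h5).1⟩
      · rintro ⟨⟨h4, h5⟩, -⟩
        exact ⟨h4, h5⟩
    rw [h3]
    have h4 : ∀ a ∈ range P, ∑ k ∈ (Kk T K).filter (fun k => a ∈ Rr w (u * k)),
          (|F 2 k a| + |F 1 k a|) ≤ 2 * B := by
      intro a _
      rw [sum_add_distrib]
      have h5 := err_le hx hC u T w K Y hu0 hY hKx hD 2 (by norm_num) le_rfl a
      have h6 := err_le hx hC u T w K Y hu0 hY hKx hD 1 le_rfl (by norm_num) a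
      linarith
    refine (sum_le_sum h4).trans (le_of_eq ?_)
    rw [sum_const, card_range, nsmul_eq_mul]
    ring
  have h3 : ((Kk T K).card : ℝ) * (Vw w / 2) * (Y / Real.log x) ≤
      ∑ k ∈ Kk T K, ((Rr w (u * k)).card : ℝ) * (Y / (Real.log x * Nat.totient P)) := by
    have h4 : ∀ k ∈ Kk T K, (Vw w / 2) * (Y / Real.log x) ≤
        ((Rr w (u * k)).card : ℝ) * (Y / (Real.log x * Nat.totient P)) := by
      intro k _
      have h5 := card_Rr (w := w) (v := u * k) (Dvd.dvd.mul_right hu k)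
      rw [totient_Pw]
      calc (Vw w / 2) * (Y / Real.log x) =
          (P * Vw w ^ 2 / 2) * (Y / (Real.log x * (P * Vw w))) := by
            field_simp
        _ ≤ _ := by gcongr
    have h5 := sum_le_sum h4
    rw [sum_const, nsmul_eq_mul] at h5
    linarith
  linarith

end Pool.Agent.H912.AE
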