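import Pool.Agent.H912.AE.Nf

/-!
# Number fields of given degree: the count in boxes, and Hensel's lemma (helper912)
-/

set_option autoImplicit false

open Finset Filter Topology Polynomial

namespace Pool.Agent.H912.AE

open Classical in
/-- the count modulo a product of distinct primes -/
lemma card_crtSR {D : ℕ} (hD : 0 < D) (Q : Finset ℕ) (hQ : ∀ q ∈ Q, q.Prime)
    (hco : Pairwise (Function.onFun Nat.Coprime (fun i : Q => (i : ℕ)))) [NeZero (∏ i : Q, (i : ℕ))] :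
    (((univ : Finset (Fin D → ZMod (∏ i : Q, (i : ℕ)))).filter (fun c => ∀ i : Q,
      ¬ SR (fun j => ZMod.prodEquivPi (fun i : Q => (i : ℕ)) hco (c j) i))).card : ℝ) ≤
      (1 - 1 / (2 * D)) ^ Q.card * ((∏ i : Q, (i : ℕ) : ℕ) : ℝ) ^ D := by
  have hpr : ∀ i : Q, Fact (i : ℕ).Prime := fun i => ⟨hQ i i.2⟩
  have h1 : ((univ : Finset (Fin D → ZMod (∏ i : Q, (i : ℕ)))).filter (fun c => ∀ i : Q,
      ¬ SR (fun j => ZMod.prodEquivPi (fun i : Q => (i : ℕ)) hco (c j) i))).card ≤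
      (Fintype.piFinset fun i : Q => (univ : Finset (Fin D → ZMod (i : ℕ))).filter
        (fun c => ¬ SR c)).card := by
    refine card_le_card_of_injOn (fun c i j => ZMod.prodEquivPi (fun i : Q => (i : ℕ)) hco (c j) i)
      ?_ ?_
    · intro c hc
      rw [mem_coe, mem_filter] at hc
      rw [mem_coe, Fintype.mem_piFinset]
      intro i
      rw [mem_filter]
      exact ⟨mem_univ _, hc.2 i⟩
    · intro c _ c' _ h
      funext j
      apply (ZMod.prodEquivPi (fun i : Q => (i : ℕ)) hco).injective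
      funext i
      exact congrFun (congrFun h i) j
  rw [Fintype.card_piFinset] at h1
  have h2 : (((∏ i : Q, ((univ : Finset (Fin D → ZMod (i : ℕ))).filter
      (fun c => ¬ SR c)).card : ℕ)) : ℝ) ≤ ∏ i : Q, ((1 - 1 / (2 * D)) * ((i : ℕ) : ℝ) ^ D) := by
    push_cast
    exact prod_le_prod (fun _ _ => by positivity) fun i _ => card_not_SR hD
  have h3 : ∏ i : Q, ((1 - 1 / (2 * (D : ℝ))) * ((i : ℕ) : ℝ) ^ D) =
      (1 - 1 / (2 * D)) ^ Q.card * ((∏ i : Q, (i : ℕ) : ℕ) : ℝ) ^ D := by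
    rw [prod_mul_distrib, prod_const, card_univ, Fintype.card_coe, prod_pow]
    push_cast
    rfl
  rw [← h3]
  exact le_trans (by exact_mod_cast h1) h2

open Classical in
/-- the count in boxes -/
lemma card_boxSR {D : ℕ} (hD : 0 < D) (Q : Finset ℕ) (hQ : ∀ q ∈ Q, q.Prime) {B : ℕ}
    (hB : ∀ q ∈ Q, q ≤ B) (_hB1 : 1 ≤ B) (b : Fin D → ℤ) (H : Fin D → ℕ)
    (hH : ∀ i, B ^ Q.card ≤ H i) :
    (((Fintype.piFinset fun i => Ico (b i) (b i + H i)).filter (fun a =>
      ∀ q ∈ Q, ¬ SR (fun j => ((a j : ℤ) : ZMod q)))).card : ℝ) ≤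
      (1 - 1 / (2 * D)) ^ Q.card * 2 ^ D * ∏ i, (H i : ℝ) := by
  have hco : Pairwise (Function.onFun Nat.Coprime (fun i : Q => (i : ℕ))) := by
    intro i j hij
    exact (Nat.coprime_primes (hQ i i.2) (hQ j j.2)).2 fun h => hij (Subtype.ext h)
  set N := ∏ i : Q, (i : ℕ) with hN
  have hN0 : 0 < N := prod_pos fun i _ => (hQ i i.2).pos
  have hNB : N ≤ B ^ Q.card := by
    rw [hN, prod_coe_sort Q (fun q => q)]
    exact prod_le_pow_card Q _ B hB
  have : NeZero N := ⟨hN0.ne'⟩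
  set P := (univ : Finset (Fin D → ZMod N)).filter (fun c => ∀ i : Q,
      ¬ SR (fun j => ZMod.prodEquivPi (fun i : Q => (i : ℕ)) hco (c j) i)) with hP
  have hPc : (P.card : ℝ) ≤ (1 - 1 / (2 * D)) ^ Q.card * (N : ℝ) ^ D := card_crtSR hD Q hQ hco
  have hsub : (Fintype.piFinset fun i => Ico (b i) (b i + H i)).filter (fun a =>
      ∀ q ∈ Q, ¬ SR (fun j => ((a j : ℤ) : ZMod q))) ⊆
      (Fintype.piFinset fun i => Ico (b i) (b i + H i)).filter (fun a =>
        (fun i => (a i : ZMod N)) ∈ P) := by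
    intro a ha
    rw [mem_filter] at ha ⊢
    refine ⟨ha.1, ?_⟩
    rw [hP, mem_filter]
    refine ⟨mem_univ _, fun i => ?_⟩
    have h1 := ha.2 i i.2
    have h2 : (fun j => ZMod.prodEquivPi (fun i : Q => (i : ℕ)) hco ((a j : ZMod N)) i) =
        fun j => ((a j : ℤ) : ZMod i) := by
      funext j
      rw [map_intCast, Pi.intCast_apply]
    rw [h2]
    exact h1
  have h1 := (card_le_card hsub).trans (card_box hN0 b H P)
  have h2 : ∀ i, H i / N + 1 ≤ 2 * (H i / N) := by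
    intro i
    have h3 : N ≤ H i := hNB.trans (hH i)
    have h4 : 1 ≤ H i / N := (Nat.one_le_div_iff hN0).2 h3
    omega
  have hNr : (0 : ℝ) < N := by exact_mod_cast hN0
  have h3 : ((∏ i, (H i / N + 1) : ℕ) : ℝ) ≤ ∏ i, (2 * ((H i : ℝ) / N)) := by
    push_cast
    refine prod_le_prod (fun i _ => by positivity) fun i _ => ?_
    have h4 : (((H i / N + 1 : ℕ)) : ℝ) ≤ ((2 * (H i / N) : ℕ) : ℝ) := by exact_mod_cast h2 i
    push_cast at h4
    have h5 : ((H i / N : ℕ) : ℝ) ≤ (H i : ℝ) / N := Nat.cast_div_le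
    linarith
  have h4 : ∏ i : Fin D, (2 * ((H i : ℝ) / N)) = 2 ^ D * (∏ i, (H i : ℝ)) / N ^ D := by
    rw [prod_mul_distrib, prod_const, card_univ, Fintype.card_fin, prod_div_distrib,
      prod_const, card_univ, Fintype.card_fin]
    ring
  rw [h4] at h3
  have h6 : (((Fintype.piFinset fun i => Ico (b i) (b i + H i)).filter (fun a =>
      ∀ q ∈ Q, ¬ SR (fun j => ((a j : ℤ) : ZMod q)))).card : ℝ) ≤ (P.card : ℝ) *
      ((∏ i, (H i / N + 1) : ℕ) : ℝ) := by exact_mod_cast h1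
  refine h6.trans ((mul_le_mul hPc h3 (by positivity) ?_).trans (le_of_eq ?_))
  · exact (Nat.cast_nonneg P.card).trans hPc
  · field_simp

open Classical in
theorem nfields {D : ℕ} (hD : 0 < D) (W : ℕ → ℕ → Prop) (hWp : ∀ m q, W m q → q.Prime)
    (h : ∀ (D : ℕ) (ε : ℝ), 0 < ε → ∃ D' N₀ : ℕ, ∀ M : ℕ, N₀ ≤ M →
      (((range M).filter (fun m => ¬ ∃ q, D < q ∧ q ≤ D' ∧ W m q)).card : ℝ) ≤ ε * M)
    {ε : ℝ} (hε : 0 < ε) : ∃ H₀ N₀ : ℕ, ∀ M : ℕ, N₀ ≤ M → (((range M).filter (fun m =>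
      ¬ ∀ (b : Fin D → ℤ) (H : Fin D → ℕ), (∀ i, H₀ ≤ H i) →
        (((Fintype.piFinset fun i => Ico (b i) (b i + H i)).filter (fun a =>
          ∀ q, W m q → ¬ SR (fun j => ((a j : ℤ) : ZMod q)))).card : ℝ) ≤
            ε * ∏ i, (H i : ℝ))).card : ℝ) ≤ ε * M := by
  have hDr : (1 : ℝ) ≤ D := by exact_mod_cast hD
  have hδ0 : 0 ≤ 1 - 1 / (2 * (D : ℝ)) := by
    have : 1 / (2 * (D : ℝ)) ≤ 1 := by
      rw [div_le_one (by positivity)]
      linarith
    linarith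
  have hδ1 : 1 - 1 / (2 * (D : ℝ)) < 1 := by
    have : 0 < 1 / (2 * (D : ℝ)) := by positivity
    linarith
  obtain ⟨r, hr⟩ := exists_pow_lt_of_lt_one (show (0 : ℝ) < ε / 2 ^ D by positivity) hδ1
  have hr' : (1 - 1 / (2 * (D : ℝ))) ^ r * 2 ^ D ≤ ε := by
    have h1 := hr.le
    rw [le_div_iff₀ (by positivity)] at h1
    exact h1
  obtain ⟨B, N₀, hB⟩ := manyB W h r 0 hε
  refine ⟨(max B 1) ^ r, N₀, fun M hM => le_trans ?_ (hB M hM)⟩
  have hsub : (range M).filter (fun m =>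
      ¬ ∀ (b : Fin D → ℤ) (H : Fin D → ℕ), (∀ i, (max B 1) ^ r ≤ H i) →
        (((Fintype.piFinset fun i => Ico (b i) (b i + H i)).filter (fun a =>
          ∀ q, W m q → ¬ SR (fun j => ((a j : ℤ) : ZMod q)))).card : ℝ) ≤
            ε * ∏ i, (H i : ℝ)) ⊆
      (range M).filter (fun m => ¬ ∃ Q : Finset ℕ, Q.card = r ∧ ∀ q ∈ Q, 0 < q ∧ q ≤ B ∧
        W m q) := by
    intro m hm
    rw [mem_filter] at hm ⊢
    refine ⟨hm.1, ?_⟩
    rintro ⟨Q, hQ, hQ'⟩
    refine hm.2 fun b H hH => ?_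
    have h1 := card_boxSR hD Q (fun q hq => hWp m q (hQ' q hq).2.2) (B := max B 1)
      (fun q hq => (hQ' q hq).2.1.trans (le_max_left _ _)) (le_max_right _ _) b H
      (by rw [hQ]; exact hH)
    rw [hQ] at h1
    have h2 : (((Fintype.piFinset fun i => Ico (b i) (b i + H i)).filter (fun a =>
          ∀ q, W m q → ¬ SR (fun j => ((a j : ℤ) : ZMod q)))).card : ℝ) ≤
        (((Fintype.piFinset fun i => Ico (b i) (b i + H i)).filter (fun a =>
          ∀ q ∈ Q, ¬ SR (fun j => ((a j : ℤ) : ZMod q)))).card : ℝ) := by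
      have h3 : (Fintype.piFinset fun i => Ico (b i) (b i + H i)).filter (fun a =>
          ∀ q, W m q → ¬ SR (fun j => ((a j : ℤ) : ZMod q))) ⊆
          (Fintype.piFinset fun i => Ico (b i) (b i + H i)).filter (fun a =>
          ∀ q ∈ Q, ¬ SR (fun j => ((a j : ℤ) : ZMod q))) := by
        intro a ha
        rw [mem_filter] at ha ⊢
        exact ⟨ha.1, fun q hq => ha.2 q (hQ' q hq).2.2⟩
      exact_mod_cast card_le_card h3
    exact h2.trans (h1.trans (mul_le_mul_of_nonneg_right hr'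
      (prod_nonneg fun i _ => by positivity)))
  exact_mod_cast card_le_card hsub

/-- Hensel's lemma -/
lemma hensel_SR {D q : ℕ} [hq : Fact q.Prime] (a : Fin D → ℤ)
    (h : SR (fun j => ((a j : ℤ) : ZMod q))) : ∃ z : ℚ_[q], (pol (fun j => (a j : ℚ_[q]))).eval z = 0 := by
  obtain ⟨t, ht1, ht2⟩ := h
  obtain ⟨y, rfl⟩ := ZMod.ringHom_surjective (PadicInt.toZMod (p := q)) t
  have hunit : ∀ b : ℤ_[q], PadicInt.toZMod b ≠ 0 → ‖b‖ = 1 := by
    intro b hb
    by_contra h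
    have h1 : ‖b‖ < 1 := lt_of_le_of_ne b.norm_le_one h
    apply hb
    rw [← RingHom.mem_ker, PadicInt.ker_toZMod, IsLocalRing.mem_maximalIdeal,
      PadicInt.mem_nonunits]
    exact h1
  have hsmall : ∀ b : ℤ_[q], PadicInt.toZMod b = 0 → ‖b‖ < 1 := by
    intro b hb
    rw [← RingHom.mem_ker, PadicInt.ker_toZMod, IsLocalRing.mem_maximalIdeal,
      PadicInt.mem_nonunits] at hb
    exact hb
  set F : ℤ_[q][X] := pol (fun j => (a j : ℤ_[q])) with hF
  have hmap : F.map (PadicInt.toZMod (p := q)) = pol (fun j => ((a j : ℤ) : ZMod q)) := by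
    rw [hF, pol_map]
    congr 1
    funext j
    exact map_intCast _ _
  have h1 : PadicInt.toZMod (F.eval y) = 0 := by
    rw [← eval_map_apply, hmap]
    exact ht1
  have h2 : PadicInt.toZMod ((derivative F).eval y) ≠ 0 := by
    rw [← eval_map_apply, ← derivative_map, hmap]
    exact ht2
  have h3 : ‖aeval y F‖ < ‖aeval y (derivative F)‖ ^ 2 := by
    rw [coe_aeval_eq_eval, hunit _ h2, one_pow]
    exact hsmall _ h1
  obtain ⟨z, hz, -⟩ := hensels_lemma h3
  refine ⟨(z : ℚ_[q]), ?_⟩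
  rw [coe_aeval_eq_eval] at hz
  have h4 := congrArg (PadicInt.Coe.ringHom (p := q)) hz
  rw [map_zero, ← eval_map_apply, hF, pol_map] at h4
  have h5 : (fun j => PadicInt.Coe.ringHom (p := q) ((a j : ℤ_[q]))) = fun j => (a j : ℚ_[q]) := by
    funext j
    exact map_intCast _ _
  rw [h5] at h4
  exact h4

end Pool.Agent.H912.AE
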