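import Pool.Agent.H912.AE.Avg
import Pool.Agent.H912.AE.Nf2

/-!
# Families over most number fields (helper912)
-/

set_option autoImplicit false

open Finset Filter Topology

namespace Pool.Agent.H912.AE

variable {R n : ℕ}

/-- reduction modulo `q` of a `ℚ_q`-point of a member with `q`-adic parameters -/
theorem pattern_famZ {q m : ℕ} [hq : Fact q.Prime]
    (S : Finset (MvPolynomial (Fin (R + (n + 1))) ℤ)) (hS : ∀ F ∈ S, ∃ d, FormY F d)
    (c : Fin R → ℤ_[q]) (x : Fin (n + 1) → ℚ_[q]) (hx : x ≠ 0)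
    (h : ∀ F ∈ S, MvPolynomial.aeval (Fin.append (fun i => (c i : ℚ_[q]))
      (fun j => x j ^ m)) F = 0) :
    ∃ y : Fin (n + 1) → ZMod q, y ≠ 0 ∧
      ∀ F ∈ S, MvPolynomial.aeval (Fin.append (fun i => PadicInt.toZMod (c i))
        (fun j => y j ^ m)) F = 0 := by
  obtain ⟨i₀, hi₀⟩ := Finite.exists_max (fun i => ‖x i‖)
  obtain ⟨j₀, hj₀⟩ := Function.ne_iff.1 hx
  have hy0 : x i₀ ≠ 0 := by
    intro h0
    have h1 := hi₀ j₀
    rw [h0, norm_zero] at h1
    exact hj₀ (norm_le_zero_iff.1 h1)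
  have hn0 : 0 < ‖x i₀‖ := norm_pos_iff.2 hy0
  have hz : ∀ i, ‖x i / x i₀‖ ≤ 1 := by
    intro i
    rw [norm_div, div_le_one hn0]
    exact hi₀ i
  let z : Fin (n + 1) → ℤ_[q] := fun i => ⟨x i / x i₀, hz i⟩
  have hzy : ∀ i, (z i : ℚ_[q]) = x i / x i₀ := fun i => rfl
  have hz1 : z i₀ = 1 := Subtype.ext (div_self hy0)
  have h1 : ∀ F ∈ S, MvPolynomial.aeval (Fin.append (fun i => (c i : ℚ_[q]))
      (fun j => (z j : ℚ_[q]) ^ m)) F = 0 := by
    intro F hF
    obtain ⟨d, hd⟩ := hS F hF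
    have h2 := h F hF
    have h3 : (fun j => x j ^ m) = fun j => (x i₀ ^ m) * ((z j : ℚ_[q]) ^ m) := by
      funext j
      rw [hzy, ← mul_pow, mul_div_cancel₀ _ hy0]
    rw [h3, aeval_formY hd] at h2
    rcases mul_eq_zero.1 h2 with h4 | h4
    · exact absurd h4 (pow_ne_zero _ (pow_ne_zero _ hy0))
    · exact h4
  have h2 : ∀ F ∈ S, MvPolynomial.aeval (Fin.append c (fun j => z j ^ m)) F = 0 := by
    intro F hF
    have h4 := aeval_ringHom (PadicInt.Coe.ringHom (p := q))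
      (Fin.append c (fun j => z j ^ m)) F
    rw [append_hom] at h4
    have h6 : (fun j => PadicInt.Coe.ringHom (p := q) (z j ^ m)) =
        fun j => (z j : ℚ_[q]) ^ m := by
      funext j
      rw [map_pow]
      rfl
    have h5 : (fun i => PadicInt.Coe.ringHom (p := q) (c i)) = fun i => (c i : ℚ_[q]) := rfl
    rw [h5, h6, h1 F hF] at h4
    exact Subtype.coe_injective h4
  refine ⟨fun j => PadicInt.toZMod (z j), ?_, fun F hF => ?_⟩
  · intro h3
    have h4 := congrFun h3 i₀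
    simp only [hz1, map_one, Pi.zero_apply] at h4
    exact one_ne_zero h4
  · have h4 := aeval_ringHom (PadicInt.toZMod (p := q)) (Fin.append c (fun j => z j ^ m)) F
    rw [h2 F hF, map_zero, append_hom] at h4
    have h6 : (fun j => PadicInt.toZMod (p := q) (z j ^ m)) =
        fun j => (PadicInt.toZMod (z j)) ^ m := by
      funext j
      rw [map_pow]
    rw [h6] at h4
    exact h4.symm

/-- Hensel's lemma, integral version -/
lemma hensel_SRZ {D q : ℕ} [hq : Fact q.Prime] (a : Fin D → ℤ)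
    (h : SR (fun j => ((a j : ℤ) : ZMod q))) :
    ∃ z : ℤ_[q], (pol (fun j => (a j : ℚ_[q]))).eval (z : ℚ_[q]) = 0 := by
  obtain ⟨z, hz⟩ := hensel_SR a h
  have h1 : ‖z‖ ≤ 1 := by
    by_contra hcon
    rw [not_le] at hcon
    have hz0 : z ≠ 0 := by
      rintro rfl
      simp at hcon
      linarith
    rw [pol_eval] at hz
    have h2 : z ^ D = -∑ i, (a i : ℚ_[q]) * z ^ (i : ℕ) := by
      rw [← sub_eq_zero, sub_neg_eq_add]
      exact hz
    have h3 : ‖z‖ ^ D < ‖z‖ ^ D := by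
      rcases Nat.eq_zero_or_pos D with hD | hD
      · subst hD
        simp at hz
      calc ‖z‖ ^ D = ‖z ^ D‖ := (norm_pow _ _).symm
        _ = ‖∑ i, (a i : ℚ_[q]) * z ^ (i : ℕ)‖ := by rw [h2, norm_neg]
        _ ≤ ‖z‖ ^ (D - 1) := by
          refine IsUltrametricDist.norm_sum_le_of_forall_le_of_nonneg (by positivity)
            fun i _ => ?_
          rw [norm_mul, norm_pow]
          have h4 : ‖(a i : ℚ_[q])‖ ≤ 1 := Padic.norm_int_le_one (a i)
          have h5 : ‖z‖ ^ (i : ℕ) ≤ ‖z‖ ^ (D - 1) :=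
            pow_le_pow_right₀ hcon.le (by have := i.2; omega)
          calc ‖(a i : ℚ_[q])‖ * ‖z‖ ^ (i : ℕ) ≤ 1 * ‖z‖ ^ (D - 1) :=
                mul_le_mul h4 h5 (by positivity) zero_le_one
            _ = _ := one_mul _
        _ < ‖z‖ ^ D := pow_lt_pow_right₀ hcon (by omega)
    exact lt_irrefl _ h3
  exact ⟨⟨z, h1⟩, hz⟩

/-- the parameters `∑ c_{l,j} z ^ j` -/
noncomputable def evp {A : Type} [CommRing A] {D : ℕ} (z : A) (c : Fin R × Fin D → A) :
    Fin R → A := fun l => ∑ j, c (l, j) * z ^ (j : ℕ)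

lemma evp_hom {A B : Type} [CommRing A] [CommRing B] (φ : A →+* B) {D : ℕ} (z : A)
    (c : Fin R × Fin D → A) :
    (fun l => φ (evp z c l)) = evp (φ z) (fun p => φ (c p)) := by
  funext l
  simp only [evp, map_sum, map_mul, map_pow]

/-- counting in boxes -/
theorem card_boxι {ι : Type*} [Fintype ι] [DecidableEq ι] {q : ℕ} (hq : 0 < q) (a : ι → ℤ)
    (H : ι → ℕ) (P : Finset (ι → ZMod q)) [DecidablePred fun c : ι → ℤ =>
      (fun i => (c i : ZMod q)) ∈ P] :
    ((Fintype.piFinset fun i => Ico (a i) (a i + H i)).filter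
      (fun c => (fun i => (c i : ZMod q)) ∈ P)).card ≤ P.card * ∏ i, (H i / q + 1) := by
  classical
  have hsub : (Fintype.piFinset fun i => Ico (a i) (a i + H i)).filter
      (fun c => (fun i => (c i : ZMod q)) ∈ P) ⊆
      P.biUnion fun p => Fintype.piFinset fun i =>
        (Ico (a i) (a i + H i)).filter (fun x => ((x : ℤ) : ZMod q) = p i) := by
    intro c hc
    rw [mem_filter, Fintype.mem_piFinset] at hc
    rw [mem_biUnion]
    refine ⟨_, hc.2, ?_⟩
    rw [Fintype.mem_piFinset]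
    intro i
    rw [mem_filter]
    exact ⟨hc.1 i, rfl⟩
  refine (card_le_card hsub).trans (card_biUnion_le.trans ?_)
  rw [← smul_eq_mul, ← sum_const]
  refine sum_le_sum fun p _ => ?_
  rw [Fintype.card_piFinset]
  refine prod_le_prod' fun i _ => ?_
  have h1 := card_box (N := 1) hq (fun _ => a i) (fun _ => H i) {fun _ => p i}
  rw [card_singleton, one_mul, Fin.prod_univ_one] at h1
  refine le_trans ?_ h1
  refine card_le_card_of_injOn (fun x _ => x) (fun x hx => ?_) fun x _ y _ h => congrFun h 0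
  rw [mem_coe, mem_filter] at hx
  rw [mem_coe, mem_filter, Fintype.mem_piFinset, mem_singleton]
  exact ⟨fun _ => hx.1, funext fun _ => hx.2⟩

open Classical in
/-- the classes of parameters whose value at `t` is bad -/
lemma card_evp {D q : ℕ} [hq : Fact q.Prime] (P : Finset (Fin R → ZMod q)) (t : ZMod q) :
    ((univ : Finset (Fin R × Fin (D + 1) → ZMod q)).filter (fun c => evp t c ∈ P)).card ≤
      P.card * q ^ (R * D) := by
  have h1 : ((univ : Finset (Fin R × Fin (D + 1) → ZMod q)).filter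
      (fun c => evp t c ∈ P)).card ≤
      (P ×ˢ (univ : Finset (Fin R × Fin D → ZMod q))).card := by
    refine card_le_card_of_injOn (fun c => (evp t c, fun p => c (p.1, p.2.succ)))
      (fun c hc => ?_) fun c _ c' _ h => ?_
    · rw [mem_coe, mem_filter] at hc
      rw [mem_coe, mem_product]
      exact ⟨hc.2, mem_univ _⟩
    · have h1 : evp t c = evp t c' := (Prod.ext_iff.1 h).1
      have h2 : (fun p : Fin R × Fin D => c (p.1, p.2.succ)) = fun p => c' (p.1, p.2.succ) :=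
        (Prod.ext_iff.1 h).2
      funext ⟨l, j⟩
      refine Fin.cases ?_ (fun j => ?_) j
      · have h3 := congrFun h1 l
        unfold evp at h3
        rw [Fin.sum_univ_succ, Fin.sum_univ_succ] at h3
        have h4 : ∀ j : Fin D, c (l, j.succ) = c' (l, j.succ) := fun j => congrFun h2 (l, j)
        simp only [h4, Fin.val_zero, pow_zero, mul_one] at h3
        exact add_right_cancel h3
      · exact congrFun h2 (l, j)
  rw [card_product, card_univ, Fintype.card_fun, ZMod.card, Fintype.card_prod, Fintype.card_fin,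
    Fintype.card_fin] at h1
  exact h1

/-- The member of the family with the parameters `c` has a `ℚ_q`-point. -/
def HasZ (S : Finset (MvPolynomial (Fin (R + (n + 1))) ℤ)) (m : ℕ) {q : ℕ} [Fact q.Prime]
    (c : Fin R → ℚ_[q]) : Prop :=
  ∃ x : Fin (n + 1) → ℚ_[q], x ≠ 0 ∧ ∀ F ∈ S, MvPolynomial.aeval
    (Fin.append c (fun j => x j ^ m)) F = 0

lemma SWB.mono {S : Finset (MvPolynomial (Fin (R + (n + 1))) ℤ)} {C C' m q : ℕ} (hC : C ≤ C')
    (h : SWB S C' m q) : SWB S C m q := by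
  obtain ⟨h1, k, h2, h3, h4⟩ := h
  exact ⟨h1, k, h2, (Nat.mul_le_mul_right _ hC).trans_lt h3, h4⟩

open Classical in
theorem primesBD (S : Finset (MvPolynomial (Fin (R + (n + 1))) ℤ)) (C D : ℕ) {ε : ℝ}
    (hε : 0 < ε) :
    ∃ D' N₀ : ℕ, ∀ M : ℕ, N₀ ≤ M → (((range M).filter (fun m =>
      ¬ ∃ q, D < q ∧ q ≤ D' ∧ (TrivB S m ∨ SWB S C m q))).card : ℝ) ≤ ε * M := by
  obtain ⟨D', N₀, h⟩ := primesB S (C + D) hε
  refine ⟨max D' (D + 1), N₀, fun M hM => le_trans ?_ (h M hM)⟩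
  have hsub : (range M).filter (fun m =>
      ¬ ∃ q, D < q ∧ q ≤ max D' (D + 1) ∧ (TrivB S m ∨ SWB S C m q)) ⊆
      (range M).filter (fun m => ¬ ∃ q, 0 < q ∧ q ≤ D' ∧ (TrivB S m ∨ SWB S (C + D) m q)) := by
    intro m hm
    rw [mem_filter] at hm ⊢
    refine ⟨hm.1, fun h2 => hm.2 ?_⟩
    obtain ⟨q, h3, h4, h5 | h5⟩ := h2
    · exact ⟨D + 1, Nat.lt_succ_self _, le_max_right _ _, Or.inl h5⟩
    · refine ⟨q, ?_, h4.trans (le_max_left _ _), Or.inr (h5.mono (by omega))⟩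
      obtain ⟨_, k, h6, h7, -⟩ := h5
      have h8 : D * 1 ≤ (C + D) * k ^ (n + 1) :=
        Nat.mul_le_mul (by omega) (Nat.one_le_pow _ _ h6)
      omega
  exact_mod_cast card_le_card hsub

open Classical in
theorem familiesN (S : Finset (MvPolynomial (Fin (R + (n + 1))) ℤ))
    (hS : ∀ F ∈ S, ∃ d, FormY F d) (D : ℕ) {ε : ℝ} (hε : 0 < ε) :
    ∃ H₀ N₀ : ℕ, ∀ M : ℕ, N₀ ≤ M → (((range M).filter (fun m =>
      ¬ (TrivB S m ∨ ∀ (b : Fin (D + 1) → ℤ) (H : Fin (D + 1) → ℕ)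
        (b' : Fin R × Fin (D + 1) → ℤ) (H' : Fin R × Fin (D + 1) → ℕ),
        (∀ i, H₀ ≤ H i) → (∀ i, H₀ ≤ H' i) →
        ((((Fintype.piFinset fun i => Ico (b i) (b i + H i)) ×ˢ
          (Fintype.piFinset fun i => Ico (b' i) (b' i + H' i))).filter (fun p =>
          ∀ (q : ℕ) [Fact q.Prime], q ≤ H₀ → ∀ z : ℚ_[q],
            (pol (fun j => (p.1 j : ℚ_[q]))).eval z = 0 →
            HasZ S m (evp z (fun i => (p.2 i : ℚ_[q]))))).card : ℝ)
          ≤ ε * ((∏ i, (H i : ℝ)) * ∏ i, (H' i : ℝ))))).card : ℝ) ≤ ε * M := by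
  obtain ⟨Δ, hΔ⟩ : ∃ D : ℕ, ∀ F ∈ S, F.totalDegree ≤ D :=
    ⟨∑ F ∈ S, F.totalDegree, fun F hF => single_le_sum (f := fun F => F.totalDegree)
      (fun _ _ => Nat.zero_le _) hF⟩
  have hDr : (1 : ℝ) ≤ ((D + 1 : ℕ) : ℝ) := by
    have : 1 ≤ D + 1 := by omega
    exact_mod_cast this
  have hδ0 : 0 ≤ 1 - 1 / (2 * ((D + 1 : ℕ) : ℝ)) := by
    have : 1 / (2 * ((D + 1 : ℕ) : ℝ)) ≤ 1 := by
      rw [div_le_one (by positivity)]
      linarith
    linarith
  have hδ1 : 1 - 1 / (2 * ((D + 1 : ℕ) : ℝ)) < 1 := by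
    have : 0 < 1 / (2 * ((D + 1 : ℕ) : ℝ)) := by positivity
    linarith
  obtain ⟨r, hr⟩ := exists_pow_lt_of_lt_one
    (show (0 : ℝ) < (ε / 2) / 2 ^ (D + 1) by positivity) hδ1
  have hr' : (1 - 1 / (2 * ((D + 1 : ℕ) : ℝ))) ^ r * 2 ^ (D + 1) ≤ ε / 2 := by
    have h1 := hr.le
    rw [le_div_iff₀ (by positivity)] at h1
    exact h1
  set ε' : ℝ := ε / (2 * (r + 1)) with hε'
  have hε'0 : 0 < ε' := by positivity
  obtain ⟨C₂, hC₂⟩ := exists_nat_ge ((3 ^ (n + 1) * Δ * 2 ^ (R * (D + 1)) : ℝ) / ε')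
  obtain ⟨B, N₀, hB⟩ := manyB (fun m q => TrivB S m ∨ SWB S C₂ m q)
    (fun D ε hε => primesBD S C₂ D hε) r 0 hε
  refine ⟨(max B 1) ^ r + B, N₀, fun M hM => le_trans ?_ (hB M hM)⟩
  refine Nat.cast_le.2 (card_le_card fun m hm => ?_)
  rw [mem_filter] at hm ⊢
  refine ⟨hm.1, ?_⟩
  rintro ⟨Q, hQ, hQ'⟩
  refine hm.2 (or_iff_not_imp_left.2 fun hT b H b' H' hH hH' => ?_)
  have hQ2 : ∀ q ∈ Q, 0 < q ∧ q ≤ B ∧ SWB S C₂ m q := fun q hq =>
    ⟨(hQ' q hq).1, (hQ' q hq).2.1, (hQ' q hq).2.2.resolve_left hT⟩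
  have hQp : ∀ q ∈ Q, q.Prime := fun q hq => by
    obtain ⟨h1, -⟩ := (hQ2 q hq).2.2
    exact h1.out
  set BA := Fintype.piFinset fun i => Ico (b i) (b i + H i) with hBA
  set BC := Fintype.piFinset fun i => Ico (b' i) (b' i + H' i) with hBC
  have hBAc : (BA.card : ℝ) = ∏ i, (H i : ℝ) := by
    rw [hBA, Fintype.card_piFinset]
    push_cast
    refine prod_congr rfl fun i _ => ?_
    rw [Int.card_Ico, add_sub_cancel_left, Int.toNat_natCast]
  have hBCc : (BC.card : ℝ) = ∏ i, (H' i : ℝ) := by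
    rw [hBC, Fintype.card_piFinset]
    push_cast
    refine prod_congr rfl fun i _ => ?_
    rw [Int.card_Ico, add_sub_cancel_left, Int.toNat_natCast]
  -- the roots
  have hroot : ∀ q ∈ Q, ∀ a : Fin (D + 1) → ℤ, ∃ t : ZMod q,
      SR (fun j => ((a j : ℤ) : ZMod q)) → ∀ c : Fin R × Fin (D + 1) → ℤ,
        (∀ (q : ℕ) [Fact q.Prime], q ≤ (max B 1) ^ r + B → ∀ z : ℚ_[q],
            (pol (fun j => (a j : ℚ_[q]))).eval z = 0 →
            HasZ S m (evp z (fun i => (c i : ℚ_[q])))) →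
        ∃ _ : Fact q.Prime, evp t (fun i => (c i : ZMod q)) ∈ PF S q m := by
    intro q hq a
    by_cases hSR : SR (fun j => ((a j : ℤ) : ZMod q))
    · have hfq : Fact q.Prime := ⟨hQp q hq⟩
      obtain ⟨z, hz⟩ := hensel_SRZ a hSR
      refine ⟨PadicInt.toZMod z, fun _ c hc => ⟨hfq, ?_⟩⟩
      obtain ⟨x, hx, hx1⟩ := hc q ((hQ2 q hq).2.1.trans (Nat.le_add_left _ _)) z hz
      have h1 : evp (z : ℚ_[q]) (fun i => (c i : ℚ_[q])) =
          fun l => ((evp z (fun i => (c i : ℤ_[q])) l : ℤ_[q]) : ℚ_[q]) := by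
        have h2 := evp_hom (R := R) (PadicInt.Coe.ringHom (p := q)) z
          (fun i => (c i : ℤ_[q]))
        have h3 : (fun p => PadicInt.Coe.ringHom (p := q) ((c p : ℤ_[q]))) =
            fun p => (c p : ℚ_[q]) := by
          funext p
          exact map_intCast _ _
        rw [h3] at h2
        exact h2.symm
      rw [h1] at hx1
      obtain ⟨y, hy, hy1⟩ := pattern_famZ S hS _ x hx hx1
      have h4 : (fun i => PadicInt.toZMod (evp z (fun i => (c i : ℤ_[q])) i)) =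
          evp (PadicInt.toZMod z) (fun i => (c i : ZMod q)) := by
        have h2 := evp_hom (R := R) (PadicInt.toZMod (p := q)) z (fun i => (c i : ℤ_[q]))
        have h3 : (fun p => PadicInt.toZMod (p := q) ((c p : ℤ_[q]))) =
            fun p => (c p : ZMod q) := by
          funext p
          exact map_intCast _ _
        rw [h3] at h2
        exact h2
      rw [h4] at hy1
      rw [PF, mem_filter]
      exact ⟨mem_univ _, y, hy, hy1⟩
    · exact ⟨0, fun h => absurd h hSR⟩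
  choose! t ht using hroot
  -- the count for one prime
  have hone : ∀ q ∈ Q, ∀ a : Fin (D + 1) → ℤ, ((BC.filter (fun c =>
      ∃ _ : Fact q.Prime, evp (t q a) (fun i => (c i : ZMod q)) ∈ PF S q m)).card : ℝ) ≤
        ε' * ∏ i, (H' i : ℝ) := by
    intro q hq a
    obtain ⟨hq0, hqB, hfq, k, hk0, hkq, hk, hg⟩ := hQ2 q hq
    have hP := card_PF S hk0 hΔ hk hg
    have h1 := card_evp (D := D) (PF S q m) (t q a)
    set P := (univ : Finset (Fin R × Fin (D + 1) → ZMod q)).filter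
      (fun c => evp (t q a) c ∈ PF S q m) with hPd
    have h2 : (BC.filter (fun c =>
      ∃ _ : Fact q.Prime, evp (t q a) (fun i => (c i : ZMod q)) ∈ PF S q m)).card ≤
        P.card * ∏ i, (H' i / q + 1) := by
      refine le_trans (card_le_card fun c hc => ?_) (card_boxι hq0 b' H' P)
      rw [mem_filter] at hc ⊢
      refine ⟨hc.1, ?_⟩
      rw [hPd, mem_filter]
      obtain ⟨_, h3⟩ := hc.2
      exact ⟨mem_univ _, h3⟩
    have h3 : ∀ i, H' i / q + 1 ≤ 2 * (H' i / q) := by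
      intro i
      have h3 : q ≤ H' i := (hqB.trans (Nat.le_add_left _ _)).trans (hH' i)
      have h4 : 1 ≤ H' i / q := (Nat.one_le_div_iff hq0).2 h3
      omega
    have hqr : (0 : ℝ) < q := by exact_mod_cast hq0
    have h4 : ((∏ i, (H' i / q + 1) : ℕ) : ℝ) ≤ ∏ i, (2 * ((H' i : ℝ) / q)) := by
      push_cast
      refine prod_le_prod (fun i _ => by positivity) fun i _ => ?_
      have h4 : (((H' i / q + 1 : ℕ)) : ℝ) ≤ ((2 * (H' i / q) : ℕ) : ℝ) := by
        exact_mod_cast h3 i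
      push_cast at h4
      have h5 : ((H' i / q : ℕ) : ℝ) ≤ (H' i : ℝ) / q := Nat.cast_div_le
      linarith
    have h5 : ∏ i : Fin R × Fin (D + 1), (2 * ((H' i : ℝ) / q)) =
        2 ^ (R * (D + 1)) * (∏ i, (H' i : ℝ)) / q ^ (R * (D + 1)) := by
      rw [prod_mul_distrib, prod_const, card_univ, Fintype.card_prod, Fintype.card_fin,
        Fintype.card_fin, prod_div_distrib, prod_const, card_univ, Fintype.card_prod,
        Fintype.card_fin, Fintype.card_fin]
      ring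
    rw [h5] at h4
    have hP2 : (P.card : ℝ) ≤ (3 * k) ^ (n + 1) * (Δ * q ^ R) / q * q ^ (R * D) := by
      have h6 : ((PF S q m).card : ℝ) ≤ (3 * k) ^ (n + 1) * (Δ * q ^ R) / q := by
        rw [le_div_iff₀ hqr]
        exact_mod_cast hP
      have h7 : (P.card : ℝ) ≤ ((PF S q m).card : ℝ) * q ^ (R * D) := by exact_mod_cast h1
      exact h7.trans (mul_le_mul_of_nonneg_right h6 (by positivity))
    have h6 : ((BC.filter (fun c =>
      ∃ _ : Fact q.Prime, evp (t q a) (fun i => (c i : ZMod q)) ∈ PF S q m)).card : ℝ) ≤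
        (P.card : ℝ) * ((∏ i, (H' i / q + 1) : ℕ) : ℝ) := by exact_mod_cast h2
    refine h6.trans ((mul_le_mul hP2 h4 (by positivity) (by positivity)).trans ?_)
    have h8 : (3 * (k : ℝ)) ^ (n + 1) * (Δ * (q : ℝ) ^ R) / q * (q : ℝ) ^ (R * D) *
        (2 ^ (R * (D + 1)) * (∏ i, (H' i : ℝ)) / (q : ℝ) ^ (R * (D + 1))) =
        ((3 ^ (n + 1) * Δ * 2 ^ (R * (D + 1))) * k ^ (n + 1) / q) * ∏ i, (H' i : ℝ) := by
      have h9 : (q : ℝ) ^ (R * (D + 1)) = (q : ℝ) ^ R * (q : ℝ) ^ (R * D) := by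
        rw [← pow_add]
        congr 1
        ring
      rw [mul_pow, h9]
      field_simp
    rw [h8]
    refine mul_le_mul_of_nonneg_right ?_ (prod_nonneg fun i _ => Nat.cast_nonneg _)
    rw [div_le_iff₀ hqr]
    have h10 : (3 ^ (n + 1) * Δ * 2 ^ (R * (D + 1)) : ℝ) ≤ C₂ * ε' := by
      rwa [div_le_iff₀ hε'0] at hC₂
    have h11 : ((C₂ * k ^ (n + 1) : ℕ) : ℝ) ≤ q := by exact_mod_cast hkq.le
    push_cast at h11
    calc (3 ^ (n + 1) * Δ * 2 ^ (R * (D + 1)) : ℝ) * k ^ (n + 1) ≤ C₂ * ε' * k ^ (n + 1) :=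
          mul_le_mul_of_nonneg_right h10 (by positivity)
      _ = ε' * (C₂ * k ^ (n + 1)) := by ring
      _ ≤ ε' * q := mul_le_mul_of_nonneg_left h11 hε'0.le
  -- polynomials without simple roots
  have hno := card_boxSR (D := D + 1) (by omega) Q hQp (B := max B 1)
      (fun q hq => (hQ2 q hq).2.1.trans (le_max_left _ _)) (le_max_right _ _) b H
      (by rw [hQ]; exact fun i => (Nat.le_add_right _ _).trans (hH i))
  rw [hQ] at hno
  have hno' : ((BA.filter (fun a => ∀ q ∈ Q, ¬ SR (fun j => ((a j : ℤ) : ZMod q)))).card : ℝ) ≤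
      ε / 2 * ∏ i, (H i : ℝ) :=
    hno.trans (mul_le_mul_of_nonneg_right hr' (prod_nonneg fun i _ => Nat.cast_nonneg _))
  set E := (BA ×ˢ BC).filter (fun p => ∀ (q : ℕ) [Fact q.Prime], q ≤ (max B 1) ^ r + B →
    ∀ z : ℚ_[q], (pol (fun j => (p.1 j : ℚ_[q]))).eval z = 0 →
      HasZ S m (evp z (fun i => (p.2 i : ℚ_[q])))) with hE
  have hsub : E ⊆ (BA.filter (fun a => ∀ q ∈ Q, ¬ SR (fun j => ((a j : ℤ) : ZMod q)))) ×ˢ BC ∪
      Q.biUnion fun q => BA.biUnion fun a => ({a} : Finset (Fin (D + 1) → ℤ)) ×ˢ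
        (BC.filter (fun c => ∃ _ : Fact q.Prime,
          evp (t q a) (fun i => (c i : ZMod q)) ∈ PF S q m)) := by
    rintro ⟨a, c⟩ hp
    rw [hE, mem_filter, mem_product] at hp
    by_cases h1 : ∀ q ∈ Q, ¬ SR (fun j => ((a j : ℤ) : ZMod q))
    · exact mem_union_left _ (mem_product.2 ⟨mem_filter.2 ⟨hp.1.1, h1⟩, hp.1.2⟩)
    · push Not at h1
      obtain ⟨q, hq, hSR⟩ := h1
      refine mem_union_right _ (mem_biUnion.2 ⟨q, hq, mem_biUnion.2 ⟨a, hp.1.1, ?_⟩⟩)
      rw [mem_product, mem_singleton, mem_filter]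
      exact ⟨rfl, hp.1.2, ht q hq a hSR c hp.2⟩
  have hc1 := (card_le_card hsub).trans (card_union_le _ _)
  have hc2 : (((Q.biUnion fun q => BA.biUnion fun a => ({a} : Finset (Fin (D + 1) → ℤ)) ×ˢ
        (BC.filter (fun c => ∃ _ : Fact q.Prime,
          evp (t q a) (fun i => (c i : ZMod q)) ∈ PF S q m))).card : ℕ) : ℝ) ≤
      r * ((∏ i, (H i : ℝ)) * (ε' * ∏ i, (H' i : ℝ))) := by
    have h1 : (((Q.biUnion fun q => BA.biUnion fun a => ({a} : Finset (Fin (D + 1) → ℤ)) ×ˢ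
        (BC.filter (fun c => ∃ _ : Fact q.Prime,
          evp (t q a) (fun i => (c i : ZMod q)) ∈ PF S q m))).card : ℕ) : ℝ) ≤
        ∑ q ∈ Q, ∑ a ∈ BA, ((BC.filter (fun c => ∃ _ : Fact q.Prime,
          evp (t q a) (fun i => (c i : ZMod q)) ∈ PF S q m)).card : ℝ) := by
      have h2 : (Q.biUnion fun q => BA.biUnion fun a => ({a} : Finset (Fin (D + 1) → ℤ)) ×ˢ
        (BC.filter (fun c => ∃ _ : Fact q.Prime,
          evp (t q a) (fun i => (c i : ZMod q)) ∈ PF S q m))).card ≤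
          ∑ q ∈ Q, ∑ a ∈ BA, (BC.filter (fun c => ∃ _ : Fact q.Prime,
          evp (t q a) (fun i => (c i : ZMod q)) ∈ PF S q m)).card := by
        refine card_biUnion_le.trans (sum_le_sum fun q _ => ?_)
        refine card_biUnion_le.trans (sum_le_sum fun a _ => ?_)
        rw [card_product, card_singleton, one_mul]
      exact_mod_cast h2
    refine h1.trans ((sum_le_sum fun q hq => sum_le_sum fun a _ => hone q hq a).trans ?_)
    rw [sum_const, sum_const, hQ, nsmul_eq_mul, nsmul_eq_mul, hBAc]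
  have hc3 : (E.card : ℝ) ≤ ε / 2 * (∏ i, (H i : ℝ)) * (∏ i, (H' i : ℝ)) +
      r * ((∏ i, (H i : ℝ)) * (ε' * ∏ i, (H' i : ℝ))) := by
    have h1 : (E.card : ℝ) ≤ ((((BA.filter (fun a => ∀ q ∈ Q,
        ¬ SR (fun j => ((a j : ℤ) : ZMod q)))) ×ˢ BC).card : ℕ) : ℝ) +
        (((Q.biUnion fun q => BA.biUnion fun a => ({a} : Finset (Fin (D + 1) → ℤ)) ×ˢ
        (BC.filter (fun c => ∃ _ : Fact q.Prime,
          evp (t q a) (fun i => (c i : ZMod q)) ∈ PF S q m))).card : ℕ) : ℝ) := by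
      exact_mod_cast hc1
    refine h1.trans (add_le_add ?_ hc2)
    rw [card_product]
    push_cast
    rw [hBCc]
    exact mul_le_mul_of_nonneg_right hno' (prod_nonneg fun i _ => Nat.cast_nonneg _)
  have hV : (0 : ℝ) ≤ (∏ i, (H i : ℝ)) * ∏ i, (H' i : ℝ) :=
    mul_nonneg (prod_nonneg fun i _ => Nat.cast_nonneg _)
      (prod_nonneg fun i _ => Nat.cast_nonneg _)
  have h1 : (r : ℝ) * ε' ≤ ε / 2 := by
    rw [hε', mul_div_assoc', div_le_div_iff₀ (by positivity) (by positivity)]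
    nlinarith
  refine hc3.trans ?_
  calc ε / 2 * (∏ i, (H i : ℝ)) * (∏ i, (H' i : ℝ)) +
      r * ((∏ i, (H i : ℝ)) * (ε' * ∏ i, (H' i : ℝ)))
      = ε / 2 * ((∏ i, (H i : ℝ)) * ∏ i, (H' i : ℝ)) +
        r * ε' * ((∏ i, (H i : ℝ)) * ∏ i, (H' i : ℝ)) := by ring
    _ ≤ ε / 2 * ((∏ i, (H i : ℝ)) * ∏ i, (H' i : ℝ)) +
        ε / 2 * ((∏ i, (H i : ℝ)) * ∏ i, (H' i : ℝ)) := by
      gcongr
    _ = _ := by ring

end Pool.Agent.H912.AE
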