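import Mathlib

/-!
# Frobenius elements and scaling in Dedekind domains (helper912)
-/

set_option autoImplicit false

open scoped NumberField

namespace Pool.Agent.H912.AE

lemma scale {R : Type} [CommRing R] [IsDedekindDomain R] {L : Type} [Field L] [Algebra R L]
    [IsFractionRing R L] (Q : Ideal R) [hQ : Q.IsPrime] {N : ℕ} (x : Fin N → L) (hx : x ≠ 0) :
    ∃ (c : L) (a : Fin N → R), (∀ i, algebraMap R L (a i) = c * x i) ∧ ∃ i, a i ∉ Q := by
  classical
  obtain ⟨b, hb⟩ := IsLocalization.exist_integer_multiples_of_finite (nonZeroDivisors R) x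
  choose a ha using hb
  have hb0 : (b : R) ≠ 0 := nonZeroDivisors.ne_zero b.2
  have hinj : Function.Injective (algebraMap R L) := IsFractionRing.injective R L
  obtain ⟨i₀, hi₀⟩ := Function.ne_iff.1 hx
  have ha₀ : a i₀ ≠ 0 := by
    intro h
    have h1 := ha i₀
    rw [h, map_zero, Algebra.smul_def] at h1
    rcases mul_eq_zero.1 h1.symm with h2 | h2
    · exact hb0 ((injective_iff_map_eq_zero _).1 hinj _ h2)
    · exact hi₀ h2
  set I : Ideal R := Ideal.span (Set.range a) with hIdef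
  have hmem : ∀ i, a i ∈ I := fun i => Ideal.subset_span ⟨i, rfl⟩
  have hI : I ≠ ⊥ := by
    intro h
    have h1 := hmem i₀
    rw [h, Ideal.mem_bot] at h1
    exact ha₀ h1
  have hQI : ¬ I ≤ Q * I := by
    intro h
    have h1 : Q * I = 1 * I := by
      rw [one_mul]
      exact le_antisymm Ideal.mul_le_right h
    have h2 : Q = 1 := mul_right_cancel₀ (by rwa [Ne, Ideal.zero_eq_bot]) h1
    exact hQ.ne_top (by rw [h2, Ideal.one_eq_top])
  obtain ⟨e, he, heQ⟩ := SetLike.not_le_iff_exists.1 hQI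
  have he0 : e ≠ 0 := by
    rintro rfl
    exact heQ (Q * I).zero_mem
  obtain ⟨J, hJ⟩ := Ideal.dvd_iff_le.2 ((Ideal.span_singleton_le_iff_mem I).2 he)
  have hJQ : ¬ J ≤ Q := by
    intro h
    apply heQ
    have h1 : Ideal.span {e} ≤ Q * I := by
      rw [hJ, mul_comm]
      exact Ideal.mul_mono_left h
    exact h1 (Ideal.mem_span_singleton_self e)
  obtain ⟨b', hb'J, hb'Q⟩ := SetLike.not_le_iff_exists.1 hJQ
  have h1 : ∀ i, ∃ a' : R, a i * b' = e * a' := fun i => by
    have h2 : a i * b' ∈ I * J := Ideal.mul_mem_mul (hmem i) hb'J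
    rw [← hJ, Ideal.mem_span_singleton] at h2
    exact h2
  choose a' ha' using h1
  have he1 : algebraMap R L e ≠ 0 := fun h => he0 ((injective_iff_map_eq_zero _).1 hinj _ h)
  refine ⟨algebraMap R L b' / algebraMap R L e * algebraMap R L b, a', fun i => ?_, ?_⟩
  · have h2 := congrArg (algebraMap R L) (ha' i)
    rw [map_mul, map_mul, ha i, Algebra.smul_def] at h2
    field_simp
    linear_combination -h2
  · by_contra h
    push Not at h
    have h2 : ∀ y ∈ I, ∃ z ∈ Q, y * b' = e * z := by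
      intro y hy
      induction hy using Submodule.span_induction with
      | mem y hy =>
        obtain ⟨i, rfl⟩ := hy
        exact ⟨a' i, h i, ha' i⟩
      | zero => exact ⟨0, Q.zero_mem, by ring⟩
      | add y z _ _ hy hz =>
        obtain ⟨y', hy', h3⟩ := hy
        obtain ⟨z', hz', h4⟩ := hz
        exact ⟨y' + z', Q.add_mem hy' hz', by rw [add_mul, h3, h4, mul_add]⟩
      | smul c y _ hy =>
        obtain ⟨y', hy', h3⟩ := hy
        exact ⟨c * y', Q.mul_mem_left _ hy', by rw [smul_eq_mul, mul_assoc, h3]; ring⟩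
    obtain ⟨z, hz, h3⟩ := h2 e he
    have h4 : b' = z := mul_left_cancel₀ he0 h3
    exact hb'Q (h4 ▸ hz)

/-- The residue fields of a Galois extension whose group has exponent `f`. -/
lemma frob_pow {K L : Type} [Field K] [NumberField K] [Field L] [NumberField L] [Algebra K L]
    [IsGalois K L] {f : ℕ} (hf : ∀ σ : L ≃ₐ[K] L, σ ^ f = 1) (Q : Ideal (𝓞 L)) [Q.IsPrime]
    [Finite (𝓞 L ⧸ Q)] {q : ℕ} (hq : Nat.card (𝓞 K ⧸ Q.under (𝓞 K)) = q) (a : 𝓞 L) :
    (Ideal.Quotient.mk Q a) ^ q ^ f = Ideal.Quotient.mk Q a := by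
  obtain ⟨σ, hσ⟩ := IsArithFrobAt.exists_of_isInvariant (𝓞 K) (L ≃ₐ[K] L) Q
  have h1 : ∀ x : 𝓞 L, Ideal.Quotient.mk Q (σ • x) = (Ideal.Quotient.mk Q x) ^ q := by
    intro x
    rw [← map_pow, Ideal.Quotient.eq, ← hq]
    exact hσ x
  have h2 : ∀ n : ℕ, Ideal.Quotient.mk Q (σ ^ n • a) = (Ideal.Quotient.mk Q a) ^ q ^ n := by
    intro n
    induction n with
    | zero => simp
    | succ n ih => rw [pow_succ' σ, mul_smul, h1, ih, ← pow_mul, ← pow_succ]
  rw [← h2, hf, one_smul]

end Pool.Agent.H912.AE
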