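import Pool.Agent.H912.AE.Zm

/-!
# Hadamard powers over finite fields (helper912)
-/

set_option autoImplicit false

open Finset Filter Topology

namespace Pool.Agent.H912.AE

variable {N : ℕ}

/-- evaluation commutes with ring homomorphisms (a general form) -/
lemma aeval_map_hom {σ : Type} {A B : Type} [CommRing A] [CommRing B] (ρ : A →+* B) (v : σ → A)
    (G : MvPolynomial σ ℤ) : MvPolynomial.aeval (fun i => ρ (v i)) G =
      ρ (MvPolynomial.aeval v G) := by
  rw [MvPolynomial.aeval_def, MvPolynomial.aeval_def, MvPolynomial.hom_eval₂]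
  congr 1
  exact RingHom.ext_int _ _

lemma aeval_seq {σ : Type} {k : ℕ → Type} [∀ D, Field (k D)] {B : Type} [CommRing B]
    (π : (∀ D, k D) →+* B) (v : σ → ∀ D, k D) (F : MvPolynomial σ ℤ)
    (h : ∀ D, MvPolynomial.aeval (fun i => v i D) F = 0) :
    MvPolynomial.aeval (fun i => π (v i)) F = 0 := by
  rw [aeval_map_hom]
  refine (congrArg π (funext fun D => ?_)).trans (map_zero π)
  exact (aeval_map_hom (Pi.evalRingHom k D) v F).symm.trans (h D)

/-- **Compactness.** An integral form which vanishes at the products of `e` zeros of `S`, over the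
fields of characteristic zero, vanishes at them over the fields of large characteristic. -/
theorem had_fin {w : ℕ} [NeZero w] {K : Type} [Field K] [CharZero K]
    [IsCyclotomicExtension {w} ℚ K] {ζ : K} (hζ : IsPrimitiveRoot ζ w)
    (S : Set (MvPolynomial (Fin N) K)) (S' : Finset (MvPolynomial (Fin (N + 1)) ℤ))
    (hS' : ∀ (R : Type) [CommRing R] [IsDomain R] [CharZero R] (φ : K →+* R) (z : Fin N → R),
        (∀ G ∈ S', MvPolynomial.aeval (Fin.cons (φ ζ) z : Fin (N + 1) → R) G = 0) ↔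
          ∀ F ∈ S, MvPolynomial.eval₂ φ z F = 0) (e : ℕ)
    (G : MvPolynomial (Fin (N + 1)) ℤ)
    (hG : ∀ (L : Type) [Field L] [CharZero L] (φ : K →+* L) (z : Fin e → Fin N → L),
      (∀ j, ∀ F ∈ S, MvPolynomial.eval₂ φ (z j) F = 0) →
        MvPolynomial.aeval (Fin.cons (φ ζ) (fun i => ∏ j, z j i) : Fin (N + 1) → L) G = 0) :
    ∃ D : ℕ, ∀ (q : ℕ) (k : Type) [Field k] [CharP k q], D < q → q.Prime → ∀ z : k,
      IsPrimitiveRoot z w → ∀ y : Fin e → Fin N → k,
        (∀ j, ∀ F ∈ S', MvPolynomial.aeval (Fin.cons z (y j) : Fin (N + 1) → k) F = 0) →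
          MvPolynomial.aeval (Fin.cons z (fun i => ∏ j, y j i) : Fin (N + 1) → k) G = 0 := by
  classical
  have hw : 0 < w := Nat.pos_of_ne_zero (NeZero.ne w)
  by_contra hcon
  push Not at hcon
  choose q k hk hkq hDq hqp z hz y hy hGy using hcon
  -- the ring of sequences
  let R := ∀ D, k D
  let I : Ideal R :=
    { carrier := {r | ∃ D₀, ∀ D, D₀ ≤ D → r D = 0}
      zero_mem' := ⟨0, fun _ _ => rfl⟩
      add_mem' := by
        rintro a b ⟨A, hA⟩ ⟨B, hB⟩
        refine ⟨max A B, fun D hD => ?_⟩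
        rw [Pi.add_apply, hA D ((le_max_left _ _).trans hD), hB D ((le_max_right _ _).trans hD),
          add_zero]
      smul_mem' := by
        rintro c a ⟨A, hA⟩
        refine ⟨A, fun D hD => ?_⟩
        rw [smul_eq_mul, Pi.mul_apply, hA D hD, mul_zero] }
  have hI : I ≠ ⊤ := by
    rw [Ne, Ideal.eq_top_iff_one]
    rintro ⟨D₀, h⟩
    exact one_ne_zero (h D₀ le_rfl)
  obtain ⟨M, hM, hIM⟩ := Ideal.exists_le_maximal I hI
  let L := R ⧸ M
  let _ : Field L := Ideal.Quotient.field M
  let π : R →+* L := Ideal.Quotient.mk M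
  have hev : ∀ r : R, (∃ D₀, ∀ D, D₀ ≤ D → r D ≠ 0) → π r ≠ 0 := by
    rintro r ⟨D₀, h⟩ h0
    have h1 : r ∈ M := Ideal.Quotient.eq_zero_iff_mem.1 h0
    apply hM.ne_top
    rw [Ideal.eq_top_iff_one]
    have h2 : (fun D => (r D)⁻¹ : R) * r ∈ M := M.mul_mem_left _ h1
    have h3 : (1 : R) - (fun D => (r D)⁻¹ : R) * r ∈ M := by
      apply hIM
      refine ⟨D₀, fun D hD => ?_⟩
      rw [Pi.sub_apply, Pi.mul_apply, Pi.one_apply, inv_mul_cancel₀ (h D hD), sub_self]
    have h4 := M.add_mem h3 h2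
    rwa [sub_add_cancel] at h4
  have hL : CharZero L := by
    refine charZero_of_inj_zero fun n hn => ?_
    by_contra hn0
    have h1 : π (n : R) ≠ 0 := by
      refine hev _ ⟨n, fun D hD h => ?_⟩
      have h2 : ((n : ℕ) : k D) = 0 := h
      have := hkq D
      rw [CharP.cast_eq_zero_iff (k D) (q D)] at h2
      have h3 := Nat.le_of_dvd (Nat.pos_of_ne_zero hn0) h2
      have := hDq D
      omega
    rw [map_natCast] at h1
    exact h1 hn
  let zz : R := fun D => z D
  have hzz : IsPrimitiveRoot (π zz) w := by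
    refine (IsPrimitiveRoot.iff hw).2 ⟨?_, fun l hl hlw h => ?_⟩
    · rw [← map_pow, ← map_one π]
      congr 1
      funext D
      exact (hz D).pow_eq_one
    · have h1 : π (zz ^ l - 1) ≠ 0 := by
        refine hev _ ⟨0, fun D _ h2 => ?_⟩
        have h3 : (z D) ^ l = 1 := sub_eq_zero.1 h2
        exact (hz D).pow_ne_one_of_pos_of_lt hl.ne' hlw h3
      rw [map_sub, map_pow, h, map_one, sub_self] at h1
      exact h1 rfl
  obtain ⟨φ, hφ⟩ := exists_hom hζ hzz
  let yy : Fin e → Fin N → R := fun j i D => y D j i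
  have hyy : ∀ j, ∀ F ∈ S, MvPolynomial.eval₂ φ (fun i => π (yy j i)) F = 0 := by
    intro j
    rw [← hS' L φ]
    intro F hF
    have h1 : (Fin.cons (φ ζ) (fun i => π (yy j i)) : Fin (N + 1) → L) =
        fun i => π ((Fin.cons zz (yy j) : Fin (N + 1) → R) i) := by
      funext i
      refine Fin.cases ?_ (fun i => ?_) i
      · exact hφ
      · rfl
    rw [h1]
    refine aeval_seq π _ F fun D => ?_
    have h4 : (fun i => (Fin.cons zz (yy j) : Fin (N + 1) → R) i D) =
        (Fin.cons (z D) (y D j) : Fin (N + 1) → k D) := by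
      funext i
      refine Fin.cases ?_ (fun i => ?_) i
      · rfl
      · rfl
    rw [h4]
    exact hy D j F hF
  have h1 := hG L φ _ hyy
  have h2 : (Fin.cons (φ ζ) (fun i => ∏ j, π (yy j i)) : Fin (N + 1) → L) =
      fun i => π ((Fin.cons zz (fun i => ∏ j, yy j i) : Fin (N + 1) → R) i) := by
    funext i
    refine Fin.cases ?_ (fun i => ?_) i
    · exact hφ
    · simp only [Fin.cons_succ, map_prod]
  rw [h2, aeval_map_hom] at h1
  refine hev _ ⟨0, fun D _ h3 => ?_⟩ h1
  have h4 := aeval_map_hom (Pi.evalRingHom k D)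
    (Fin.cons zz (fun i => ∏ j, yy j i) : Fin (N + 1) → R) G
  have h5 : (fun i => Pi.evalRingHom k D
      ((Fin.cons zz (fun i => ∏ j, yy j i) : Fin (N + 1) → R) i)) =
      (Fin.cons (z D) (fun i => ∏ j, y D j i) : Fin (N + 1) → k D) := by
    funext i
    refine Fin.cases ?_ (fun i => ?_) i
    · rfl
    · simp only [Fin.cons_succ, map_prod]
      rfl
  rw [h5] at h4
  exact hGy D (h4.trans h3)

end Pool.Agent.H912.AE
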