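import Pool.Agent.H912.AE.Hd
import Pool.Agent.H912.AE.Fr

/-!
# Points over Galois extensions of finite exponent (helper912)
-/

set_option autoImplicit false

open Finset Filter Topology
open scoped NumberField

namespace Pool.Agent.H912.AE

variable {N : ℕ}

/-- the ring of integers maps to the field with `q` elements -/
lemma exists_resHom {w : ℕ} [NeZero w] {K : Type} [Field K] [NumberField K]
    [IsCyclotomicExtension {w} ℚ K] {ζ : K} (hζ : IsPrimitiveRoot ζ w) {q : ℕ}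
    [hq : Fact q.Prime] (hwq : w ∣ q - 1) :
    ∃ φ : 𝓞 K →+* ZMod q, ∀ a : 𝓞 K, (a : K) = ζ → IsPrimitiveRoot (φ a) w := by
  have hw : 0 < w := Nat.pos_of_ne_zero (NeZero.ne w)
  obtain ⟨z, hz⟩ := exists_padic_root (q := q) hw hwq
  obtain ⟨σ, hσ⟩ := exists_hom hζ hz
  have hint : ∀ a : 𝓞 K, ‖σ (a : K)‖ ≤ 1 := by
    intro a
    have h1 : IsIntegral ℤ (σ (a : K)) := (a.isIntegral_coe).map σ.toIntAlgHom
    have h2 : IsIntegral ℤ_[q] (σ (a : K)) := h1.tower_top
    obtain ⟨y, hy⟩ := IsIntegrallyClosed.isIntegral_iff.1 h2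
    rw [← hy]
    exact y.2
  let ψ : 𝓞 K →+* ℤ_[q] :=
    { toFun := fun a => ⟨σ (a : K), hint a⟩
      map_one' := Subtype.ext (by simp)
      map_mul' := fun a b => Subtype.ext
        ((congrArg σ (map_mul (algebraMap (𝓞 K) K) a b)).trans (map_mul σ _ _))
      map_zero' := Subtype.ext (by simp)
      map_add' := fun a b => Subtype.ext
        ((congrArg σ (map_add (algebraMap (𝓞 K) K) a b)).trans (map_add σ _ _)) }
  refine ⟨(PadicInt.toZMod (p := q)).comp ψ, fun a ha => ?_⟩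
  have hψ : ((ψ a : ℤ_[q]) : ℚ_[q]) = z := by
    rw [← hσ, ← ha]
    rfl
  have hqw : ¬ q ∣ w := by
    intro h
    have h1 := Nat.le_of_dvd hw h
    have h2 := Nat.le_of_dvd (Nat.sub_pos_of_lt hq.out.one_lt) hwq
    have := hq.out.pos
    omega
  have hpow : ∀ l : ℕ, (ψ a) ^ l = 1 → w ∣ l := by
    intro l hl
    apply hz.dvd_of_pow_eq_one
    rw [← hψ, ← PadicInt.coe_pow, hl, PadicInt.coe_one]
  have hψw : (ψ a) ^ w = 1 := by
    apply Subtype.coe_injective
    show (((ψ a) ^ w : ℤ_[q]) : ℚ_[q]) = ((1 : ℤ_[q]) : ℚ_[q])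
    rw [PadicInt.coe_pow, hψ, hz.pow_eq_one, PadicInt.coe_one]
  rw [RingHom.comp_apply]
  refine ⟨?_, fun l hl => ?_⟩
  · rw [← map_pow, hψw, map_one]
  · apply hpow
    refine eq_one_of_pow hqw ?_ ?_
    · rw [← pow_mul, mul_comm, pow_mul, hψw, one_pow]
    · rw [map_pow, hl]

/-- Reduction of a point over a Galois extension of exponent `f`. -/
theorem reduce_frob {w : ℕ} [NeZero w] {K : Type} [Field K] [NumberField K]
    [IsCyclotomicExtension {w} ℚ K] {ζ : K} (hζ : IsPrimitiveRoot ζ w)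
    (S : Set (MvPolynomial (Fin N) K)) (hom : ∀ F ∈ S, ∃ D, F.IsHomogeneous D)
    (S' : Finset (MvPolynomial (Fin (N + 1)) ℤ))
    (hS' : ∀ (R : Type) [CommRing R] [IsDomain R] [CharZero R] (φ : K →+* R) (z : Fin N → R),
        (∀ G ∈ S', MvPolynomial.aeval (Fin.cons (φ ζ) z : Fin (N + 1) → R) G = 0) ↔
          ∀ F ∈ S, MvPolynomial.eval₂ φ z F = 0)
    {q m : ℕ} [hq : Fact q.Prime] (hwq : w ∣ q - 1) {L : Type} [Field L] [NumberField L]
    [Algebra K L] [IsGalois K L] {f : ℕ} (hf : ∀ σ : L ≃ₐ[K] L, σ ^ f = 1) (c : Fin N → ℤ)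
    (x : Fin N → L) (hx : x ≠ 0)
    (hx' : ∀ F ∈ S, MvPolynomial.eval₂ (algebraMap K L) (fun i => (c i : L) * x i ^ m) F = 0) :
    ∃ (k : Type) (_ : Field k) (_ : CharP k q) (z : ZMod q) (a : Fin N → k),
      IsPrimitiveRoot z w ∧ a ≠ 0 ∧ (∀ i, a i ^ q ^ f = a i) ∧
      ∀ G ∈ S', MvPolynomial.aeval (Fin.cons (ZMod.castHom dvd_rfl k z)
        (fun i => (c i : k) * a i ^ m) : Fin (N + 1) → k) G = 0 := by
  classical
  obtain ⟨φ, hφ⟩ := exists_resHom hζ (q := q) hwq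
  have hw : 0 < w := Nat.pos_of_ne_zero (NeZero.ne w)
  let ζ' : 𝓞 K := ⟨ζ, hζ.isIntegral hw⟩
  have hζ' : (ζ' : K) = ζ := rfl
  have hsurj : Function.Surjective φ := ZMod.ringHom_surjective φ
  have hmax : (RingHom.ker φ).IsMaximal := RingHom.ker_isMaximal_of_surjective φ hsurj
  obtain ⟨Q, hQ, hQP⟩ := Ideal.exists_ideal_over_maximal_of_isIntegral (S := 𝓞 L)
    (RingHom.ker φ) (by
      rw [(RingHom.injective_iff_ker_eq_bot _).1
        (FaithfulSMul.algebraMap_injective (𝓞 K) (𝓞 L))]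
      exact bot_le)
  have hQu : Q.under (𝓞 K) = RingHom.ker φ := hQP
  have hqQ : ((q : ℕ) : 𝓞 L) ∈ Q := by
    have h1 : ((q : ℕ) : 𝓞 K) ∈ Q.comap (algebraMap (𝓞 K) (𝓞 L)) := by
      rw [hQP, RingHom.mem_ker, map_natCast]
      exact ZMod.natCast_self q
    rw [Ideal.mem_comap, map_natCast] at h1
    exact h1
  have hQ0 : Q ≠ ⊥ := by
    rintro rfl
    rw [Ideal.mem_bot] at hqQ
    have : ((q : ℕ) : 𝓞 L) ≠ 0 := by exact_mod_cast hq.out.ne_zero
    exact this hqQ
  have hfin : Finite (𝓞 L ⧸ Q) := Ideal.finiteQuotientOfFreeOfNeBot Q hQ0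
  have hcard : Nat.card (𝓞 K ⧸ Q.under (𝓞 K)) = q := by
    rw [hQu, Nat.card_congr (RingHom.quotientKerEquivOfSurjective hsurj).toEquiv,
      Nat.card_zmod]
  let _ : Field (𝓞 L ⧸ Q) := Ideal.Quotient.field Q
  have hchar : CharP (𝓞 L ⧸ Q) q := by
    have h1 : ((q : ℕ) : 𝓞 L ⧸ Q) = 0 := by
      rw [← map_natCast (Ideal.Quotient.mk Q), Ideal.Quotient.eq_zero_iff_mem]
      exact hqQ
    exact (CharP.charP_iff_prime_eq_zero hq.out).2 h1
  obtain ⟨γ, a, ha, i₀, hi₀⟩ := scale (L := L) Q x hx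
  refine ⟨𝓞 L ⧸ Q, inferInstance, hchar, φ ζ', fun i => Ideal.Quotient.mk Q (a i), hφ ζ' hζ',
    fun h => hi₀ ?_, fun i => frob_pow hf Q hcard (a i), ?_⟩
  · exact Ideal.Quotient.eq_zero_iff_mem.1 (congrFun h i₀)
  -- the equations over the ring of integers
  have h1 : ∀ F ∈ S, MvPolynomial.eval₂ (algebraMap K L)
      (fun i => (c i : L) * (algebraMap (𝓞 L) L (a i)) ^ m) F = 0 := by
    intro F hF
    obtain ⟨D, hD⟩ := hom F hF
    have h2 : (fun i => (c i : L) * (algebraMap (𝓞 L) L (a i)) ^ m) =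
        fun i => γ ^ m * ((c i : L) * x i ^ m) := by
      funext i
      rw [ha i]
      ring
    rw [h2, eval₂_smul_hom _ hD, hx' F hF, mul_zero]
  have h2 := (hS' L (algebraMap K L)
    (fun i => (c i : L) * (algebraMap (𝓞 L) L (a i)) ^ m)).2 h1
  have h3 : ∀ G ∈ S', MvPolynomial.aeval (Fin.cons (algebraMap (𝓞 K) (𝓞 L) ζ')
      (fun i => (c i : 𝓞 L) * a i ^ m) : Fin (N + 1) → 𝓞 L) G = 0 := by
    intro G hG
    apply FaithfulSMul.algebraMap_injective (𝓞 L) L
    rw [map_zero, ← aeval_map_hom (algebraMap (𝓞 L) L), ← h2 G hG]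
    congr 2
    funext i
    refine Fin.cases ?_ (fun i => ?_) i
    · simp only [Fin.cons_zero]
      rfl
    · simp only [Fin.cons_succ, map_mul, map_pow, map_intCast]
  intro G hG
  have h4 := congrArg (Ideal.Quotient.mk Q) (h3 G hG)
  rw [map_zero, ← aeval_map_hom (Ideal.Quotient.mk Q)] at h4
  rw [← h4]
  congr 2
  funext i
  refine Fin.cases ?_ (fun i => ?_) i
  · simp only [Fin.cons_zero]
    obtain ⟨n, hn⟩ := ZMod.intCast_surjective (φ ζ')
    have h5 : ζ' - (n : 𝓞 K) ∈ Q.comap (algebraMap (𝓞 K) (𝓞 L)) := by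
      rw [hQP, RingHom.mem_ker, map_sub, map_intCast, hn, sub_self]
    rw [Ideal.mem_comap, map_sub, map_intCast, ← Ideal.Quotient.eq_zero_iff_mem, map_sub,
      sub_eq_zero, map_intCast] at h5
    rw [← hn, map_intCast, h5]
  · simp only [Fin.cons_succ, map_mul, map_pow, map_intCast]

/-- From a point over a field with the Frobenius relation to a point over the prime field on the
Hadamard power. -/
theorem frob_norm {w q f : ℕ} [NeZero w] [hq : Fact q.Prime]
    (S' H' : Finset (MvPolynomial (Fin (N + 1)) ℤ)) {D : ℕ} (hDq : D < q)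
    (hD : ∀ G ∈ H', ∀ (q : ℕ) (k : Type) [Field k] [CharP k q], D < q → q.Prime → ∀ z : k,
      IsPrimitiveRoot z w → ∀ y : Fin f → Fin N → k,
        (∀ j, ∀ F ∈ S', MvPolynomial.aeval (Fin.cons z (y j) : Fin (N + 1) → k) F = 0) →
          MvPolynomial.aeval (Fin.cons z (fun i => ∏ j, y j i) : Fin (N + 1) → k) G = 0)
    {k : Type} [Field k] [CharP k q] {m : ℕ} (z : ZMod q) (hz : IsPrimitiveRoot z w)
    (c : Fin N → ℤ) (a : Fin N → k) (ha : ∀ i, a i ^ q ^ f = a i)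
    (haS : ∀ G ∈ S', MvPolynomial.aeval (Fin.cons (ZMod.castHom dvd_rfl k z)
        (fun i => (c i : k) * a i ^ m) : Fin (N + 1) → k) G = 0) :
    ∃ y : Fin N → ZMod q, (∀ i, y i = 0 → a i = 0) ∧
      ∀ G ∈ H', MvPolynomial.aeval (Fin.cons z (fun i => (c i : ZMod q) ^ f * y i ^ m) :
        Fin (N + 1) → ZMod q) G = 0 := by
  classical
  set ι : ZMod q →+* k := ZMod.castHom dvd_rfl k with hι
  have hN : ∀ i, ∃ y : ZMod q, ι y = ∏ j : Fin f, a i ^ q ^ (j : ℕ) := by
    intro i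
    have h1 : (∏ j : Fin f, a i ^ q ^ (j : ℕ)) ^ q = ∏ j : Fin f, a i ^ q ^ (j : ℕ) := by
      rw [Fin.prod_univ_eq_prod_range (fun j => a i ^ q ^ j) f, ← prod_pow]
      have h2 : ∀ j, (a i ^ q ^ j) ^ q = a i ^ q ^ (j + 1) := fun j => by
        rw [← pow_mul, ← pow_succ]
      simp_rw [h2]
      rcases Nat.eq_zero_or_pos f with rfl | hf0
      · simp
      · obtain ⟨f', rfl⟩ : ∃ f', f = f' + 1 := ⟨f - 1, by omega⟩
        rw [prod_range_succ, ha i, prod_range_succ' (fun j => a i ^ q ^ j)]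
        simp
    have h2 := (Subfield.mem_bot_iff_pow_eq_self (F := k) (p := q)).2 h1
    rw [← ZMod.fieldRange_castHom_eq_bot q] at h2
    obtain ⟨y, hy⟩ := h2
    exact ⟨y, hy⟩
  choose y hy using hN
  refine ⟨y, fun i hi => ?_, fun G hG => ?_⟩
  · have h1 := hy i
    rw [hi, map_zero] at h1
    obtain ⟨j, -, hj⟩ := prod_eq_zero_iff.1 h1.symm
    exact pow_eq_zero_iff (pow_pos hq.out.pos _).ne' |>.1 hj
  · have hzι : IsPrimitiveRoot (ι z) w := hz.map_of_injective ι.injective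
    have h1 := hD G hG q k hDq hq.out (ι z) hzι
      (fun j i => ((c i : k) * a i ^ m) ^ q ^ (j : ℕ)) (fun j F hF => by
        have h2 := congrArg (iterateFrobenius k q j) (haS F hF)
        rw [map_zero, ← aeval_map_hom] at h2
        rw [← h2]
        congr 2
        funext i
        refine Fin.cases ?_ (fun i => ?_) i
        · simp only [Fin.cons_zero, iterateFrobenius_def]
          rw [← map_pow, ZMod.pow_card_pow]
        · simp only [Fin.cons_succ, iterateFrobenius_def])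
    apply ι.injective
    rw [map_zero, ← aeval_map_hom, ← h1]
    congr 2
    funext i
    refine Fin.cases ?_ (fun i => ?_) i
    · simp only [Fin.cons_zero]
    · simp only [Fin.cons_succ, map_mul, map_pow, map_intCast, hy]
      rw [← prod_pow]
      have h3 : ∀ j : Fin f, ((c i : k) * a i ^ m) ^ q ^ (j : ℕ) =
          (c i : k) * (a i ^ q ^ (j : ℕ)) ^ m := by
        intro j
        rw [mul_pow, ← pow_mul, ← pow_mul, mul_comm m]
        congr 1
        have h4 : (c i : k) = ι (c i : ZMod q) := by rw [map_intCast]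
        rw [h4, ← map_pow, ZMod.pow_card_pow]
      simp_rw [h3]
      rw [prod_mul_distrib, prod_const, card_univ, Fintype.card_fin]

end Pool.Agent.H912.AE
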