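import Pool.Agent.H912.AE.Kf

/-!
# The maximal Galois extension of exponent `f` (helper912)
-/

set_option autoImplicit false

open Finset Filter Topology
open scoped NumberField

namespace Pool.Agent.H912.AE

/-- The field of all `α` in the algebraic closure of `K` which are fixed by the `f`-th powers of all
automorphisms over `K`. -/
def expField (K : Type) [Field K] (f : ℕ) : IntermediateField K (AlgebraicClosure K) where
  carrier := {α | ∀ σ : AlgebraicClosure K ≃ₐ[K] AlgebraicClosure K, (σ ^ f) α = α}
  mul_mem' {a b} ha hb σ := by rw [map_mul, ha σ, hb σ]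
  add_mem' {a b} ha hb σ := by rw [map_add, ha σ, hb σ]
  algebraMap_mem' a σ := AlgEquiv.commutes _ a
  inv_mem' a ha σ := by rw [map_inv₀, ha σ]

lemma mem_expField {K : Type} [Field K] {f : ℕ} {α : AlgebraicClosure K} :
    α ∈ expField K f ↔ ∀ σ : AlgebraicClosure K ≃ₐ[K] AlgebraicClosure K, (σ ^ f) α = α := Iff.rfl

lemma conj_pow {K : Type} [Field K] {f : ℕ} (σ τ : AlgebraicClosure K ≃ₐ[K] AlgebraicClosure K)
    {α : AlgebraicClosure K} (hα : α ∈ expField K f) : (σ ^ f) (τ α) = τ α := by
  have h1 : σ ^ f * τ = τ * (τ⁻¹ * σ * τ) ^ f := by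
    have h2 : (τ⁻¹ * σ * τ) ^ f = τ⁻¹ * σ ^ f * τ := by
      have h3 := _root_.conj_pow (a := τ⁻¹) (b := σ) (i := f)
      rw [inv_inv] at h3
      exact h3
    rw [h2]
    group
  have h2 := congrArg (fun g : AlgebraicClosure K ≃ₐ[K] AlgebraicClosure K => g α) h1
  simp only [AlgEquiv.mul_apply] at h2
  rw [h2, hα]

/-- finitely many elements lie in a finite Galois extension of exponent `f` -/
theorem exists_galois {K : Type} [Field K] [CharZero K] {f n : ℕ} (x : Fin n → AlgebraicClosure K)
    (hx : ∀ i, x i ∈ expField K f) :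
    ∃ L : IntermediateField K (AlgebraicClosure K), FiniteDimensional K L ∧ IsGalois K L ∧
      (∀ σ : L ≃ₐ[K] L, σ ^ f = 1) ∧ ∀ i, x i ∈ L := by
  let E : IntermediateField K (AlgebraicClosure K) := IntermediateField.adjoin K (Set.range x)
  have hE : FiniteDimensional K E := by
    refine IntermediateField.finiteDimensional_adjoin fun y _ => ?_
    exact Algebra.IsIntegral.isIntegral y
  have hEle : E ≤ expField K f := by
    rw [IntermediateField.adjoin_le_iff]
    rintro _ ⟨i, rfl⟩
    exact hx i
  let L : IntermediateField K (AlgebraicClosure K) :=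
    IntermediateField.normalClosure K E (AlgebraicClosure K)
  have hL : L ≤ expField K f := by
    rw [normalClosure_le_iff]
    rintro g _ ⟨y, rfl⟩
    let τ₀ : AlgebraicClosure K →ₐ[K] AlgebraicClosure K := g.liftNormal (AlgebraicClosure K)
    have hτ₀ : ∀ y : E, τ₀ y = g y := fun y => g.liftNormal_commutes (AlgebraicClosure K) y
    let τ : AlgebraicClosure K ≃ₐ[K] AlgebraicClosure K :=
      AlgEquiv.ofBijective τ₀ (AlgHom.normal_bijective K _ _ τ₀)
    intro σ
    have h1 : g y = τ y := (hτ₀ y).symm
    show (σ ^ f) (g y) = g y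
    rw [h1]
    exact conj_pow σ τ (hEle y.2)
  have hfd : FiniteDimensional K L := by
    exact normalClosure.is_finiteDimensional K E (AlgebraicClosure K)
  have hn : Normal K L := normalClosure.normal K E (AlgebraicClosure K)
  refine ⟨L, hfd, ⟨⟩, fun σ => ?_, fun i => ?_⟩
  · have hlift : ∀ j : ℕ, ∀ y : L, ((σ.liftNormal (AlgebraicClosure K)) ^ j) (y : AlgebraicClosure K)
        = ((σ ^ j) y : L) := by
      intro j
      induction j with
      | zero => intro y; simp
      | succ j ih =>
        intro y
        rw [pow_succ, AlgEquiv.mul_apply, pow_succ, AlgEquiv.mul_apply]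
        have h1 : σ.liftNormal (AlgebraicClosure K) (y : AlgebraicClosure K) = (σ y : L) :=
          σ.liftNormal_commutes (AlgebraicClosure K) y
        rw [h1]
        exact ih (σ y)
    ext y
    rw [← hlift f y]
    exact hL y.2 _
  · have h1 : E ≤ L := IntermediateField.le_normalClosure E
    exact h1 (IntermediateField.subset_adjoin K _ ⟨i, rfl⟩)

end Pool.Agent.H912.AE
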