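import Pool.Agent.H912.AE.Kg

/-!
# Points over the maximal Galois extension of exponent `f` (helper912)
-/

set_option autoImplicit false

open Finset Filter Topology
open scoped NumberField

namespace Pool.Agent.H912.AE

variable {N : ℕ}

/-- The forms with coefficients in `K` which vanish at the coordinatewise product of any `e` zeros
of `S`, over any field containing `K`. -/
def HadK {K : Type} [Field K] (S : Set (MvPolynomial (Fin N) K)) (e : ℕ) :
    Set (MvPolynomial (Fin N) K) :=
  {G | (∃ d, G.IsHomogeneous d) ∧ ∀ (L : Type) [Field L] (φ : K →+* L)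
    (z : Fin e → Fin N → L), (∀ j, ∀ F ∈ S, MvPolynomial.eval₂ φ (z j) F = 0) →
      MvPolynomial.eval₂ φ (fun i => ∏ j, z j i) G = 0}

open Classical in
/-- **Main theorem on the field `K[f]`.** -/
theorem expMain {w : ℕ} [NeZero w] (hw : Even w) {K : Type} [Field K] [CharZero K]
    [IsCyclotomicExtension {w} ℚ K] (S : Set (MvPolynomial (Fin N) K))
    (hom : ∀ F ∈ S, ∃ D, F.IsHomogeneous D) (f : ℕ) :
    HasDensity {m | ∀ x : Fin N → AlgebraicClosure K, (∀ i, x i ∈ expField K f) → x ≠ 0 →
      (∀ F ∈ S, MvPolynomial.eval₂ (algebraMap K (AlgebraicClosure K)) (fun i => x i ^ m) F = 0) →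
        ∃ η : Fin N → K, (∀ i, η i = 0 ∨ η i ^ w = 1) ∧ η ≠ 0 ∧
          ∀ F ∈ HadK S f, MvPolynomial.eval (fun i => η i ^ m) F = 0} 1 := by
  have hw0 : 0 < w := Nat.pos_of_ne_zero (NeZero.ne w)
  obtain ⟨ζ, hζ⟩ := IsCyclotomicExtension.exists_isPrimitiveRoot (S := {w}) ℚ K
    (Set.mem_singleton w) (NeZero.ne w)
  have hKnf : NumberField K := IsCyclotomicExtension.numberField {w} ℚ K
  obtain ⟨S', hS'⟩ := reduceK (gen_of_cyclotomic hζ) S
  obtain ⟨H', hH'⟩ := reduceK (gen_of_cyclotomic hζ) (HadK S f)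
  have hfin := fun G (hG : G ∈ H') => had_fin hζ S S' hS' f G (fun L _ _ φ z hz =>
    (hH' L φ (fun i => ∏ j, z j i)).2 (fun F hF => hF.2 L φ z hz) G hG)
  choose! Db hDb using hfin
  set D := ∑ G ∈ H', Db G with hD
  have hDle : ∀ G ∈ H', Db G ≤ D := fun G hG =>
    single_le_sum (f := fun G => Db G) (fun _ _ => Nat.zero_le _) hG
  -- the set of good exponents
  set W : Set ℕ := {m | ∃ Q : Finset ℕ, Q.card = 1 ∧ ∀ q ∈ Q, D < q ∧
    WitZ w H' (HadK S f) m q} with hW
  have hWd : HasDensity W 1 := by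
    refine full_of fun ε hε => ?_
    exact witnessesZ hw.two_dvd hζ (HadK S f) H' hH' 1 D hε
  refine density_congr hWd density_univ fun m hm _ => ⟨fun _ => Set.mem_univ _, fun _ => ?_⟩
  intro x hxf hx0 hxS
  obtain ⟨Q, hQ, hQ'⟩ := hm
  obtain ⟨q, hq⟩ := Finset.card_eq_one.1 hQ
  obtain ⟨hDq, hqp, hwq, hwit⟩ := hQ' q (by rw [hq]; exact Finset.mem_singleton_self q)
  obtain ⟨L, hfd, hgal, hexp, hxL⟩ := exists_galois x hxf
  have hLnf : NumberField L := NumberField.of_module_finite K L
  obtain ⟨k, hk, hkq, z, a, hz, ha0, hafr, haS⟩ := reduce_frob hζ S hom S' hS' (m := m) hwq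
    (L := L) hexp (fun _ => 1) (fun i => ⟨x i, hxL i⟩) (by
      intro h
      apply hx0
      funext i
      have h1 := congrArg (Subtype.val) (congrFun h i)
      exact h1) (by
      intro F hF
      apply (algebraMap L (AlgebraicClosure K)).injective
      rw [map_zero, MvPolynomial.hom_eval₂, ← hxS F hF]
      congr 1
      funext i
      simp only [Int.cast_one, one_mul, map_pow]
      rfl)
  obtain ⟨y, hy0, hyH⟩ := frob_norm S' H' (D := D) hDq
    (fun G hG q k _ _ hq hqp z hz y hy =>
      hDb G hG q k (lt_of_le_of_lt (hDle G hG) hq) hqp z hz y hy)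
    z hz (fun _ => 1) a hafr haS
  obtain ⟨η, h1, h2, h3⟩ := hwit z hz y (fun G hG => by
    rw [← hyH G hG]
    congr 2
    funext i
    refine Fin.cases ?_ (fun i => ?_) i
    · simp only [Fin.cons_zero]
    · simp only [Fin.cons_succ, Int.cast_one, one_pow, one_mul])
  refine ⟨η, h1, ?_, h3⟩
  intro h
  apply ha0
  funext i
  apply hy0
  by_contra hyi
  exact (h2 i).2 hyi (congrFun h i)

/-- every normal extension of exponent `f` is contained in `K[f]` -/
theorem le_expField {K : Type} [Field K] {f : ℕ} (E : IntermediateField K (AlgebraicClosure K))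
    [Normal K E] (hE : ∀ σ : E ≃ₐ[K] E, σ ^ f = 1) : E ≤ expField K f := by
  intro α hα σ
  have h1 : ∀ j : ℕ, ∀ y : E, (σ ^ j) (y : AlgebraicClosure K) =
      (((σ.restrictNormal E) ^ j) y : E) := by
    intro j
    induction j with
    | zero => intro y; simp
    | succ j ih =>
      intro y
      rw [pow_succ, AlgEquiv.mul_apply, pow_succ, AlgEquiv.mul_apply, ← ih]
      congr 1
      exact (σ.restrictNormal_commutes E y).symm
  have h2 := h1 f ⟨α, hα⟩
  rw [hE, AlgEquiv.one_apply] at h2
  exact h2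

/-- elements of degree at most `d` over `K[f]` -/
theorem mem_expField_mul {K : Type} [Field K] {f g d : ℕ} (hg : ∀ j, 1 ≤ j → j ≤ d → j ∣ g)
    {α : AlgebraicClosure K} {P : Polynomial (expField K f)} (hP : P ≠ 0) (hPd : P.natDegree ≤ d)
    (hα : P.eval₂ (algebraMap (expField K f) (AlgebraicClosure K)) α = 0) :
    α ∈ expField K (f * g) := by
  classical
  intro σ
  set τ := σ ^ f with hτ
  have hcomp : (τ : AlgebraicClosure K →+* AlgebraicClosure K).comp
      (algebraMap (expField K f) (AlgebraicClosure K)) =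
      algebraMap (expField K f) (AlgebraicClosure K) := by
    ext c
    exact c.2 σ
  set P' := P.map (algebraMap (expField K f) (AlgebraicClosure K)) with hP'
  have hP'0 : P' ≠ 0 := (Polynomial.map_ne_zero_iff
    (algebraMap (expField K f) (AlgebraicClosure K)).injective).2 hP
  have hroot : ∀ j : ℕ, (τ ^ j) α ∈ P'.roots.toFinset := by
    intro j
    rw [Multiset.mem_toFinset, Polynomial.mem_roots hP'0, Polynomial.IsRoot.def, hP',
      Polynomial.eval_map]
    induction j with
    | zero => rw [pow_zero, AlgEquiv.one_apply, hα]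
    | succ j ih =>
      have h1 := congrArg (τ : AlgebraicClosure K →+* AlgebraicClosure K) ih
      rw [map_zero, Polynomial.hom_eval₂, hcomp] at h1
      rw [pow_succ', AlgEquiv.mul_apply]
      exact h1
  have hcard : P'.roots.toFinset.card ≤ d := by
    refine (Multiset.toFinset_card_le _).trans ((Polynomial.card_roots' _).trans ?_)
    exact Polynomial.natDegree_map_le.trans hPd
  obtain ⟨i, hi, j, hj, hne, hij⟩ := Finset.exists_ne_map_eq_of_card_lt_of_maps_to
    (s := Finset.range (d + 1)) (t := P'.roots.toFinset) (by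
      rw [Finset.card_range]
      omega) (f := fun j => (τ ^ j) α) (fun j _ => hroot j)
  have key : ∀ i j : ℕ, i < j → j < d + 1 → (τ ^ i) α = (τ ^ j) α → (σ ^ (f * g)) α = α := by
    intro i j hlt hjd h
    obtain ⟨l, rfl⟩ : ∃ l, j = i + l := ⟨j - i, by omega⟩
    rw [pow_add, AlgEquiv.mul_apply] at h
    have h1 : (τ ^ l) α = α := ((τ ^ i).injective h).symm
    obtain ⟨t, ht⟩ := hg l (by omega) (by omega)
    rw [pow_mul, ← hτ, ht, pow_mul]
    have h2 : ∀ s : ℕ, ((τ ^ l) ^ s) α = α := by
      intro s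
      induction s with
      | zero => simp
      | succ s ih => rw [pow_succ', AlgEquiv.mul_apply, ih, h1]
    exact h2 t
  rw [Finset.mem_range] at hi hj
  rcases lt_or_gt_of_ne hne with h | h
  · exact key i j h hj hij
  · exact key j i h hi hij.symm

end Pool.Agent.H912.AE
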