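import Pool.Agent.H912.AE.Kh

/-!
# Explicit curves without points over `K[f]` (helper912)
-/

set_option autoImplicit false

open Finset Filter Topology

namespace Pool.Agent.H912.AE

/-- zeros and roots of unity are independent over the powers of a prime number -/
lemma pindep {K : Type} [Field K] [CharZero K] {p : ℕ} (hp : p.Prime) {f r w : ℕ} (hw : 0 < w)
    (hf : 1 ≤ f) (c : ℕ → ℤ) (hc : ∀ i ≤ r, ¬ (p : ℤ) ∣ c i) (u : ℕ → K)
    (hu : ∀ i, u i = 0 ∨ u i ^ w = 1)
    (h : ∑ i ∈ range (r + 1), (c i : K) * (p : K) ^ (f * i) * u i = 0) :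
    ∀ i ≤ r, u i = 0 := by
  classical
  by_contra hcon
  push Not at hcon
  obtain ⟨hi₀r, hi₀⟩ := Nat.find_spec hcon
  set i₀ := Nat.find hcon with hi₀def
  have hmin : ∀ i, i < i₀ → u i = 0 := by
    intro i hi
    by_contra h1
    exact Nat.find_min hcon hi ⟨by omega, h1⟩
  have hp0 : (p : K) ≠ 0 := by exact_mod_cast hp.ne_zero
  have hint : ∀ i, IsIntegral ℤ (u i) := by
    intro i
    rcases hu i with h1 | h1
    · rw [h1]
      exact isIntegral_zero
    · exact IsIntegral.of_pow hw (by rw [h1]; exact isIntegral_one)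
  have huw : u i₀ ^ w = 1 := (hu i₀).resolve_left hi₀
  have hinv : IsIntegral ℤ ((u i₀)⁻¹) := by
    refine IsIntegral.of_pow hw ?_
    rw [inv_pow, huw, inv_one]
    exact isIntegral_one
  -- split off the first terms
  have h1 : ∑ i ∈ range (r + 1), (c i : K) * (p : K) ^ (f * i) * u i =
      (c i₀ : K) * (p : K) ^ (f * i₀) * u i₀ + (p : K) ^ (f * i₀) * ((p : K) ^ f *
        ∑ i ∈ (range (r + 1)).filter (fun i => i₀ < i),
          (c i : K) * (p : K) ^ (f * (i - i₀ - 1)) * u i) := by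
    have h2 : ∑ i ∈ range (r + 1), (c i : K) * (p : K) ^ (f * i) * u i =
        ∑ i ∈ insert i₀ ((range (r + 1)).filter (fun i => i₀ < i)),
          (c i : K) * (p : K) ^ (f * i) * u i := by
      symm
      refine sum_subset ?_ ?_
      · intro i hi
        rcases mem_insert.1 hi with rfl | hi
        · exact mem_range.2 (by omega)
        · exact (mem_filter.1 hi).1
      · intro i hi hi'
        have h3 : i < i₀ := by
          by_contra h4
          apply hi'
          rcases Nat.lt_or_ge i₀ i with h5 | h5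
          · exact mem_insert_of_mem (mem_filter.2 ⟨hi, h5⟩)
          · have : i = i₀ := by omega
            rw [this]
            exact mem_insert_self _ _
        rw [hmin i h3, mul_zero]
    rw [h2, sum_insert (by simp), mul_sum, mul_sum]
    congr 1
    refine sum_congr rfl fun i hi => ?_
    have h3 := (mem_filter.1 hi).2
    have h4 : f * i = f * i₀ + (f + f * (i - i₀ - 1)) := by
      obtain ⟨t, rfl⟩ : ∃ t, i = i₀ + 1 + t := ⟨i - i₀ - 1, by omega⟩
      have : i₀ + 1 + t - i₀ - 1 = t := by omega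
      rw [this]
      ring
    rw [h4, pow_add, pow_add]
    ring
  rw [h1] at h
  set β := ∑ i ∈ (range (r + 1)).filter (fun i => i₀ < i),
          (c i : K) * (p : K) ^ (f * (i - i₀ - 1)) * u i with hβ
  have hβint : IsIntegral ℤ β := by
    refine IsIntegral.sum _ fun i _ => ?_
    refine IsIntegral.mul (IsIntegral.mul ?_ ?_) (hint i)
    · exact isIntegral_algebraMap (R := ℤ) (x := c i)
    · exact (isIntegral_algebraMap (R := ℤ) (x := (p : ℤ))).pow _ |> fun h => by
        simpa using h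
  have h2 : (c i₀ : K) = (p : K) ^ f * (-(β * (u i₀)⁻¹)) := by
    have h3 : (p : K) ^ (f * i₀) * ((c i₀ : K) * u i₀ + (p : K) ^ f * β) = 0 := by
      rw [← h]
      ring
    have h4 := (mul_eq_zero.1 h3).resolve_left (pow_ne_zero _ hp0)
    have h5 : (c i₀ : K) * u i₀ = -((p : K) ^ f * β) := by
      linear_combination h4
    calc (c i₀ : K) = (c i₀ : K) * u i₀ * (u i₀)⁻¹ := by
          rw [mul_assoc, mul_inv_cancel₀ hi₀, mul_one]
      _ = _ := by rw [h5]; ring
  obtain ⟨f', rfl⟩ : ∃ f', f = f' + 1 := ⟨f - 1, by omega⟩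
  have h3 : IsIntegral ℤ (((c i₀ : ℚ) / (p : ℚ) : ℚ) : K) := by
    have h4 : (((c i₀ : ℚ) / (p : ℚ) : ℚ) : K) = (p : K) ^ f' * (-(β * (u i₀)⁻¹)) := by
      push_cast
      rw [h2, pow_succ]
      field_simp
    rw [h4]
    refine IsIntegral.mul ?_ (hβint.mul hinv).neg
    exact (isIntegral_algebraMap (R := ℤ) (x := (p : ℤ))).pow _ |> fun h => by
      simpa using h
  have h4 : IsIntegral ℤ ((c i₀ : ℚ) / (p : ℚ) : ℚ) := by
    have h5 : ((((c i₀ : ℚ) / (p : ℚ) : ℚ)) : K) = algebraMap ℚ K ((c i₀ : ℚ) / (p : ℚ) : ℚ) := by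
      rw [eq_ratCast]
    rw [h5] at h3
    exact (isIntegral_algebraMap_iff (algebraMap ℚ K).injective).1 h3
  obtain ⟨t, ht⟩ := IsIntegrallyClosed.isIntegral_iff.1 h4
  apply hc i₀ hi₀r
  refine ⟨t, ?_⟩
  have hpq : (p : ℚ) ≠ 0 := by exact_mod_cast hp.ne_zero
  have h5 : (c i₀ : ℚ) = (p : ℚ) * (t : ℚ) := by
    have h6 : (t : ℚ) = (c i₀ : ℚ) / (p : ℚ) := ht
    rw [h6]
    field_simp
  exact_mod_cast h5

/-- the equations `y_i - 2 p y_(i+1) + p² y_(i+2) = 0` -/
def progEqs (K : Type) [Field K] (p n : ℕ) : Set (MvPolynomial (Fin (n + 1)) K) :=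
  {F | ∃ (i : ℕ) (h : i + 2 < n + 1), F = MvPolynomial.X ⟨i, by omega⟩ -
    MvPolynomial.C (2 * (p : K)) * MvPolynomial.X ⟨i + 1, by omega⟩ +
    MvPolynomial.C ((p : K) ^ 2) * MvPolynomial.X ⟨i + 2, h⟩}

lemma progEqs_hom {K : Type} [Field K] {p n : ℕ} : ∀ F ∈ progEqs K p n, ∃ D, F.IsHomogeneous D := by
  rintro F ⟨i, h, rfl⟩
  refine ⟨1, ((MvPolynomial.isHomogeneous_X _ _).sub ?_).add ?_⟩
  · have h1 := (MvPolynomial.isHomogeneous_C (Fin (n + 1)) (2 * (p : K))).mul
      (MvPolynomial.isHomogeneous_X K (⟨i + 1, by omega⟩ : Fin (n + 1)))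
    rwa [zero_add] at h1
  · have h1 := (MvPolynomial.isHomogeneous_C (Fin (n + 1)) ((p : K) ^ 2)).mul
      (MvPolynomial.isHomogeneous_X K (⟨i + 2, h⟩ : Fin (n + 1)))
    rwa [zero_add] at h1

lemma prog_eval {K L : Type} [Field K] [Field L] (φ : K →+* L) {p n : ℕ} (v : Fin (n + 1) → L)
    (i : ℕ) (h : i + 2 < n + 1) : MvPolynomial.eval₂ φ v (MvPolynomial.X ⟨i, by omega⟩ -
    MvPolynomial.C (2 * (p : K)) * MvPolynomial.X ⟨i + 1, by omega⟩ +
    MvPolynomial.C ((p : K) ^ 2) * MvPolynomial.X ⟨i + 2, h⟩) =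
      v ⟨i, by omega⟩ - 2 * (p : L) * v ⟨i + 1, by omega⟩ + (p : L) ^ 2 * v ⟨i + 2, h⟩ := by
  rw [MvPolynomial.eval₂_add, MvPolynomial.eval₂_sub, MvPolynomial.eval₂_mul,
    MvPolynomial.eval₂_mul, MvPolynomial.eval₂_X, MvPolynomial.eval₂_X, MvPolynomial.eval₂_X,
    MvPolynomial.eval₂_C, MvPolynomial.eval₂_C, map_mul, map_pow, map_natCast, map_ofNat]

/-- the solutions of the equations: `p^i y_i` is an arithmetic progression -/
lemma prog_solution {L : Type} [Field L] {p n : ℕ} (y : Fin (n + 1) → L)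
    (hy : ∀ (i : ℕ) (h : i + 2 < n + 1), y ⟨i, by omega⟩ - 2 * (p : L) * y ⟨i + 1, by omega⟩ +
      (p : L) ^ 2 * y ⟨i + 2, h⟩ = 0) :
    ∃ a b : L, ∀ i : Fin (n + 1), (p : L) ^ (i : ℕ) * y i = a + b * (i : ℕ) := by
  rcases Nat.eq_zero_or_pos n with rfl | hn
  · exact ⟨y 0, 0, fun i => by
      obtain ⟨i, hi⟩ := i
      obtain rfl : i = 0 := by omega
      simp⟩
  · refine ⟨y ⟨0, by omega⟩, (p : L) * y ⟨1, by omega⟩ - y ⟨0, by omega⟩, ?_⟩
    have key : ∀ i : ℕ, ∀ h : i < n + 1, (p : L) ^ i * y ⟨i, h⟩ =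
        y ⟨0, by omega⟩ + ((p : L) * y ⟨1, by omega⟩ - y ⟨0, by omega⟩) * (i : ℕ) := by
      intro i
      induction i using Nat.strong_induction_on with
      | _ i ih =>
        intro h
        match i, ih, h with
        | 0, _, _ => simp
        | 1, _, _ => simp
        | i + 2, ih, h =>
          have h0 := ih i (by omega) (by omega)
          have h1 := ih (i + 1) (by omega) (by omega)
          have h2 := hy i (by omega)
          push_cast at h1 ⊢
          have h3 : (p : L) ^ (i + 2) * y ⟨i + 2, h⟩ =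
              2 * ((p : L) ^ (i + 1) * y ⟨i + 1, by omega⟩) - (p : L) ^ i * y ⟨i, by omega⟩ := by
            linear_combination (p : L) ^ i * h2
          rw [h3, h0, h1]
          ring
    exact fun i => key i i.2

/-- the linear form of the `(f+1)`-th differences -/
noncomputable def diffForm (K : Type) [Field K] (p n f s : ℕ) (hs : s + (f + 1) < n + 1) :
    MvPolynomial (Fin (n + 1)) K :=
  ∑ j : Fin (f + 2), MvPolynomial.C ((((-1 : ℤ) ^ (f + 1 - (j : ℕ)) * ((f + 1).choose j : ℤ) : ℤ) : K)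
    * (p : K) ^ (f * (j : ℕ))) * MvPolynomial.X ⟨s + j, by omega⟩

lemma diffForm_mem {K : Type} [Field K] [CharZero K] {p n f s : ℕ} (hp : p ≠ 0)
    (hs : s + (f + 1) < n + 1) : diffForm K p n f s hs ∈ HadK (progEqs K p n) f := by
  classical
  refine ⟨⟨1, ?_⟩, fun L _ φ z hz => ?_⟩
  · refine MvPolynomial.IsHomogeneous.sum _ _ _ fun j _ => ?_
    have h1 := (MvPolynomial.isHomogeneous_C (Fin (n + 1))
      ((((-1 : ℤ) ^ (f + 1 - (j : ℕ)) * ((f + 1).choose j : ℤ) : ℤ) : K) *
        (p : K) ^ (f * (j : ℕ)))).mul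
      (MvPolynomial.isHomogeneous_X K (⟨s + j, by omega⟩ : Fin (n + 1)))
    rwa [zero_add] at h1
  · have hL : CharZero L := charZero_of_injective_ringHom φ.injective
    have hpL : (p : L) ≠ 0 := by exact_mod_cast hp
    have h1 : ∀ j : Fin f, ∃ a b : L, ∀ i : Fin (n + 1),
        (p : L) ^ (i : ℕ) * z j i = a + b * (i : ℕ) := by
      intro j
      refine prog_solution (z j) fun i h => ?_
      have h2 := hz j _ ⟨i, h, rfl⟩
      rw [prog_eval] at h2
      exact h2
    choose a b hab using h1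
    let P : Polynomial L := ∏ j, (Polynomial.C (a j) + Polynomial.C (b j) * Polynomial.X)
    have hPd : P.natDegree < f + 1 := by
      refine Nat.lt_succ_of_le ((Polynomial.natDegree_prod_le _ _).trans ?_)
      refine (Finset.sum_le_card_nsmul _ _ 1 fun j _ => ?_).trans (by simp)
      refine (Polynomial.natDegree_add_le _ _).trans (max_le ?_ ?_)
      · rw [Polynomial.natDegree_C]
        omega
      · exact (Polynomial.natDegree_C_mul_le _ _).trans Polynomial.natDegree_X_le
    have hPe : ∀ i : Fin (n + 1), (p : L) ^ (f * (i : ℕ)) * ∏ j, z j i = P.eval ((i : ℕ) : L) := by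
      intro i
      rw [Polynomial.eval_prod]
      simp only [Polynomial.eval_add, Polynomial.eval_mul, Polynomial.eval_C, Polynomial.eval_X]
      rw [← Finset.prod_congr rfl fun j _ => hab j i, prod_mul_distrib, prod_const, card_univ,
        Fintype.card_fin, ← pow_mul, mul_comm f]
    have h2 := congrFun (Polynomial.fwdDiff_iter_eq_zero_of_degree_lt hPd) ((s : ℕ) : L)
    rw [fwdDiff_iter_eq_sum_shift, Pi.zero_apply] at h2
    unfold diffForm
    rw [MvPolynomial.eval₂_sum]
    have h3 : (p : L) ^ (f * s) * ∑ j : Fin (f + 2), MvPolynomial.eval₂ φ (fun i => ∏ j, z j i)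
        (MvPolynomial.C ((((-1 : ℤ) ^ (f + 1 - (j : ℕ)) * ((f + 1).choose j : ℤ) : ℤ) : K)
          * (p : K) ^ (f * (j : ℕ))) * MvPolynomial.X (⟨s + j, by omega⟩ : Fin (n + 1))) = 0 := by
      rw [mul_sum, ← h2, Finset.sum_range (n := f + 1 + 1)]
      refine Finset.sum_congr rfl fun j _ => ?_
      rw [MvPolynomial.eval₂_mul, MvPolynomial.eval₂_C, MvPolynomial.eval₂_X, map_mul, map_pow,
        map_natCast, map_intCast, zsmul_eq_mul]
      have h4 := hPe ⟨s + j, by omega⟩
      have h5 : ((s : ℕ) : L) + (j : ℕ) • (1 : L) = (((s + j : ℕ)) : L) := by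
        rw [nsmul_eq_mul, mul_one]
        push_cast
        ring
      rw [h5, ← h4]
      have h6 : f * (s + (j : ℕ)) = f * s + f * j := by ring
      simp only []
      rw [h6, pow_add]
      push_cast
      ring
    exact (mul_eq_zero.1 h3).resolve_left (pow_ne_zero _ hpL)

/-- **The curves `x_i^m - 2 p x_(i+1)^m + p² x_(i+2)^m = 0`.** -/
theorem curves {w : ℕ} [NeZero w] (hw : Even w) {K : Type} [Field K] [CharZero K]
    [IsCyclotomicExtension {w} ℚ K] {p n f : ℕ} (hp : p.Prime) (hf : 1 ≤ f) (hfn : f < n)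
    (hnp : n < p) :
    HasDensity {m | ∀ x : Fin (n + 1) → AlgebraicClosure K, (∀ i, x i ∈ expField K f) →
      (∀ (i : ℕ) (h : i + 2 < n + 1), x ⟨i, by omega⟩ ^ m + (p : AlgebraicClosure K) ^ 2 *
        x ⟨i + 2, h⟩ ^ m = 2 * (p : AlgebraicClosure K) * x ⟨i + 1, by omega⟩ ^ m) → x = 0} 1 := by
  have hw0 : 0 < w := Nat.pos_of_ne_zero (NeZero.ne w)
  refine density_congr (expMain hw (progEqs K p n) progEqs_hom f) density_univ
    fun m hm _ => ⟨fun _ => Set.mem_univ _, fun _ => ?_⟩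
  intro x hxf hx
  by_contra hx0
  obtain ⟨η, h1, h2, h3⟩ := hm x hxf hx0 (by
    rintro F ⟨i, h, rfl⟩
    rw [prog_eval]
    linear_combination hx i h)
  apply h2
  have key : ∀ s, ∀ hs : s + (f + 1) < n + 1, ∀ j : ℕ, ∀ hj : j ≤ f + 1,
      η ⟨s + j, by omega⟩ = 0 := by
    intro s hs
    have h4 := h3 _ (diffForm_mem hp.ne_zero hs)
    unfold diffForm at h4
    rw [map_sum] at h4
    let u : ℕ → K := fun j => if h : j ≤ f + 1 then η ⟨s + j, by omega⟩ ^ m else 0
    have hu : ∀ j, u j = 0 ∨ u j ^ w = 1 := by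
      intro j
      by_cases h : j ≤ f + 1
      · have h5 : u j = η ⟨s + j, by omega⟩ ^ m := dif_pos h
        rw [h5]
        rcases h1 ⟨s + j, by omega⟩ with h6 | h6
        · rw [h6]
          rcases Nat.eq_zero_or_pos m with rfl | hm0
          · right
            simp
          · left
            exact zero_pow hm0.ne'
        · right
          rw [← pow_mul, mul_comm, pow_mul, h6, one_pow]
      · exact Or.inl (dif_neg h)
    have h5 : ∑ j ∈ range (f + 1 + 1), (((-1 : ℤ) ^ (f + 1 - j) * ((f + 1).choose j : ℤ) : ℤ) : K) *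
        (p : K) ^ (f * j) * u j = 0 := by
      rw [Finset.sum_range (n := f + 1 + 1), ← h4]
      refine Finset.sum_congr rfl fun j _ => ?_
      have h6 : u j = η ⟨s + j, by omega⟩ ^ m := dif_pos (by omega)
      rw [h6, map_mul, MvPolynomial.eval_C, MvPolynomial.eval_X]
    intro j hj
    have h7 := pindep hp hw0 hf _ (fun i hi => ?_) u hu h5 j hj
    · have h6 : u j = η ⟨s + j, by omega⟩ ^ m := dif_pos hj
      rw [h6] at h7
      exact eq_zero_of_pow_eq_zero h7
    · intro hdvd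
      have h8 : (p : ℤ) ∣ ((f + 1).choose i : ℤ) := by
        rcases neg_one_pow_eq_or ℤ (f + 1 - i) with h9 | h9
        · rwa [h9, one_mul] at hdvd
        · rw [h9, neg_one_mul, dvd_neg] at hdvd
          exact hdvd
      have h9 : p ∣ (f + 1).choose i := by exact_mod_cast h8
      have h10 : p ∣ (f + 1).factorial := by
        rw [← Nat.choose_mul_factorial_mul_factorial hi]
        exact (h9.mul_right _).mul_right _
      have h11 := (Nat.Prime.dvd_factorial hp).1 h10
      omega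
  funext i
  have h4 := key (min (i : ℕ) (n - (f + 1))) (by omega) (i - min (i : ℕ) (n - (f + 1)))
    (by omega)
  have h5 : (⟨min (i : ℕ) (n - (f + 1)) + (i - min (i : ℕ) (n - (f + 1))), by omega⟩ :
      Fin (n + 1)) = i := Fin.ext (by simp)
  rw [h5] at h4
  exact h4

end Pool.Agent.H912.AE
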