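import Mathlib

/-!
# Kummer extensions generated by two roots (helper912)
-/

set_option autoImplicit false

open Polynomial Module

namespace Pool.Agent.H912.AE.Tm

variable {M Ω : Type} [Field M] [CharZero M] [Field Ω] [Algebra M Ω]

omit [CharZero M] in
lemma root_mem {w : ℕ} (hw : 0 < w) {ζ : M} (hζ : IsPrimitiveRoot ζ w) {z : Ω} (hz : z ^ w = 1) :
    ∃ u : M, algebraMap M Ω u = z := by
  have : NeZero w := ⟨hw.ne'⟩
  have h1 : IsPrimitiveRoot (algebraMap M Ω ζ) w := hζ.map_of_injective (algebraMap M Ω).injective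
  obtain ⟨i, -, hi⟩ := h1.eq_pow_of_pow_eq_one hz
  exact ⟨ζ ^ i, by rw [map_pow, hi]⟩

omit [CharZero M] in
/-- for a root `A` of an element of `M`, `σ ↦ σ A / A` -/
lemma exists_char {w : ℕ} (hw : 0 < w) {ζ : M} (hζ : IsPrimitiveRoot ζ w) {a : M} (ha : a ≠ 0)
    {A : Ω} (hA : A ^ w = algebraMap M Ω a) (hA0 : A ≠ 0) :
    ∃ ρ : Gal(Ω/M) →* rootsOfUnity w Ω, ∀ σ : Gal(Ω/M), ((ρ σ : Ωˣ) : Ω) = σ A / A := by
  have h1 : ∀ σ : Gal(Ω/M), (σ A / A) ^ w = 1 := by
    intro σ
    rw [div_pow, ← map_pow, hA, AlgEquiv.commutes, div_self]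
    exact (map_ne_zero (algebraMap M Ω)).2 ha
  have h2 : ∀ σ : Gal(Ω/M), σ A / A ≠ 0 := fun σ => div_ne_zero ((map_ne_zero σ).2 hA0) hA0
  refine ⟨⟨⟨fun σ => ⟨Units.mk0 (σ A / A) (h2 σ), ?_⟩, ?_⟩, ?_⟩, fun σ => rfl⟩
  · rw [mem_rootsOfUnity]
    apply Units.ext
    exact h1 σ
  · apply Subtype.ext
    apply Units.ext
    change (1 : Gal(Ω/M)) A / A = 1
    rw [AlgEquiv.one_apply, div_self hA0]
  · intro σ τ
    apply Subtype.ext
    apply Units.ext
    change (σ * τ) A / A = σ A / A * (τ A / A)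
    rw [AlgEquiv.mul_apply]
    obtain ⟨u, hu⟩ := root_mem hw hζ (h1 τ)
    have h3 : τ A = algebraMap M Ω u * A := by rw [hu, div_mul_cancel₀ _ hA0]
    rw [h3, map_mul, AlgEquiv.commutes]
    field_simp

/-- the degree of a Kummer extension generated by two roots of order `w` divides `w ^ 2` -/
theorem kummer [IsAlgClosed Ω] {w : ℕ} (hw : 0 < w) {ζ : M} (hζ : IsPrimitiveRoot ζ w) {a b : M}
    (ha : a ≠ 0) (hb : b ≠ 0) {A B : Ω} (hA : A ^ w = algebraMap M Ω a)
    (hB : B ^ w = algebraMap M Ω b) :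
    FiniteDimensional M (IntermediateField.adjoin M {A, B}) ∧
      finrank M (IntermediateField.adjoin M {A, B}) ∣ w ^ 2 := by
  have : NeZero w := ⟨hw.ne'⟩
  have ha' : algebraMap M Ω a ≠ 0 := (_root_.map_ne_zero _).2 ha
  have hb' : algebraMap M Ω b ≠ 0 := (_root_.map_ne_zero _).2 hb
  have hA0 : A ≠ 0 := by
    rintro rfl
    rw [zero_pow hw.ne'] at hA
    exact ha' hA.symm
  have hB0 : B ≠ 0 := by
    rintro rfl
    rw [zero_pow hw.ne'] at hB
    exact hb' hB.symm
  set N := IntermediateField.adjoin M {A, B} with hN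
  have hAN : A ∈ N := IntermediateField.subset_adjoin _ _ (by simp)
  have hBN : B ∈ N := IntermediateField.subset_adjoin _ _ (by simp)
  set f : M[X] := (X ^ w - C a) * (X ^ w - C b) with hf
  have hf0 : f ≠ 0 := mul_ne_zero (X_pow_sub_C_ne_zero hw a) (X_pow_sub_C_ne_zero hw b)
  have hNf : N = IntermediateField.adjoin M (f.rootSet Ω) := by
    apply le_antisymm
    · rw [hN, IntermediateField.adjoin_le_iff]
      rintro z hz
      apply IntermediateField.subset_adjoin
      rw [mem_rootSet]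
      refine ⟨hf0, ?_⟩
      simp only [Set.mem_insert_iff, Set.mem_singleton_iff] at hz
      rcases hz with rfl | rfl
      · simp [hf, hA]
      · simp [hf, hB]
    · rw [IntermediateField.adjoin_le_iff]
      intro z hz
      rw [mem_rootSet] at hz
      have h1 := hz.2
      simp only [hf, map_mul, map_sub, map_pow, aeval_X, aeval_C, mul_eq_zero, sub_eq_zero] at h1
      rcases h1 with h1 | h1
      · obtain ⟨u, hu⟩ := root_mem (Ω := Ω) hw hζ (z := z / A) (by
          rw [div_pow, h1, hA, div_self ha'])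
        have h2 : z = algebraMap M Ω u * A := by rw [hu, div_mul_cancel₀ _ hA0]
        rw [h2]
        exact N.mul_mem (N.algebraMap_mem u) hAN
      · obtain ⟨u, hu⟩ := root_mem (Ω := Ω) hw hζ (z := z / B) (by
          rw [div_pow, h1, hB, div_self hb'])
        have h2 : z = algebraMap M Ω u * B := by rw [hu, div_mul_cancel₀ _ hB0]
        rw [h2]
        exact N.mul_mem (N.algebraMap_mem u) hBN
  have hsplit : f.IsSplittingField M N := by
    rw [hNf]
    exact IntermediateField.adjoin_rootSet_isSplittingField (IsAlgClosed.splits _)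
  have hfin : FiniteDimensional M N := IsSplittingField.finiteDimensional N f
  have hnor : Normal M N := Normal.of_isSplittingField f
  have hgal : IsGalois M N := ⟨⟩
  refine ⟨hfin, ?_⟩
  let A' : N := ⟨A, hAN⟩
  let B' : N := ⟨B, hBN⟩
  have hA' : A' ^ w = algebraMap M N a := Subtype.ext hA
  have hB' : B' ^ w = algebraMap M N b := Subtype.ext hB
  have hA0' : A' ≠ 0 := fun h => hA0 (congrArg Subtype.val h)
  have hB0' : B' ≠ 0 := fun h => hB0 (congrArg Subtype.val h)
  obtain ⟨ρ, hρ⟩ := exists_char hw hζ ha hA' hA0'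
  obtain ⟨τ, hτ⟩ := exists_char hw hζ hb hB' hB0'
  have hinj : Function.Injective (ρ.prod τ) := by
    rw [injective_iff_map_eq_one]
    intro σ hσ
    rw [MonoidHom.prod_apply, Prod.mk_eq_one] at hσ
    have h1 : σ A' = A' := by
      have h2 := hρ σ
      rw [hσ.1] at h2
      have h3 : (1 : N) = σ A' / A' := h2
      rw [eq_div_iff hA0', one_mul] at h3
      exact h3.symm
    have h1' : σ B' = B' := by
      have h2 := hτ σ
      rw [hσ.2] at h2
      have h3 : (1 : N) = σ B' / B' := h2
      rw [eq_div_iff hB0', one_mul] at h3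
      exact h3.symm
    have h2 : (σ : N →ₐ[M] N) = AlgHom.id M N := by
      apply IntermediateField.adjoin_algHom_ext
      intro x hx
      rcases hx with rfl | rfl
      · exact h1
      · exact h1'
    apply AlgEquiv.ext
    intro x
    exact DFunLike.congr_fun h2 x
  have hcard := Subgroup.card_dvd_of_injective (ρ.prod τ) hinj
  rw [IsGalois.card_aut_eq_finrank, Nat.card_prod,
    (hζ.map_of_injective (algebraMap M N).injective).card_rootsOfUnity] at hcard
  rw [pow_two]
  exact hcard

end Pool.Agent.H912.AE.Tm
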