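import Pool.Agent.H912.AE.Bad
import Pool.Agent.H912.AE.Crt

/-!
# Local points (helper912)
-/

set_option autoImplicit false

open Finset Polynomial

namespace Pool.Agent.H912.AE

variable {N : ℕ}

lemma exists_root {q k : ℕ} [hq : Fact q.Prime] (hk : k ∣ q - 1) :
    ∃ g : ZMod q, IsPrimitiveRoot g k := by
  obtain ⟨g, hg⟩ := IsCyclic.exists_ofOrder_eq_natCard (α := (ZMod q)ˣ)
  have h1 : Nat.card (ZMod q)ˣ = q - 1 := by
    rw [Nat.card_eq_fintype_card, ZMod.card_units]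
  rw [h1] at hg
  have h2 : IsPrimitiveRoot g (q - 1) := hg ▸ IsPrimitiveRoot.orderOf g
  obtain ⟨a, ha⟩ := hk
  have hq1 : 0 < q - 1 := Nat.sub_pos_of_lt hq.out.one_lt
  have h3 : IsPrimitiveRoot (g ^ a) k := h2.pow hq1 (by rw [ha, mul_comm])
  exact ⟨((g ^ a : (ZMod q)ˣ) : ZMod q), IsPrimitiveRoot.coe_units_iff.2 h3⟩

lemma lt_of_dvd_k {T k p : ℕ} (hk : k ≡ 1 [MOD Pw T]) (hp : p.Prime) (hpk : p ∣ k) : T < p := by
  by_contra h
  have h1 : p ∣ Pw T := (dvd_Pw hp).2 (by omega)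
  have h2 : k ≡ 1 [MOD p] := hk.of_dvd h1
  have h3 : (1 : ℕ) ≡ 0 [MOD p] := h2.symm.trans ((Nat.modEq_zero_iff_dvd).2 hpk)
  exact hp.one_lt.ne' (Nat.dvd_one.1 ((Nat.modEq_zero_iff_dvd).1 h3))

lemma unit_pattern {q k s d m : ℕ} [hq : Fact q.Prime] (hqe : q = 2 ^ (max s 1) * k * d + 1)
    (hodd : Odd k) (hm : 2 ^ s * d ∣ m) (hm0 : m ≠ 0) {g : ZMod q}
    (hg : IsPrimitiveRoot g k) (y : ZMod q) :
    ∃ (ε : ℤ) (e : ℕ), (ε = -1 ∨ ε = 0 ∨ ε = 1) ∧ (ε = 0 ↔ y = 0) ∧ (1 ≤ s → 0 ≤ ε) ∧ e < k ∧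
      y ^ m = (ε : ZMod q) * g ^ e := by
  have hk0 : 0 < k := hodd.pos
  have : NeZero k := ⟨hk0.ne'⟩
  by_cases hy : y = 0
  · refine ⟨0, 0, by simp, by simp [hy], fun _ => le_rfl, hk0, ?_⟩
    rw [hy, zero_pow hm0]
    simp
  have hy1 : y ^ (q - 1) = 1 := ZMod.pow_card_sub_one_eq_one hy
  have hq1 : q - 1 = 2 ^ (max s 1) * k * d := by omega
  rw [hq1] at hy1
  obtain ⟨t, ht⟩ := hm
  rcases Nat.eq_zero_or_pos s with hs | hs
  · subst hs
    have h1 : (y ^ m) ^ (2 * k) = 1 := by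
      rw [ht, ← pow_mul]
      have : 2 ^ 0 * d * t * (2 * k) = 2 ^ (max 0 1) * k * d * t := by
        simp
        ring
      rw [this, pow_mul, hy1, one_pow]
    have h2 : ((y ^ m) ^ k) ^ 2 = 1 := by
      rw [← pow_mul, mul_comm k 2]
      exact h1
    have h2' : ((y ^ m) ^ k - 1) * ((y ^ m) ^ k + 1) = 0 := by
      linear_combination h2
    rcases (mul_eq_zero.1 h2').imp sub_eq_zero.1 eq_neg_of_add_eq_zero_left with h3 | h3
    · obtain ⟨e, he, h4⟩ := hg.eq_pow_of_pow_eq_one h3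
      exact ⟨1, e, by simp, by simp [hy], fun _ => by norm_num, he, by simp [h4]⟩
    · have h4 : (-(y ^ m)) ^ k = 1 := by
        rw [hodd.neg_pow, h3, neg_neg]
      obtain ⟨e, he, h5⟩ := hg.eq_pow_of_pow_eq_one h4
      exact ⟨-1, e, by simp, by simp [hy], fun h => by omega, he, by simp [h5]⟩
  · have h1 : (y ^ m) ^ k = 1 := by
      rw [ht, ← pow_mul]
      have : 2 ^ s * d * t * k = 2 ^ (max s 1) * k * d * t := by
        rw [max_eq_left hs]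
        ring
      rw [this, pow_mul, hy1, one_pow]
    obtain ⟨e, he, h4⟩ := hg.eq_pow_of_pow_eq_one h1
    exact ⟨1, e, by simp, by simp [hy], fun _ => by norm_num, he, by simp [h4]⟩

theorem local_zmod (S : Finset (MvPolynomial (Fin N) ℤ)) {q k s d m T : ℕ} [hq : Fact q.Prime]
    (hqe : q = 2 ^ (max s 1) * k * d + 1) (hqb : q ∉ bad S k) (hk : Squarefree k)
    (hkT : k ≡ 1 [MOD Pw T]) (hT : 2 ≤ T) (hST : ∀ F ∈ S, F.support.card ≤ T)
    (hm : 2 ^ s * d ∣ m) (hm0 : m ≠ 0) (y : Fin N → ZMod q)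
    (hy : ∀ F ∈ S, MvPolynomial.aeval (fun i => y i ^ m) F = 0) :
    ∃ ε ∈ Eps N, (∀ i, ε i = 0 ↔ y i = 0) ∧ (1 ≤ s → ∀ i, 0 ≤ ε i) ∧
      ∀ F ∈ S, MvPolynomial.eval ε F = 0 := by
  have hodd : Odd k := by
    rw [← Nat.not_even_iff_odd, even_iff_two_dvd]
    intro h
    have := lt_of_dvd_k hkT Nat.prime_two h
    omega
  have hkq : k ∣ q - 1 := by
    have : q - 1 = k * (2 ^ (max s 1) * d) := by
      rw [hqe]
      simp
      ring
    rw [this]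
    exact Dvd.intro _ rfl
  obtain ⟨g, hg⟩ := exists_root hkq
  choose ε e h1 h2 h3 h4 h5 using fun i => unit_pattern hqe hodd hm hm0 hg (y i)
  have hε : ε ∈ Eps N := mem_Eps.2 h1
  refine ⟨ε, hε, h2, fun hs i => h3 i hs, fun F hF => ?_⟩
  refine not_bad hk hqb hg (fun F hF p hp hpk => (hST F hF).trans_lt (lt_of_dvd_k hkT hp hpk))
    ε hε e h4 F hF ?_
  have h6 := hy F hF
  have h7 : (fun i => y i ^ m) = fun i => (ε i : ZMod q) * g ^ (e i) := funext h5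
  rw [h7] at h6
  exact h6

lemma aeval_smul_hom {R : Type*} [CommRing R] {F : MvPolynomial (Fin N) ℤ} {D : ℕ}
    (hF : F.IsHomogeneous D) (c : R) (z : Fin N → R) :
    MvPolynomial.aeval (fun i => c * z i) F = c ^ D * MvPolynomial.aeval z F := by
  rw [MvPolynomial.aeval_def, MvPolynomial.aeval_def, MvPolynomial.eval₂_eq',
    MvPolynomial.eval₂_eq', mul_sum]
  refine sum_congr rfl fun α hα => ?_
  have h1 : ∑ i, α i = D := by
    have h2 := hF (MvPolynomial.mem_support_iff.1 hα)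
    rw [← h2, Finsupp.weight_apply, Finsupp.sum_fintype _ _ (fun i => by simp)]
    simp
  simp_rw [mul_pow]
  rw [prod_mul_distrib, prod_pow_eq_pow_sum, h1]
  ring

lemma aeval_ringHom {R R' : Type*} [CommRing R] [CommRing R'] (φ : R →+* R') (z : Fin N → R)
    (F : MvPolynomial (Fin N) ℤ) :
    φ (MvPolynomial.aeval z F) = MvPolynomial.aeval (fun i => φ (z i)) F := by
  rw [MvPolynomial.aeval_def, MvPolynomial.aeval_def, MvPolynomial.eval₂_eq',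
    MvPolynomial.eval₂_eq', map_sum]
  refine sum_congr rfl fun α _ => ?_
  rw [map_mul, map_prod]
  congr 1
  · simp
  · refine prod_congr rfl fun i _ => ?_
    rw [map_pow]

theorem local_padic (S : Finset (MvPolynomial (Fin N) ℤ)) (hom : ∀ F ∈ S, ∃ D, F.IsHomogeneous D)
    {q k s d m T : ℕ} [hq : Fact q.Prime]
    (hqe : q = 2 ^ (max s 1) * k * d + 1) (hqb : q ∉ bad S k) (hk : Squarefree k)
    (hkT : k ≡ 1 [MOD Pw T]) (hT : 2 ≤ T) (hST : ∀ F ∈ S, F.support.card ≤ T)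
    (hm : 2 ^ s * d ∣ m) (hm0 : m ≠ 0) (x : Fin N → ℚ_[q]) (hx : x ≠ 0)
    (hy : ∀ F ∈ S, MvPolynomial.aeval (fun i => x i ^ m) F = 0) :
    ∃ ε ∈ Eps N, (∀ i, ε i ≠ 0 ↔ ∀ j, ‖x j‖ ≤ ‖x i‖) ∧ (1 ≤ s → ∀ i, 0 ≤ ε i) ∧
      ∀ F ∈ S, MvPolynomial.eval ε F = 0 := by
  obtain ⟨j₀, hj₀⟩ := Function.ne_iff.1 hx
  have : Nonempty (Fin N) := ⟨j₀⟩
  obtain ⟨i₀, hi₀⟩ := Finite.exists_max (fun i => ‖x i‖)
  have hx0 : x i₀ ≠ 0 := by
    intro h
    have h1 := hi₀ j₀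
    rw [h, norm_zero] at h1
    exact hj₀ (norm_le_zero_iff.1 h1)
  have hn0 : 0 < ‖x i₀‖ := norm_pos_iff.2 hx0
  have hz : ∀ i, ‖x i / x i₀‖ ≤ 1 := by
    intro i
    rw [norm_div, div_le_one hn0]
    exact hi₀ i
  let z : Fin N → ℤ_[q] := fun i => ⟨x i / x i₀, hz i⟩
  have hzx : ∀ i, (z i : ℚ_[q]) = x i / x i₀ := fun i => rfl
  have h1 : ∀ F ∈ S, MvPolynomial.aeval (fun i => z i ^ m) F = 0 := by
    intro F hF
    obtain ⟨D, hD⟩ := hom F hF
    have h2 := hy F hF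
    have h3 : (fun i => x i ^ m) = fun i => (x i₀ ^ m) * ((z i : ℚ_[q]) ^ m) := by
      funext i
      rw [hzx, ← mul_pow]
      congr 1
      field_simp
    rw [h3, aeval_smul_hom hD] at h2
    rcases mul_eq_zero.1 h2 with h4 | h4
    · exact absurd h4 (pow_ne_zero _ (pow_ne_zero _ hx0))
    · have h5 := aeval_ringHom (PadicInt.Coe.ringHom (p := q)) (fun i => z i ^ m) F
      simp only [map_pow] at h5
      have h6 : PadicInt.Coe.ringHom (p := q) (MvPolynomial.aeval (fun i => z i ^ m) F) = 0 :=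
        h5.trans h4
      exact Subtype.coe_injective h6
  have h2 : ∀ F ∈ S, MvPolynomial.aeval (fun i => (PadicInt.toZMod (z i)) ^ m) F = 0 := by
    intro F hF
    have h3 := aeval_ringHom (PadicInt.toZMod (p := q)) (fun i => z i ^ m) F
    rw [h1 F hF, map_zero] at h3
    simp only [map_pow] at h3
    exact h3.symm
  obtain ⟨ε, hε, h3, h4, h5⟩ := local_zmod S hqe hqb hk hkT hT hST hm hm0 _ h2
  refine ⟨ε, hε, fun i => ?_, h4, h5⟩
  rw [ne_eq, h3 i]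
  have h6 : PadicInt.toZMod (z i) = 0 ↔ ‖z i‖ < 1 := by
    rw [← RingHom.mem_ker, PadicInt.ker_toZMod, IsLocalRing.mem_maximalIdeal,
      PadicInt.mem_nonunits]
  have h7 : ‖z i‖ = ‖x i‖ / ‖x i₀‖ := by
    rw [PadicInt.norm_def, hzx, norm_div]
  rw [h6, h7, div_lt_one hn0, not_lt]
  exact ⟨fun h j => (hi₀ j).trans h, fun h => h i₀⟩

end Pool.Agent.H912.AE
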