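import Pool.Agent.H912.AE.Den
import Pool.Agent.H912.AE.Loc

/-!
# Witness primes (helper912)
-/

set_option autoImplicit false

open Finset Filter Topology

namespace Pool.Agent.H912.AE

variable {N : ℕ}

/-- `q` is a witness for `m` -/
def Wit (S : Finset (MvPolynomial (Fin N) ℤ)) (m q : ℕ) : Prop :=
  ∃ _ : Fact q.Prime, ∀ x : Fin N → ℚ_[q], x ≠ 0 →
    (∀ F ∈ S, MvPolynomial.aeval (fun i => x i ^ m) F = 0) →
    ∃ ε ∈ Eps N, (∀ i, ε i ≠ 0 ↔ ∀ j, ‖x j‖ ≤ ‖x i‖) ∧ (Even m → ∀ i, 0 ≤ ε i) ∧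
      ∀ F ∈ S, MvPolynomial.eval ε F = 0

lemma good_wit (S : Finset (MvPolynomial (Fin N) ℤ)) (hom : ∀ F ∈ S, ∃ D, F.IsHomogeneous D)
    {s T : ℕ} (hT : 2 ≤ T) (hST : ∀ F ∈ S, F.support.card ≤ T) {d : ℕ}
    (hd : Good (2 ^ (max s 1)) T (bad S) d) (_hd0 : 0 < d) :
    ∃ q : ℕ, d < q ∧ ∀ m : ℕ, m ≠ 0 → 2 ^ s * d ∣ m → ¬ 2 ^ (s + 1) ∣ m → Wit S m q := by
  obtain ⟨k, h1, h2, h3, h4⟩ := hd
  have hk0 : 0 < k := Nat.pos_of_ne_zero h1.ne_zero
  refine ⟨2 ^ (max s 1) * k * d + 1, ?_, ?_⟩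
  · have : 1 ≤ 2 ^ (max s 1) * k := Nat.one_le_iff_ne_zero.2 (by positivity)
    nlinarith
  · intro m hm0 hm hm2
    refine ⟨⟨h3⟩, fun x hx hF => ?_⟩
    have : Fact (2 ^ (max s 1) * k * d + 1).Prime := ⟨h3⟩
    obtain ⟨ε, h5, h6, h7, h8⟩ := local_padic S hom rfl h4 h1 h2 hT hST hm hm0 x hx hF
    refine ⟨ε, h5, h6, fun he i => h7 ?_ i, h8⟩
    by_contra hs
    have hs0 : s = 0 := by omega
    subst hs0
    exact hm2 (by simpa using he.two_dvd)

open Classical in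
theorem witness (S : Finset (MvPolynomial (Fin N) ℤ)) (hom : ∀ F ∈ S, ∃ D, F.IsHomogeneous D)
    (D : ℕ) {ε : ℝ} (hε : 0 < ε) : ∃ D' N₀ : ℕ, ∀ M : ℕ, N₀ ≤ M →
      (((range M).filter (fun m => ¬ ∃ q, D < q ∧ q ≤ D' ∧ Wit S m q)).card : ℝ) ≤ ε * M := by
  -- the number of monomials
  obtain ⟨T, hT, hST⟩ : ∃ T : ℕ, 2 ≤ T ∧ ∀ F ∈ S, F.support.card ≤ T :=
    ⟨2 + ∑ F ∈ S, F.support.card, by omega, fun F hF => by
      have := single_le_sum (f := fun F : MvPolynomial (Fin N) ℤ => F.support.card)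
        (fun _ _ => Nat.zero_le _) hF
      omega⟩
  obtain ⟨t, ht⟩ := exists_pow_lt_of_lt_one (by positivity : 0 < ε / 4)
    (by norm_num : (1 / 2 : ℝ) < 1)
  have hwin : ∀ s : ℕ, ∃ c : ℝ, 0 < c ∧ HW (Good (2 ^ (max s 1)) T (bad S)) c := by
    intro s
    refine window (2 ^ (max s 1)) T (dvd_pow_self 2 (by omega)) (by positivity) hT (N + 1)
      (3 ^ N * ∑ F ∈ S, (Lh F : ℝ)) (by positivity) (bad S) fun k hk => card_bad S hk
  have hden : ∀ s : ℕ, ∃ X N₀ : ℕ, ∀ M : ℕ, N₀ ≤ M → (((range M).filter (fun m =>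
      ¬ ∃ d, Good (2 ^ (max s 1)) T (bad S) d ∧ d.Coprime (Pw (max D 2)) ∧ max D 2 < d ∧ d ≤ X ∧
        d ∣ m)).card : ℝ) ≤ ε / (4 * (t + 1)) * M := by
    intro s
    obtain ⟨c, hc, hW⟩ := hwin s
    exact dense _ hc hW (max D 2) (by positivity)
  choose X N₀ hX using hden
  -- the primes
  have hq : ∀ s d : ℕ, ∃ q : ℕ, Good (2 ^ (max s 1)) T (bad S) d → 0 < d →
      (d < q ∧ ∀ m : ℕ, m ≠ 0 → 2 ^ s * d ∣ m → ¬ 2 ^ (s + 1) ∣ m → Wit S m q) := by
    intro s d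
    by_cases h : Good (2 ^ (max s 1)) T (bad S) d ∧ 0 < d
    · obtain ⟨q, h1⟩ := good_wit S hom hT hST h.1 h.2
      exact ⟨q, fun _ _ => h1⟩
    · exact ⟨0, fun h1 h2 => absurd ⟨h1, h2⟩ h⟩
  choose q hq using hq
  obtain ⟨M₀, hM₀⟩ := exists_nat_ge (4 / ε)
  refine ⟨∑ s ∈ range t, ∑ d ∈ range (X s + 1), q s d, M₀ + ∑ s ∈ range t, N₀ s,
    fun M hM => ?_⟩
  have hsub : (range M).filter (fun m => ¬ ∃ q', D < q' ∧
      q' ≤ ∑ s ∈ range t, ∑ d ∈ range (X s + 1), q s d ∧ Wit S m q') ⊆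
      (range M).filter (fun m => 2 ^ t ∣ m) ∪ (range t).biUnion fun s =>
        (range M).filter (fun m => ¬ ∃ d, Good (2 ^ (max s 1)) T (bad S) d ∧
          d.Coprime (Pw (max D 2)) ∧ max D 2 < d ∧ d ≤ X s ∧ d ∣ m) := by
    intro m hm
    rw [mem_filter] at hm
    obtain ⟨hmM, hm⟩ := hm
    by_cases h1 : 2 ^ t ∣ m
    · exact mem_union_left _ (mem_filter.2 ⟨hmM, h1⟩)
    refine mem_union_right _ ?_
    have hm0 : m ≠ 0 := by
      rintro rfl
      exact h1 (dvd_zero _)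
    set s := m.factorization 2 with hs
    have h2 : 2 ^ s ∣ m := Nat.ordProj_dvd m 2
    have h3 : ¬ 2 ^ (s + 1) ∣ m := Nat.pow_succ_factorization_not_dvd hm0 Nat.prime_two
    have hst : s < t := by
      by_contra h
      exact h1 ((pow_dvd_pow 2 (by omega)).trans h2)
    refine mem_biUnion.2 ⟨s, mem_range.2 hst, mem_filter.2 ⟨hmM, ?_⟩⟩
    rintro ⟨d, hd1, hd2, hd3, hd4, hd5⟩
    obtain ⟨h4, h5⟩ := hq s d hd1 (by omega)
    apply hm
    refine ⟨q s d, by omega, ?_, h5 m hm0 ?_ h3⟩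
    · refine le_trans ?_ (single_le_sum (f := fun s => ∑ d ∈ range (X s + 1), q s d)
        (fun _ _ => Nat.zero_le _) (mem_range.2 hst))
      exact single_le_sum (f := fun d => q s d) (fun _ _ => Nat.zero_le _)
        (mem_range.2 (by omega))
    · refine Nat.Coprime.mul_dvd_of_dvd_of_dvd ?_ h2 hd5
      apply Nat.Coprime.pow_left
      exact (hd2.coprime_dvd_right ((dvd_Pw Nat.prime_two).2 (le_max_right _ _))).symm
  have hMr : (M₀ : ℝ) ≤ M := by
    have : M₀ ≤ M := by omega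
    exact_mod_cast this
  have hMε : 1 ≤ ε / 4 * M := by
    have h1 : 4 / ε ≤ M := hM₀.trans hMr
    rw [div_le_iff₀ hε] at h1
    linarith
  have h1 : (((range M).filter (fun m => 2 ^ t ∣ m)).card : ℝ) ≤ ε / 2 * M := by
    have h2 : ((range M).filter (fun m => 2 ^ t ∣ m)).card ≤ M / 2 ^ t + 1 := by
      have h3 : (range M).filter (fun m => 2 ^ t ∣ m) ⊆
          (range (M / 2 ^ t + 1)).image (fun a => 2 ^ t * a) := by
        intro m hm
        rw [mem_filter, mem_range] at hm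
        obtain ⟨a, rfl⟩ := hm.2
        refine mem_image.2 ⟨a, mem_range.2 ?_, rfl⟩
        have : a ≤ M / 2 ^ t := by
          rw [Nat.le_div_iff_mul_le (by positivity), mul_comm]
          exact hm.1.le
        omega
      refine (card_le_card h3).trans (card_image_le.trans ?_)
      rw [card_range]
    have h3 : (((range M).filter (fun m => 2 ^ t ∣ m)).card : ℝ) ≤ ((M / 2 ^ t : ℕ) : ℝ) + 1 := by
      exact_mod_cast h2
    have h4 : ((M / 2 ^ t : ℕ) : ℝ) ≤ (M : ℝ) / ((2 ^ t : ℕ) : ℝ) := Nat.cast_div_le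
    have h5 : (M : ℝ) / ((2 ^ t : ℕ) : ℝ) ≤ ε / 4 * M := by
      push_cast
      have h6 : (M : ℝ) / 2 ^ t = (1 / 2) ^ t * M := by
        rw [div_pow, one_pow]
        ring
      rw [h6]
      gcongr
    linarith
  have h2 : (((range t).biUnion fun s =>
        (range M).filter (fun m => ¬ ∃ d, Good (2 ^ (max s 1)) T (bad S) d ∧
          d.Coprime (Pw (max D 2)) ∧ max D 2 < d ∧ d ≤ X s ∧ d ∣ m)).card : ℝ) ≤ ε / 4 * M := by
    have h3 : (((range t).biUnion fun s =>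
        (range M).filter (fun m => ¬ ∃ d, Good (2 ^ (max s 1)) T (bad S) d ∧
          d.Coprime (Pw (max D 2)) ∧ max D 2 < d ∧ d ≤ X s ∧ d ∣ m)).card : ℝ) ≤
        ∑ s ∈ range t, (((range M).filter (fun m =>
      ¬ ∃ d, Good (2 ^ (max s 1)) T (bad S) d ∧ d.Coprime (Pw (max D 2)) ∧ max D 2 < d ∧ d ≤ X s ∧
        d ∣ m)).card : ℝ) := by
      exact_mod_cast card_biUnion_le
    refine h3.trans ?_
    have h4 : ∀ s ∈ range t, (((range M).filter (fun m =>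
      ¬ ∃ d, Good (2 ^ (max s 1)) T (bad S) d ∧ d.Coprime (Pw (max D 2)) ∧ max D 2 < d ∧ d ≤ X s ∧
        d ∣ m)).card : ℝ) ≤ ε / (4 * (t + 1)) * M := by
      intro s hs
      refine hX s M ?_
      have := single_le_sum (f := N₀) (fun _ _ => Nat.zero_le _) hs
      omega
    refine (sum_le_sum h4).trans ?_
    rw [sum_const, card_range, nsmul_eq_mul]
    have h5 : (t : ℝ) * (ε / (4 * (t + 1)) * M) = ε / 4 * M * (t / (t + 1)) := by
      field_simp
    rw [h5]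
    have h6 : (t : ℝ) / (t + 1) ≤ 1 := by
      rw [div_le_one (by positivity)]
      linarith
    have h7 : 0 ≤ ε / 4 * M := by positivity
    nlinarith
  have h3 := (card_le_card hsub).trans (card_union_le _ _)
  have h4 : (((range M).filter (fun m => ¬ ∃ q', D < q' ∧
      q' ≤ ∑ s ∈ range t, ∑ d ∈ range (X s + 1), q s d ∧ Wit S m q')).card : ℝ) ≤
      (((range M).filter (fun m => 2 ^ t ∣ m)).card : ℝ) + (((range t).biUnion fun s =>
        (range M).filter (fun m => ¬ ∃ d, Good (2 ^ (max s 1)) T (bad S) d ∧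
          d.Coprime (Pw (max D 2)) ∧ max D 2 < d ∧ d ≤ X s ∧ d ∣ m)).card : ℝ) := by
    exact_mod_cast h3
  have h5 : 0 ≤ ε / 4 * M := by positivity
  linarith

open Classical in
/-- for almost all `m` there are many witness primes -/
theorem witnesses (S : Finset (MvPolynomial (Fin N) ℤ)) (hom : ∀ F ∈ S, ∃ D, F.IsHomogeneous D)
    (r D : ℕ) {ε : ℝ} (hε : 0 < ε) : ∃ N₀ : ℕ, ∀ M : ℕ, N₀ ≤ M →
      (((range M).filter (fun m => ¬ ∃ Q : Finset ℕ, Q.card = r ∧ ∀ q ∈ Q, D < q ∧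
        Wit S m q)).card : ℝ) ≤ ε * M := by
  induction r generalizing D ε with
  | zero =>
    refine ⟨0, fun M _ => ?_⟩
    have h1 : (range M).filter (fun m => ¬ ∃ Q : Finset ℕ, Q.card = 0 ∧ ∀ q ∈ Q, D < q ∧
        Wit S m q) = ∅ := by
      rw [filter_eq_empty_iff]
      intro m _ h
      exact h ⟨∅, card_empty, by simp⟩
    rw [h1, card_empty, Nat.cast_zero]
    positivity
  | succ r ih =>
    obtain ⟨D', N₁, h1⟩ := witness S hom D (half_pos hε)
    obtain ⟨N₂, h2⟩ := ih (max D D') (half_pos hε)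
    refine ⟨max N₁ N₂, fun M hM => ?_⟩
    have h3 := h1 M ((le_max_left _ _).trans hM)
    have h4 := h2 M ((le_max_right _ _).trans hM)
    have hsub : (range M).filter (fun m => ¬ ∃ Q : Finset ℕ, Q.card = r + 1 ∧ ∀ q ∈ Q, D < q ∧
        Wit S m q) ⊆ (range M).filter (fun m => ¬ ∃ q, D < q ∧ q ≤ D' ∧ Wit S m q) ∪
        (range M).filter (fun m => ¬ ∃ Q : Finset ℕ, Q.card = r ∧ ∀ q ∈ Q, max D D' < q ∧
        Wit S m q) := by
      intro m hm
      rw [mem_filter] at hm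
      by_cases h5 : ∃ q, D < q ∧ q ≤ D' ∧ Wit S m q
      · refine mem_union_right _ (mem_filter.2 ⟨hm.1, ?_⟩)
        rintro ⟨Q, hQ, hQ'⟩
        obtain ⟨q, hq1, hq2, hq3⟩ := h5
        apply hm.2
        refine ⟨insert q Q, ?_, ?_⟩
        · rw [card_insert_of_notMem, hQ]
          intro hq
          have := (hQ' q hq).1
          have := (max_lt_iff.1 this).2
          omega
        · intro q' hq'
          rcases mem_insert.1 hq' with rfl | h
          · exact ⟨hq1, hq3⟩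
          · exact ⟨(max_lt_iff.1 (hQ' q' h).1).1, (hQ' q' h).2⟩
      · exact mem_union_left _ (mem_filter.2 ⟨hm.1, h5⟩)
    have h5 := (card_le_card hsub).trans (card_union_le _ _)
    have h6 : (((range M).filter (fun m => ¬ ∃ Q : Finset ℕ, Q.card = r + 1 ∧ ∀ q ∈ Q, D < q ∧
        Wit S m q)).card : ℝ) ≤
        (((range M).filter (fun m => ¬ ∃ q, D < q ∧ q ≤ D' ∧ Wit S m q)).card : ℝ) +
        (((range M).filter (fun m => ¬ ∃ Q : Finset ℕ, Q.card = r ∧ ∀ q ∈ Q, max D D' < q ∧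
        Wit S m q)).card : ℝ) := by exact_mod_cast h5
    linarith

end Pool.Agent.H912.AE
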