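import Pool.Agent.H912.AE.Tws

/-!
# Number fields of given degree: polynomials with a simple root modulo one of many primes (helper912)
-/

set_option autoImplicit false

open Finset Filter Topology Polynomial

namespace Pool.Agent.H912.AE

open Classical in
/-- from one witness to many bounded witnesses -/
theorem manyB (W : ℕ → ℕ → Prop)
    (h : ∀ (D : ℕ) (ε : ℝ), 0 < ε → ∃ D' N₀ : ℕ, ∀ M : ℕ, N₀ ≤ M →
      (((range M).filter (fun m => ¬ ∃ q, D < q ∧ q ≤ D' ∧ W m q)).card : ℝ) ≤ ε * M)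
    (r D : ℕ) {ε : ℝ} (hε : 0 < ε) : ∃ B N₀ : ℕ, ∀ M : ℕ, N₀ ≤ M →
      (((range M).filter (fun m => ¬ ∃ Q : Finset ℕ, Q.card = r ∧ ∀ q ∈ Q, D < q ∧ q ≤ B ∧
        W m q)).card : ℝ) ≤ ε * M := by
  induction r generalizing D ε with
  | zero =>
    refine ⟨0, 0, fun M _ => ?_⟩
    have h1 : (range M).filter (fun m => ¬ ∃ Q : Finset ℕ, Q.card = 0 ∧ ∀ q ∈ Q, D < q ∧ q ≤ 0 ∧
        W m q) = ∅ := by
      rw [filter_eq_empty_iff]
      intro m _ h
      exact h ⟨∅, card_empty, by simp⟩
    rw [h1, card_empty, Nat.cast_zero]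
    positivity
  | succ r ih =>
    obtain ⟨D', N₁, h1⟩ := h D (ε / 2) (half_pos hε)
    obtain ⟨B, N₂, h2⟩ := ih (max D D') (half_pos hε)
    refine ⟨max B D', max N₁ N₂, fun M hM => ?_⟩
    have h3 := h1 M ((le_max_left _ _).trans hM)
    have h4 := h2 M ((le_max_right _ _).trans hM)
    have hsub : (range M).filter (fun m => ¬ ∃ Q : Finset ℕ, Q.card = r + 1 ∧ ∀ q ∈ Q, D < q ∧
        q ≤ max B D' ∧ W m q) ⊆ (range M).filter (fun m => ¬ ∃ q, D < q ∧ q ≤ D' ∧ W m q) ∪
        (range M).filter (fun m => ¬ ∃ Q : Finset ℕ, Q.card = r ∧ ∀ q ∈ Q, max D D' < q ∧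
        q ≤ B ∧ W m q) := by
      intro m hm
      rw [mem_filter] at hm
      by_cases h5 : ∃ q, D < q ∧ q ≤ D' ∧ W m q
      · refine mem_union_right _ (mem_filter.2 ⟨hm.1, ?_⟩)
        rintro ⟨Q, hQ, hQ'⟩
        obtain ⟨q, hq1, hq2, hq3⟩ := h5
        refine hm.2 ⟨insert q Q, ?_, fun q' hq' => ?_⟩
        · rw [card_insert_of_notMem, hQ]
          intro h6
          have := (hQ' q h6).1
          have := le_max_right D D'
          omega
        · rcases mem_insert.1 hq' with rfl | h
          · exact ⟨hq1, hq2.trans (le_max_right _ _), hq3⟩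
          · exact ⟨(max_lt_iff.1 (hQ' q' h).1).1, (hQ' q' h).2.1.trans (le_max_left _ _),
              (hQ' q' h).2.2⟩
      · exact mem_union_left _ (mem_filter.2 ⟨hm.1, h5⟩)
    have h5 := (card_le_card hsub).trans (card_union_le _ _)
    have h6 : (((range M).filter (fun m => ¬ ∃ Q : Finset ℕ, Q.card = r + 1 ∧ ∀ q ∈ Q, D < q ∧
        q ≤ max B D' ∧ W m q)).card : ℝ) ≤
        (((range M).filter (fun m => ¬ ∃ q, D < q ∧ q ≤ D' ∧ W m q)).card : ℝ) +
        (((range M).filter (fun m => ¬ ∃ Q : Finset ℕ, Q.card = r ∧ ∀ q ∈ Q, max D D' < q ∧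
        q ≤ B ∧ W m q)).card : ℝ) := by exact_mod_cast h5
    linarith

section Poly

variable {R R' : Type*} [CommRing R] [CommRing R'] {D : ℕ}

/-- the monic polynomial with the coefficients `a` -/
noncomputable def pol (a : Fin D → R) : R[X] := X ^ D + ∑ i, C (a i) * X ^ (i : ℕ)

lemma pol_map (φ : R →+* R') (a : Fin D → R) : (pol a).map φ = pol (fun i => φ (a i)) := by
  simp [pol, Polynomial.map_sum]

lemma deg_lt (a : Fin D → R) : (∑ i, C (a i) * X ^ (i : ℕ)).degree < (D : WithBot ℕ) :=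
  degree_sum_fin_lt a

lemma pol_monic (a : Fin D → R) : (pol a).Monic := monic_X_pow_add (deg_lt a)

lemma pol_natDegree [Nontrivial R] (a : Fin D → R) : (pol a).natDegree = D := by
  have h1 : (pol a).degree = D := by
    rw [pol, degree_add_eq_left_of_degree_lt (by rw [degree_X_pow]; exact deg_lt a), degree_X_pow]
  exact natDegree_eq_of_degree_eq_some h1

lemma pol_eval (a : Fin D → R) (t : R) : (pol a).eval t = t ^ D + ∑ i, a i * t ^ (i : ℕ) := by
  simp [pol, eval_finsetSum]

lemma pol_deriv (a : Fin D → R) (t : R) : (derivative (pol a)).eval t =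
    D * t ^ (D - 1) + ∑ i : Fin D, a i * ((i : ℕ) * t ^ ((i : ℕ) - 1)) := by
  simp [pol, eval_finsetSum, derivative_X_pow]

end Poly

/-- the polynomial with the coefficients `c` has a simple root -/
def SR {D q : ℕ} (c : Fin D → ZMod q) : Prop :=
  ∃ t : ZMod q, (pol c).eval t = 0 ∧ (derivative (pol c)).eval t ≠ 0

open Classical in
lemma card_SR {q d : ℕ} [hq : Fact q.Prime] : q ^ (d + 2) ≤
    2 * ((d + 2) * ((univ : Finset (Fin (d + 2) → ZMod q)).filter SR).card) := by
  set A : Finset (ZMod q × (Fin (d + 2) → ZMod q)) := univ.filter fun p =>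
    (pol p.2).eval p.1 = 0 ∧ (derivative (pol p.2)).eval p.1 ≠ 0 with hA
  -- upper bound
  have h1 : A.card ≤ (d + 2) * (A.image Prod.snd).card := by
    refine card_le_mul_card_image A (d + 2) fun c _ => ?_
    have h2 : (A.filter (fun p => p.2 = c)).card ≤ ((pol c).roots.toFinset).card := by
      refine card_le_card_of_injOn Prod.fst ?_ ?_
      · intro p hp
        rw [mem_coe, mem_filter, hA, mem_filter] at hp
        rw [mem_coe, Multiset.mem_toFinset, mem_roots (pol_monic c).ne_zero, IsRoot.def]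
        rw [← hp.2]
        exact hp.1.2.1
      · intro p hp p' hp' h
        rw [mem_coe, mem_filter] at hp hp'
        exact Prod.ext h (hp.2.trans hp'.2.symm)
    refine h2.trans ((Multiset.toFinset_card_le _).trans ((card_roots' _).trans ?_))
    rw [pol_natDegree]
  have h2 : (A.image Prod.snd).card ≤
      ((univ : Finset (Fin (d + 2) → ZMod q)).filter SR).card := by
    refine card_le_card fun c hc => ?_
    obtain ⟨p, hp, rfl⟩ := mem_image.1 hc
    rw [hA, mem_filter] at hp
    rw [mem_filter]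
    exact ⟨mem_univ _, p.1, hp.2⟩
  -- lower bound
  have h3 : ((univ : Finset (ZMod q)) ×ˢ (((univ : Finset (ZMod q)).erase 0) ×ˢ
      (univ : Finset (Fin d → ZMod q)))).card ≤ A.card := by
    let a1 : ZMod q × ZMod q × (Fin d → ZMod q) → ZMod q := fun p =>
      p.2.1 - (((d + 2 : ℕ) : ZMod q) * p.1 ^ (d + 1) +
        ∑ i : Fin d, p.2.2 i * (((i : ℕ) + 1 + 1 : ℕ) * p.1 ^ ((i : ℕ) + 1)))
    let a0 : ZMod q × ZMod q × (Fin d → ZMod q) → ZMod q := fun p =>
      -(p.1 ^ (d + 2) + (a1 p * p.1 + ∑ i : Fin d, p.2.2 i * p.1 ^ ((i : ℕ) + 1 + 1)))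
    let Φ : ZMod q × ZMod q × (Fin d → ZMod q) → ZMod q × (Fin (d + 2) → ZMod q) := fun p =>
      (p.1, Fin.cons (a0 p) (Fin.cons (a1 p) p.2.2 : Fin (d + 1) → ZMod q))
    refine card_le_card_of_injOn Φ ?_ ?_
    · intro p hp
      rw [mem_coe, mem_product, mem_product, mem_erase] at hp
      rw [mem_coe, hA, mem_filter]
      refine ⟨mem_univ _, ?_, ?_⟩
      · simp only [Φ, pol_eval, Fin.sum_univ_succ, Fin.cons_zero, Fin.cons_succ, Fin.val_succ,
          Fin.val_zero, pow_zero, mul_one, zero_add, pow_one, a0]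
        ring
      · simp only [Φ, pol_deriv, Fin.sum_univ_succ, Fin.cons_zero, Fin.cons_succ, Fin.val_succ,
          Fin.val_zero, pow_zero, mul_one, zero_add, a1, Nat.cast_zero, zero_mul, mul_zero,
          Nat.add_sub_cancel, Nat.cast_one]
        have h4 : d + 2 - 1 = d + 1 := rfl
        rw [h4]
        intro h5
        apply hp.2.1.1
        rw [← h5]
        ring
    · intro p _ p' _ h
      have h4 : p.1 = p'.1 := (Prod.ext_iff.1 h).1
      have h5 : (Fin.cons (a0 p) (Fin.cons (a1 p) p.2.2 : Fin (d + 1) → ZMod q) :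
          Fin (d + 2) → ZMod q) = Fin.cons (a0 p') (Fin.cons (a1 p') p'.2.2) := (Prod.ext_iff.1 h).2
      have h6 := Fin.cons_injective2 h5
      have h7 := Fin.cons_injective2 h6.2
      have h8 : p.2.1 = p'.2.1 := by
        have h9 := h7.1
        simp only [a1, h4, h7.2] at h9
        exact sub_left_inj.1 h9
      exact Prod.ext h4 (Prod.ext h8 h7.2)
  rw [card_product, card_product, card_erase_of_mem (mem_univ _), card_univ, ZMod.card, card_univ,
    Fintype.card_fun, ZMod.card, Fintype.card_fin] at h3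
  have h4 : q ^ (d + 2) ≤ 2 * (q * ((q - 1) * q ^ d)) := by
    have h5 : q ≤ 2 * (q - 1) := by
      have := hq.out.two_le
      omega
    calc q ^ (d + 2) = q * (q * q ^ d) := by ring
      _ ≤ q * ((2 * (q - 1)) * q ^ d) := by gcongr
      _ = 2 * (q * ((q - 1) * q ^ d)) := by ring
  refine h4.trans ?_
  have h5 := h3.trans (h1.trans (Nat.mul_le_mul_left _ h2))
  omega

open Classical in
lemma card_not_SR {q D : ℕ} [hq : Fact q.Prime] (hD : 0 < D) :
    ((((univ : Finset (Fin D → ZMod q)).filter (fun c => ¬ SR c)).card : ℕ) : ℝ) ≤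
      (1 - 1 / (2 * D)) * (q : ℝ) ^ D := by
  have hcard : ((univ : Finset (Fin D → ZMod q)).filter SR).card +
      ((univ : Finset (Fin D → ZMod q)).filter (fun c => ¬ SR c)).card = q ^ D := by
    rw [card_filter_add_card_filter_not, card_univ, Fintype.card_fun, ZMod.card, Fintype.card_fin]
  have hDr : (0 : ℝ) < D := by exact_mod_cast hD
  have key : q ^ D ≤ 2 * (D * ((univ : Finset (Fin D → ZMod q)).filter SR).card) := by
    obtain ⟨D, rfl⟩ : ∃ e, D = e + 1 := ⟨D - 1, by omega⟩
    rcases D with _ | d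
    · have h1 : (univ : Finset (Fin (0 + 1) → ZMod q)).filter SR = univ := by
        rw [filter_eq_self]
        intro c _
        refine ⟨-c 0, ?_, ?_⟩
        · rw [pol_eval]
          simp
        · rw [pol_deriv]
          simp
      rw [h1, card_univ, Fintype.card_fun, ZMod.card, Fintype.card_fin]
      omega
    · exact card_SR
  have h1 : (((univ : Finset (Fin D → ZMod q)).filter SR).card : ℝ) +
      (((univ : Finset (Fin D → ZMod q)).filter (fun c => ¬ SR c)).card : ℝ) = (q : ℝ) ^ D := by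
    exact_mod_cast hcard
  have h2 : (q : ℝ) ^ D ≤ 2 * (D * ((univ : Finset (Fin D → ZMod q)).filter SR).card) := by
    exact_mod_cast key
  have h3 : 1 / (2 * (D : ℝ)) * (q : ℝ) ^ D ≤
      ((univ : Finset (Fin D → ZMod q)).filter SR).card := by
    rw [div_mul_eq_mul_div, one_mul, div_le_iff₀ (by positivity)]
    linarith
  linarith

end Pool.Agent.H912.AE
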