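import Pool.Agent.H912.AE.CycF
import Pool.Agent.H912.AE.Nf2

/-!
# Bounded witness primes over cyclotomic fields, and fields generated by a root (helper912)
-/

set_option autoImplicit false

open Finset Filter Topology

namespace Pool.Agent.H912.AE

variable {N : ℕ}

open Classical in
/-- one bounded common witness prime for a finite family of sets of forms -/
theorem witK1F {w : ℕ} [NeZero w] (hw2 : 2 ∣ w) {K : Type} [Field K] [CharZero K]
    [IsCyclotomicExtension {w} ℚ K] (J : Finset ℕ)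
    (S : ℕ → Set (MvPolynomial (Fin N) K))
    (hom : ∀ e ∈ J, ∀ F ∈ S e, ∃ D, F.IsHomogeneous D)
    (D : ℕ) {ε : ℝ} (hε : 0 < ε) : ∃ D' N₀ : ℕ, ∀ M : ℕ, N₀ ≤ M →
      (((range M).filter (fun m => ¬ ∃ q, D < q ∧ q ≤ D' ∧
        ∀ e ∈ J, WitK w (S e) m q)).card : ℝ) ≤ ε * M := by
  have hw : 0 < w := Nat.pos_of_ne_zero (NeZero.ne w)
  obtain ⟨ζ, hζ⟩ := IsCyclotomicExtension.exists_isPrimitiveRoot (S := {w}) ℚ K
    (Set.mem_singleton w) (NeZero.ne w)
  choose S' hS' using fun e => reduceK (gen_of_cyclotomic hζ) (S e)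
  obtain ⟨T, hT, hwT, hST⟩ : ∃ T : ℕ, 2 ≤ T ∧ w ≤ T ∧
      ∀ e ∈ J, ∀ F ∈ S' e, F.support.card ≤ T :=
    ⟨2 + w + ∑ e ∈ J, ∑ F ∈ S' e, F.support.card, by omega, by omega, fun e he F hF => by
      have h1 := single_le_sum (f := fun F : MvPolynomial (Fin (N + 1)) ℤ => F.support.card)
        (fun _ _ => Nat.zero_le _) hF
      have h2 := single_le_sum (f := fun e => ∑ F ∈ S' e, F.support.card)
        (fun _ _ => Nat.zero_le _) he
      omega⟩
  obtain ⟨c, hc, hW⟩ := window w T hw2 hw hT (N + 1 + 1)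
    (∑ e ∈ J, (3 ^ (N + 1) * ∑ F ∈ S' e, (Lh F : ℝ)) * (w : ℝ) ^ (N + 1 + 1)) (by positivity)
    (fun k => J.biUnion fun e => bad (S' e) (w * k)) (by
      intro k hk
      have h1 : ((J.biUnion fun e => bad (S' e) (w * k)).card : ℝ) ≤
          ∑ e ∈ J, ((bad (S' e) (w * k)).card : ℝ) := by
        exact_mod_cast card_biUnion_le
      refine h1.trans ?_
      rw [sum_mul]
      refine sum_le_sum fun e _ => ?_
      have h2 := card_bad (S' e) (k := w * k) (Nat.mul_pos hw hk)
      refine h2.trans (le_of_eq ?_)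
      push_cast
      rw [mul_pow]
      ring)
  refine witnessU hw _ hc hW _ (fun d hd hd0 hdw => ?_) D hε
  obtain ⟨k, hk, hkT, hq, hqb⟩ := hd
  have : Fact (w * k * d + 1).Prime := ⟨hq⟩
  refine ⟨w * k * d + 1, ?_, fun m hm0 hdm e he => ?_⟩
  · have hk0 : 0 < k := Nat.pos_of_ne_zero hk.ne_zero
    have h1 : 1 * d ≤ w * k * d := Nat.mul_le_mul_right d (Nat.mul_pos hw hk0)
    omega
  · refine ⟨this, ?_, fun φ x hx hy => ?_⟩
    · obtain ⟨z, hz⟩ := exists_padic_root (q := w * k * d + 1) hw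
        ⟨k * d, by rw [Nat.add_sub_cancel]; ring⟩
      obtain ⟨σ, -⟩ := exists_hom hζ hz
      exact ⟨σ⟩
    · have hqb' : w * k * d + 1 ∉ bad (S' e) (w * k) := fun h =>
        hqb (mem_biUnion.2 ⟨e, he, h⟩)
      exact local_K hζ (S e) (hom e he) (S' e) (hS' e) rfl hqb' hk hkT hwT (hST e he) hdm hdw hm0
        φ x hx hy

/-- a field generated by a root of a polynomial which has a root in `k` maps to `k` -/
lemma exists_lift {K L k : Type} [Field K] [Field L] [Field k] [Algebra K L] (φ : K →+* k)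
    {θ : L} (hθ : IsIntegral K θ) (htop : IntermediateField.adjoin K {θ} = ⊤) {z : k}
    (hz : (minpoly K θ).eval₂ φ z = 0) : ∃ ψ : L →+* k, ψ.comp (algebraMap K L) = φ := by
  let _ : Algebra K k := φ.toAlgebra
  have h1 : Polynomial.aeval z (minpoly K (IntermediateField.adjoin.powerBasis hθ).gen) = 0 := by
    rw [IntermediateField.adjoin.powerBasis_gen, IntermediateField.minpoly_gen]
    exact hz
  let ψ₁ : IntermediateField.adjoin K {θ} →ₐ[K] k :=
    (IntermediateField.adjoin.powerBasis hθ).lift z h1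
  let e : IntermediateField.adjoin K {θ} ≃ₐ[K] L :=
    (IntermediateField.equivOfEq htop).trans IntermediateField.topEquiv
  let ψ : L →ₐ[K] k := ψ₁.comp e.symm.toAlgHom
  exact ⟨ψ.toRingHom, ψ.comp_algebraMap⟩

/-- the numbers of the statement -/
lemma pol_cast {K k : Type} [Field K] [Field k] (φ : K →+* k) {D : ℕ} (a : Fin D → ℤ) (z : k) :
    (pol (fun j => (a j : K))).eval₂ φ z = (pol (fun j => (a j : k))).eval z := by
  rw [← Polynomial.eval_map, pol_map]
  congr 1
  congr 1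
  funext j
  exact map_intCast _ _

end Pool.Agent.H912.AE
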