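import Pool.Agent.H912.AE.Main

/-!
# Reduction to finitely many forms with integral coefficients (helper912)
-/

set_option autoImplicit false

open Finset Filter Topology

namespace Pool.Agent.H912.AE

variable {N : ℕ}

/-- the common denominator of the coefficients -/
def den (F : MvPolynomial (Fin N) ℚ) : ℕ := ∏ α ∈ F.support, (F.coeff α).den

/-- an integral multiple of `F` -/
noncomputable def intF (F : MvPolynomial (Fin N) ℚ) : MvPolynomial (Fin N) ℤ :=
  ∑ α ∈ F.support, MvPolynomial.monomial α (((den F : ℚ) * F.coeff α).num)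

lemma den_pos (F : MvPolynomial (Fin N) ℚ) : 0 < den F := prod_pos fun α _ => (F.coeff α).den_pos

lemma num_eq (F : MvPolynomial (Fin N) ℚ) {α : Fin N →₀ ℕ} (hα : α ∈ F.support) :
    ((((den F : ℚ) * F.coeff α).num : ℤ) : ℚ) = (den F : ℚ) * F.coeff α := by
  obtain ⟨t, ht⟩ : (F.coeff α).den ∣ den F := dvd_prod_of_mem _ hα
  have h1 : (den F : ℚ) * F.coeff α = ((t * (F.coeff α).num : ℤ) : ℚ) := by
    rw [ht]
    push_cast
    have h2 : ((F.coeff α).den : ℚ) * F.coeff α = (F.coeff α).num := Rat.den_mul_eq_num _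
    calc ((F.coeff α).den : ℚ) * t * F.coeff α = t * (((F.coeff α).den : ℚ) * F.coeff α) := by ring
      _ = _ := by rw [h2]
  rw [h1, Rat.num_intCast]

lemma map_intF (F : MvPolynomial (Fin N) ℚ) :
    MvPolynomial.map (Int.castRingHom ℚ) (intF F) = MvPolynomial.C (den F : ℚ) * F := by
  rw [intF, map_sum]
  refine Eq.trans ?_ (congrArg (fun G => MvPolynomial.C (den F : ℚ) * G)
    (MvPolynomial.as_sum F)).symm
  simp only [mul_sum]
  refine sum_congr rfl fun α hα => ?_
  rw [MvPolynomial.map_monomial, MvPolynomial.C_mul_monomial, eq_intCast, num_eq F hα]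

lemma hom_intF {F : MvPolynomial (Fin N) ℚ} {D : ℕ} (hF : F.IsHomogeneous D) :
    (intF F).IsHomogeneous D := by
  refine MvPolynomial.IsHomogeneous.sum _ _ _ fun α hα => ?_
  refine MvPolynomial.isHomogeneous_monomial _ ?_
  by_contra h
  exact MvPolynomial.mem_support_iff.1 hα (hF.coeff_eq_zero h)

lemma aeval_intF {K : Type*} [Field K] [Algebra ℚ K] (z : Fin N → K)
    (F : MvPolynomial (Fin N) ℚ) :
    MvPolynomial.aeval z (intF F) = (den F : K) * MvPolynomial.aeval z F := by
  have h1 : MvPolynomial.aeval z (intF F) =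
      MvPolynomial.aeval z (MvPolynomial.map (Int.castRingHom ℚ) (intF F)) := by
    rw [MvPolynomial.aeval_def, MvPolynomial.aeval_def, MvPolynomial.eval₂_map]
    congr 1
    ext
    simp
  rw [h1, map_intF, map_mul, MvPolynomial.aeval_C]
  simp

lemma zero_iff {K : Type*} [Field K] [Algebra ℚ K] (z : Fin N → K)
    (F : MvPolynomial (Fin N) ℚ) :
    MvPolynomial.aeval z (intF F) = 0 ↔ MvPolynomial.aeval z F = 0 := by
  have : CharZero K := algebraRat.charZero K
  rw [aeval_intF, mul_eq_zero]
  have h : (den F : K) ≠ 0 := by exact_mod_cast (den_pos F).ne'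
  exact ⟨fun h1 => h1.resolve_left h, fun h1 => Or.inr h1⟩

/-- every set of forms may be replaced by a finite set of forms with integral coefficients -/
theorem reduce (S : Set (MvPolynomial (Fin N) ℚ)) (hS : ∀ F ∈ S, ∃ D, F.IsHomogeneous D) :
    ∃ S' : Finset (MvPolynomial (Fin N) ℤ), (∀ F ∈ S', ∃ D, F.IsHomogeneous D) ∧
      ∀ (K : Type) [Field K] [Algebra ℚ K] (z : Fin N → K),
        (∀ F ∈ S', MvPolynomial.aeval z F = 0) ↔ ∀ F ∈ S, MvPolynomial.aeval z F = 0 := by
  classical
  have hfg : (Submodule.span (MvPolynomial (Fin N) ℚ) S).FG := IsNoetherian.noetherian _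
  obtain ⟨T, hT, hspan⟩ := (Submodule.fg_span_iff_fg_span_finset_subset S).1 hfg
  refine ⟨T.image intF, ?_, ?_⟩
  · intro F hF
    obtain ⟨G, hG, rfl⟩ := mem_image.1 hF
    obtain ⟨D, hD⟩ := hS G (hT hG)
    exact ⟨D, hom_intF hD⟩
  · intro K _ _ z
    constructor
    · intro h F hF
      have h1 : F ∈ Submodule.span (MvPolynomial (Fin N) ℚ) (T : Set (MvPolynomial (Fin N) ℚ)) := by
        rw [← hspan]
        exact Submodule.subset_span hF
      have h2 : Submodule.span (MvPolynomial (Fin N) ℚ) (T : Set (MvPolynomial (Fin N) ℚ)) ≤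
          RingHom.ker (MvPolynomial.aeval z : MvPolynomial (Fin N) ℚ →ₐ[ℚ] K) := by
        rw [Submodule.span_le]
        intro G hG
        rw [SetLike.mem_coe, RingHom.mem_ker]
        exact (zero_iff z G).1 (h _ (mem_image_of_mem _ hG))
      exact h2 h1
    · intro h F hF
      obtain ⟨G, hG, rfl⟩ := mem_image.1 hF
      exact (zero_iff z G).2 (h G (hT hG))

end Pool.Agent.H912.AE
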