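import Pool.Agent.H912.AE.Mom

/-!
# Squarefree integers in a residue class (helper912)
-/

set_option autoImplicit false

open Finset

namespace Pool.Agent.H912.AE

/-- the multipliers: squarefree, and `≡ 1` modulo the primes up to `T` -/
def Kk (T K : ℕ) : Finset ℕ := (Icc 1 K).filter (fun k => Squarefree k ∧ k ≡ 1 [MOD Pw T])

lemma card_modEq_ge (K M v : ℕ) (hM : 0 < M) :
    (K : ℝ) / M - 1 ≤ (((Icc 1 K).filter (fun k => k ≡ v [MOD M])).card : ℝ) := by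
  have h1 : (Icc 1 K) = Ioc 0 K := rfl
  have h2 := Nat.Ioc_filter_modEq_card 0 K hM v
  rw [h1]
  have h3 : ((⌊((K : ℚ) - v) / M⌋ - ⌊(((0 : ℕ) : ℚ) - v) / M⌋ : ℤ) : ℝ) ≤
      (((Ioc 0 K).filter (fun k => k ≡ v [MOD M])).card : ℝ) := by
    have h4 : (⌊((K : ℚ) - v) / M⌋ - ⌊(((0 : ℕ) : ℚ) - v) / M⌋ : ℤ) ≤
        (((Ioc 0 K).filter (fun k => k ≡ v [MOD M])).card : ℤ) := by
      rw [h2]
      exact le_max_left _ _
    exact_mod_cast h4
  refine le_trans ?_ h3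
  have h5 : ((K : ℚ) - v) / M - 1 < (⌊((K : ℚ) - v) / M⌋ : ℚ) := Int.sub_one_lt_floor _
  have h6 : (⌊(((0 : ℕ) : ℚ) - v) / M⌋ : ℚ) ≤ (((0 : ℕ) : ℚ) - v) / M := Int.floor_le _
  have h7 : (K : ℚ) / M - 1 ≤ ((⌊((K : ℚ) - v) / M⌋ - ⌊(((0 : ℕ) : ℚ) - v) / M⌋ : ℤ) : ℚ) := by
    push_cast
    push_cast at h6
    have h8 : ((K : ℚ) - v) / M = (K : ℚ) / M - v / M := sub_div _ _ _
    have h9 : ((0 : ℚ) - v) / M = - (v / M) := by rw [zero_sub, neg_div]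
    rw [h9] at h6 ⊢
    linarith [h8]
  have h8 : (((K : ℚ) / M - 1 : ℚ) : ℝ) ≤
      ((((⌊((K : ℚ) - v) / M⌋ - ⌊(((0 : ℕ) : ℚ) - v) / M⌋ : ℤ) : ℚ)) : ℝ) := by
    exact_mod_cast h7
  push_cast at h8 ⊢
  exact h8

lemma card_modEq_le (K M v : ℕ) (hM : 0 < M) :
    (((Icc 1 K).filter (fun k => k ≡ v [MOD M])).card : ℝ) ≤ (K : ℝ) / M + 1 := by
  have h1 : (Icc 1 K) = Ioc 0 K := rfl
  have h2 := Nat.Ioc_filter_modEq_card 0 K hM v
  rw [h1]
  have h3 : (((Ioc 0 K).filter (fun k => k ≡ v [MOD M])).card : ℤ) ≤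
      max (⌊((K : ℚ) - v) / M⌋ - ⌊(((0 : ℕ) : ℚ) - v) / M⌋ : ℤ) 0 := by
    rw [h2]
  have h5 : (⌊((K : ℚ) - v) / M⌋ : ℚ) ≤ ((K : ℚ) - v) / M := Int.floor_le _
  have h6 : (((0 : ℕ) : ℚ) - v) / M - 1 < (⌊(((0 : ℕ) : ℚ) - v) / M⌋ : ℚ) := Int.sub_one_lt_floor _
  have h7 : ((⌊((K : ℚ) - v) / M⌋ - ⌊(((0 : ℕ) : ℚ) - v) / M⌋ : ℤ) : ℚ) ≤ (K : ℚ) / M + 1 := by
    push_cast
    push_cast at h6
    have h8 : ((K : ℚ) - v) / M = (K : ℚ) / M - v / M := sub_div _ _ _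
    have h9 : ((0 : ℚ) - v) / M = - (v / M) := by rw [zero_sub, neg_div]
    rw [h9] at h6 ⊢
    linarith [h8]
  have h8 : ((max (⌊((K : ℚ) - v) / M⌋ - ⌊(((0 : ℕ) : ℚ) - v) / M⌋ : ℤ) 0 : ℤ) : ℚ) ≤
      (K : ℚ) / M + 1 := by
    rw [Int.cast_max]
    refine max_le h7 ?_
    rw [Int.cast_zero]
    positivity
  have h9 : (((((Ioc 0 K).filter (fun k => k ≡ v [MOD M])).card : ℕ) : ℤ) : ℚ) ≤
      (K : ℚ) / M + 1 := le_trans (by exact_mod_cast h3) h8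
  have h10 : (((((Ioc 0 K).filter (fun k => k ≡ v [MOD M])).card : ℚ)) : ℝ) ≤
      (((K : ℚ) / M + 1 : ℚ) : ℝ) := by exact_mod_cast h9
  push_cast at h10 ⊢
  exact h10

theorem card_Kk (T : ℕ) (hT : 2 ≤ T) : ∃ K₀ : ℕ, ∀ K : ℕ, K₀ ≤ K →
    (K : ℝ) / (8 * Pw T) ≤ ((Kk T K).card : ℝ) := by
  set Q := Pw T with hQ
  have hQ0 : 0 < Q := Pw_pos T
  have hQ1 : (1 : ℝ) ≤ Q := by exact_mod_cast hQ0
  refine ⟨(32 * Q) ^ 2, fun K hK => ?_⟩
  have hK1 : 1 ≤ K := le_trans (Nat.one_le_iff_ne_zero.2 (by positivity)) hK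
  have hsub : (Icc 1 K).filter (fun k => k ≡ 1 [MOD Q]) ⊆ Kk T K ∪
      (Icc 3 (Nat.sqrt K)).biUnion fun j => (Icc 1 K).filter
        (fun k => k ≡ 1 [MOD Q] ∧ j.Coprime Q ∧ j ^ 2 ∣ k) := by
    intro k hk
    rw [mem_filter, mem_Icc] at hk
    by_cases h1 : Squarefree k
    · exact mem_union_left _ (mem_filter.2 ⟨mem_Icc.2 hk.1, h1, hk.2⟩)
    · rw [Nat.squarefree_iff_prime_squarefree] at h1
      push Not at h1
      obtain ⟨p, hp, h2⟩ := h1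
      have h3 : ¬ p ∣ Q := by
        intro h4
        have h5 : p ∣ k := (Dvd.intro _ rfl : p ∣ p * p).trans h2
        have h6 : k ≡ 1 [MOD p] := hk.2.of_dvd h4
        have h7 : (1 : ℕ) ≡ 0 [MOD p] := h6.symm.trans ((Nat.modEq_zero_iff_dvd).2 h5)
        exact hp.one_lt.ne' (Nat.dvd_one.1 ((Nat.modEq_zero_iff_dvd).1 h7))
      have h4 : ¬ p ≤ T := fun h => h3 ((dvd_Pw hp).2 h)
      have h5 : p * p ≤ K := (Nat.le_of_dvd hk.1.1 h2).trans hk.1.2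
      refine mem_union_right _ (mem_biUnion.2 ⟨p, mem_Icc.2 ⟨by omega, Nat.le_sqrt.2 h5⟩,
        mem_filter.2 ⟨mem_Icc.2 hk.1, hk.2, (Nat.Prime.coprime_iff_not_dvd hp).2 h3, ?_⟩⟩)
      rw [sq]
      exact h2
  have h1 := card_le_card hsub
  have h2 := (h1.trans (card_union_le _ _)).trans (Nat.add_le_add_left card_biUnion_le _)
  have h3 : ∀ j ∈ Icc 3 (Nat.sqrt K), (((Icc 1 K).filter
      (fun k => k ≡ 1 [MOD Q] ∧ j.Coprime Q ∧ j ^ 2 ∣ k)).card : ℝ) ≤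
      (K : ℝ) / Q * (1 / (j : ℝ) ^ 2) + 1 := by
    intro j hj
    rw [mem_Icc] at hj
    have hj0 : 0 < j := by omega
    by_cases h4 : j.Coprime Q
    · have h5 : Q.Coprime (j ^ 2) := (Nat.Coprime.pow_left 2 h4).symm
      obtain ⟨c, hc⟩ := Nat.chineseRemainder h5 1 0
      have h6 : (Icc 1 K).filter (fun k => k ≡ 1 [MOD Q] ∧ j.Coprime Q ∧ j ^ 2 ∣ k) ⊆
          (Icc 1 K).filter (fun k => k ≡ c [MOD Q * j ^ 2]) := by
        intro k hk
        rw [mem_filter] at hk ⊢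
        refine ⟨hk.1, (Nat.modEq_and_modEq_iff_modEq_mul h5).1
          ⟨hk.2.1.trans hc.1.symm, ?_⟩⟩
        exact ((Nat.modEq_zero_iff_dvd).2 hk.2.2.2).trans hc.2.symm
      have h7 : (((Icc 1 K).filter
          (fun k => k ≡ 1 [MOD Q] ∧ j.Coprime Q ∧ j ^ 2 ∣ k)).card : ℝ) ≤
          (((Icc 1 K).filter (fun k => k ≡ c [MOD Q * j ^ 2])).card : ℝ) := by
        exact_mod_cast card_le_card h6
      refine h7.trans ((card_modEq_le K (Q * j ^ 2) c (by positivity)).trans (le_of_eq ?_))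
      push_cast
      rw [div_mul_eq_div_div, mul_one_div]
    · have h5 : (Icc 1 K).filter (fun k => k ≡ 1 [MOD Q] ∧ j.Coprime Q ∧ j ^ 2 ∣ k) = ∅ := by
        apply filter_eq_empty_iff.2
        intro k _ h6
        exact h4 h6.2.1
      rw [h5]
      simp only [card_empty, Nat.cast_zero]
      positivity
  have h4 : ((∑ j ∈ Icc 3 (Nat.sqrt K), ((Icc 1 K).filter
      (fun k => k ≡ 1 [MOD Q] ∧ j.Coprime Q ∧ j ^ 2 ∣ k)).card : ℕ) : ℝ) ≤
      (K : ℝ) / Q * (3 / 4) + Real.sqrt K := by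
    rw [Nat.cast_sum]
    refine (sum_le_sum h3).trans ?_
    rw [sum_add_distrib, ← mul_sum]
    have h5 : ∑ j ∈ Icc 3 (Nat.sqrt K), 1 / (j : ℝ) ^ 2 ≤ 3 / 4 := by
      have h6 := sum_inv_sq (Nat.sqrt K)
      rcases le_or_gt (Nat.sqrt K) 2 with h7 | h7
      · rw [Icc_eq_empty (by omega), sum_empty]
        norm_num
      · have h8 : Icc 1 (Nat.sqrt K) = {1, 2} ∪ Icc 3 (Nat.sqrt K) := by
          ext j
          simp only [mem_Icc, mem_union, mem_insert, mem_singleton]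
          omega
        rw [h8, sum_union] at h6
        · norm_num at h6
          norm_num
          linarith
        · rw [disjoint_left]
          intro j hj hj'
          rw [mem_Icc] at hj'
          simp only [mem_insert, mem_singleton] at hj
          omega
    have h6 : (∑ _j ∈ Icc 3 (Nat.sqrt K), (1 : ℝ)) ≤ Real.sqrt K := by
      rw [sum_const, nsmul_eq_mul, mul_one]
      have h7 : (Icc 3 (Nat.sqrt K)).card ≤ Nat.sqrt K := by
        rw [Nat.card_Icc]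
        omega
      have h8 : ((Icc 3 (Nat.sqrt K)).card : ℝ) ≤ Nat.sqrt K := by exact_mod_cast h7
      exact h8.trans (Real.nat_sqrt_le_real_sqrt)
    have h7 : (0 : ℝ) ≤ (K : ℝ) / Q := by positivity
    have h8 := mul_le_mul_of_nonneg_left h5 h7
    linarith
  have h5 : (((Icc 1 K).filter (fun k => k ≡ 1 [MOD Q])).card : ℝ) ≤ ((Kk T K).card : ℝ) +
      ((K : ℝ) / Q * (3 / 4) + Real.sqrt K) := by
    refine le_trans ?_ (add_le_add_right h4 _)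
    exact_mod_cast h2
  have h6 := card_modEq_ge K Q 1 hQ0
  have h7 : Real.sqrt K + 1 ≤ K / (8 * Q) := by
    have h8 : (32 * Q : ℝ) ≤ Real.sqrt K := by
      apply Real.le_sqrt_of_sq_le
      exact_mod_cast hK
    have h9 : Real.sqrt K * Real.sqrt K = K := Real.mul_self_sqrt (by positivity)
    rw [le_div_iff₀ (by positivity)]
    nlinarith
  have h8 : (K : ℝ) / (8 * Q) = K / Q * (1 / 8) := by
    field_simp
  rw [h8] at h7 ⊢
  linarith

end Pool.Agent.H912.AE
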