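import Mathlib

/-!
# The `w`-th power classes of a local field (helper912)
-/

set_option autoImplicit false

open Metric Set Topology NNReal ENNReal

namespace Pool.Agent.H912.AE.Tm

variable {E : Type} [NontriviallyNormedField E] [IsUltrametricDist E] [ProperSpace E]

omit [ProperSpace E] in
lemma norm_add_lt {a b : E} {r : ℝ} (ha : ‖a‖ < r) (hb : ‖b‖ < r) : ‖a + b‖ < r :=
  (IsUltrametricDist.norm_add_le_max a b).trans_lt (max_lt ha hb)

omit [ProperSpace E] in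
lemma norm_eq_of_sub_lt {a b : E} (h : ‖a - b‖ < ‖b‖) : ‖a‖ = ‖b‖ := by
  refine le_antisymm ?_ ?_
  · have h1 : a = (a - b) + b := by ring
    rw [h1]
    exact (IsUltrametricDist.norm_add_le_max _ _).trans (max_le h.le le_rfl)
  · by_contra h2
    rw [not_le] at h2
    have h1 : b = -(a - b) + a := by ring
    have h3 : ‖b‖ < ‖b‖ := by
      conv_lhs => rw [h1]
      refine norm_add_lt ?_ h2
      rw [norm_neg]
      exact h
    exact lt_irrefl _ h3

omit [ProperSpace E] in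
/-- `c ^ w - d ^ w = (c - d) * s` with `s` near `w` -/
lemma pow_sub_pow {w : ℕ} {c d : E} {r : ℝ} (hr1 : r ≤ 1) (hr : 0 ≤ r) (hc : ‖c - 1‖ ≤ r)
    (hd : ‖d - 1‖ ≤ r) :
    ∃ s : E, ‖s - w‖ ≤ r ∧ c ^ w - d ^ w = (c - d) * s := by
  have hle : ∀ (x : E), ‖x - 1‖ ≤ r → ∀ i : ℕ, ‖x ^ i - 1‖ ≤ r := by
    intro x hx i
    have hx1 : ‖x‖ ≤ 1 := by
      have h1 : x = (x - 1) + 1 := by ring
      rw [h1]
      exact (IsUltrametricDist.norm_add_le_max _ _).trans (max_le (hx.trans hr1) norm_one.le)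
    induction i with
    | zero => simpa using hr
    | succ i ih =>
      have h1 : x ^ (i + 1) - 1 = x ^ i * (x - 1) + (x ^ i - 1) := by ring
      rw [h1]
      refine (IsUltrametricDist.norm_add_le_max _ _).trans (max_le ?_ ih)
      rw [norm_mul, norm_pow]
      calc ‖x‖ ^ i * ‖x - 1‖ ≤ 1 * r := by
            gcongr
            exact pow_le_one₀ (norm_nonneg _) hx1
        _ = r := one_mul r
  refine ⟨∑ i ∈ Finset.range w, c ^ i * d ^ (w - 1 - i), ?_, ?_⟩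
  · have h1 : (∑ i ∈ Finset.range w, c ^ i * d ^ (w - 1 - i)) - (w : E) =
        ∑ i ∈ Finset.range w, (c ^ i * d ^ (w - 1 - i) - 1) := by
      rw [Finset.sum_sub_distrib]
      simp
    rw [h1]
    refine IsUltrametricDist.norm_sum_le_of_forall_le_of_nonneg hr fun i _ => ?_
    have h2 : c ^ i * d ^ (w - 1 - i) - 1 =
        (c ^ i - 1) * (d ^ (w - 1 - i) - 1) + ((c ^ i - 1) + (d ^ (w - 1 - i) - 1)) := by ring
    rw [h2]
    have h3 := hle c hc i
    have h4 := hle d hd (w - 1 - i)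
    refine (IsUltrametricDist.norm_add_le_max _ _).trans (max_le ?_ ?_)
    · rw [norm_mul]
      calc _ ≤ r * r := by gcongr
        _ ≤ r * 1 := by gcongr
        _ = r := mul_one r
    · exact (IsUltrametricDist.norm_add_le_max _ _).trans (max_le h3 h4)
  · rw [mul_comm]
    exact ((Commute.all c d).geom_sum₂_mul w).symm

/-- units near `1` are `w`-th powers -/
theorem exists_root_of_near_one {w : ℕ} (hw : ‖(w : E)‖ = 1) {b : E} (hb : ‖b - 1‖ < 1) :
    ∃ c : E, c ^ w = b := by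
  have hw0 : (w : E) ≠ 0 := by
    intro h
    rw [h, norm_zero] at hw
    exact zero_ne_one hw
  set r : ℝ := ‖b - 1‖ with hr
  have hr0 : 0 ≤ r := norm_nonneg _
  set T : E → E := fun c => c - (c ^ w - b) / w with hT
  have hmaps : MapsTo T (closedBall 1 r) (closedBall 1 r) := by
    intro c hc
    rw [mem_closedBall, dist_eq_norm] at hc ⊢
    obtain ⟨s, hs1, hs2⟩ := pow_sub_pow (w := w) (c := c) (d := 1) hb.le hr0 hc (by simpa using hr0)
    have h1 : T c - 1 = (c - 1) * ((w - s) / w) + (b - 1) / w := by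
      simp only [hT]
      rw [one_pow] at hs2
      have h2 : c ^ w = (c - 1) * s + 1 := by
        rw [← hs2]
        ring
      rw [h2]
      field_simp
      ring
    rw [h1]
    refine (IsUltrametricDist.norm_add_le_max _ _).trans (max_le ?_ ?_)
    · rw [norm_mul, norm_div, hw, div_one, norm_sub_rev (w : E) s]
      calc ‖c - 1‖ * ‖s - w‖ ≤ r * 1 := by
            gcongr
            exact hs1.trans hb.le
        _ = r := mul_one r
    · rw [norm_div, hw, div_one]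
  have hcontr : ContractingWith ⟨r, hr0⟩ (hmaps.restrict T (closedBall 1 r) (closedBall 1 r)) := by
    refine ⟨by exact_mod_cast hb, LipschitzWith.of_dist_le_mul fun x y => ?_⟩
    obtain ⟨c, hc⟩ := x
    obtain ⟨d, hd⟩ := y
    rw [mem_closedBall, dist_eq_norm] at hc hd
    obtain ⟨s, hs1, hs2⟩ := pow_sub_pow (w := w) (c := c) (d := d) hb.le hr0 hc hd
    change dist (T c) (T d) ≤ r * dist c d
    rw [dist_eq_norm, dist_eq_norm]
    have h1 : T c - T d = (c - d) * ((w - s) / w) := by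
      simp only [hT]
      have h2 : c ^ w = d ^ w + (c - d) * s := by
        rw [← hs2]
        ring
      rw [h2]
      field_simp
      ring
    rw [h1, norm_mul, norm_div, hw, div_one, norm_sub_rev (w : E) s, mul_comm]
    gcongr
  obtain ⟨y, -, hy, -⟩ := ContractingWith.exists_fixedPoint' (isClosed_closedBall.isComplete)
    hmaps hcontr (x := 1) (mem_closedBall_self hr0) (edist_ne_top _ _)
  refine ⟨y, ?_⟩
  have h1 : T y = y := hy
  have h2 : (y ^ w - b) / w = 0 := sub_eq_self.1 h1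
  rcases div_eq_zero_iff.1 h2 with h3 | h3
  · exact sub_eq_zero.1 h3
  · exact absurd h3 hw0

omit [IsUltrametricDist E] in
/-- a uniformizer -/
theorem exists_unif [IsUltrametricDist E] : ∃ π : E, π ≠ 0 ∧ ∀ a : E, a ≠ 0 →
    ∃ i : ℤ, ‖a‖ = ‖π‖ ^ i := by
  obtain ⟨q, hq0, hq1⟩ := NormedField.exists_norm_lt_one E
  have hq0' : (0 : ℝ) < ‖q‖ := hq0
  have hcomp : IsCompact (ball (0 : E) 1 ∩ {x | ‖q‖ ≤ ‖x‖}) := by
    refine (isCompact_closedBall (0 : E) 1).of_isClosed_subset ?_ ?_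
    · exact (IsUltrametricDist.isClosed_ball 0 1).inter (isClosed_le continuous_const continuous_norm)
    · exact fun x hx => ball_subset_closedBall hx.1
  have hne : (ball (0 : E) 1 ∩ {x | ‖q‖ ≤ ‖x‖}).Nonempty :=
    ⟨q, by simpa using hq1, show ‖q‖ ≤ ‖q‖ from le_refl _⟩
  obtain ⟨π, ⟨hπ1, hπ2⟩, hπ⟩ := hcomp.exists_isMaxOn hne continuous_norm.continuousOn
  rw [mem_ball_zero_iff] at hπ1
  have hπ2' : ‖q‖ ≤ ‖π‖ := hπ2
  have hπ0 : 0 < ‖π‖ := hq0'.trans_le hπ2'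
  have hmax : ∀ x : E, ‖x‖ < 1 → ‖x‖ ≤ ‖π‖ := by
    intro x hx
    by_cases h : ‖q‖ ≤ ‖x‖
    · exact hπ ⟨by simpa using hx, h⟩
    · rw [not_le] at h
      exact h.le.trans hπ2'
  refine ⟨π, norm_pos_iff.1 hπ0, fun a ha => ?_⟩
  have ha0 : 0 < ‖a‖ := norm_pos_iff.2 ha
  obtain ⟨n, hn1, hn2⟩ := exists_mem_Ioc_zpow ha0 (one_lt_inv₀ hπ0 |>.2 hπ1)
  refine ⟨-(n + 1), ?_⟩
  have h1 : ‖a * π ^ (n + 1)‖ ≤ 1 := by
    rw [norm_mul, norm_zpow]
    rw [inv_zpow] at hn2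
    have h2 : 0 < ‖π‖ ^ (n + 1) := zpow_pos hπ0 _
    calc ‖a‖ * ‖π‖ ^ (n + 1) ≤ (‖π‖ ^ (n + 1))⁻¹ * ‖π‖ ^ (n + 1) := by gcongr
      _ = 1 := inv_mul_cancel₀ h2.ne'
  have h2 : ‖π‖ < ‖a * π ^ (n + 1)‖ := by
    rw [norm_mul, norm_zpow]
    rw [inv_zpow] at hn1
    have h2 : 0 < ‖π‖ ^ n := zpow_pos hπ0 _
    have h3 : ‖π‖ = (‖π‖ ^ n)⁻¹ * ‖π‖ ^ (n + 1) := by
      rw [zpow_add_one₀ hπ0.ne', ← mul_assoc, inv_mul_cancel₀ h2.ne', one_mul]
    calc ‖π‖ = (‖π‖ ^ n)⁻¹ * ‖π‖ ^ (n + 1) := h3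
      _ < ‖a‖ * ‖π‖ ^ (n + 1) := by
        have h4 : 0 < ‖π‖ ^ (n + 1) := zpow_pos hπ0 _
        gcongr
  have h3 : ‖a * π ^ (n + 1)‖ = 1 := by
    by_contra h
    exact absurd (hmax _ (lt_of_le_of_ne h1 h)) (not_le.2 h2)
  rw [norm_mul, norm_zpow] at h3
  rw [zpow_neg]
  exact eq_inv_of_mul_eq_one_left h3

/-- the ring of integers -/
def OO (E : Type) [NontriviallyNormedField E] [IsUltrametricDist E] : Subring E where
  carrier := {x | ‖x‖ ≤ 1}
  mul_mem' := fun {a b} ha hb => by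
    change ‖a * b‖ ≤ 1
    rw [norm_mul]
    exact mul_le_one₀ ha (norm_nonneg _) hb
  one_mem' := by
    change ‖(1 : E)‖ ≤ 1
    exact norm_one.le
  add_mem' := fun {a b} ha hb => (IsUltrametricDist.norm_add_le_max a b).trans (max_le ha hb)
  zero_mem' := by
    change ‖(0 : E)‖ ≤ 1
    rw [norm_zero]
    exact zero_le_one
  neg_mem' := fun {a} ha => by
    change ‖-a‖ ≤ 1
    rw [norm_neg]
    exact ha

/-- the maximal ideal -/
def MM (E : Type) [NontriviallyNormedField E] [IsUltrametricDist E] : Ideal (OO E) where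
  carrier := {x | ‖(x : E)‖ < 1}
  add_mem' := fun {a b} ha hb => norm_add_lt ha hb
  zero_mem' := by
    change ‖((0 : OO E) : E)‖ < 1
    simp
  smul_mem' := fun c x hx => by
    change ‖((c * x : OO E) : E)‖ < 1
    have h1 : ‖(c : E)‖ ≤ 1 := c.2
    have h2 : ‖(x : E)‖ < 1 := hx
    rw [Subring.coe_mul, norm_mul]
    calc ‖(c : E)‖ * ‖(x : E)‖ ≤ 1 * ‖(x : E)‖ := by gcongr
      _ < 1 := by rw [one_mul]; exact h2

omit [ProperSpace E] in
lemma MM_max : (MM E).IsMaximal := by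
  rw [Ideal.isMaximal_iff]
  refine ⟨?_, fun J x _ hx hxJ => ?_⟩
  · intro h
    have h1 : ‖((1 : OO E) : E)‖ < 1 := h
    simp at h1
  · have h1 : ¬ ‖(x : E)‖ < 1 := hx
    have h2 : ‖(x : E)‖ ≤ 1 := x.2
    have h3 : ‖(x : E)‖ = 1 := le_antisymm h2 (not_lt.1 h1)
    have h4 : (x : E) ≠ 0 := by
      intro h
      rw [h, norm_zero] at h3
      exact zero_ne_one h3
    have h5 : ((x : E)⁻¹) ∈ OO E := by
      change ‖((x : E)⁻¹)‖ ≤ 1
      rw [norm_inv, h3, inv_one]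
    have h6 : (⟨(x : E)⁻¹, h5⟩ : OO E) * x = 1 := Subtype.ext (inv_mul_cancel₀ h4)
    rw [← h6]
    exact J.mul_mem_left _ hxJ

/-- the unit group of the residue field is cyclic -/
theorem exists_gen : ∃ g : E, ‖g‖ = 1 ∧ ∀ u : E, ‖u‖ = 1 → ∃ j : ℕ, ‖u - g ^ j‖ < 1 := by
  classical
  have hmax : (MM E).IsMaximal := MM_max
  let _ : Field (OO E ⧸ MM E) := Ideal.Quotient.field (MM E)
  -- the residue field is finite
  have hfin : Finite (OO E ⧸ MM E) := by
    obtain ⟨t, -, ht⟩ := (isCompact_closedBall (0 : E) 1).elim_nhds_subcover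
      (fun x => ball x 1) (fun x _ => ball_mem_nhds x one_pos)
    let f : t → (OO E ⧸ MM E) := fun x =>
      if h : ∃ y : OO E, (y : E) ∈ ball (x : E) 1 then Ideal.Quotient.mk _ h.choose else 0
    refine Finite.of_surjective f fun k => ?_
    obtain ⟨y, rfl⟩ := Ideal.Quotient.mk_surjective k
    have hy : (y : E) ∈ closedBall (0 : E) 1 := by
      rw [mem_closedBall_zero_iff]
      exact y.2
    obtain ⟨x, hx, hxy⟩ := mem_iUnion₂.1 (ht hy)
    refine ⟨⟨x, hx⟩, ?_⟩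
    have h : ∃ y : OO E, (y : E) ∈ ball (x : E) 1 := ⟨y, hxy⟩
    simp only [f, dif_pos h]
    rw [Ideal.Quotient.eq]
    have h1 := h.choose_spec
    rw [mem_ball, dist_eq_norm] at h1 hxy
    change ‖((h.choose - y : OO E) : E)‖ < 1
    have h2 : ((h.choose - y : OO E) : E) = ((h.choose : OO E) - x : E) + -((y : E) - x) := by
      push_cast
      ring
    rw [h2]
    refine norm_add_lt h1 ?_
    rw [norm_neg]
    exact hxy
  obtain ⟨γ, hγ⟩ := IsCyclic.exists_monoid_generator (α := (OO E ⧸ MM E)ˣ)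
  have hunit : ∀ y : OO E, ‖(y : E)‖ = 1 → Ideal.Quotient.mk (MM E) y ≠ 0 := by
    intro y hy h
    rw [Ideal.Quotient.eq_zero_iff_mem] at h
    have h1 : ‖(y : E)‖ < 1 := h
    rw [hy] at h1
    exact lt_irrefl _ h1
  obtain ⟨g, hg⟩ := Ideal.Quotient.mk_surjective (γ : OO E ⧸ MM E)
  refine ⟨(g : E), ?_, fun u hu => ?_⟩
  · by_contra h
    have h1 : ‖(g : E)‖ < 1 := lt_of_le_of_ne g.2 h
    have h2 : Ideal.Quotient.mk (MM E) g = 0 := Ideal.Quotient.eq_zero_iff_mem.2 h1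
    rw [hg] at h2
    exact γ.ne_zero h2
  · have hu' : u ∈ OO E := hu.le
    have h1 := hunit ⟨u, hu'⟩ hu
    obtain ⟨j, hj⟩ := Submonoid.mem_powers_iff _ _ |>.1 (hγ (Units.mk0 _ h1))
    refine ⟨j, ?_⟩
    have h2 : Ideal.Quotient.mk (MM E) (⟨u, hu'⟩ - g ^ j) = 0 := by
      rw [map_sub, map_pow, hg, ← Units.val_pow_eq_pow_val, hj, Units.val_mk0, sub_self]
    rw [Ideal.Quotient.eq_zero_iff_mem] at h2
    exact h2

/-- the group of `w`-th power classes is generated by two elements -/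
theorem classes {w : ℕ} (hw : ‖(w : E)‖ = 1) : ∃ π g : E, π ≠ 0 ∧ g ≠ 0 ∧ ∀ a : E, a ≠ 0 →
    ∃ (i : ℤ) (j : ℕ) (c : E), a = π ^ i * g ^ j * c ^ w := by
  obtain ⟨π, hπ0, hπ⟩ := exists_unif (E := E)
  obtain ⟨g, hg1, hg⟩ := exists_gen (E := E)
  have hg0 : g ≠ 0 := by
    intro h
    rw [h, norm_zero] at hg1
    exact zero_ne_one hg1
  refine ⟨π, g, hπ0, hg0, fun a ha => ?_⟩
  obtain ⟨i, hi⟩ := hπ a ha
  have h1 : ‖a * π ^ (-i)‖ = 1 := by
    rw [norm_mul, norm_zpow, hi, zpow_neg, mul_inv_cancel₀]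
    exact (zpow_pos (norm_pos_iff.2 hπ0) _).ne'
  obtain ⟨j, hj⟩ := hg _ h1
  have h2 : ‖a * π ^ (-i) / g ^ j - 1‖ < 1 := by
    have h3 : a * π ^ (-i) / g ^ j - 1 = (a * π ^ (-i) - g ^ j) / g ^ j := by
      have h4 : g ^ j ≠ 0 := pow_ne_zero _ hg0
      field_simp
    rw [h3, norm_div, norm_pow, hg1, one_pow, div_one]
    exact hj
  obtain ⟨c, hc⟩ := exists_root_of_near_one hw h2
  refine ⟨i, j, c, ?_⟩
  rw [hc, zpow_neg]
  have h3 : π ^ i ≠ 0 := zpow_ne_zero _ hπ0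
  field_simp

end Pool.Agent.H912.AE.Tm
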