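import Mathlib

/-!
# Short vanishing sums of roots of unity (helper912)
-/

set_option autoImplicit false

open Finset Polynomial

namespace Pool.Agent.H912.AE

lemma sum_roots (n : ℕ) (hn : 0 < n) :
    ∑ d ∈ n.divisors, ∑ x ∈ primitiveRoots d ℂ, x = if n = 1 then 1 else 0 := by
  classical
  rw [← sum_biUnion, ← IsPrimitiveRoot.nthRoots_one_eq_biUnion_primitiveRoots]
  · split_ifs with h
    · subst h
      have h1 : nthRootsFinset 1 (1 : ℂ) = {1} := by
        ext x
        rw [mem_nthRootsFinset one_pos, mem_singleton, pow_one]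
      rw [h1, sum_singleton]
    · have h1 : 1 < n := by omega
      have hζ := Complex.isPrimitiveRoot_exp n hn.ne'
      set ζ := Complex.exp (2 * Real.pi * Complex.I / n) with hζdef
      have h2 : ζ * ∑ x ∈ nthRootsFinset n (1 : ℂ), x = ∑ x ∈ nthRootsFinset n (1 : ℂ), x := by
        rw [mul_sum]
        have hζ0 : ζ ≠ 0 := hζ.ne_zero hn.ne'
        refine sum_nbij' (fun x => ζ * x) (fun x => ζ⁻¹ * x) ?_ ?_ ?_ ?_ ?_
        · intro x hx
          rw [mem_nthRootsFinset hn] at hx ⊢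
          rw [mul_pow, hζ.pow_eq_one, hx, one_mul]
        · intro x hx
          rw [mem_nthRootsFinset hn] at hx ⊢
          rw [mul_pow, inv_pow, hζ.pow_eq_one, hx, inv_one, one_mul]
        · intro x _
          field_simp
        · intro x _
          field_simp
        · intro x _
          rfl
      have h3 : (ζ - 1) * ∑ x ∈ nthRootsFinset n (1 : ℂ), x = 0 := by
        rw [sub_mul, one_mul, h2, sub_self]
      rcases mul_eq_zero.1 h3 with h4 | h4
      · exact absurd (sub_eq_zero.1 h4) (hζ.ne_one h1)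
      · exact h4
  · intro a _ b _ hab
    exact IsPrimitiveRoot.disjoint hab

lemma sum_primitiveRoots {n : ℕ} (hn : 0 < n) :
    ∑ x ∈ primitiveRoots n ℂ, x = (ArithmeticFunction.moebius n : ℂ) := by
  have h1 := (ArithmeticFunction.sum_eq_iff_sum_mul_moebius_eq (R := ℂ)
    (f := fun d => ∑ x ∈ primitiveRoots d ℂ, x) (g := fun n => if n = 1 then 1 else 0)).1
    (fun n hn => sum_roots n hn) n hn
  rw [← h1]
  rw [sum_eq_single (n, 1)]
  · simp
  · rintro ⟨a, b⟩ hab hne
    rw [Nat.mem_divisorsAntidiagonal] at hab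
    have : b ≠ 1 := by
      rintro rfl
      apply hne
      ext
      · simpa using hab.1
      · rfl
    simp [this]
  · intro h
    exact absurd (Nat.mem_divisorsAntidiagonal.2 ⟨by ring, hn.ne'⟩) h

lemma sum_primitiveRoots_pow {n j : ℕ} (hn : 0 < n) (hj : j.Coprime n) :
    ∑ x ∈ primitiveRoots n ℂ, x ^ j = ∑ x ∈ primitiveRoots n ℂ, x := by
  have : NeZero n := ⟨hn.ne'⟩
  have h1 := Equiv.sum_comp (IsPrimitiveRoot.primitiveRootsPowEquivOfCoprime (R := ℂ) hj)
    (fun x => (x : ℂ))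
  rw [← sum_coe_sort (primitiveRoots n ℂ) (fun x => x ^ j), ← sum_coe_sort (primitiveRoots n ℂ)
    (fun x => x), ← h1]
  refine sum_congr rfl fun x _ => ?_
  rw [IsPrimitiveRoot.primitiveRootsPowEquivOfCoprime_apply_coe]

lemma exists_shift {ι : Type*} (A : Finset ι) (e : ι → ℕ) (k : ℕ) (hk : 0 < k)
    (hA : ∀ p : ℕ, p.Prime → p ∣ k → A.card < p) : ∃ ρ : ℕ, ∀ α ∈ A, (ρ + e α).Coprime k := by
  classical
  have h1 : ∀ p : ℕ, p ∈ k.primeFactors → ∃ r : ℕ, ∀ α ∈ A, ¬ p ∣ r + e α := by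
    intro p hp
    have hp' := Nat.prime_of_mem_primeFactors hp
    have h2 : (A.image (fun α => (p - e α % p) % p)).card < (range p).card := by
      rw [card_range]
      exact card_image_le.trans_lt (hA p hp' (Nat.dvd_of_mem_primeFactors hp))
    obtain ⟨r, hr, hr'⟩ := exists_mem_notMem_of_card_lt_card h2
    refine ⟨r, fun α hα h => hr' (mem_image.2 ⟨α, hα, ?_⟩)⟩
    rw [mem_range] at hr
    have h3 : e α % p < p := Nat.mod_lt _ hp'.pos
    have h4 : p ∣ r + e α % p := by
      rw [Nat.dvd_iff_mod_eq_zero] at h ⊢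
      rw [Nat.add_mod_mod]
      exact h
    obtain ⟨t, ht⟩ := h4
    have h5 : t = 0 ∨ t = 1 := by
      by_contra hcon
      have : 2 ≤ t := by omega
      have : p * 2 ≤ p * t := Nat.mul_le_mul_left p this
      omega
    rcases h5 with h5 | h5
    · subst h5
      have h6 : r = 0 := by omega
      have h7 : e α % p = 0 := by omega
      rw [h7, h6, Nat.sub_zero, Nat.mod_self]
    · subst h5
      rw [mul_one] at ht
      have h6 : p - e α % p = r := by omega
      rw [h6, Nat.mod_eq_of_lt hr]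
  choose! r hr using h1
  obtain ⟨ρ, hρ⟩ := Nat.chineseRemainderOfFinset r (fun p => p) k.primeFactors
    (fun p hp => (Nat.prime_of_mem_primeFactors hp).ne_zero) (fun p hp q hq hpq =>
      (Nat.coprime_primes (Nat.prime_of_mem_primeFactors hp)
        (Nat.prime_of_mem_primeFactors hq)).2 hpq)
  refine ⟨ρ, fun α hα => Nat.coprime_of_dvd fun p hp hpd hpk => ?_⟩
  have hpm : p ∈ k.primeFactors := Nat.mem_primeFactors.2 ⟨hp, hpk, hk.ne'⟩
  have h2 := hρ p hpm
  apply hr p hpm α hα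
  have h3 : ρ + e α ≡ r p + e α [MOD p] := h2.add_right _
  rw [Nat.dvd_iff_mod_eq_zero] at hpd ⊢
  rw [← h3]
  exact hpd

/-- a vanishing integral combination of few powers of a root of unity of squarefree order, all
of whose prime factors are large, has coefficients adding up to zero -/
theorem short_sum {ι : Type*} {k : ℕ} (hk : Squarefree k) (ω : ℂ) (hω : IsPrimitiveRoot ω k)
    (A : Finset ι) (b : ι → ℤ) (e : ι → ℕ) (hA : ∀ p : ℕ, p.Prime → p ∣ k → A.card < p)
    (h : ∑ α ∈ A, (b α : ℂ) * ω ^ (e α) = 0) : ∑ α ∈ A, b α = 0 := by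
  classical
  have hk0 : 0 < k := Nat.pos_of_ne_zero hk.ne_zero
  obtain ⟨ρ, hρ⟩ := exists_shift A e k hk0 hA
  set P : ℤ[X] := ∑ α ∈ A, C (b α) * X ^ (e α) with hP
  have hev : ∀ z : ℂ, aeval z P = ∑ α ∈ A, (b α : ℂ) * z ^ (e α) := by
    intro z
    rw [hP, map_sum]
    refine sum_congr rfl fun α _ => ?_
    rw [map_mul, map_pow, aeval_X, aeval_C]
    rfl
  have h1 : cyclotomic k ℤ ∣ P := by
    rw [cyclotomic_eq_minpoly hω hk0]
    exact minpoly.isIntegrallyClosed_dvd (hω.isIntegral hk0) (by rw [hev, h])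
  have h2 : ∀ η ∈ primitiveRoots k ℂ, ∑ α ∈ A, (b α : ℂ) * η ^ (e α) = 0 := by
    intro η hη
    rw [mem_primitiveRoots hk0] at hη
    obtain ⟨Q, hQ⟩ := h1
    rw [← hev, hQ, map_mul]
    have h3 : aeval η (cyclotomic k ℤ) = 0 := by
      rw [aeval_def, eval₂_eq_eval_map, map_cyclotomic]
      exact hη.isRoot_cyclotomic hk0
    rw [h3, zero_mul]
  have h3 : ∑ η ∈ primitiveRoots k ℂ, η ^ ρ * ∑ α ∈ A, (b α : ℂ) * η ^ (e α) = 0 :=
    sum_eq_zero fun η hη => by rw [h2 η hη, mul_zero]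
  have h4 : ∑ η ∈ primitiveRoots k ℂ, η ^ ρ * ∑ α ∈ A, (b α : ℂ) * η ^ (e α) =
      (∑ α ∈ A, (b α : ℂ)) * ∑ η ∈ primitiveRoots k ℂ, η := by
    simp_rw [mul_sum]
    rw [sum_comm]
    rw [← mul_sum, sum_mul]
    refine sum_congr rfl fun α hα => ?_
    rw [← sum_primitiveRoots_pow hk0 (hρ α hα), mul_sum]
    refine sum_congr rfl fun η _ => ?_
    rw [pow_add]
    ring
  rw [h4, sum_primitiveRoots hk0] at h3
  rcases mul_eq_zero.1 h3 with h5 | h5
  · exact_mod_cast h5
  · exfalso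
    have : ArithmeticFunction.moebius k = 0 := by exact_mod_cast h5
    exact ArithmeticFunction.moebius_ne_zero_iff_squarefree.2 hk this

end Pool.Agent.H912.AE
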