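import Pool.Agent.H912.AE.Tame
import Pool.Agent.H912.AE.Kum
import Pool.Agent.H912.AE.CycK

/-!
# Towers of Kummer extensions of `ℚ_q` (helper912)
-/

set_option autoImplicit false

open Polynomial Module

namespace Pool.Agent.H912.AE.Tm

theorem step {q w : ℕ} [hq : Fact q.Prime] (hw : 0 < w) (hwq : w ∣ q - 1)
    (M : IntermediateField ℚ_[q] (AlgebraicClosure ℚ_[q])) [FiniteDimensional ℚ_[q] M] :
    ∃ M' : IntermediateField ℚ_[q] (AlgebraicClosure ℚ_[q]), FiniteDimensional ℚ_[q] M' ∧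
      finrank ℚ_[q] M' ∣ finrank ℚ_[q] M * w ^ 2 ∧
      ∀ α : AlgebraicClosure ℚ_[q], α ^ w ∈ M → α ∈ M' := by
  have : NeZero w := ⟨hw.ne'⟩
  have hult : IsUltrametricDist M := by
    apply IsUltrametricDist.isUltrametricDist_of_forall_norm_add_le_max_norm
    intro x y
    exact PadicAlgCl.isNonarchimedean q (x : PadicAlgCl q) y
  have hprop : ProperSpace M := FiniteDimensional.proper ℚ_[q] M
  have hqw : ¬ q ∣ w := by
    intro h
    have h1 := Nat.le_of_dvd hw h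
    have h2 := Nat.le_of_dvd (Nat.sub_pos_of_lt hq.out.one_lt) hwq
    have := hq.out.pos
    omega
  have hwn : ‖(w : M)‖ = 1 := by
    have h1 : ‖(w : M)‖ = ‖((w : ℚ_[q]) : PadicAlgCl q)‖ := by
      change ‖((w : M) : PadicAlgCl q)‖ = _
      simp
    rw [h1, PadicAlgCl.norm_extends]
    exact Padic.norm_natCast_eq_one_iff.2 ((Nat.Prime.coprime_iff_not_dvd hq.out).2 hqw)
  obtain ⟨π, g, hπ, hg, hcl⟩ := classes (E := M) hwn
  obtain ⟨z, hz⟩ := exists_padic_root (q := q) hw hwq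
  have hζ : IsPrimitiveRoot (algebraMap ℚ_[q] M z) w :=
    hz.map_of_injective (algebraMap ℚ_[q] M).injective
  obtain ⟨A, hA⟩ := IsAlgClosed.exists_pow_nat_eq (algebraMap M (AlgebraicClosure ℚ_[q]) π) hw
  obtain ⟨B, hB⟩ := IsAlgClosed.exists_pow_nat_eq (algebraMap M (AlgebraicClosure ℚ_[q]) g) hw
  obtain ⟨hfin, hdvd⟩ := kummer hw hζ hπ hg hA hB
  set N := IntermediateField.adjoin M {A, B} with hN
  have hAN : A ∈ N := IntermediateField.subset_adjoin _ _ (by simp)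
  have hBN : B ∈ N := IntermediateField.subset_adjoin _ _ (by simp)
  refine ⟨N.restrictScalars ℚ_[q], ?_, ?_, ?_⟩
  · exact FiniteDimensional.trans ℚ_[q] M N
  · have h1 : finrank ℚ_[q] (N.restrictScalars ℚ_[q]) = finrank ℚ_[q] M * finrank M N :=
      (Module.finrank_mul_finrank ℚ_[q] M N).symm
    rw [h1]
    exact Nat.mul_dvd_mul_left _ hdvd
  · intro α hα
    rw [IntermediateField.mem_restrictScalars]
    by_cases h0 : α = 0
    · rw [h0]
      exact N.zero_mem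
    · obtain ⟨i, j, c, hc⟩ := hcl ⟨α ^ w, hα⟩ (by
        intro h
        exact pow_ne_zero w h0 (congrArg Subtype.val h))
      have h1 : α ^ w = (A ^ i * B ^ j * algebraMap M (AlgebraicClosure ℚ_[q]) c) ^ w := by
        have h2 := congrArg (algebraMap M (AlgebraicClosure ℚ_[q])) hc
        rw [map_mul, map_mul, map_pow, map_pow, map_zpow₀, ← hA, ← hB] at h2
        have h3 : algebraMap M (AlgebraicClosure ℚ_[q]) ⟨α ^ w, hα⟩ = α ^ w := rfl
        rw [h3] at h2
        rw [h2, mul_pow, mul_pow]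
        congr 2
        · rw [← zpow_natCast, ← zpow_natCast, ← zpow_mul, ← zpow_mul, mul_comm]
        · rw [← pow_mul, ← pow_mul, mul_comm]
      set β := A ^ i * B ^ j * algebraMap M (AlgebraicClosure ℚ_[q]) c with hβ
      have hβ0 : β ≠ 0 := by
        intro h
        rw [h, zero_pow hw.ne'] at h1
        exact pow_ne_zero w h0 h1
      have hβN : β ∈ N := N.mul_mem (N.mul_mem (zpow_mem hAN i) (pow_mem hBN j))
        (N.algebraMap_mem c)
      obtain ⟨u, hu⟩ := root_mem (Ω := AlgebraicClosure ℚ_[q]) hw hζ (z := α / β) (by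
        rw [div_pow, h1, div_self (pow_ne_zero w hβ0)])
      have h2 : α = algebraMap M (AlgebraicClosure ℚ_[q]) u * β := by
        rw [hu, div_mul_cancel₀ _ hβ0]
      rw [h2]
      exact N.mul_mem (N.algebraMap_mem u) hβN

/-- The tower of Kummer extensions. -/
theorem tower {q w : ℕ} [hq : Fact q.Prime] (hw : 0 < w) (hwq : w ∣ q - 1) :
    ∃ T : ℕ → IntermediateField ℚ_[q] (AlgebraicClosure ℚ_[q]), ∀ s,
      FiniteDimensional ℚ_[q] (T s) ∧ finrank ℚ_[q] (T s) ∣ w ^ (2 * s) ∧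
      ∀ α : AlgebraicClosure ℚ_[q], α ^ w ∈ T s → α ∈ T (s + 1) := by
  classical
  let X := {M : IntermediateField ℚ_[q] (AlgebraicClosure ℚ_[q]) // FiniteDimensional ℚ_[q] M}
  have hstep : ∀ M : X, ∃ M' : X, finrank ℚ_[q] M'.1 ∣ finrank ℚ_[q] M.1 * w ^ 2 ∧
      ∀ α : AlgebraicClosure ℚ_[q], α ^ w ∈ M.1 → α ∈ M'.1 := by
    rintro ⟨M, hM⟩
    obtain ⟨M', h1, h2, h3⟩ := step hw hwq M
    exact ⟨⟨M', h1⟩, h2, h3⟩
  choose f hf1 hf2 using hstep
  let T : ℕ → X := fun s => Nat.rec ⟨⊥, inferInstance⟩ (fun _ M => f M) s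
  refine ⟨fun s => (T s).1, fun s => ⟨(T s).2, ?_, fun α hα => hf2 (T s) α hα⟩⟩
  induction s with
  | zero =>
    change finrank ℚ_[q] (⊥ : IntermediateField ℚ_[q] (AlgebraicClosure ℚ_[q])) ∣ _
    rw [IntermediateField.finrank_bot]
    exact one_dvd _
  | succ s ih =>
    have h2 : w ^ (2 * (s + 1)) = w ^ (2 * s) * w ^ 2 := by rw [← pow_add]; rfl
    change finrank ℚ_[q] (f (T s)).1 ∣ _
    rw [h2]
    exact (hf1 (T s)).trans (Nat.mul_dvd_mul_right ih _)

end Pool.Agent.H912.AE.Tm
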