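import Pool.Agent.H912.AE.Tws3
import Pool.Agent.H912.AE.Kh

/-!
# Twists: points over the maximal extension of exponent `f` (helper912)
-/

set_option autoImplicit false

open Finset Filter Topology

namespace Pool.Agent.H912.AE

open Classical in
theorem twistsAbs {n D d : ℕ} (hD1 : 1 ≤ D) (T : ℕ → Fin (n + 1) → MvPolynomial (Fin (n + 1)) ℤ)
    (hT : ∀ e ∈ Icc 1 D, ∀ i, ∃ d' ≤ d, (T e i).IsHomogeneous d')
    (hT1 : ∀ e ∈ Icc 1 D, ∀ i, MvPolynomial.eval (Pi.single i 1) (T e i) ≠ 0)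
    (P : ℕ → (Fin (n + 1) → ℤ) → Prop) (D₀ : ℕ)
    (hPt : ∀ (q : ℕ) [Fact q.Prime], D₀ < q → ∀ m c, P m c → ∃ y : Fin (n + 1) → ZMod q, y ≠ 0 ∧
      ∀ i, MvPolynomial.aeval (fun j => (c j : ZMod q) ^ D * y j ^ m) (T D i) = 0)
    {ε : ℝ} (hε : 0 < ε) :
    ∃ H₀ N₀ : ℕ, ∀ M : ℕ, N₀ ≤ M → (((range M).filter (fun m =>
      ¬ ∀ (a : Fin (n + 1) → ℤ) (H : Fin (n + 1) → ℕ), (∀ i, H₀ ≤ H i) →
        (((Fintype.piFinset fun i => Ico (a i) (a i + H i)).filter (fun c => P m c)).card : ℝ)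
          ≤ ε * ∏ i, (H i : ℝ))).card : ℝ) ≤ ε * M := by
  -- the constants
  obtain ⟨C₁, hC₁⟩ : ∃ C₁ : ℕ, ∀ e ∈ Icc 1 D, ∀ i,
      (MvPolynomial.eval (Pi.single i 1) (T e i)).natAbs ≤ C₁ := by
    refine ⟨∑ e ∈ Icc 1 D, ∑ i, (MvPolynomial.eval (Pi.single i 1) (T e i)).natAbs,
      fun e he i => ?_⟩
    refine le_trans ?_ (single_le_sum (f := fun e => ∑ i,
      (MvPolynomial.eval (Pi.single i 1) (T e i)).natAbs) (fun _ _ => Nat.zero_le _) he)
    exact single_le_sum (f := fun i => (MvPolynomial.eval (Pi.single i 1) (T e i)).natAbs)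
      (fun _ _ => Nat.zero_le _) (mem_univ i)
  obtain ⟨C₂, hC₂⟩ := exists_nat_ge ((D * (D * d) * 6 ^ (n + 1) : ℝ) / ε)
  obtain ⟨D', N₀, h⟩ := smallPrimes (n + 1) (C₁ + (C₂ + D₀)) hε
  refine ⟨D', N₀, fun M hM => le_trans ?_ (h M hM)⟩
  have hsub : (range M).filter (fun m =>
      ¬ ∀ (a : Fin (n + 1) → ℤ) (H : Fin (n + 1) → ℕ), (∀ i, D' ≤ H i) →
        (((Fintype.piFinset fun i => Ico (a i) (a i + H i)).filter (fun c => P m c)).card : ℝ)
          ≤ ε * ∏ i, (H i : ℝ)) ⊆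
      (range M).filter (fun m => ¬ ∃ q, 0 < q ∧ q ≤ D' ∧ SW (n + 1) (C₁ + (C₂ + D₀)) m q) := by
    intro m hm
    rw [mem_filter] at hm ⊢
    refine ⟨hm.1, ?_⟩
    rintro ⟨q, hq0, hqD, hq, k, hk0, hkq, hk⟩
    refine hm.2 fun a H hH => ?_
    have hk1 : 1 ≤ k ^ (n + 1) := Nat.one_le_pow _ _ hk0
    have hC₁q : C₁ < q := by
      have : C₁ * 1 ≤ (C₁ + (C₂ + D₀)) * k ^ (n + 1) := Nat.mul_le_mul (Nat.le_add_right _ _) hk1
      omega
    have hD₀q : D₀ < q := by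
      have : D₀ * 1 ≤ (C₁ + (C₂ + D₀)) * k ^ (n + 1) := Nat.mul_le_mul (by omega) hk1
      omega
    have hq1 : ∀ e ∈ Icc 1 D, ∀ i,
        ((MvPolynomial.eval (Pi.single i 1) (T e i) : ℤ) : ZMod q) ≠ 0 := by
      intro e he i h0
      rw [ZMod.intCast_zmod_eq_zero_iff_dvd] at h0
      have h1 := Int.natAbs_dvd_natAbs.2 h0
      rw [Int.natAbs_natCast] at h1
      have h2 := Nat.le_of_dvd (Int.natAbs_pos.2 (hT1 e he i)) h1
      have h3 := hC₁ e he i
      omega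
    have hP := card_PB T hk0 hT hq1
    have hsub2 : (Fintype.piFinset fun i => Ico (a i) (a i + H i)).filter
        (fun c => P m c) ⊆ (Fintype.piFinset fun i => Ico (a i) (a i + H i)).filter
        (fun c => (fun i => (c i : ZMod q)) ∈ PB D T q k) := by
      intro c hc
      rw [mem_filter] at hc ⊢
      refine ⟨hc.1, ?_⟩
      obtain ⟨y, hy, hy1⟩ := hPt q hD₀q m c hc.2
      rw [PB, mem_filter]
      refine ⟨mem_univ _, D, mem_Icc.2 ⟨hD1, le_rfl⟩, fun j => y j ^ m, fun h => hy ?_,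
        fun j => hk _, hy1⟩
      funext j
      exact eq_zero_of_pow_eq_zero (congrFun h j)
    have h1 := (card_le_card hsub2).trans (card_box hq0 a H (PB D T q k))
    have h2 : ∀ i, H i / q + 1 ≤ 2 * (H i / q) := by
      intro i
      have h3 : q ≤ H i := hqD.trans (hH i)
      have h4 : 1 ≤ H i / q := (Nat.one_le_div_iff hq0).2 h3
      omega
    have hqr : (0 : ℝ) < q := by exact_mod_cast hq0
    have h3 : ((∏ i, (H i / q + 1) : ℕ) : ℝ) ≤ ∏ i, (2 * ((H i : ℝ) / q)) := by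
      push_cast
      refine prod_le_prod (fun i _ => by positivity) fun i _ => ?_
      have h4 : (((H i / q + 1 : ℕ)) : ℝ) ≤ ((2 * (H i / q) : ℕ) : ℝ) := by exact_mod_cast h2 i
      push_cast at h4
      have h5 : ((H i / q : ℕ) : ℝ) ≤ (H i : ℝ) / q := Nat.cast_div_le
      linarith
    have h4 : ∏ i : Fin (n + 1), (2 * ((H i : ℝ) / q)) =
        2 ^ (n + 1) * (∏ i, (H i : ℝ)) / q ^ (n + 1) := by
      rw [prod_mul_distrib, prod_const, card_univ, Fintype.card_fin, prod_div_distrib,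
        prod_const, card_univ, Fintype.card_fin]
      ring
    have hH0 : (0 : ℝ) ≤ ∏ i, (H i : ℝ) := prod_nonneg fun i _ => by positivity
    have h5 : (((Fintype.piFinset fun i => Ico (a i) (a i + H i)).filter
        (fun c => P m c)).card : ℝ) ≤
        (D * ((3 * k) ^ (n + 1) * (D * d * q ^ n))) *
          (2 ^ (n + 1) * (∏ i, (H i : ℝ)) / q ^ (n + 1)) := by
      rw [← h4]
      have h6 : (((Fintype.piFinset fun i => Ico (a i) (a i + H i)).filter
        (fun c => P m c)).card : ℝ) ≤ ((PB D T q k).card : ℝ) *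
          ((∏ i, (H i / q + 1) : ℕ) : ℝ) := by exact_mod_cast h1
      refine h6.trans ?_
      have h7 : ((PB D T q k).card : ℝ) ≤ (D * ((3 * k) ^ (n + 1) * (D * d * q ^ n))) := by
        exact_mod_cast hP
      exact mul_le_mul h7 h3 (by positivity) (by positivity)
    refine h5.trans ?_
    have h6 : ((D : ℝ) * ((3 * k) ^ (n + 1) * (D * d * q ^ n))) *
          (2 ^ (n + 1) * (∏ i, (H i : ℝ)) / q ^ (n + 1)) =
        ((D * (D * d) * 6 ^ (n + 1)) * k ^ (n + 1) / q) * ∏ i, (H i : ℝ) := by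
      have h7 : (6 : ℝ) ^ (n + 1) = 3 ^ (n + 1) * 2 ^ (n + 1) := by
        rw [← mul_pow]
        norm_num
      rw [h7, mul_pow, pow_succ (q : ℝ) n]
      field_simp
    rw [h6]
    refine mul_le_mul_of_nonneg_right ?_ hH0
    rw [div_le_iff₀ hqr]
    have h7 : (D * (D * d) * 6 ^ (n + 1) : ℝ) ≤ C₂ * ε := by
      rwa [div_le_iff₀ hε] at hC₂
    have h8 : ((C₂ * k ^ (n + 1) : ℕ) : ℝ) ≤ q := by
      have : C₂ * k ^ (n + 1) ≤ (C₁ + (C₂ + D₀)) * k ^ (n + 1) :=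
        Nat.mul_le_mul_right _ (by omega)
      exact_mod_cast this.trans hkq.le
    push_cast at h8
    calc (D * (D * d) * 6 ^ (n + 1) : ℝ) * k ^ (n + 1) ≤ C₂ * ε * k ^ (n + 1) :=
          mul_le_mul_of_nonneg_right h7 (by positivity)
      _ = ε * (C₂ * k ^ (n + 1)) := by ring
      _ ≤ ε * q := mul_le_mul_of_nonneg_left h8 hε.le
  exact_mod_cast card_le_card hsub

instance cyc2 : @IsCyclotomicExtension {2} ℚ ℚ _ _ DivisionRing.toRatAlgebra :=
  @IsCyclotomicExtension.mk {2} ℚ ℚ _ _ DivisionRing.toRatAlgebra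
    (fun {n} hn _ => by
      rw [Set.mem_singleton_iff] at hn
      subst hn
      exact ⟨-1, IsPrimitiveRoot.neg_one 0 (by norm_num)⟩)
    (fun x => by
      have h1 := @Subalgebra.algebraMap_mem ℚ ℚ _ _ DivisionRing.toRatAlgebra
        (@Algebra.adjoin ℚ ℚ _ _ DivisionRing.toRatAlgebra
          {b : ℚ | ∃ n ∈ ({2} : Set ℕ), n ≠ 0 ∧ b ^ n = 1}) x
      have h2 : @algebraMap ℚ ℚ _ _ DivisionRing.toRatAlgebra x = x := by
        exact RingHom.congr_fun (RingHom.ext_rat _ (RingHom.id ℚ)) x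
      rw [h2] at h1
      exact h1)

/-- the reductions of the points over `ℚ[f]` of the twists -/
theorem red_twist {n f : ℕ} (S : Set (MvPolynomial (Fin (n + 1)) ℚ))
    (hom : ∀ F ∈ S, ∃ D, F.IsHomogeneous D) (T : Fin (n + 1) → MvPolynomial (Fin (n + 1)) ℤ)
    (hT : ∀ i, ∀ (L : Type) [Field L] (φ : ℚ →+* L) (z : Fin f → Fin (n + 1) → L),
      (∀ j, ∀ F ∈ S, MvPolynomial.eval₂ φ (z j) F = 0) →
        MvPolynomial.aeval (fun i => ∏ j, z j i) (T i) = 0) :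
    ∃ D₀ : ℕ, ∀ (q : ℕ) [Fact q.Prime], D₀ < q → ∀ (m : ℕ) (c : Fin (n + 1) → ℤ),
      (∃ x : Fin (n + 1) → AlgebraicClosure ℚ, (∀ i, x i ∈ expField ℚ f) ∧ x ≠ 0 ∧
        ∀ F ∈ S, MvPolynomial.eval₂ (algebraMap ℚ (AlgebraicClosure ℚ))
          (fun i => (c i : AlgebraicClosure ℚ) * x i ^ m) F = 0) →
      ∃ y : Fin (n + 1) → ZMod q, y ≠ 0 ∧
        ∀ i, MvPolynomial.aeval (fun j => (c j : ZMod q) ^ f * y j ^ m) (T i) = 0 := by
  classical
  have hζ : IsPrimitiveRoot (-1 : ℚ) 2 := IsPrimitiveRoot.neg_one 0 (by norm_num)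
  obtain ⟨S', hS'⟩ := reduceK (gen_of_cyclotomic hζ) S
  have hren : ∀ (i : Fin (n + 1)) (R : Type) [CommRing R] (a : R) (v : Fin (n + 1) → R),
      MvPolynomial.aeval (Fin.cons a v : Fin (n + 1 + 1) → R) (MvPolynomial.rename Fin.succ (T i))
        = MvPolynomial.aeval v (T i) := by
    intro i R _ a v
    rw [MvPolynomial.aeval_rename]
    rfl
  have hfin := fun i => had_fin hζ S S' hS' f (MvPolynomial.rename Fin.succ (T i))
    (fun L _ _ φ z hz => by
      rw [hren]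
      exact hT i L φ z hz)
  choose Db hDb using hfin
  set H' : Finset (MvPolynomial (Fin (n + 1 + 1)) ℤ) :=
    univ.image fun i => MvPolynomial.rename Fin.succ (T i) with hH'
  refine ⟨2 + ∑ i, Db i, fun q hq hDq m c ⟨x, hxf, hx0, hxS⟩ => ?_⟩
  have hDle : ∀ i, Db i ≤ ∑ i, Db i := fun i =>
    single_le_sum (f := fun i => Db i) (fun _ _ => Nat.zero_le _) (mem_univ i)
  have hwq : 2 ∣ q - 1 := by
    have h1 := hq.out.eq_two_or_odd
    omega
  obtain ⟨L, hfd, hgal, hexp, hxL⟩ := exists_galois x hxf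
  have hLnf : NumberField L := NumberField.of_module_finite ℚ L
  obtain ⟨k, hk, hkq, z, a, hz, ha0, hafr, haS⟩ := reduce_frob hζ S hom S' hS' (m := m) hwq
    (L := L) hexp c (fun i => ⟨x i, hxL i⟩) (by
      intro h
      apply hx0
      funext i
      have h1 := congrArg (Subtype.val) (congrFun h i)
      exact h1) (by
      intro F hF
      apply (algebraMap L (AlgebraicClosure ℚ)).injective
      rw [map_zero, MvPolynomial.hom_eval₂, ← hxS F hF]
      congr 1)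
  obtain ⟨y, hy0, hyH⟩ := frob_norm S' H' (D := ∑ i, Db i) (by omega)
    (fun G hG q k _ _ hq hqp z hz y hy => by
      obtain ⟨i, -, rfl⟩ := mem_image.1 hG
      exact hDb i q k (lt_of_le_of_lt (hDle i) hq) hqp z hz y hy)
    z hz c a hafr haS
  refine ⟨y, fun h => ha0 ?_, fun i => ?_⟩
  · funext i
    exact hy0 i (congrFun h i)
  · have h1 := hyH _ (mem_image_of_mem _ (mem_univ i))
    rw [hren] at h1
    exact h1

end Pool.Agent.H912.AE
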