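import Pool.Agent.H912.AE.Tq

/-!
# Sequences of values of polynomials (helper912)
-/

set_option autoImplicit false

open Finset Filter Topology

namespace Pool.Agent.H912.AE

/-- the linear form of the `r`-th differences -/
noncomputable def dForm (K : Type) [Field K] (n r s : ℕ) (hs : s + r < n + 1) :
    MvPolynomial (Fin (n + 1)) K :=
  ∑ j : Fin (r + 1), MvPolynomial.C ((((-1 : ℤ) ^ (r - (j : ℕ)) * (r.choose j : ℤ) : ℤ) : K)) *
    MvPolynomial.X ⟨s + j, by omega⟩

lemma dForm_hom {K : Type} [Field K] {n r s : ℕ} (hs : s + r < n + 1) :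
    (dForm K n r s hs).IsHomogeneous 1 := by
  refine MvPolynomial.IsHomogeneous.sum _ _ _ fun j _ => ?_
  have h1 := (MvPolynomial.isHomogeneous_C (Fin (n + 1))
    ((((-1 : ℤ) ^ (r - (j : ℕ)) * (r.choose j : ℤ) : ℤ) : K))).mul
    (MvPolynomial.isHomogeneous_X K (⟨s + j, by omega⟩ : Fin (n + 1)))
  rwa [zero_add] at h1

lemma dForm_eval {K L : Type} [Field K] [Field L] (φ : K →+* L) {n r s : ℕ} (hs : s + r < n + 1)
    (v : Fin (n + 1) → L) : MvPolynomial.eval₂ φ v (dForm K n r s hs) =
      ∑ j : Fin (r + 1), (((-1 : ℤ) ^ (r - (j : ℕ)) * (r.choose j : ℤ) : ℤ) : L) *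
        v ⟨s + j, by omega⟩ := by
  unfold dForm
  rw [MvPolynomial.eval₂_sum]
  refine Finset.sum_congr rfl fun j _ => ?_
  rw [MvPolynomial.eval₂_mul, MvPolynomial.eval₂_C, MvPolynomial.eval₂_X, map_intCast]

lemma dForm_poly {L : Type} [Field L] {r : ℕ} {P : Polynomial L} (hP : P.natDegree < r) (s : ℕ) :
    ∑ j : Fin (r + 1), (((-1 : ℤ) ^ (r - (j : ℕ)) * (r.choose j : ℤ) : ℤ) : L) *
      P.eval ((s + (j : ℕ) : ℕ) : L) = 0 := by
  have h2 := congrFun (Polynomial.fwdDiff_iter_eq_zero_of_degree_lt hP) ((s : ℕ) : L)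
  rw [fwdDiff_iter_eq_sum_shift, Pi.zero_apply, Finset.sum_range (n := r + 1)] at h2
  rw [← h2]
  refine Finset.sum_congr rfl fun j _ => ?_
  rw [zsmul_eq_mul]
  congr 2
  rw [nsmul_eq_mul, mul_one]
  push_cast
  ring

/-- solutions of the difference equation are values of polynomials -/
lemma dForm_interp {L : Type} [Field L] [CharZero L] {n r : ℕ} (v : Fin (n + 1) → L)
    (hr : 1 ≤ r)
    (hv : ∀ s, ∀ hs : s + r < n + 1, ∑ j : Fin (r + 1),
      (((-1 : ℤ) ^ (r - (j : ℕ)) * (r.choose j : ℤ) : ℤ) : L) * v ⟨s + j, by omega⟩ = 0) :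
    ∃ P : Polynomial L, P.natDegree < r ∧ ∀ i : Fin (n + 1), v i = P.eval ((i : ℕ) : L) := by
  classical
  let v' : ℕ → L := fun i => if h : i < n + 1 then v ⟨i, h⟩ else 0
  have hv' : ∀ i, ∀ h : i < n + 1, v' i = v ⟨i, h⟩ := fun i h => dif_pos h
  have hinj : Set.InjOn (fun i : ℕ => (i : L)) (range r : Set ℕ) :=
    (Nat.cast_injective (R := L)).injOn
  let P : Polynomial L := Lagrange.interpolate (range r) (fun i : ℕ => (i : L)) v'
  have hPd : P.natDegree < r := by
    have h1 := Lagrange.degree_interpolate_lt v' hinj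
    rw [card_range] at h1
    rcases eq_or_ne P 0 with h2 | h2
    · rw [h2, Polynomial.natDegree_zero]
      omega
    · exact (Polynomial.natDegree_lt_iff_degree_lt h2).2 h1
  have key : ∀ i, i < n + 1 → v' i = P.eval (i : L) := by
    intro i
    induction i using Nat.strong_induction_on with
    | _ i ih =>
      intro hi
      rcases Nat.lt_or_ge i r with h1 | h1
      · exact (Lagrange.eval_interpolate_at_node v' hinj (mem_range.2 h1)).symm
      · obtain ⟨s, rfl⟩ : ∃ s, i = s + r := ⟨i - r, by omega⟩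
        have h2 := hv s hi
        have h3 := dForm_poly hPd s
        rw [Fin.sum_univ_castSucc] at h2 h3
        simp only [Fin.val_castSucc, Fin.val_last] at h2 h3
        have h4 : ∀ j : Fin r, v ⟨s + (j : ℕ), by omega⟩ = P.eval ((s + (j : ℕ) : ℕ) : L) := by
          intro j
          rw [← ih (s + j) (by omega) (by omega), hv' (s + j) (by omega)]
        simp only [h4] at h2
        rw [hv' (s + r) hi]
        have h5 : (((-1 : ℤ) ^ (r - r) * (r.choose r : ℤ) : ℤ) : L) = 1 := by simp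
        rw [h5, one_mul] at h2 h3
        linear_combination h2 - h3
  exact ⟨P, hPd, fun i => by rw [← key i i.2, hv' i i.2]⟩

/-- the equations of the sequences of values of polynomials of degree at most `k` -/
def polEqs (K : Type) [Field K] (n k : ℕ) : Set (MvPolynomial (Fin (n + 1)) K) :=
  {F | ∃ (s : ℕ) (hs : s + (k + 1) < n + 1), F = dForm K n (k + 1) s hs}

lemma polEqs_hom {K : Type} [Field K] {n k : ℕ} :
    ∀ F ∈ polEqs K n k, ∃ D, F.IsHomogeneous D := by
  rintro F ⟨s, hs, rfl⟩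
  exact ⟨1, dForm_hom hs⟩

lemma polEqs_had {K : Type} [Field K] [CharZero K] {n k f s : ℕ} (hs : s + (k * f + 1) < n + 1) :
    dForm K n (k * f + 1) s hs ∈ HadK (polEqs K n k) f := by
  classical
  refine ⟨⟨1, dForm_hom hs⟩, fun L _ φ z hz => ?_⟩
  have hL : CharZero L := charZero_of_injective_ringHom φ.injective
  have h1 : ∀ j : Fin f, ∃ P : Polynomial L, P.natDegree < k + 1 ∧
      ∀ i : Fin (n + 1), z j i = P.eval ((i : ℕ) : L) := by
    intro j
    refine dForm_interp (z j) (by omega) fun s hs => ?_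
    have h2 := hz j _ ⟨s, hs, rfl⟩
    rw [dForm_eval] at h2
    exact h2
  choose P hP hPv using h1
  rw [dForm_eval]
  have h2 : (∏ j, P j).natDegree < k * f + 1 := by
    refine Nat.lt_succ_of_le ((Polynomial.natDegree_prod_le _ _).trans ?_)
    refine (Finset.sum_le_card_nsmul _ _ k fun j _ => ?_).trans ?_
    · have := hP j
      omega
    · rw [card_univ, Fintype.card_fin, smul_eq_mul, mul_comm]
  rw [← dForm_poly h2 s]
  refine Finset.sum_congr rfl fun j _ => ?_
  rw [Polynomial.eval_prod]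
  congr 1
  exact Finset.prod_congr rfl fun i _ => hPv i _

lemma dForm_single {K : Type} [Field K] [CharZero K] {n r s : ℕ} (hs : s + r < n + 1) (j : ℕ)
    (hj : j ≤ r) : MvPolynomial.eval (Pi.single (⟨s + j, by omega⟩ : Fin (n + 1)) (1 : K))
      (dForm K n r s hs) ≠ 0 := by
  classical
  have h1 : MvPolynomial.eval (Pi.single (⟨s + j, by omega⟩ : Fin (n + 1)) (1 : K))
      (dForm K n r s hs) = (((-1 : ℤ) ^ (r - j) * (r.choose j : ℤ) : ℤ) : K) := by
    have h2 := dForm_eval (RingHom.id K) hs (Pi.single (⟨s + j, by omega⟩ : Fin (n + 1)) (1 : K))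
    refine (h2.trans ?_)
    rw [Finset.sum_eq_single (⟨j, by omega⟩ : Fin (r + 1))]
    · simp
    · intro b _ hb
      have h3 : (⟨s + (b : ℕ), by omega⟩ : Fin (n + 1)) ≠ ⟨s + j, by omega⟩ := by
        intro h4
        apply hb
        have h5 := congrArg Fin.val h4
        simp only at h5
        exact Fin.ext (by simp only; omega)
      rw [Pi.single_eq_of_ne h3, mul_zero]
    · intro h
      exact absurd (mem_univ _) h
  rw [h1]
  have h2 : ((-1 : ℤ) ^ (r - j) * (r.choose j : ℤ) : ℤ) ≠ 0 := by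
    refine mul_ne_zero (pow_ne_zero _ (by norm_num)) ?_
    have := Nat.choose_pos hj
    exact_mod_cast this.ne'
  exact_mod_cast h2

end Pool.Agent.H912.AE
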