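import Pool.Agent.H912.AE.Red
import Pool.Agent.H912.AE.CycW

/-!
# Twists: primes with few `m`-th powers, and counting (helper912)
-/

set_option autoImplicit false

open Finset Filter Topology

namespace Pool.Agent.H912.AE

/-- modulo `q` there are few `m`-th powers -/
def SW (A C m q : ℕ) : Prop := ∃ _ : Fact q.Prime, ∃ k : ℕ, 0 < k ∧ C * k ^ A < q ∧
  ∀ a : ZMod q, a ^ m = 0 ∨ (a ^ m) ^ (2 * k) = 1

open Classical in
theorem smallPrimes (A C : ℕ) {ε : ℝ} (hε : 0 < ε) : ∃ D' N₀ : ℕ, ∀ M : ℕ, N₀ ≤ M →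
    (((range M).filter (fun m => ¬ ∃ q, 0 < q ∧ q ≤ D' ∧ SW A C m q)).card : ℝ) ≤ ε * M := by
  obtain ⟨c, hc, hW⟩ := window 2 2 (dvd_refl 2) (by norm_num) (le_refl 2) A (C + 1 : ℝ)
    (by positivity) (fun k => range (C * k ^ A + 1)) (by
      intro k hk
      rw [card_range]
      have h1 : (1 : ℝ) ≤ (k : ℝ) ^ A := by
        apply one_le_pow₀
        exact_mod_cast hk
      push_cast
      linarith)
  refine witnessU (by norm_num) _ hc hW _ (fun d hd hd0 _ => ?_) 0 hε
  obtain ⟨k, hk, -, hq, hqb⟩ := hd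
  have hk0 : 0 < k := Nat.pos_of_ne_zero hk.ne_zero
  have : Fact (2 * k * d + 1).Prime := ⟨hq⟩
  refine ⟨2 * k * d + 1, ?_, fun m hm0 hdm => ⟨this, k, hk0, ?_, fun a => ?_⟩⟩
  · have h1 : 1 * d ≤ 2 * k * d := Nat.mul_le_mul_right d (by omega)
    omega
  · rw [mem_range, not_lt] at hqb
    omega
  · by_cases ha : a = 0
    · left
      rw [ha, zero_pow hm0]
    · right
      obtain ⟨t, rfl⟩ := hdm
      have h1 := ZMod.pow_card_sub_one_eq_one ha
      rw [Nat.add_sub_cancel] at h1
      rw [← pow_mul]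
      have h2 : d * t * (2 * k) = 2 * k * d * t := by ring
      rw [h2, pow_mul, h1, one_pow]

/-- counting the zeros of a form with twisted arguments -/
theorem card_zero {q n : ℕ} [hq : Fact q.Prime] (G : MvPolynomial (Fin (n + 1)) ℤ) {d : ℕ}
    (hG : G.IsHomogeneous d) (i : Fin (n + 1))
    (hi : ((MvPolynomial.eval (Pi.single i 1) G : ℤ) : ZMod q) ≠ 0) {e : ℕ} (he : e ≠ 0)
    (y : Fin (n + 1) → ZMod q) (hy : y i ≠ 0) :
    ((univ : Finset (Fin (n + 1) → ZMod q)).filter
      (fun c => MvPolynomial.aeval (fun j => c j ^ e * y j) G = 0)).card ≤ e * d * q ^ n := by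
  classical
  set p : MvPolynomial (Fin (n + 1)) (ZMod q) :=
    MvPolynomial.eval₂ (Int.castRingHom _)
      (fun j => MvPolynomial.X j ^ e * MvPolynomial.C (y j)) G with hp
  have hev : ∀ c : Fin (n + 1) → ZMod q, MvPolynomial.eval c p =
      MvPolynomial.aeval (fun j => c j ^ e * y j) G := by
    intro c
    rw [hp, MvPolynomial.hom_eval₂, MvPolynomial.aeval_def]
    have h1 : (MvPolynomial.eval c).comp (Int.castRingHom (MvPolynomial (Fin (n + 1)) (ZMod q))) =
        algebraMap ℤ (ZMod q) := RingHom.ext_int _ _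
    rw [h1]
    congr 1
    funext j
    simp
  have hp0 : p ≠ 0 := by
    intro h
    have h1 := hev (Pi.single i 1)
    rw [h, map_zero] at h1
    have h2 : (fun j => (Pi.single i 1 : Fin (n + 1) → ZMod q) j ^ e * y j) =
        fun j => y i * (Pi.single i 1 : Fin (n + 1) → ZMod q) j := by
      funext j
      by_cases hj : j = i
      · subst hj
        simp
      · simp [Pi.single_eq_of_ne hj, zero_pow he]
    rw [h2, aeval_smul_hom hG] at h1
    have h3 : MvPolynomial.aeval (Pi.single i 1 : Fin (n + 1) → ZMod q) G =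
        ((MvPolynomial.eval (Pi.single i 1) G : ℤ) : ZMod q) := by
      have h4 := aeval_ringHom (Int.castRingHom (ZMod q)) (Pi.single i 1 : Fin (n + 1) → ℤ) G
      have h5 : (fun j => (Int.castRingHom (ZMod q)) ((Pi.single i 1 : Fin (n + 1) → ℤ) j)) =
          (Pi.single i 1 : Fin (n + 1) → ZMod q) := by
        funext j
        by_cases hj : j = i
        · subst hj
          simp
        · simp [Pi.single_eq_of_ne hj]
      rw [h5] at h4
      rw [← h4]
      rfl
    rw [h3] at h1
    exact mul_ne_zero (pow_ne_zero _ hy) hi h1.symm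
  have hdeg : p.totalDegree ≤ e * d := by
    rw [hp, MvPolynomial.eval₂_eq']
    refine MvPolynomial.totalDegree_finsetSum_le fun α hα => ?_
    have hα1 : ∑ j, α j = d := by
      have h2 := hG (MvPolynomial.mem_support_iff.1 hα)
      rw [← h2, Finsupp.weight_apply, Finsupp.sum_fintype _ _ (fun i => by simp)]
      simp
    refine (MvPolynomial.totalDegree_mul _ _).trans ?_
    have h1 : ((Int.castRingHom (MvPolynomial (Fin (n + 1)) (ZMod q))) (G.coeff α)).totalDegree
        = 0 := by
      have h2 : (Int.castRingHom (MvPolynomial (Fin (n + 1)) (ZMod q))) (G.coeff α) =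
          MvPolynomial.C ((G.coeff α : ℤ) : ZMod q) := by simp
      rw [h2, MvPolynomial.totalDegree_C]
    rw [h1, zero_add]
    refine (MvPolynomial.totalDegree_finsetProd _ _).trans ?_
    rw [← hα1, mul_sum]
    refine sum_le_sum fun j _ => ?_
    refine (MvPolynomial.totalDegree_pow _ _).trans ?_
    rw [mul_comm e]
    refine Nat.mul_le_mul_left _ ?_
    refine (MvPolynomial.totalDegree_mul _ _).trans ?_
    rw [MvPolynomial.totalDegree_C, add_zero]
    refine (MvPolynomial.totalDegree_pow _ _).trans ?_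
    have h3 : (MvPolynomial.X j : MvPolynomial (Fin (n + 1)) (ZMod q)).totalDegree = 1 :=
      MvPolynomial.totalDegree_X j
    rw [h3, mul_one]
  have h1 := MvPolynomial.schwartz_zippel_totalDegree hp0 (univ : Finset (ZMod q))
  rw [Fintype.piFinset_univ, card_univ, ZMod.card] at h1
  have hq0 : (0 : ℚ≥0) < q := by exact_mod_cast hq.out.pos
  rw [div_le_div_iff₀ (by positivity) hq0] at h1
  have h2 : ((univ : Finset (Fin (n + 1) → ZMod q)).filter
      (fun c => MvPolynomial.aeval (fun j => c j ^ e * y j) G = 0)).card * q ≤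
      p.totalDegree * q ^ (n + 1) := by
    have h3 : ((univ : Finset (Fin (n + 1) → ZMod q)).filter
      (fun c => MvPolynomial.aeval (fun j => c j ^ e * y j) G = 0)) =
      (univ : Finset (Fin (n + 1) → ZMod q)).filter (fun c => MvPolynomial.eval c p = 0) := by
      refine filter_congr fun c _ => ?_
      rw [hev]
    rw [h3]
    exact_mod_cast h1
  have h3 : ((univ : Finset (Fin (n + 1) → ZMod q)).filter
      (fun c => MvPolynomial.aeval (fun j => c j ^ e * y j) G = 0)).card * q ≤
      e * d * q ^ n * q := by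
    refine h2.trans ?_
    rw [pow_succ, ← mul_assoc]
    exact Nat.mul_le_mul_right _ (Nat.mul_le_mul_right _ hdeg)
  exact Nat.le_of_mul_le_mul_right h3 hq.out.pos

/-- counting in boxes -/
theorem card_box {N q : ℕ} (hq : 0 < q) (a : Fin N → ℤ) (H : Fin N → ℕ)
    (P : Finset (Fin N → ZMod q)) [DecidablePred fun c : Fin N → ℤ =>
      (fun i => (c i : ZMod q)) ∈ P] :
    ((Fintype.piFinset fun i => Ico (a i) (a i + H i)).filter
      (fun c => (fun i => (c i : ZMod q)) ∈ P)).card ≤ P.card * ∏ i, (H i / q + 1) := by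
  classical
  have hsub : (Fintype.piFinset fun i => Ico (a i) (a i + H i)).filter
      (fun c => (fun i => (c i : ZMod q)) ∈ P) ⊆
      P.biUnion fun p => Fintype.piFinset fun i =>
        (Ico (a i) (a i + H i)).filter (fun x => ((x : ℤ) : ZMod q) = p i) := by
    intro c hc
    rw [mem_filter, Fintype.mem_piFinset] at hc
    rw [mem_biUnion]
    refine ⟨_, hc.2, ?_⟩
    rw [Fintype.mem_piFinset]
    intro i
    rw [mem_filter]
    exact ⟨hc.1 i, rfl⟩
  refine (card_le_card hsub).trans (card_biUnion_le.trans ?_)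
  rw [← smul_eq_mul, ← sum_const]
  refine sum_le_sum fun p _ => ?_
  rw [Fintype.card_piFinset]
  refine prod_le_prod' fun i _ => ?_
  have : NeZero q := ⟨hq.ne'⟩
  have h1 : (Ico (a i) (a i + H i)).filter (fun x => ((x : ℤ) : ZMod q) = p i) =
      (Ico (a i) (a i + H i)).filter (fun x => x ≡ ((p i).val : ℤ) [ZMOD q]) := by
    refine filter_congr fun x _ => ?_
    rw [← ZMod.intCast_eq_intCast_iff]
    simp
  rw [h1]
  have hq' : (0 : ℤ) < q := by exact_mod_cast hq
  have h2 := Int.Ico_filter_modEq_card (a i) (a i + H i) hq' ((p i).val : ℤ)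
  have h3 : ((((Ico (a i) (a i + H i)).filter (fun x => x ≡ ((p i).val : ℤ) [ZMOD q])).card : ℤ) : ℚ) ≤
      (H i : ℚ) / q + 1 := by
    rw [h2]
    push_cast
    rw [max_le_iff]
    constructor
    · have h4 := Int.ceil_lt_add_one (((a i : ℚ) + H i - (p i).val) / (q : ℚ))
      have h5 := Int.le_ceil (((a i : ℚ) - (p i).val) / (q : ℚ))
      have h6 : ((a i : ℚ) + H i - (p i).val) / (q : ℚ) =
          ((a i : ℚ) - (p i).val) / (q : ℚ) + H i / q := by ring
      rw [h6] at h4
      rw [h6]
      linarith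
    · positivity
  have h4 : ((((Ico (a i) (a i + H i)).filter (fun x => x ≡ ((p i).val : ℤ) [ZMOD q])).card : ℕ) : ℚ) ≤
      (H i : ℚ) / q + 1 := by exact_mod_cast h3
  have h5 : (((Ico (a i) (a i + H i)).filter (fun x => x ≡ ((p i).val : ℤ) [ZMOD q])).card : ℚ) - 1 ≤
      (H i : ℚ) / q := by linarith
  have hq'' : (0 : ℚ) < q := by exact_mod_cast hq
  by_contra h
  rw [not_le] at h
  have h6 : H i / q + 2 ≤
      ((Ico (a i) (a i + H i)).filter (fun x => x ≡ ((p i).val : ℤ) [ZMOD q])).card := h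
  have h7 : ((H i / q : ℕ) : ℚ) + 2 ≤
      ((Ico (a i) (a i + H i)).filter (fun x => x ≡ ((p i).val : ℤ) [ZMOD q])).card := by
    exact_mod_cast h6
  have h8 : H i < (H i / q + 1) * q := by
    have := Nat.lt_mul_div_succ (H i) hq
    rw [mul_comm]
    exact this
  have h9 : (H i : ℚ) < ((H i / q : ℕ) + 1 : ℚ) * q := by exact_mod_cast h8
  have h10 : (H i : ℚ) / q < (H i / q : ℕ) + 1 := by
    rw [div_lt_iff₀ hq'']
    exact h9
  linarith

end Pool.Agent.H912.AE
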