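import Pool.Agent.H912.AE.Tws

/-!
# Twists: reduction of rational points, and the count (helper912)
-/

set_option autoImplicit false

open Finset Filter Topology

namespace Pool.Agent.H912.AE

/-- reduction modulo `q` of a rational point of a twist -/
theorem pattern {ι : Type} {q m k n e : ℕ} [hq : Fact q.Prime]
    (hk : ∀ a : ZMod q, a ^ m = 0 ∨ (a ^ m) ^ (2 * k) = 1)
    (T : ι → MvPolynomial (Fin (n + 1)) ℤ) (hT : ∀ i, ∃ d, (T i).IsHomogeneous d)
    (c : Fin (n + 1) → ℤ) (y : Fin (n + 1) → ℚ) (hy : y ≠ 0)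
    (h : ∀ i, MvPolynomial.aeval (fun j => (c j : ℚ) ^ e * y j ^ m) (T i) = 0) :
    ∃ v : Fin (n + 1) → ZMod q, v ≠ 0 ∧ (∀ j, v j = 0 ∨ v j ^ (2 * k) = 1) ∧
      ∀ i, MvPolynomial.aeval (fun j => (c j : ZMod q) ^ e * v j) (T i) = 0 := by
  obtain ⟨i₀, hi₀⟩ := Finite.exists_max (fun i => ‖(y i : ℚ_[q])‖)
  obtain ⟨j₀, hj₀⟩ := Function.ne_iff.1 hy
  have hy0 : (y i₀ : ℚ_[q]) ≠ 0 := by
    intro h0
    have h1 := hi₀ j₀
    rw [h0, norm_zero] at h1
    have h2 := norm_le_zero_iff.1 h1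
    exact hj₀ (by exact_mod_cast h2)
  have hn0 : 0 < ‖(y i₀ : ℚ_[q])‖ := norm_pos_iff.2 hy0
  have hz : ∀ i, ‖(y i : ℚ_[q]) / y i₀‖ ≤ 1 := by
    intro i
    rw [norm_div, div_le_one hn0]
    exact hi₀ i
  let z : Fin (n + 1) → ℤ_[q] := fun i => ⟨(y i : ℚ_[q]) / y i₀, hz i⟩
  have hzy : ∀ i, (z i : ℚ_[q]) = y i / y i₀ := fun i => rfl
  have hz1 : z i₀ = 1 := Subtype.ext (div_self hy0)
  -- the equations over `ℚ_q`
  have h1 : ∀ i, MvPolynomial.aeval (fun j => (c j : ℚ_[q]) ^ e * (z j : ℚ_[q]) ^ m) (T i) = 0 := by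
    intro i
    obtain ⟨d, hd⟩ := hT i
    have h2 := aeval_ringHom (Rat.castHom ℚ_[q]) (fun j => (c j : ℚ) ^ e * y j ^ m) (T i)
    rw [h i, map_zero] at h2
    have h3 : (fun j => (Rat.castHom ℚ_[q]) ((c j : ℚ) ^ e * y j ^ m)) =
        fun j => ((y i₀ : ℚ_[q]) ^ m) * ((c j : ℚ_[q]) ^ e * (z j : ℚ_[q]) ^ m) := by
      funext j
      rw [hzy]
      simp only [Rat.coe_castHom, Rat.cast_mul, Rat.cast_pow, Rat.cast_intCast]
      rw [div_pow]
      field_simp
    rw [h3, aeval_smul_hom hd] at h2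
    rcases mul_eq_zero.1 h2.symm with h4 | h4
    · exact absurd h4 (pow_ne_zero _ (pow_ne_zero _ hy0))
    · exact h4
  -- the equations over `ℤ_q`
  have h2 : ∀ i, MvPolynomial.aeval (fun j => ((c j : ℤ) : ℤ_[q]) ^ e * (z j) ^ m) (T i) = 0 := by
    intro i
    have h4 := aeval_ringHom (PadicInt.Coe.ringHom (p := q))
      (fun j => ((c j : ℤ) : ℤ_[q]) ^ e * (z j) ^ m) (T i)
    have h5 : (fun j => PadicInt.Coe.ringHom (p := q) (((c j : ℤ) : ℤ_[q]) ^ e * (z j) ^ m)) =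
        fun j => (c j : ℚ_[q]) ^ e * (z j : ℚ_[q]) ^ m := by
      funext j
      rw [map_mul, map_pow, map_pow, map_intCast]
      rfl
    rw [h5, h1 i] at h4
    exact Subtype.coe_injective h4
  refine ⟨fun j => (PadicInt.toZMod (z j)) ^ m, ?_, fun j => hk _, fun i => ?_⟩
  · intro h3
    have h4 := congrFun h3 i₀
    simp only [hz1, map_one, one_pow, Pi.zero_apply] at h4
    exact one_ne_zero h4
  · have h4 := aeval_ringHom (PadicInt.toZMod (p := q))
      (fun j => ((c j : ℤ) : ℤ_[q]) ^ e * (z j) ^ m) (T i)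
    rw [h2 i, map_zero] at h4
    have h5 : (fun j => PadicInt.toZMod (p := q) (((c j : ℤ) : ℤ_[q]) ^ e * (z j) ^ m)) =
        fun j => (c j : ZMod q) ^ e * (PadicInt.toZMod (z j)) ^ m := by
      funext j
      rw [map_mul, map_pow, map_pow, map_intCast]
    rw [h5] at h4
    exact h4.symm

/-- few elements have a given exponent -/
lemma card_pow_le {q k : ℕ} [hq : Fact q.Prime] (hk : 0 < k) :
    ((univ : Finset (ZMod q)).filter (fun a => a = 0 ∨ a ^ k = 1)).card ≤ k + 1 := by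
  classical
  have h1 : (univ : Finset (ZMod q)).filter (fun a => a = 0 ∨ a ^ k = 1) ⊆
      insert 0 (Polynomial.nthRoots k (1 : ZMod q)).toFinset := by
    intro a ha
    rw [mem_filter] at ha
    rw [mem_insert, Multiset.mem_toFinset, Polynomial.mem_nthRoots hk]
    exact ha.2
  refine (card_le_card h1).trans ((card_insert_le _ _).trans ?_)
  have h2 := (Multiset.toFinset_card_le _).trans (Polynomial.card_nthRoots k (1 : ZMod q))
  omega

/-- the classes of coefficients modulo `q` for which the twist may have a point -/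
noncomputable def PB {n : ℕ} (D : ℕ) (T : ℕ → Fin (n + 1) → MvPolynomial (Fin (n + 1)) ℤ)
    (q k : ℕ) [Fact q.Prime] : Finset (Fin (n + 1) → ZMod q) := by
  classical
  exact (univ : Finset (Fin (n + 1) → ZMod q)).filter (fun c => ∃ e ∈ Icc 1 D,
    ∃ v : Fin (n + 1) → ZMod q, v ≠ 0 ∧ (∀ j, v j = 0 ∨ v j ^ (2 * k) = 1) ∧
      ∀ i, MvPolynomial.aeval (fun j => c j ^ e * v j) (T e i) = 0)

theorem card_PB {n D d : ℕ} (T : ℕ → Fin (n + 1) → MvPolynomial (Fin (n + 1)) ℤ)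
    {q k : ℕ} [hq : Fact q.Prime] (hk : 0 < k)
    (hT : ∀ e ∈ Icc 1 D, ∀ i, ∃ d' ≤ d, (T e i).IsHomogeneous d')
    (hT1 : ∀ e ∈ Icc 1 D, ∀ i, ((MvPolynomial.eval (Pi.single i 1) (T e i) : ℤ) : ZMod q) ≠ 0) :
    (PB D T q k).card ≤ D * ((3 * k) ^ (n + 1) * (D * d * q ^ n)) := by
  classical
  set Y : Finset (Fin (n + 1) → ZMod q) := Fintype.piFinset fun _ =>
    (univ : Finset (ZMod q)).filter (fun a => a = 0 ∨ a ^ (2 * k) = 1) with hY
  have hYc : Y.card ≤ (3 * k) ^ (n + 1) := by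
    rw [hY, Fintype.card_piFinset, prod_const, card_univ, Fintype.card_fin]
    refine Nat.pow_le_pow_left ?_ _
    have := card_pow_le (q := q) (k := 2 * k) (by omega)
    omega
  have hsub : PB D T q k ⊆ (Icc 1 D).biUnion fun e => (Y.filter (fun v => v ≠ 0)).biUnion fun v =>
      (univ : Finset (Fin (n + 1) → ZMod q)).filter (fun c =>
        ∀ i, MvPolynomial.aeval (fun j => c j ^ e * v j) (T e i) = 0) := by
    intro c hc
    rw [PB, mem_filter] at hc
    obtain ⟨-, e, he, v, hv0, hv1, hv2⟩ := hc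
    refine mem_biUnion.2 ⟨e, he, mem_biUnion.2 ⟨v, mem_filter.2 ⟨?_, hv0⟩, ?_⟩⟩
    · rw [hY, Fintype.mem_piFinset]
      intro j
      rw [mem_filter]
      exact ⟨mem_univ _, hv1 j⟩
    · rw [mem_filter]
      exact ⟨mem_univ _, hv2⟩
  refine (card_le_card hsub).trans (card_biUnion_le.trans ?_)
  have h1 : ∀ e ∈ Icc 1 D, ((Y.filter (fun v => v ≠ 0)).biUnion fun v =>
      (univ : Finset (Fin (n + 1) → ZMod q)).filter (fun c =>
        ∀ i, MvPolynomial.aeval (fun j => c j ^ e * v j) (T e i) = 0)).card ≤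
      (3 * k) ^ (n + 1) * (D * d * q ^ n) := by
    intro e he
    have he' := mem_Icc.1 he
    refine card_biUnion_le.trans ?_
    have h2 : ∀ v ∈ Y.filter (fun v => v ≠ 0), ((univ : Finset (Fin (n + 1) → ZMod q)).filter
        (fun c => ∀ i, MvPolynomial.aeval (fun j => c j ^ e * v j) (T e i) = 0)).card ≤
        D * d * q ^ n := by
      intro v hv
      obtain ⟨i, hi⟩ := Function.ne_iff.1 (mem_filter.1 hv).2
      obtain ⟨d', hd', hh⟩ := hT e he i
      refine le_trans (card_le_card ?_) ((card_zero (T e i) hh i (hT1 e he i) (Nat.one_le_iff_ne_zero.1 he'.1) v hi).trans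
        ?_)
      · intro c hc
        rw [mem_filter] at hc ⊢
        exact ⟨hc.1, hc.2 i⟩
      · gcongr
        exact he'.2
    refine (sum_le_sum h2).trans ?_
    rw [sum_const, smul_eq_mul]
    exact Nat.mul_le_mul_right _ ((card_filter_le _ _).trans hYc)
  refine (sum_le_sum h1).trans ?_
  rw [sum_const, smul_eq_mul, Nat.card_Icc, Nat.add_sub_cancel]

end Pool.Agent.H912.AE
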