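import Pool.Agent.H912.AE.Tws2

/-!
# Twists: the count in boxes (helper912)
-/

set_option autoImplicit false

open Finset Filter Topology

namespace Pool.Agent.H912.AE

/-- The twist by `c` may have a point of degree `e ≤ D`. -/
def MP {n : ℕ} (D : ℕ) (T : ℕ → Fin (n + 1) → MvPolynomial (Fin (n + 1)) ℤ) (m : ℕ)
    (c : Fin (n + 1) → ℤ) : Prop :=
  ∃ e ∈ Icc 1 D, ∃ y : Fin (n + 1) → ℚ, y ≠ 0 ∧
    ∀ i, MvPolynomial.aeval (fun j => (c j : ℚ) ^ e * y j ^ m) (T e i) = 0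

open Classical in
theorem twists {n D d : ℕ} (T : ℕ → Fin (n + 1) → MvPolynomial (Fin (n + 1)) ℤ)
    (hT : ∀ e ∈ Icc 1 D, ∀ i, ∃ d' ≤ d, (T e i).IsHomogeneous d')
    (hT1 : ∀ e ∈ Icc 1 D, ∀ i, MvPolynomial.eval (Pi.single i 1) (T e i) ≠ 0)
    {ε : ℝ} (hε : 0 < ε) :
    ∃ H₀ N₀ : ℕ, ∀ M : ℕ, N₀ ≤ M → (((range M).filter (fun m =>
      ¬ ∀ (a : Fin (n + 1) → ℤ) (H : Fin (n + 1) → ℕ), (∀ i, H₀ ≤ H i) →
        (((Fintype.piFinset fun i => Ico (a i) (a i + H i)).filter (fun c => MP D T m c)).card : ℝ)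
          ≤ ε * ∏ i, (H i : ℝ))).card : ℝ) ≤ ε * M := by
  -- the constants
  obtain ⟨C₁, hC₁⟩ : ∃ C₁ : ℕ, ∀ e ∈ Icc 1 D, ∀ i,
      (MvPolynomial.eval (Pi.single i 1) (T e i)).natAbs ≤ C₁ := by
    refine ⟨∑ e ∈ Icc 1 D, ∑ i, (MvPolynomial.eval (Pi.single i 1) (T e i)).natAbs,
      fun e he i => ?_⟩
    refine le_trans ?_ (single_le_sum (f := fun e => ∑ i,
      (MvPolynomial.eval (Pi.single i 1) (T e i)).natAbs) (fun _ _ => Nat.zero_le _) he)
    exact single_le_sum (f := fun i => (MvPolynomial.eval (Pi.single i 1) (T e i)).natAbs)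
      (fun _ _ => Nat.zero_le _) (mem_univ i)
  obtain ⟨C₂, hC₂⟩ := exists_nat_ge ((D * (D * d) * 6 ^ (n + 1) : ℝ) / ε)
  obtain ⟨D', N₀, h⟩ := smallPrimes (n + 1) (C₁ + C₂) hε
  refine ⟨D', N₀, fun M hM => le_trans ?_ (h M hM)⟩
  have hsub : (range M).filter (fun m =>
      ¬ ∀ (a : Fin (n + 1) → ℤ) (H : Fin (n + 1) → ℕ), (∀ i, D' ≤ H i) →
        (((Fintype.piFinset fun i => Ico (a i) (a i + H i)).filter (fun c => MP D T m c)).card : ℝ)
          ≤ ε * ∏ i, (H i : ℝ)) ⊆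
      (range M).filter (fun m => ¬ ∃ q, 0 < q ∧ q ≤ D' ∧ SW (n + 1) (C₁ + C₂) m q) := by
    intro m hm
    rw [mem_filter] at hm ⊢
    refine ⟨hm.1, ?_⟩
    rintro ⟨q, hq0, hqD, hq, k, hk0, hkq, hk⟩
    refine hm.2 fun a H hH => ?_
    have hk1 : 1 ≤ k ^ (n + 1) := Nat.one_le_pow _ _ hk0
    have hC₁q : C₁ < q := by
      have : C₁ * 1 ≤ (C₁ + C₂) * k ^ (n + 1) := Nat.mul_le_mul (Nat.le_add_right _ _) hk1
      omega
    have hq1 : ∀ e ∈ Icc 1 D, ∀ i,
        ((MvPolynomial.eval (Pi.single i 1) (T e i) : ℤ) : ZMod q) ≠ 0 := by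
      intro e he i h0
      rw [ZMod.intCast_zmod_eq_zero_iff_dvd] at h0
      have h1 := Int.natAbs_dvd_natAbs.2 h0
      rw [Int.natAbs_natCast] at h1
      have h2 := Nat.le_of_dvd (Int.natAbs_pos.2 (hT1 e he i)) h1
      have h3 := hC₁ e he i
      omega
    have hP := card_PB T hk0 hT hq1
    have hsub2 : (Fintype.piFinset fun i => Ico (a i) (a i + H i)).filter
        (fun c => MP D T m c) ⊆ (Fintype.piFinset fun i => Ico (a i) (a i + H i)).filter
        (fun c => (fun i => (c i : ZMod q)) ∈ PB D T q k) := by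
      intro c hc
      rw [mem_filter] at hc ⊢
      refine ⟨hc.1, ?_⟩
      obtain ⟨e, he, y, hy, hy1⟩ := hc.2
      obtain ⟨v, hv, hv1, hv2⟩ := pattern hk (T e)
        (fun i => (hT e he i).imp fun _ h => h.2) c y hy hy1
      rw [PB, mem_filter]
      exact ⟨mem_univ _, e, he, v, hv, hv1, hv2⟩
    have h1 := (card_le_card hsub2).trans (card_box hq0 a H (PB D T q k))
    have h2 : ∀ i, H i / q + 1 ≤ 2 * (H i / q) := by
      intro i
      have h3 : q ≤ H i := hqD.trans (hH i)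
      have h4 : 1 ≤ H i / q := (Nat.one_le_div_iff hq0).2 h3
      omega
    have hqr : (0 : ℝ) < q := by exact_mod_cast hq0
    have h3 : ((∏ i, (H i / q + 1) : ℕ) : ℝ) ≤ ∏ i, (2 * ((H i : ℝ) / q)) := by
      push_cast
      refine prod_le_prod (fun i _ => by positivity) fun i _ => ?_
      have h4 : (((H i / q + 1 : ℕ)) : ℝ) ≤ ((2 * (H i / q) : ℕ) : ℝ) := by exact_mod_cast h2 i
      push_cast at h4
      have h5 : ((H i / q : ℕ) : ℝ) ≤ (H i : ℝ) / q := Nat.cast_div_le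
      linarith
    have h4 : ∏ i : Fin (n + 1), (2 * ((H i : ℝ) / q)) =
        2 ^ (n + 1) * (∏ i, (H i : ℝ)) / q ^ (n + 1) := by
      rw [prod_mul_distrib, prod_const, card_univ, Fintype.card_fin, prod_div_distrib,
        prod_const, card_univ, Fintype.card_fin]
      ring
    have hH0 : (0 : ℝ) ≤ ∏ i, (H i : ℝ) := prod_nonneg fun i _ => by positivity
    have h5 : (((Fintype.piFinset fun i => Ico (a i) (a i + H i)).filter
        (fun c => MP D T m c)).card : ℝ) ≤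
        (D * ((3 * k) ^ (n + 1) * (D * d * q ^ n))) *
          (2 ^ (n + 1) * (∏ i, (H i : ℝ)) / q ^ (n + 1)) := by
      rw [← h4]
      have h6 : (((Fintype.piFinset fun i => Ico (a i) (a i + H i)).filter
        (fun c => MP D T m c)).card : ℝ) ≤ ((PB D T q k).card : ℝ) *
          ((∏ i, (H i / q + 1) : ℕ) : ℝ) := by exact_mod_cast h1
      refine h6.trans ?_
      have h7 : ((PB D T q k).card : ℝ) ≤ (D * ((3 * k) ^ (n + 1) * (D * d * q ^ n))) := by
        exact_mod_cast hP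
      exact mul_le_mul h7 h3 (by positivity) (by positivity)
    refine h5.trans ?_
    have h6 : ((D : ℝ) * ((3 * k) ^ (n + 1) * (D * d * q ^ n))) *
          (2 ^ (n + 1) * (∏ i, (H i : ℝ)) / q ^ (n + 1)) =
        ((D * (D * d) * 6 ^ (n + 1)) * k ^ (n + 1) / q) * ∏ i, (H i : ℝ) := by
      have h7 : (6 : ℝ) ^ (n + 1) = 3 ^ (n + 1) * 2 ^ (n + 1) := by
        rw [← mul_pow]
        norm_num
      rw [h7, mul_pow, pow_succ (q : ℝ) n]
      field_simp
    rw [h6]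
    refine mul_le_mul_of_nonneg_right ?_ hH0
    rw [div_le_iff₀ hqr]
    have h7 : (D * (D * d) * 6 ^ (n + 1) : ℝ) ≤ C₂ * ε := by
      rwa [div_le_iff₀ hε] at hC₂
    have h8 : ((C₂ * k ^ (n + 1) : ℕ) : ℝ) ≤ q := by
      have : C₂ * k ^ (n + 1) ≤ (C₁ + C₂) * k ^ (n + 1) :=
        Nat.mul_le_mul_right _ (Nat.le_add_left _ _)
      exact_mod_cast this.trans hkq.le
    push_cast at h8
    calc (D * (D * d) * 6 ^ (n + 1) : ℝ) * k ^ (n + 1) ≤ C₂ * ε * k ^ (n + 1) :=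
          mul_le_mul_of_nonneg_right h7 (by positivity)
      _ = ε * (C₂ * k ^ (n + 1)) := by ring
      _ ≤ ε * q := mul_le_mul_of_nonneg_left h8 hε.le
  exact_mod_cast card_le_card hsub

end Pool.Agent.H912.AE
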