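import Pool.Agent.H912.AE.Wg
import Pool.Agent.H912.AE.Fam

/-!
# Witness primes avoiding an arbitrary small set, and families (helper912)
-/

set_option autoImplicit false

open Finset Filter Topology

namespace Pool.Agent.H912.AE

open Classical in
theorem witnessB (bd : ℕ → Finset ℕ) (A : ℕ) {Cb : ℝ} (hCb : 0 ≤ Cb)
    (hbd : ∀ k, 1 ≤ k → ((bd k).card : ℝ) ≤ Cb * (k : ℝ) ^ A) {T : ℕ} (hT : 2 ≤ T)
    (W : ℕ → ℕ → Prop)
    (hWit : ∀ s d : ℕ, Good (2 ^ (max s 1)) T bd d → 0 < d → ∃ q : ℕ, d < q ∧ ∀ m : ℕ, m ≠ 0 →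
        2 ^ s * d ∣ m → ¬ 2 ^ (s + 1) ∣ m → W m q)
    (D : ℕ) {ε : ℝ} (hε : 0 < ε) : ∃ D' N₀ : ℕ, ∀ M : ℕ, N₀ ≤ M →
      (((range M).filter (fun m => ¬ ∃ q, D < q ∧ q ≤ D' ∧ W m q)).card : ℝ) ≤ ε * M := by
  obtain ⟨t, ht⟩ := exists_pow_lt_of_lt_one (by positivity : 0 < ε / 4)
    (by norm_num : (1 / 2 : ℝ) < 1)
  have hwin : ∀ s : ℕ, ∃ c : ℝ, 0 < c ∧ HW (Good (2 ^ (max s 1)) T bd) c := by
    intro s
    exact window (2 ^ (max s 1)) T (dvd_pow_self 2 (by omega)) (by positivity) hT A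
      Cb hCb bd hbd
  have hden : ∀ s : ℕ, ∃ X N₀ : ℕ, ∀ M : ℕ, N₀ ≤ M → (((range M).filter (fun m =>
      ¬ ∃ d, Good (2 ^ (max s 1)) T bd d ∧ d.Coprime (Pw (max D 2)) ∧ max D 2 < d ∧ d ≤ X ∧
        d ∣ m)).card : ℝ) ≤ ε / (4 * (t + 1)) * M := by
    intro s
    obtain ⟨c, hc, hW⟩ := hwin s
    exact dense _ hc hW (max D 2) (by positivity)
  choose X N₀ hX using hden
  -- the primes
  have hq : ∀ s d : ℕ, ∃ q : ℕ, Good (2 ^ (max s 1)) T bd d → 0 < d →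
      (d < q ∧ ∀ m : ℕ, m ≠ 0 → 2 ^ s * d ∣ m → ¬ 2 ^ (s + 1) ∣ m → W m q) := by
    intro s d
    by_cases h : Good (2 ^ (max s 1)) T bd d ∧ 0 < d
    · obtain ⟨q, h1⟩ := hWit s d h.1 h.2
      exact ⟨q, fun _ _ => h1⟩
    · exact ⟨0, fun h1 h2 => absurd ⟨h1, h2⟩ h⟩
  choose q hq using hq
  obtain ⟨M₀, hM₀⟩ := exists_nat_ge (4 / ε)
  refine ⟨∑ s ∈ range t, ∑ d ∈ range (X s + 1), q s d, M₀ + ∑ s ∈ range t, N₀ s,
    fun M hM => ?_⟩
  have hsub : (range M).filter (fun m => ¬ ∃ q', D < q' ∧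
      q' ≤ ∑ s ∈ range t, ∑ d ∈ range (X s + 1), q s d ∧ W m q') ⊆
      (range M).filter (fun m => 2 ^ t ∣ m) ∪ (range t).biUnion fun s =>
        (range M).filter (fun m => ¬ ∃ d, Good (2 ^ (max s 1)) T bd d ∧
          d.Coprime (Pw (max D 2)) ∧ max D 2 < d ∧ d ≤ X s ∧ d ∣ m) := by
    intro m hm
    rw [mem_filter] at hm
    obtain ⟨hmM, hm⟩ := hm
    by_cases h1 : 2 ^ t ∣ m
    · exact mem_union_left _ (mem_filter.2 ⟨hmM, h1⟩)
    refine mem_union_right _ ?_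
    have hm0 : m ≠ 0 := by
      rintro rfl
      exact h1 (dvd_zero _)
    set s := m.factorization 2 with hs
    have h2 : 2 ^ s ∣ m := Nat.ordProj_dvd m 2
    have h3 : ¬ 2 ^ (s + 1) ∣ m := Nat.pow_succ_factorization_not_dvd hm0 Nat.prime_two
    have hst : s < t := by
      by_contra h
      exact h1 ((pow_dvd_pow 2 (by omega)).trans h2)
    refine mem_biUnion.2 ⟨s, mem_range.2 hst, mem_filter.2 ⟨hmM, ?_⟩⟩
    rintro ⟨d, hd1, hd2, hd3, hd4, hd5⟩
    obtain ⟨h4, h5⟩ := hq s d hd1 (by omega)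
    apply hm
    refine ⟨q s d, by omega, ?_, h5 m hm0 ?_ h3⟩
    · refine le_trans ?_ (single_le_sum (f := fun s => ∑ d ∈ range (X s + 1), q s d)
        (fun _ _ => Nat.zero_le _) (mem_range.2 hst))
      exact single_le_sum (f := fun d => q s d) (fun _ _ => Nat.zero_le _)
        (mem_range.2 (by omega))
    · refine Nat.Coprime.mul_dvd_of_dvd_of_dvd ?_ h2 hd5
      apply Nat.Coprime.pow_left
      exact (hd2.coprime_dvd_right ((dvd_Pw Nat.prime_two).2 (le_max_right _ _))).symm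
  have hMr : (M₀ : ℝ) ≤ M := by
    have : M₀ ≤ M := by omega
    exact_mod_cast this
  have hMε : 1 ≤ ε / 4 * M := by
    have h1 : 4 / ε ≤ M := hM₀.trans hMr
    rw [div_le_iff₀ hε] at h1
    linarith
  have h1 : (((range M).filter (fun m => 2 ^ t ∣ m)).card : ℝ) ≤ ε / 2 * M := by
    have h2 : ((range M).filter (fun m => 2 ^ t ∣ m)).card ≤ M / 2 ^ t + 1 := by
      have h3 : (range M).filter (fun m => 2 ^ t ∣ m) ⊆
          (range (M / 2 ^ t + 1)).image (fun a => 2 ^ t * a) := by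
        intro m hm
        rw [mem_filter, mem_range] at hm
        obtain ⟨a, rfl⟩ := hm.2
        refine mem_image.2 ⟨a, mem_range.2 ?_, rfl⟩
        have : a ≤ M / 2 ^ t := by
          rw [Nat.le_div_iff_mul_le (by positivity), mul_comm]
          exact hm.1.le
        omega
      refine (card_le_card h3).trans (card_image_le.trans ?_)
      rw [card_range]
    have h3 : (((range M).filter (fun m => 2 ^ t ∣ m)).card : ℝ) ≤ ((M / 2 ^ t : ℕ) : ℝ) + 1 := by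
      exact_mod_cast h2
    have h4 : ((M / 2 ^ t : ℕ) : ℝ) ≤ (M : ℝ) / ((2 ^ t : ℕ) : ℝ) := Nat.cast_div_le
    have h5 : (M : ℝ) / ((2 ^ t : ℕ) : ℝ) ≤ ε / 4 * M := by
      push_cast
      have h6 : (M : ℝ) / 2 ^ t = (1 / 2) ^ t * M := by
        rw [div_pow, one_pow]
        ring
      rw [h6]
      gcongr
    linarith
  have h2 : (((range t).biUnion fun s =>
        (range M).filter (fun m => ¬ ∃ d, Good (2 ^ (max s 1)) T bd d ∧
          d.Coprime (Pw (max D 2)) ∧ max D 2 < d ∧ d ≤ X s ∧ d ∣ m)).card : ℝ) ≤ ε / 4 * M := by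
    have h3 : (((range t).biUnion fun s =>
        (range M).filter (fun m => ¬ ∃ d, Good (2 ^ (max s 1)) T bd d ∧
          d.Coprime (Pw (max D 2)) ∧ max D 2 < d ∧ d ≤ X s ∧ d ∣ m)).card : ℝ) ≤
        ∑ s ∈ range t, (((range M).filter (fun m =>
      ¬ ∃ d, Good (2 ^ (max s 1)) T bd d ∧ d.Coprime (Pw (max D 2)) ∧ max D 2 < d ∧ d ≤ X s ∧
        d ∣ m)).card : ℝ) := by
      exact_mod_cast card_biUnion_le
    refine h3.trans ?_
    have h4 : ∀ s ∈ range t, (((range M).filter (fun m =>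
      ¬ ∃ d, Good (2 ^ (max s 1)) T bd d ∧ d.Coprime (Pw (max D 2)) ∧ max D 2 < d ∧ d ≤ X s ∧
        d ∣ m)).card : ℝ) ≤ ε / (4 * (t + 1)) * M := by
      intro s hs
      refine hX s M ?_
      have := single_le_sum (f := N₀) (fun _ _ => Nat.zero_le _) hs
      omega
    refine (sum_le_sum h4).trans ?_
    rw [sum_const, card_range, nsmul_eq_mul]
    have h5 : (t : ℝ) * (ε / (4 * (t + 1)) * M) = ε / 4 * M * (t / (t + 1)) := by
      field_simp
    rw [h5]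
    have h6 : (t : ℝ) / (t + 1) ≤ 1 := by
      rw [div_le_one (by positivity)]
      linarith
    have h7 : 0 ≤ ε / 4 * M := by positivity
    nlinarith
  have h3 := (card_le_card hsub).trans (card_union_le _ _)
  have h4 : (((range M).filter (fun m => ¬ ∃ q', D < q' ∧
      q' ≤ ∑ s ∈ range t, ∑ d ∈ range (X s + 1), q s d ∧ W m q')).card : ℝ) ≤
      (((range M).filter (fun m => 2 ^ t ∣ m)).card : ℝ) + (((range t).biUnion fun s =>
        (range M).filter (fun m => ¬ ∃ d, Good (2 ^ (max s 1)) T bd d ∧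
          d.Coprime (Pw (max D 2)) ∧ max D 2 < d ∧ d ≤ X s ∧ d ∣ m)).card : ℝ) := by
    exact_mod_cast h3
  have h5 : 0 ≤ ε / 4 * M := by positivity
  linarith


end Pool.Agent.H912.AE
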