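import Pool.Agent.H912.AE.As

/-!
# Windows (helper912)
-/

set_option autoImplicit false

open Finset Filter Topology

namespace Pool.Agent.H912.AE

lemma mertens_lower : ∃ c : ℝ, 0 < c ∧ ∀ X : ℕ, 3 ≤ X → c / Real.log X ≤ Vw X := by
  obtain ⟨C, hC⟩ := Pool.Agent.Helper601.Mertens.mertens_inv
  refine ⟨Real.exp (-C - 4), Real.exp_pos _, fun X hX => ?_⟩
  have hX3 : (3 : ℝ) ≤ X := by exact_mod_cast hX
  have hlog : 0 < Real.log X := Real.log_pos (by linarith)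
  have h1 := (abs_le.1 (hC X hX)).2
  have hS : (Icc 1 X).filter Nat.Prime = Sw X := by
    ext p
    rw [mem_filter, mem_Icc, mem_Sw]
    exact ⟨fun h => ⟨h.1.2, h.2⟩, fun h => ⟨⟨h.2.one_lt.le, h.1⟩, h.2⟩⟩
  rw [hS] at h1
  have h2 : ∀ p ∈ Sw X, Real.exp (-(1 / (p : ℝ)) - 2 * (1 / (p : ℝ) ^ 2)) ≤ 1 - 1 / (p : ℝ) := by
    intro p hp
    have hp2 : (2 : ℝ) ≤ p := by exact_mod_cast (mem_Sw.1 hp).2.two_le
    have hp0 : (0 : ℝ) < p := by linarith
    have h3 : 0 < 1 - 1 / (p : ℝ) := by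
      rw [sub_pos, div_lt_one hp0]
      linarith
    rw [← Real.le_log_iff_exp_le h3]
    refine le_trans ?_ (Real.one_sub_inv_le_log_of_pos h3)
    have h4 : (1 - 1 / (p : ℝ))⁻¹ = 1 + 1 / ((p : ℝ) - 1) := by
      have : (p : ℝ) - 1 ≠ 0 := by linarith
      field_simp
      ring
    rw [h4]
    have h5 : 1 / ((p : ℝ) - 1) ≤ 1 / (p : ℝ) + 2 * (1 / (p : ℝ) ^ 2) := by
      rw [div_add' _ _ _ hp0.ne', div_le_div_iff₀ (by linarith) hp0]
      field_simp
      nlinarith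
    linarith
  have h3 : ∏ p ∈ Sw X, Real.exp (-(1 / (p : ℝ)) - 2 * (1 / (p : ℝ) ^ 2)) ≤ Vw X :=
    prod_le_prod (fun p _ => (Real.exp_pos _).le) h2
  refine le_trans ?_ h3
  rw [← Real.exp_sum, div_le_iff₀ hlog]
  have h5 : Real.log X = Real.exp (Real.log (Real.log X)) := (Real.exp_log hlog).symm
  rw [h5, ← Real.exp_add]
  apply Real.exp_le_exp.2
  rw [sum_sub_distrib, sum_neg_distrib, ← mul_sum]
  have h4 : ∑ p ∈ Sw X, 1 / (p : ℝ) ^ 2 ≤ 2 := by
    refine le_trans ?_ (sum_inv_sq X)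
    refine sum_le_sum_of_subset_of_nonneg ?_ fun _ _ _ => by positivity
    rw [← hS]
    exact filter_subset _ _
  linarith

/-- the product of the primes in `(w, X]` -/
def Rw (w X : ℕ) : ℕ := ∏ p ∈ (Sw X).filter (fun p => w < p), p

lemma Rw_pos (w X : ℕ) : 0 < Rw w X :=
  prod_pos fun p hp => (mem_Sw.1 (mem_filter.1 hp).1).2.pos

lemma primeFactors_Rw (w X : ℕ) : (Rw w X).primeFactors = (Sw X).filter (fun p => w < p) :=
  Nat.primeFactors_prod fun _ hp => (mem_Sw.1 (mem_filter.1 hp).1).2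

lemma totient_Rw (w X : ℕ) : (Nat.totient (Rw w X) : ℝ) =
    Rw w X * ∏ p ∈ (Sw X).filter (fun p => w < p), (1 - 1 / (p : ℝ)) := by
  have := Nat.totient_eq_mul_prod_factors (Rw w X)
  rw [primeFactors_Rw] at this
  have h2 : ((Nat.totient (Rw w X) : ℚ) : ℝ) =
      ((Rw w X * ∏ p ∈ (Sw X).filter (fun p => w < p), (1 - (p : ℚ)⁻¹) : ℚ) : ℝ) := by
    rw [this]
  push_cast at h2
  rw [h2]
  simp only [one_div]

lemma Vw_split {w X : ℕ} (h : w ≤ X) :
    Vw X = Vw w * ∏ p ∈ (Sw X).filter (fun p => w < p), (1 - 1 / (p : ℝ)) := by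
  unfold Vw
  rw [← prod_filter_mul_prod_filter_not (Sw X) (fun p => w < p), mul_comm]
  congr 1
  apply prod_congr _ fun _ _ => rfl
  ext p
  rw [mem_filter, mem_Sw, mem_Sw]
  constructor
  · rintro ⟨⟨_, h2⟩, h3⟩
    exact ⟨by omega, h2⟩
  · rintro ⟨h1, h2⟩
    exact ⟨⟨by omega, h2⟩, by omega⟩

open Classical in
/-- the members `d` of `G` with `w < d ≤ X` and prime to the primes up to `w` -/
noncomputable def Gw (G : ℕ → Prop) (w X : ℕ) : Finset ℕ :=
  (Ioc w X).filter (fun d => d.Coprime (Pw w) ∧ G d)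

lemma gt_of_coprime {w d : ℕ} (h1 : d.Coprime (Pw w)) (h2 : 2 ≤ d) : w < d := by
  by_contra h
  have hp := Nat.minFac_prime (n := d) (by omega)
  have h3 : d.minFac ∣ Pw w := (dvd_Pw hp).2 ((Nat.minFac_le (by omega)).trans (by omega))
  have h4 : d.minFac ∣ 1 := by
    rw [← Nat.coprime_iff_gcd_eq_one.1 h1]
    exact Nat.dvd_gcd (Nat.minFac_dvd d) h3
  exact hp.one_lt.ne' (Nat.dvd_one.1 h4)

theorem window (u T : ℕ) (hu : 2 ∣ u) (hu0 : 0 < u) (hT : 2 ≤ T) (A : ℕ) (Cb : ℝ) (hCb : 0 ≤ Cb)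
    (bad : ℕ → Finset ℕ) (hbad : ∀ k, 1 ≤ k → ((bad k).card : ℝ) ≤ Cb * (k : ℝ) ^ A) :
    ∃ c : ℝ, 0 < c ∧ ∀ w : ℕ, ∃ X : ℕ, w < X ∧
      c * Rw w X ≤ (∑ d ∈ Gw (Good u T bad) w X, 1 / (d : ℝ)) * Nat.totient (Rw w X) := by
  classical
  obtain ⟨c, hc, hAS⟩ := AS u T hu hu0 hT A Cb hCb bad hbad
  obtain ⟨cM, hcM, hMer⟩ := mertens_lower
  refine ⟨c * cM / 2, by positivity, fun w => ?_⟩
  obtain ⟨Y₀, hY₀⟩ := hAS w
  have hV := Vw_pos w
  set Z := max Y₀ (max 2 w) with hZ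
  have hZ0 : Y₀ ≤ Z := le_max_left _ _
  have hZ2 : 2 ≤ Z := (le_max_left _ _).trans (le_max_right _ _)
  have hZw : w ≤ Z := (le_max_right _ _).trans (le_max_right _ _)
  have hZr : (2 : ℝ) ≤ Z := by exact_mod_cast hZ2
  obtain ⟨t, ht⟩ := exists_nat_ge (max 1 (Real.log Z / (3 / 10)))
  have ht1 : (1 : ℝ) ≤ t := (le_max_left _ _).trans ht
  have ht2 : Real.log Z / (3 / 10) ≤ t := (le_max_right _ _).trans ht
  have ht1' : 1 ≤ t := by exact_mod_cast ht1
  set X := 2 ^ t * Z with hX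
  have hXZ : 2 * Z ≤ X := by
    have : 2 ^ 1 ≤ 2 ^ t := Nat.pow_le_pow_right (by norm_num) ht1'
    rw [hX]
    nlinarith
  have hX3 : 3 ≤ X := by omega
  have hlogX0 : 0 < Real.log X := Real.log_pos (by
    have : (3 : ℝ) ≤ X := by exact_mod_cast hX3
    linarith)
  have hlogX : Real.log X ≤ t := by
    rw [hX]
    push_cast
    rw [Real.log_mul (by positivity) (by positivity), Real.log_pow]
    have h1 := Real.log_two_lt_d9
    have h2 : Real.log Z ≤ 3 / 10 * t := by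
      rw [div_le_iff₀ (by norm_num)] at ht2
      linarith
    nlinarith
  refine ⟨X, by omega, ?_⟩
  -- the dyadic sum
  have hdy : ∀ i : ℕ, c * Vw w / 2 ≤ ∑ d ∈ Gg u T bad w (2 ^ i * Z), 1 / (d : ℝ) := by
    intro i
    have h1 : Z ≤ 2 ^ i * Z := Nat.le_mul_of_pos_left Z (by positivity)
    have h2 := hY₀ (2 ^ i * Z) (hZ0.trans h1)
    have hpos : (0 : ℝ) < ((2 ^ i * Z : ℕ) : ℝ) := by
      have : 0 < 2 ^ i * Z := by positivity
      exact_mod_cast this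
    have h3 : ∀ d ∈ Gg u T bad w (2 ^ i * Z), 1 / (2 * ((2 ^ i * Z : ℕ) : ℝ)) ≤ 1 / (d : ℝ) := by
      intro d hd
      rw [Gg, mem_filter, mem_Ioc] at hd
      have h4 : (0 : ℝ) < d := by
        have : 0 < d := by omega
        exact_mod_cast this
      apply one_div_le_one_div_of_le h4
      exact_mod_cast hd.1.2
    have h4 := sum_le_sum h3
    rw [sum_const, nsmul_eq_mul] at h4
    refine le_trans ?_ h4
    rw [mul_one_div, le_div_iff₀ (by positivity)]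
    calc c * Vw w / 2 * (2 * ((2 ^ i * Z : ℕ) : ℝ)) = c * Vw w * ((2 ^ i * Z : ℕ) : ℝ) := by ring
      _ ≤ _ := h2
  have hsum : t * (c * Vw w / 2) ≤ ∑ d ∈ Gw (Good u T bad) w X, 1 / (d : ℝ) := by
    have h1 : ∑ i ∈ range t, ∑ d ∈ Gg u T bad w (2 ^ i * Z), 1 / (d : ℝ) =
        ∑ d ∈ (range t).biUnion (fun i => Gg u T bad w (2 ^ i * Z)), 1 / (d : ℝ) := by
      rw [sum_biUnion]
      intro i _ j _ hij
      rw [Function.onFun, disjoint_left]
      intro d hd hd'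
      rw [Gg, mem_filter, mem_Ioc] at hd hd'
      have key : ∀ i j : ℕ, i < j → 2 * (2 ^ i * Z) ≤ 2 ^ j * Z := by
        intro i j h
        have : 2 ^ (i + 1) ≤ 2 ^ j := Nat.pow_le_pow_right (by norm_num) h
        rw [pow_succ] at this
        nlinarith
      rcases lt_or_gt_of_ne hij with h | h
      · have := key i j h
        omega
      · have := key j i h
        omega
    have h2 : t * (c * Vw w / 2) ≤ ∑ i ∈ range t, ∑ d ∈ Gg u T bad w (2 ^ i * Z), 1 / (d : ℝ) := by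
      have := sum_le_sum (s := range t) fun i _ => hdy i
      rw [sum_const, card_range, nsmul_eq_mul] at this
      exact this
    rw [h1] at h2
    refine h2.trans (sum_le_sum_of_subset_of_nonneg ?_ fun _ _ _ => by positivity)
    intro d hd
    rw [mem_biUnion] at hd
    obtain ⟨i, hi, hd⟩ := hd
    rw [mem_range] at hi
    rw [Gg, mem_filter, mem_Ioc] at hd
    rw [Gw, mem_filter, mem_Ioc]
    have h3 : Z ≤ 2 ^ i * Z := Nat.le_mul_of_pos_left Z (by positivity)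
    have h4 : 2 ^ (i + 1) ≤ 2 ^ t := Nat.pow_le_pow_right (by norm_num) hi
    rw [pow_succ] at h4
    refine ⟨⟨gt_of_coprime hd.2.1 (by omega), ?_⟩, hd.2⟩
    refine hd.1.2.trans ?_
    rw [hX]
    nlinarith
  have hprod := Vw_split (w := w) (X := X) (by omega)
  have hM := hMer X hX3
  rw [totient_Rw]
  have hR : (0 : ℝ) < Rw w X := by exact_mod_cast Rw_pos w X
  set Q₁ := ∏ p ∈ (Sw X).filter (fun p => w < p), (1 - 1 / (p : ℝ)) with hQ1
  have hQ0 : 0 ≤ Q₁ := by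
    have h1 := Vw_pos X
    rw [hprod] at h1
    exact (pos_of_mul_pos_right h1 hV.le).le
  have h1 : cM / t ≤ Vw w * Q₁ := by
    rw [← hprod]
    refine le_trans ?_ hM
    gcongr
  have h2 : c * cM / 2 ≤ (t * (c * Vw w / 2)) * Q₁ := by
    rw [div_le_iff₀ (by linarith)] at h1
    calc c * cM / 2 ≤ c * (Vw w * Q₁ * t) / 2 := by gcongr
      _ = _ := by ring
  calc c * cM / 2 * Rw w X ≤ (t * (c * Vw w / 2)) * Q₁ * Rw w X := by gcongr
    _ ≤ (∑ d ∈ Gw (Good u T bad) w X, 1 / (d : ℝ)) * Q₁ * Rw w X := by gcongr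
    _ = _ := by ring

end Pool.Agent.H912.AE
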