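import Pool.Agent.H912.AE.CycW

/-!
# Witness primes on the level of residue fields (helper912)
-/

set_option autoImplicit false

open Finset Filter Topology

namespace Pool.Agent.H912.AE

variable {N : ℕ}

theorem local_KZ {w : ℕ} [NeZero w] {K : Type} [Field K] [CharZero K]
    [IsCyclotomicExtension {w} ℚ K] {ζ : K} (hζ : IsPrimitiveRoot ζ w)
    (S : Set (MvPolynomial (Fin N) K))
    (S' : Finset (MvPolynomial (Fin (N + 1)) ℤ))
    (hS' : ∀ (R : Type) [CommRing R] [IsDomain R] [CharZero R] (φ : K →+* R) (z : Fin N → R),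
        (∀ G ∈ S', MvPolynomial.aeval (Fin.cons (φ ζ) z : Fin (N + 1) → R) G = 0) ↔
          ∀ F ∈ S, MvPolynomial.eval₂ φ z F = 0)
    {q k d m T : ℕ} [hq : Fact q.Prime] (hqe : q = w * k * d + 1) (hqb : q ∉ bad S' (w * k))
    (hk : Squarefree k) (hkT : k ≡ 1 [MOD Pw T]) (hT : w ≤ T)
    (hST : ∀ F ∈ S', F.support.card ≤ T) (hd : d ∣ m) (hdw : d.Coprime w) (hm0 : m ≠ 0)
    (z : ZMod q) (hz : IsPrimitiveRoot z w) (x : Fin N → ZMod q)
    (hx : ∀ G ∈ S', MvPolynomial.aeval (Fin.cons z (fun i => x i ^ m) : Fin (N + 1) → ZMod q) G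
      = 0) :
    ∃ η : Fin N → K, (∀ i, η i = 0 ∨ η i ^ w = 1) ∧ (∀ i, η i ≠ 0 ↔ x i ≠ 0) ∧
      ∀ F ∈ S, MvPolynomial.eval (fun i => η i ^ m) F = 0 := by
  classical
  have hw : 0 < w := Nat.pos_of_ne_zero (NeZero.ne w)
  have hk0 : 0 < k := Nat.pos_of_ne_zero hk.ne_zero
  have hwk0 : 0 < w * k := Nat.mul_pos hw hk0
  have hd0 : 0 < d := Nat.pos_of_ne_zero (by
    rintro rfl
    exact hm0 (Nat.eq_zero_of_zero_dvd hd))
  have hwk : w.Coprime k := by
    refine Nat.coprime_of_dvd fun p hp hpw hpk => ?_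
    have h1 := lt_of_dvd_k hkT hp hpk
    have h2 := Nat.le_of_dvd hw hpw
    omega
  let y : Fin (N + 1) → ZMod q := Fin.cons z fun i => x i ^ m
  have h3 : ∀ G ∈ S', MvPolynomial.aeval y G = 0 := hx
  have hy0 : y 0 = z := rfl
  have hys : ∀ i : Fin N, y i.succ = x i ^ m := fun i => rfl
  have hy0w : y 0 ^ w = 1 := by rw [hy0, hz.pow_eq_one]
  obtain ⟨t, ht⟩ := (hdw.coprime_dvd_right (Nat.gcd_dvd_left w m)).mul_dvd_of_dvd_of_dvd hd
    (Nat.gcd_dvd_right w m)
  obtain ⟨w', hw'⟩ := Nat.gcd_dvd_left w m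
  set g0 := Nat.gcd w m with hg0
  have hw'0 : 0 < w' := Nat.pos_of_ne_zero (by
    rintro rfl
    rw [mul_zero] at hw'
    exact hw.ne' hw')
  have hq1 : q - 1 = w * k * d := by rw [hqe]; simp
  have hyw : ∀ i : Fin N, y i.succ ≠ 0 → y i.succ ^ (w' * k) = 1 := by
    intro i hi
    rw [hys] at hi ⊢
    have ha : x i ≠ 0 := by
      intro h
      rw [h, zero_pow hm0] at hi
      exact hi rfl
    have h4 := ZMod.pow_card_sub_one_eq_one ha
    rw [← pow_mul]
    have h5 : m * (w' * k) = (q - 1) * t := by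
      rw [hq1]
      calc m * (w' * k) = d * g0 * t * (w' * k) := by rw [← ht]
        _ = (g0 * w') * k * d * t := by ring
        _ = w * k * d * t := by rw [← hw']
    rw [h5, pow_mul, h4, one_pow]
  have hy1 : ∀ i, y i = 0 ∨ y i ^ (w * k) = 1 := by
    intro i
    refine Fin.cases ?_ (fun j => ?_) i
    · right
      rw [pow_mul, hy0w, one_pow]
    · by_cases hj : y j.succ = 0
      · exact Or.inl hj
      · right
        have h5 : w * k = w' * k * g0 := by
          calc w * k = (g0 * w') * k := by rw [← hw']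
            _ = w' * k * g0 := by ring
        rw [h5, pow_mul, hyw j hj, one_pow]
  obtain ⟨g, e, hg, he, hθ⟩ := local_zmod2 S' hw hqe hqb hk hkT hT hST y hy1 h3
  have hy00 : y 0 ≠ 0 := by
    intro h
    rw [h, zero_pow hw.ne'] at hy0w
    exact zero_ne_one hy0w
  have hy0e : y 0 = g ^ e 0 := he 0 hy00
  have hord : ∀ l, y 0 ^ l = 1 → w ∣ l := fun l hl => hz.dvd_of_pow_eq_one l hl
  have he0 : (e 0).Coprime w := by
    have h4 : w * k ∣ e 0 * w := by
      apply hg.dvd_of_pow_eq_one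
      rw [pow_mul, ← hy0e, hy0w]
    have h5 : k ∣ e 0 := by
      rw [mul_comm (e 0) w] at h4
      exact Nat.dvd_of_mul_dvd_mul_left hw h4
    refine Nat.coprime_of_dvd fun p hp hpe hpw => ?_
    have hpk : p.Coprime k := hwk.coprime_dvd_left hpw
    have h6 : p * k ∣ e 0 := hpk.mul_dvd_of_dvd_of_dvd hpe h5
    obtain ⟨w₁, hw₁⟩ := hpw
    have hw₁0 : 0 < w₁ := Nat.pos_of_ne_zero (by
      rintro rfl
      rw [mul_zero] at hw₁
      exact hw.ne' hw₁)
    have h7 : y 0 ^ w₁ = 1 := by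
      rw [hy0e, ← pow_mul]
      rw [hg.pow_eq_one_iff_dvd]
      have h8 : w * k = p * k * w₁ := by rw [hw₁]; ring
      rw [h8]
      exact Nat.mul_dvd_mul_right h6 w₁
    have h8 := Nat.le_of_dvd hw₁0 (hord _ h7)
    have h9 := hp.two_le
    nlinarith
  -- the point over the complex numbers
  have hθ' : IsPrimitiveRoot (Complex.exp (2 * Real.pi * Complex.I / w)) w :=
    Complex.isPrimitiveRoot_exp w hw.ne'
  set θ := Complex.exp (2 * Real.pi * Complex.I / w)
  have hθe : IsPrimitiveRoot (θ ^ e 0) w := hθ'.pow_of_coprime (e 0) he0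
  obtain ⟨σ, hσ⟩ := exists_hom hζ hθe
  have h4 : ∀ F ∈ S, MvPolynomial.eval₂ σ
      (fun i : Fin N => if y i.succ = 0 then 0 else θ ^ (e i.succ)) F = 0 := by
    rw [← hS' ℂ σ]
    intro G hG
    have h5 := hθ θ hθ' G hG
    have h6 : (fun i => if y i = 0 then (0 : ℂ) else θ ^ (e i)) =
        (Fin.cons (σ ζ) (fun i : Fin N => if y i.succ = 0 then 0 else θ ^ (e i.succ)) :
          Fin (N + 1) → ℂ) := by
      funext i
      refine Fin.cases ?_ (fun j => ?_) i
      · simp only [Fin.cons_zero, if_neg hy00, hσ]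
      · simp only [Fin.cons_succ]
    rw [h6] at h5
    exact h5
  obtain ⟨c', -, hc'⟩ := hθe.eq_pow_of_pow_eq_one hθ'.pow_eq_one
  have hb : ∀ i : Fin N, ∃ b : ℕ, y i.succ ≠ 0 → m * b ≡ e i.succ [MOD w] := by
    intro i
    by_cases hi : y i.succ = 0
    · exact ⟨0, fun h => absurd hi h⟩
    · have h5 : g0 ∣ e i.succ := by
        have h6 := hyw i hi
        rw [he _ hi, ← pow_mul, hg.pow_eq_one_iff_dvd] at h6
        have h7 : w * k = g0 * (w' * k) := by
          calc w * k = (g0 * w') * k := by rw [← hw']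
            _ = g0 * (w' * k) := by ring
        rw [h7] at h6
        exact Nat.dvd_of_mul_dvd_mul_right (Nat.mul_pos hw'0 hk0) h6
      obtain ⟨b, hb⟩ := exists_mul_modEq hw (by rw [Nat.gcd_comm, ← hg0]; exact h5 :
        Nat.gcd m w ∣ e i.succ)
      exact ⟨b, fun _ => hb⟩
  choose b hb using hb
  have hz1 : ∀ i, y i.succ ≠ 0 ↔ x i ≠ 0 := by
    intro i
    rw [hys]
    exact (pow_ne_zero_iff hm0)
  refine ⟨fun i => if y i.succ = 0 then 0 else ζ ^ (c' * b i), fun i => ?_, fun i => ?_,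
    fun F hF => ?_⟩
  · by_cases hi : y i.succ = 0
    · exact Or.inl (if_pos hi)
    · right
      simp only [if_neg hi]
      rw [← pow_mul, mul_comm, pow_mul, hζ.pow_eq_one, one_pow]
  · rw [← hz1]
    by_cases hi : y i.succ = 0
    · simp [hi]
    · simp only [if_neg hi]
      refine ⟨fun _ => hi, fun _ => ?_⟩
      exact pow_ne_zero _ (hζ.ne_zero hw.ne')
  · apply σ.injective
    rw [map_zero, MvPolynomial.eval, MvPolynomial.coe_eval₂Hom, MvPolynomial.hom_eval₂]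
    rw [RingHom.comp_id]
    rw [← h4 F hF]
    congr 1
    funext i
    by_cases hi : y i.succ = 0
    · simp only [if_pos hi, zero_pow hm0, map_zero]
    · simp only [if_neg hi]
      rw [map_pow, map_pow, hσ, ← pow_mul, mul_assoc, pow_mul, hc']
      have h5 : b i * m ≡ e i.succ [MOD w] := by
        rw [mul_comm]
        exact hb i hi
      exact pow_eq_pow_of_modEq h5 hθ'.pow_eq_one

/-- `q` is a witness prime for `m`, on the level of the residue field -/
def WitZ (w : ℕ) {K : Type} [Field K] (S' : Finset (MvPolynomial (Fin (N + 1)) ℤ))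
    (S : Set (MvPolynomial (Fin N) K)) (m q : ℕ) : Prop :=
  ∃ _ : Fact q.Prime, w ∣ q - 1 ∧ ∀ (z : ZMod q), IsPrimitiveRoot z w → ∀ x : Fin N → ZMod q,
    (∀ G ∈ S', MvPolynomial.aeval (Fin.cons z (fun i => x i ^ m) : Fin (N + 1) → ZMod q) G = 0) →
    ∃ η : Fin N → K, (∀ i, η i = 0 ∨ η i ^ w = 1) ∧ (∀ i, η i ≠ 0 ↔ x i ≠ 0) ∧
      ∀ F ∈ S, MvPolynomial.eval (fun i => η i ^ m) F = 0

open Classical in
theorem witnessesZ {w : ℕ} [NeZero w] (hw2 : 2 ∣ w) {K : Type} [Field K] [CharZero K]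
    [IsCyclotomicExtension {w} ℚ K] {ζ : K} (hζ : IsPrimitiveRoot ζ w)
    (S : Set (MvPolynomial (Fin N) K)) (S' : Finset (MvPolynomial (Fin (N + 1)) ℤ))
    (hS' : ∀ (R : Type) [CommRing R] [IsDomain R] [CharZero R] (φ : K →+* R) (z : Fin N → R),
        (∀ G ∈ S', MvPolynomial.aeval (Fin.cons (φ ζ) z : Fin (N + 1) → R) G = 0) ↔
          ∀ F ∈ S, MvPolynomial.eval₂ φ z F = 0)
    (r D : ℕ) {ε : ℝ} (hε : 0 < ε) : ∃ N₀ : ℕ, ∀ M : ℕ, N₀ ≤ M →
      (((range M).filter (fun m => ¬ ∃ Q : Finset ℕ, Q.card = r ∧ ∀ q ∈ Q, D < q ∧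
        WitZ w S' S m q)).card : ℝ) ≤ ε * M := by
  have hw : 0 < w := Nat.pos_of_ne_zero (NeZero.ne w)
  obtain ⟨T, hT, hwT, hST⟩ : ∃ T : ℕ, 2 ≤ T ∧ w ≤ T ∧ ∀ F ∈ S', F.support.card ≤ T :=
    ⟨2 + w + ∑ F ∈ S', F.support.card, by omega, by omega, fun F hF => by
      have := single_le_sum (f := fun F : MvPolynomial (Fin (N + 1)) ℤ => F.support.card)
        (fun _ _ => Nat.zero_le _) hF
      omega⟩
  obtain ⟨c, hc, hW⟩ := window w T hw2 hw hT (N + 1 + 1)
    ((3 ^ (N + 1) * ∑ F ∈ S', (Lh F : ℝ)) * (w : ℝ) ^ (N + 1 + 1)) (by positivity)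
    (fun k => bad S' (w * k)) (by
      intro k hk
      have h1 := card_bad S' (k := w * k) (Nat.mul_pos hw hk)
      refine h1.trans (le_of_eq ?_)
      push_cast
      rw [mul_pow]
      ring)
  refine many _ (fun D ε hε => ?_) r D hε
  refine witnessU hw _ hc hW _ (fun d hd hd0 hdw => ?_) D hε
  obtain ⟨k, hk, hkT, hq, hqb⟩ := hd
  have : Fact (w * k * d + 1).Prime := ⟨hq⟩
  refine ⟨w * k * d + 1, ?_, fun m hm0 hdm => ?_⟩
  · have hk0 : 0 < k := Nat.pos_of_ne_zero hk.ne_zero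
    have h1 : 1 * d ≤ w * k * d := Nat.mul_le_mul_right d (Nat.mul_pos hw hk0)
    omega
  · refine ⟨this, ⟨k * d, by rw [Nat.add_sub_cancel]; ring⟩, fun z hz x hx => ?_⟩
    exact local_KZ hζ S S' hS' rfl hqb hk hkT hwT hST hdm hdw hm0 z hz x hx

end Pool.Agent.H912.AE
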